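import Pool.Agent.Lib.FibC.Defs

/-!
# Nrm: the norms `sn`, `nu`, `gg`, the inversion

PROOF. Elementary. `nu`: convex combination of `‖t‖` and `4 sn t`; `‖t‖ ≤ 2 sn t`. `lam` is constant outside
`3 ε / 4 < sn v < ε`. `gg1 (r z) = r gg1 z` for `r ≥ 0`; `gg1 z = 0` forces `z.re = 0`, then `z.im = 0`; if `z.re < 0` then
`2 |z.re| > 0`. `inv`: `inv e - 1 = (e - 1) / gg e ^ 2`, so `gg (inv e) = gg e / gg e ^ 2`; `inv (inv e) = e` follows.
-/

set_option autoImplicit false

namespace Pool.Agent.FibC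

open Complex ComplexConjugate Set

noncomputable section

theorem sn_nonneg (z : ℂ) : 0 ≤ sn z := le_max_of_le_left (abs_nonneg _)

theorem sn_eq_zero {z : ℂ} : sn z = 0 ↔ z = 0 := by
  constructor
  · intro h
    unfold sn at h
    have h1 : |z.re| ≤ 0 := h ▸ le_max_left _ _
    have h2 : |z.im| ≤ 0 := h ▸ le_max_right _ _
    apply Complex.ext
    · simpa using abs_nonpos_iff.1 h1
    · simpa using abs_nonpos_iff.1 h2
  · rintro rfl
    simp [sn]

theorem sn_pos {z : ℂ} (h : z ≠ 0) : 0 < sn z :=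
  lt_of_le_of_ne (sn_nonneg z) fun h' => h (sn_eq_zero.1 h'.symm)

theorem sn_mul {r : ℝ} (hr : 0 ≤ r) (z : ℂ) : sn ((r : ℂ) * z) = r * sn z := by
  unfold sn
  rw [Complex.re_ofReal_mul, Complex.im_ofReal_mul, abs_mul, abs_mul, abs_of_nonneg hr,
    mul_max_of_nonneg _ _ hr]

theorem sn_le (z : ℂ) : sn z ≤ ‖z‖ := max_le (Complex.abs_re_le_norm z) (Complex.abs_im_le_norm z)

theorem le_sn (z : ℂ) : ‖z‖ ≤ 2 * sn z := by
  have h1 := Complex.norm_le_abs_re_add_abs_im z
  have h2 : |z.re| ≤ sn z := le_max_left _ _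
  have h3 : |z.im| ≤ sn z := le_max_right _ _
  linarith

theorem sn_cont : Continuous sn := Complex.continuous_re.abs.max Complex.continuous_im.abs

theorem lam_nonneg (ε : ℝ) (v : ℂ) : 0 ≤ lam ε v := le_max_left _ _

theorem lam_le (ε : ℝ) (v : ℂ) : lam ε v ≤ 1 := max_le zero_le_one (min_le_left _ _)

theorem nu_cont {ε : ℝ} (hε : 0 < ε) : Continuous (fun p : ℂ × ℂ => nu ε p.1 p.2) := by
  have h1 : Continuous (fun p : ℂ × ℂ => lam ε p.1) := by
    unfold lam
    have h2 : Continuous (fun p : ℂ × ℂ => (4 * sn p.1 - 3 * ε) / ε) :=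
      ((continuous_const.mul (sn_cont.comp continuous_fst)).sub continuous_const).div_const _
    exact continuous_const.max (continuous_const.min h2)
  unfold nu
  exact (h1.mul continuous_snd.norm).add ((continuous_const.sub h1).mul
    (continuous_const.mul (sn_cont.comp continuous_snd)))

theorem nu_mul (ε : ℝ) (v : ℂ) {r : ℝ} (hr : 0 ≤ r) (t : ℂ) : nu ε v ((r : ℂ) * t) = r * nu ε v t := by
  unfold nu
  rw [sn_mul hr, norm_mul, Complex.norm_real, Real.norm_of_nonneg hr]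
  ring

theorem nu_ge (ε : ℝ) (v t : ℂ) : ‖t‖ ≤ nu ε v t := by
  unfold nu
  have h1 := le_sn t
  have h2 := sn_nonneg t
  have h3 := lam_le ε v
  nlinarith

theorem nu_pos (ε : ℝ) (v : ℂ) {t : ℂ} (h : t ≠ 0) : 0 < nu ε v t :=
  lt_of_lt_of_le (norm_pos_iff.2 h) (nu_ge ε v t)

theorem nu_out {ε : ℝ} (hε : 0 < ε) {v : ℂ} (hv : ε ≤ sn v) (t : ℂ) : nu ε v t = ‖t‖ := by
  have h1 : lam ε v = 1 := by
    unfold lam
    have h2 : 1 ≤ (4 * sn v - 3 * ε) / ε := by
      rw [le_div_iff₀ hε]; linarith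
    rw [min_eq_left h2]
    exact max_eq_right zero_le_one
  unfold nu
  rw [h1]
  ring

theorem nu_in {ε : ℝ} (hε : 0 < ε) {v : ℂ} (hv : 4 * sn v ≤ 3 * ε) (t : ℂ) :
    nu ε v t = 4 * sn t := by
  have h1 : lam ε v = 0 := by
    unfold lam
    have h2 : (4 * sn v - 3 * ε) / ε ≤ 0 := div_nonpos_of_nonpos_of_nonneg (by linarith) hε.le
    exact max_eq_left (le_trans (min_le_right _ _) h2)
  unfold nu
  rw [h1]
  ring

theorem gg1_mul {r : ℝ} (hr : 0 ≤ r) (z : ℂ) : gg1 ((r : ℂ) * z) = r * gg1 z := by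
  unfold gg1
  rw [Complex.re_ofReal_mul, Complex.im_ofReal_mul, abs_mul, abs_mul, abs_of_nonneg hr,
    mul_max_of_nonneg _ _ hr]
  congr 1 <;> ring

theorem gg1_nonneg (z : ℂ) : 0 ≤ gg1 z := le_max_of_le_left (by positivity)

theorem gg1_pos {z : ℂ} (h : z ≠ 0) : 0 < gg1 z := by
  unfold gg1
  by_cases h1 : z.re = 0
  · have h2 : z.im ≠ 0 := fun h2 => h (Complex.ext h1 h2)
    refine lt_max_of_lt_right ?_
    rw [h1, sub_zero]
    have := abs_pos.2 h2
    linarith
  · refine lt_max_of_lt_left ?_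
    have := abs_pos.2 h1
    linarith

theorem gg1_cont : Continuous gg1 :=
  (continuous_const.mul Complex.continuous_re.abs).max
    ((continuous_const.mul Complex.continuous_im.abs).sub Complex.continuous_re)

theorem gg_cont : Continuous gg :=
  (gg1_cont.comp (continuous_fst.sub continuous_const)).max
    (gg1_cont.comp (continuous_snd.sub continuous_const))

theorem gg_nonneg (e : ℂ × ℂ) : 0 ≤ gg e := le_max_of_le_left (gg1_nonneg _)

theorem gg_pos {e : ℂ × ℂ} (h : e ≠ 1) : 0 < gg e := by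
  unfold gg
  by_cases h1 : e.1 = 1
  · have h2 : e.2 ≠ 1 := fun h2 => h (Prod.ext h1 h2)
    exact lt_max_of_lt_right (gg1_pos (sub_ne_zero.2 h2))
  · exact lt_max_of_lt_left (gg1_pos (sub_ne_zero.2 h1))

private theorem gg_one : gg (1 : ℂ × ℂ) = 0 := by
  simp [gg, gg1]

private theorem inv_fst (e : ℂ × ℂ) :
    (inv e).1 - 1 = (((gg e ^ 2)⁻¹ : ℝ) : ℂ) * (e.1 - 1) := by
  unfold inv
  push_cast
  ring

private theorem inv_snd (e : ℂ × ℂ) :
    (inv e).2 - 1 = (((gg e ^ 2)⁻¹ : ℝ) : ℂ) * (e.2 - 1) := by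
  unfold inv
  push_cast
  ring

theorem gg_inv (e : ℂ × ℂ) : gg (inv e) = (gg e)⁻¹ := by
  have h0 : 0 ≤ (gg e ^ 2)⁻¹ := by positivity
  have h1 : gg (inv e) = (gg e ^ 2)⁻¹ * gg e := by
    conv_lhs => unfold gg
    rw [inv_fst, inv_snd, gg1_mul h0, gg1_mul h0, ← mul_max_of_nonneg _ _ h0]
    rfl
  rw [h1]
  by_cases h : gg e = 0
  · rw [h]; simp
  · field_simp

theorem inv_ne {e : ℂ × ℂ} (h : e ≠ 1) : inv e ≠ 1 := by
  intro h1
  have h2 := gg_inv e
  rw [h1, gg_one] at h2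
  have h3 := inv_pos.2 (gg_pos h)
  linarith

theorem inv_inv (e : ℂ × ℂ) : inv (inv e) = e := by
  by_cases h : e = 1
  · subst h
    have h1 : inv 1 = 1 := by
      unfold inv
      rw [gg_one]
      simp
    rw [h1, h1]
  · have hg : (gg e : ℂ) ≠ 0 := by
      rw [Ne, Complex.ofReal_eq_zero]; exact (gg_pos h).ne'
    have h1 := inv_fst (inv e)
    have h2 := inv_snd (inv e)
    rw [inv_fst e, gg_inv] at h1
    rw [inv_snd e, gg_inv] at h2
    apply Prod.ext
    · have h3 : ((((gg e)⁻¹ ^ 2)⁻¹ : ℝ) : ℂ) * ((((gg e ^ 2)⁻¹ : ℝ) : ℂ) * (e.1 - 1)) = e.1 - 1 := by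
        push_cast
        field_simp
      rw [h3] at h1
      linear_combination h1
    · have h3 : ((((gg e)⁻¹ ^ 2)⁻¹ : ℝ) : ℂ) * ((((gg e ^ 2)⁻¹ : ℝ) : ℂ) * (e.2 - 1)) = e.2 - 1 := by
        push_cast
        field_simp
      rw [h3] at h2
      linear_combination h2

theorem inv_one {e : ℂ × ℂ} (h : gg e = 1) : inv e = e := by
  unfold inv
  rw [h]
  apply Prod.ext <;> simp

theorem inv_cont {e : ℂ × ℂ} (h : e ≠ 1) : ContinuousAt inv e := by
  have h0 : ((gg e ^ 2 : ℝ) : ℂ) ≠ 0 := by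
    rw [Ne, Complex.ofReal_eq_zero]
    exact pow_ne_zero _ (gg_pos h).ne'
  have h1 : Continuous fun e : ℂ × ℂ => ((gg e ^ 2 : ℝ) : ℂ) :=
    Complex.continuous_ofReal.comp (gg_cont.pow 2)
  unfold inv
  refine ContinuousAt.prodMk ?_ ?_
  · exact continuousAt_const.add
      ((continuous_fst.sub continuous_const).continuousAt.div h1.continuousAt h0)
  · exact continuousAt_const.add
      ((continuous_snd.sub continuous_const).continuousAt.div h1.continuousAt h0)

theorem tor_cont : Continuous tor :=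
  ((sn_cont.comp continuous_fst).sub continuous_const).abs.max
    ((sn_cont.comp continuous_snd).sub continuous_const).abs

end

end Pool.Agent.FibC
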