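import Pool.Agent.Lib.FibC.PPa

/-!
# PPc: the two charts of the sphere, compactness

PROOF. `chart0`: `e p = p.1.1 / (1 - p.1.2)`, `e.symm z = PP z 1`: by `PP_coe` the value of `PP z 1` is
`(2 z / (normSq z + 1), (normSq z - 1) / (normSq z + 1))`, `1 - (second) = 2 / (normSq z + 1)`. `p ≠ PP 1 0` iff
`p.1.2 ≠ 1`. `left_inv`: `PP_surj`. `chart1`: `e p = conj p.1.1 / (1 + p.1.2)`. `PP 1 z` has value
`(2 conj z / (1 + normSq z), (1 - normSq z) / (1 + normSq z))`. Compactness: `S2` is a closed subset of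
`closedBall 0 1 ×ˢ Icc (-1) 1`.
-/

set_option autoImplicit false

namespace Pool.Agent.FibC

open Complex ComplexConjugate Set

noncomputable section

private theorem coe0 (z : ℂ) : (PP z 1 : ℂ × ℝ) =
    (2 * z / ((normSq z + 1 : ℝ) : ℂ), (normSq z - 1) / (normSq z + 1)) := by
  rw [PP_coe (by simp)]
  simp

private theorem coe1 (z : ℂ) : (PP 1 z : ℂ × ℝ) =
    (2 * conj z / ((1 + normSq z : ℝ) : ℂ), (1 - normSq z) / (1 + normSq z)) := by
  rw [PP_coe (by simp)]
  simp

private theorem north : (PP 1 0 : ℂ × ℝ) = (0, 1) := by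
  rw [coe1]; simp

private theorem south : (PP 0 1 : ℂ × ℝ) = (0, -1) := by
  rw [coe0]; simp

private theorem ne_north (p : S2) : p ≠ PP 1 0 ↔ (p : ℂ × ℝ).2 ≠ 1 := by
  constructor
  · intro h h1
    apply h
    apply Subtype.ext
    rw [north]
    have h2 := p.2
    rw [← normSq_eq_norm_sq, h1] at h2
    exact Prod.ext (normSq_eq_zero.1 (by linarith)) h1
  · intro h h1
    apply h
    rw [h1, north]

private theorem ne_south (p : S2) : p ≠ PP 0 1 ↔ (p : ℂ × ℝ).2 ≠ -1 := by
  constructor
  · intro h h1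
    apply h
    apply Subtype.ext
    rw [south]
    have h2 := p.2
    rw [← normSq_eq_norm_sq, h1] at h2
    exact Prod.ext (normSq_eq_zero.1 (by linarith)) h1
  · intro h h1
    apply h
    rw [h1, south]

theorem chart0 : ∃ e : OpenPartialHomeomorph S2 ℂ, e.source = {p | p ≠ PP 1 0} ∧
    e.target = univ ∧ (∀ z, e.symm z = PP z 1) ∧ ∀ z, e (PP z 1) = z := by
  have hval : ∀ z : ℂ, (PP z 1 : ℂ × ℝ).1 / ((1 - (PP z 1 : ℂ × ℝ).2 : ℝ) : ℂ) = z := by
    intro z
    rw [coe0]
    have h : (normSq z + 1) ≠ 0 := by have := normSq_nonneg z; linarith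
    have h' : ((normSq z + 1 : ℝ) : ℂ) ≠ 0 := by exact_mod_cast h
    have e : 1 - (normSq z - 1) / (normSq z + 1) = 2 / (normSq z + 1) := by field_simp; ring
    simp only
    rw [e]
    push_cast at h' ⊢
    field_simp
  refine ⟨{ toFun := fun p => (p : ℂ × ℝ).1 / ((1 - (p : ℂ × ℝ).2 : ℝ) : ℂ)
            invFun := fun z => PP z 1
            source := {p | p ≠ PP 1 0}
            target := univ
            map_source' := fun _ _ => mem_univ _
            map_target' := ?_
            left_inv' := ?_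
            right_inv' := fun z _ => hval z
            open_source := isOpen_ne
            open_target := isOpen_univ
            continuousOn_toFun := ?_
            continuousOn_invFun := ?_ }, rfl, rfl, fun z => rfl, hval⟩
  · intro z _
    simp only [mem_ofPred_eq]
    rw [Ne, PP_eq_iff (by simp) (by simp)]
    simp
  · intro p hp
    rcases PP_surj p with h | ⟨z, h⟩
    · exact absurd h hp
    · rw [h, hval]
  · refine ContinuousOn.div ?_ ?_ ?_
    · fun_prop
    · fun_prop
    · intro p hp
      have := (ne_north p).1 hp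
      have h : 1 - (p : ℂ × ℝ).2 ≠ 0 := fun h => this (by linarith)
      exact_mod_cast h
  · intro z _
    have h1 : ContinuousAt (fun p : ℂ × ℂ => PP p.1 p.2) (z, 1) := PP_cont (by simp)
    have h2 : ContinuousAt (fun z : ℂ => ((z, 1) : ℂ × ℂ)) z := by fun_prop
    exact (ContinuousAt.comp (f := fun z : ℂ => ((z, 1) : ℂ × ℂ)) h1 h2).continuousWithinAt

theorem chart1 : ∃ e : OpenPartialHomeomorph S2 ℂ, e.source = {p | p ≠ PP 0 1} ∧
    e.target = univ ∧ (∀ z, e.symm z = PP 1 z) ∧ ∀ z, e (PP 1 z) = z := by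
  have hval : ∀ z : ℂ, conj (PP 1 z : ℂ × ℝ).1 / ((1 + (PP 1 z : ℂ × ℝ).2 : ℝ) : ℂ) = z := by
    intro z
    rw [coe1]
    have h : (1 + normSq z) ≠ 0 := by have := normSq_nonneg z; linarith
    have h' : ((1 + normSq z : ℝ) : ℂ) ≠ 0 := by exact_mod_cast h
    have e : 1 + (1 - normSq z) / (1 + normSq z) = 2 / (1 + normSq z) := by field_simp; ring
    simp only
    rw [e, map_div₀, map_mul, conj_conj, conj_ofReal, map_ofNat]
    push_cast at h' ⊢
    field_simp
  refine ⟨{ toFun := fun p => conj (p : ℂ × ℝ).1 / ((1 + (p : ℂ × ℝ).2 : ℝ) : ℂ)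
            invFun := fun z => PP 1 z
            source := {p | p ≠ PP 0 1}
            target := univ
            map_source' := fun _ _ => mem_univ _
            map_target' := ?_
            left_inv' := ?_
            right_inv' := fun z _ => hval z
            open_source := isOpen_ne
            open_target := isOpen_univ
            continuousOn_toFun := ?_
            continuousOn_invFun := ?_ }, rfl, rfl, fun z => rfl, hval⟩
  · intro z _
    simp only [mem_ofPred_eq]
    rw [Ne, PP_eq_iff (by simp) (by simp)]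
    simp
  · intro p hp
    have hex : ∃ z, p = PP 1 z := by
      rcases PP_surj p with h | ⟨z, h⟩
      · exact ⟨0, h⟩
      · have hz : z ≠ 0 := by
          intro h0; rw [h0] at h; exact hp h
        refine ⟨1 / z, ?_⟩
        rw [h, PP_eq_iff (by simp) (by simp)]
        field_simp
    obtain ⟨z, h⟩ := hex
    rw [h, hval]
  · refine ContinuousOn.div ?_ ?_ ?_
    · exact (continuous_conj.comp (continuous_fst.comp continuous_subtype_val)).continuousOn
    · fun_prop
    · intro p hp
      have := (ne_south p).1 hp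
      have h : 1 + (p : ℂ × ℝ).2 ≠ 0 := fun h => this (by linarith)
      exact_mod_cast h
  · intro z _
    have h1 : ContinuousAt (fun p : ℂ × ℂ => PP p.1 p.2) (1, z) := PP_cont (by simp)
    have h2 : ContinuousAt (fun z : ℂ => ((1, z) : ℂ × ℂ)) z := by fun_prop
    exact (ContinuousAt.comp (f := fun z : ℂ => ((1, z) : ℂ × ℂ)) h1 h2).continuousWithinAt

theorem S2_compact : CompactSpace S2 := by
  have hsub : {p : ℂ × ℝ | ‖p.1‖ ^ 2 + p.2 ^ 2 = 1} ⊆
      Metric.closedBall (0 : ℂ) 1 ×ˢ Icc (-1 : ℝ) 1 := by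
    rintro ⟨a, b⟩ h
    simp only [mem_ofPred_eq] at h
    refine ⟨?_, ?_, ?_⟩
    · simp only [Metric.mem_closedBall, dist_zero_right]
      nlinarith [norm_nonneg a, sq_nonneg b]
    · simp only; nlinarith [norm_nonneg a, sq_nonneg ‖a‖]
    · simp only; nlinarith [norm_nonneg a, sq_nonneg ‖a‖]
  have hcl : IsClosed {p : ℂ × ℝ | ‖p.1‖ ^ 2 + p.2 ^ 2 = 1} :=
    isClosed_eq (by fun_prop) continuous_const
  exact isCompact_iff_compactSpace.1
    (((isCompact_closedBall (0 : ℂ) 1).prod isCompact_Icc).of_isClosed_subset hcl hsub)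

end

end Pool.Agent.FibC
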