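import Mathlib

/-!
# Stm: the notions in the statement of the theorem
-/

set_option autoImplicit false

namespace Pool.Agent.FibC

open Metric Set

/-- the `4`-sphere -/
abbrev S4 : Type := Metric.sphere (0 : EuclideanSpace ℝ (Fin 5)) 1

/-- `M` is a locally flat hypersurface bounding `X`: every point of `M` has a chart of the ambient `4`-manifold
in which `X` is the half space `0 ≤ y 0` and `M` is the hyperplane `y 0 = 0` -/
def LocFlat {S : Type} [TopologicalSpace S] (X M : Set S) : Prop :=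
  ∀ q ∈ M, ∃ e : OpenPartialHomeomorph S (EuclideanSpace ℝ (Fin 4)), q ∈ e.source ∧
    ∀ p ∈ e.source, (p ∈ X ↔ 0 ≤ e p 0) ∧ (p ∈ M ↔ e p 0 = 0)

/-- the torus `S¹ × S¹` -/
abbrev Torus : Type := Circle × Circle

/-- the torus minus the open round discs with centres `c i` and radii `ρ i` of the chart `e` -/
def Holed {r : ℕ} (e : ℂ → Torus) (c : Fin r → ℂ) (ρ : Fin r → ℝ) : Set Torus :=
  (⋃ i, e '' ball (c i) (ρ i))ᶜ

/-- `M` is the Seifert manifold `M(1; (a 0, b 0), …, (a (r-1), b (r-1)))` and `h` is a parametrised regular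
fibre of `M`. The set `M` is the union of `F (Σ × S¹)` (`Σ = Holed e c ρ` is the torus minus `r` open discs) and of `r` solid
tori `G i (D² × S¹)`; the boundary of the `i`-th solid torus is glued to the `i`-th boundary component of `Σ × S¹` by
`(y, t) ↦ (y ^ a i * t ^ p i, y ^ b i * t ^ q i)`, `a i * q i - b i * p i = 1`, so that the meridian `t = 1` goes to
`a i` times the boundary curve plus `b i` times the fibre. -/
structure IsSeifert {S : Type} [TopologicalSpace S] {r : ℕ} (a b : Fin r → ℤ) (M : Set S)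
    (h : Circle → S) : Prop where
  pos : ∀ i, 0 < a i
  ex : ∃ (e : ℂ → Torus) (c : Fin r → ℂ) (ρ : Fin r → ℝ) (p q : Fin r → ℤ)
    (F : Torus × Circle → S) (G : Fin r → ℂ × Circle → S) (x₀ : Torus),
    Topology.IsOpenEmbedding e ∧ (∀ i, 0 < ρ i) ∧
    (∀ i j, i ≠ j → Disjoint (closedBall (c i) (ρ i)) (closedBall (c j) (ρ j))) ∧
    (∀ i, a i * q i - b i * p i = 1) ∧
    ContinuousOn F (Holed e c ρ ×ˢ univ) ∧ InjOn F (Holed e c ρ ×ˢ univ) ∧
    (∀ i, ContinuousOn (G i) (closedBall 0 1 ×ˢ univ)) ∧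
    (∀ i, InjOn (G i) (closedBall 0 1 ×ˢ univ)) ∧
    (∀ (i : Fin r) (y t : Circle), G i ((y : ℂ), t) =
      F (e (c i + ρ i * ((y ^ a i * t ^ p i : Circle) : ℂ)), y ^ b i * t ^ q i)) ∧
    (∀ i, Disjoint (G i '' (ball 0 1 ×ˢ univ)) (F '' (Holed e c ρ ×ˢ univ))) ∧
    (∀ i j, i ≠ j → Disjoint (G i '' (closedBall 0 1 ×ˢ univ)) (G j '' (closedBall 0 1 ×ˢ univ))) ∧
    M = F '' (Holed e c ρ ×ˢ univ) ∪ ⋃ i, G i '' (closedBall 0 1 ×ˢ univ) ∧
    x₀ ∈ Holed e c ρ ∧ ∀ s, h s = F (x₀, s)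

/-- the Seifert data of an `ℍ² × 𝔼¹`-manifold with base orbifold of genus `1`: coprime pairs, generalised Euler
number `-∑ b i / a i = 0`, and orbifold Euler characteristic `2 - 2 * 1 - ∑ (1 - 1 / a i) < 0` -/
def IsH2E1 {r : ℕ} (a b : Fin r → ℤ) : Prop :=
  (∀ i, IsCoprime (a i) (b i)) ∧ -∑ i, (b i : ℚ) / (a i : ℚ) = 0 ∧
    2 - 2 * 1 - ∑ i, (1 - 1 / (a i : ℚ)) < 0

end Pool.Agent.FibC
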