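import Pool.Agent.Lib.FibC.ChiD
import Pool.Agent.Lib.FibC.PPc
import Pool.Agent.Lib.FibC.Nrm
import Pool.Agent.Lib.FibC.Stm

/-!
# ChA: Euler characteristics of simple spaces

PROOF. `chi_C`: `ℂ ≃ₜ ℝ × ℝ` (`Complex.equivRealProdCLM.toHomeomorph`), `(-1) * (-1)`. `chi_pt`: a space with one point. `chi_Ici`: closed subset `{0}`, complement homeomorphic to `ℝ`
(`Ioi 0`, `Real.log`/`Real.exp`). `chi_circle`: closed subset `{-1}`, complement homeomorphic to `ℝ` (`z ↦ z.im / (1 + z.re)`, inverse
`s ↦ ((1 - s²) + 2 i s) / (1 + s²)`). `chi_S2`: closed subset `{PP 1 0}`, the complement is homeomorphic to `ℂ` (`chart0`). `chi_sqo`: `v ↦ v / (ε - sn v)`, inverse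
`w ↦ ε w / (1 + sn w)`. `polar coordinates`: `{v | v ≠ 0} ≃ₜ Circle × ℝ` by `v ↦ (v / ‖v‖, sn v)`; `chi_bd`: `{v | sn v = c}` is homeomorphic to `Circle`. `chi_sqc`: closed subset
`{sn v = c}`, complement `{sn v < c}`: `0 + 1`. `chi_ann`: homeomorphic to `Circle × Ici 0` (`v ↦ (v / ‖v‖, (sn v - ε/2) / (ε - sn v))`). `chi_disc`: closed subset the unit circle, complement the open ball (`Homeomorph.unitBall`) or homeomorphic to
`{sn v ≤ 1}` by `v ↦ (‖v‖ / sn v) v`.
-/

set_option autoImplicit false

namespace Pool.Agent.FibC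

open Complex ComplexConjugate Set

noncomputable section

theorem chi_pt {X : Type} [TopologicalSpace X] (x : X) (h : ∀ y : X, y = x) : HasChi X 1 := by
  let e : Unit ≃ₜ X :=
    { toFun := fun _ => x
      invFun := fun _ => ()
      left_inv := fun _ => rfl
      right_inv := fun y => (h y).symm
      continuous_toFun := continuous_const
      continuous_invFun := continuous_const }
  exact HasChi.homeo e HasChi.point

/-- homeomorphisms between subsets -/
private def cha_homeo {X Y : Type} [TopologicalSpace X] [TopologicalSpace Y] {S : Set X} {T : Set Y}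
    (f : X → Y) (g : Y → X) (hf : ContinuousOn f S) (hg : ContinuousOn g T) (h1 : MapsTo f S T)
    (h2 : MapsTo g T S) (h3 : ∀ x ∈ S, g (f x) = x) (h4 : ∀ y ∈ T, f (g y) = y) : S ≃ₜ T where
  toFun := h1.restrict f S T
  invFun := h2.restrict g T S
  left_inv := fun x => Subtype.ext (h3 x.1 x.2)
  right_inv := fun y => Subtype.ext (h4 y.1 y.2)
  continuous_toFun := hf.mapsToRestrict h1
  continuous_invFun := hg.mapsToRestrict h2

/-- splitting a subset -/
private theorem cha_split {X : Type} [TopologicalSpace X] [T2Space X] {S A : Set X}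
    [LocallyCompactSpace S] (hA : IsClosed A) {m n : ℤ} (h1 : HasChi (S ∩ A : Set X) m)
    (h2 : HasChi (S \ A : Set X) n) : HasChi S (m + n) := by
  let e1 : (S ∩ A : Set X) ≃ₜ ((Subtype.val : S → X) ⁻¹' A : Set S) :=
    { toFun := fun x => ⟨⟨x.1, x.2.1⟩, x.2.2⟩
      invFun := fun y => ⟨y.1.1, y.1.2, y.2⟩
      left_inv := fun _ => rfl
      right_inv := fun _ => rfl
      continuous_toFun := by fun_prop
      continuous_invFun := by fun_prop }
  let e2 : (S \ A : Set X) ≃ₜ (((Subtype.val : S → X) ⁻¹' A)ᶜ : Set S) :=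
    { toFun := fun x => ⟨⟨x.1, x.2.1⟩, x.2.2⟩
      invFun := fun y => ⟨y.1.1, y.1.2, y.2⟩
      left_inv := fun _ => rfl
      right_inv := fun _ => rfl
      continuous_toFun := by fun_prop
      continuous_invFun := by fun_prop }
  exact HasChi.union _ (hA.preimage continuous_subtype_val) (h1.homeo e1) (h2.homeo e2)

private theorem cha_univ {X : Type} [TopologicalSpace X] {n : ℤ} (h : HasChi X n) :
    HasChi (univ : Set X) n := h.homeo (Homeomorph.Set.univ X).symm

theorem chi_C : HasChi ℂ 1 := by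
  have h : HasChi (ℝ × ℝ) ((-1) * (-1)) := HasChi.prod HasChi.line HasChi.line
  exact h.homeo Complex.equivRealProdCLM.toHomeomorph.symm

private theorem cha_single {X : Type} [TopologicalSpace X] (x : X) : HasChi ({x} : Set X) 1 :=
  chi_pt ⟨x, rfl⟩ fun y => Subtype.ext y.2

theorem chi_Ici : HasChi (Set.Ici (0 : ℝ)) 0 := by
  have hlc : LocallyCompactSpace (Set.Ici (0 : ℝ)) :=
    isClosed_Ici.isClosedEmbedding_subtypeVal.locallyCompactSpace
  have h1 : HasChi (Set.Ici (0 : ℝ) ∩ {0} : Set ℝ) 1 := by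
    have e : (Set.Ici (0 : ℝ) ∩ {0} : Set ℝ) = {0} := by
      ext x
      simp only [mem_inter_iff, mem_Ici, mem_singleton_iff]
      constructor
      · exact fun h => h.2
      · rintro rfl
        exact ⟨le_rfl, rfl⟩
    rw [e]
    exact cha_single 0
  have h2 : HasChi (Set.Ici (0 : ℝ) \ {0} : Set ℝ) (-1) := by
    refine (cha_univ HasChi.line).homeo (cha_homeo Real.exp Real.log Real.continuous_exp.continuousOn
      ?_ ?_ ?_ ?_ ?_)
    · exact Real.continuousOn_log.mono fun x hx => hx.2
    · intro x _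
      exact ⟨(Real.exp_pos x).le, (Real.exp_pos x).ne'⟩
    · intro x _
      exact mem_univ _
    · intro x _
      exact Real.log_exp x
    · intro y hy
      exact Real.exp_log (lt_of_le_of_ne hy.1 (Ne.symm hy.2))
  exact cha_split isClosed_singleton h1 h2

private theorem cha_circ (x y : ℝ) (h : x ^ 2 + y ^ 2 = 1) : (⟨x, y⟩ : ℂ) ∈ Submonoid.unitSphere ℂ := by
  rw [← SetLike.mem_coe, Submonoid.coe_unitSphere, mem_sphere_zero_iff_norm]
  have h1 : ‖(⟨x, y⟩ : ℂ)‖ ^ 2 = 1 := by
    rw [← normSq_eq_norm_sq, normSq_apply]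
    simp only
    linarith
  nlinarith [norm_nonneg (⟨x, y⟩ : ℂ)]

theorem chi_circle : HasChi Circle 0 := by
  have h2 : HasChi (({(-1 : Circle)} : Set Circle)ᶜ : Set Circle) (-1) := by
    have hpos : ∀ s : ℝ, 0 < 1 + s ^ 2 := fun s => by positivity
    have hmem : ∀ s : ℝ, ((1 - s ^ 2) / (1 + s ^ 2)) ^ 2 + (2 * s / (1 + s ^ 2)) ^ 2 = 1 := by
      intro s
      have := (hpos s).ne'
      field_simp
      ring
    let f : ℝ → Circle := fun s => ⟨⟨(1 - s ^ 2) / (1 + s ^ 2), 2 * s / (1 + s ^ 2)⟩,
      cha_circ _ _ (hmem s)⟩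
    let g : Circle → ℝ := fun z => (z : ℂ).im / (1 + (z : ℂ).re)
    have hre : ∀ z : Circle, z ∈ (({(-1 : Circle)} : Set Circle)ᶜ : Set Circle) →
        1 + (z : ℂ).re ≠ 0 := by
      intro z hz h0
      apply hz
      have h1 : (z : ℂ).re = -1 := by linarith
      have h3 : (z : ℂ).re ^ 2 + (z : ℂ).im ^ 2 = 1 := by
        have h4 := Circle.normSq_coe z
        rw [normSq_apply] at h4
        linarith
      have h5 : (z : ℂ).im = 0 := by
        have : (z : ℂ).im ^ 2 = 0 := by rw [h1] at h3; linarith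
        exact pow_eq_zero_iff (two_ne_zero) |>.1 this
      rw [mem_singleton_iff]
      apply Circle.ext
      apply Complex.ext
      · simp [h1]
      · simp [h5]
    refine (cha_univ HasChi.line).homeo (cha_homeo f g ?_ ?_ ?_ ?_ ?_ ?_)
    · have h3 : Continuous f := by
        refine Continuous.subtype_mk ?_ _
        have h4 : (fun s : ℝ => (⟨(1 - s ^ 2) / (1 + s ^ 2), 2 * s / (1 + s ^ 2)⟩ : ℂ)) =
            fun s => Complex.equivRealProdCLM.symm ((1 - s ^ 2) / (1 + s ^ 2), 2 * s / (1 + s ^ 2)) :=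
          rfl
        rw [h4]
        refine Complex.equivRealProdCLM.symm.continuous.comp ?_
        refine Continuous.prodMk ?_ ?_
        · exact (by fun_prop : Continuous fun s : ℝ => 1 - s ^ 2).div (by fun_prop)
            fun s => (hpos s).ne'
        · exact (by fun_prop : Continuous fun s : ℝ => 2 * s).div (by fun_prop)
            fun s => (hpos s).ne'
      exact h3.continuousOn
    · refine ContinuousOn.div ?_ ?_ hre
      · exact (Complex.continuous_im.comp continuous_subtype_val).continuousOn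
      · exact (continuous_const.add (Complex.continuous_re.comp continuous_subtype_val)).continuousOn
    · intro s _ hs
      rw [mem_singleton_iff] at hs
      have h3 := congrArg (fun z : Circle => (z : ℂ).re) hs
      simp only [f, Circle.coe_neg, Circle.coe_one, Complex.neg_re, Complex.one_re] at h3
      have h4 := (hpos s).ne'
      have h5 : (1 - s ^ 2) / (1 + s ^ 2) = -1 := h3
      rw [div_eq_iff h4] at h5
      linarith
    · intro z _
      exact mem_univ _
    · intro s _
      have h4 := (hpos s).ne'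
      change (2 * s / (1 + s ^ 2)) / (1 + (1 - s ^ 2) / (1 + s ^ 2)) = s
      have h5 : 1 + (1 - s ^ 2) / (1 + s ^ 2) = 2 / (1 + s ^ 2) := by
        field_simp
        ring
      rw [h5]
      field_simp
    · intro z hz
      have h0 := hre z hz
      have h3 : (z : ℂ).re ^ 2 + (z : ℂ).im ^ 2 = 1 := by
        have h4 := Circle.normSq_coe z
        rw [normSq_apply] at h4
        linarith
      set x := (z : ℂ).re with hx
      set y := (z : ℂ).im with hy
      have h5 : 1 + (y / (1 + x)) ^ 2 = 2 / (1 + x) := by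
        field_simp
        linarith
      have h6 : (1 - (y / (1 + x)) ^ 2) / (1 + (y / (1 + x)) ^ 2) = x := by
        rw [h5]
        field_simp
        nlinarith
      have h7 : 2 * (y / (1 + x)) / (1 + (y / (1 + x)) ^ 2) = y := by
        rw [h5]
        field_simp
      apply Circle.ext
      apply Complex.ext
      · exact h6
      · exact h7
  have h1 := HasChi.union ({(-1 : Circle)} : Set Circle) isClosed_singleton (cha_single _) h2
  exact h1

theorem chi_torus : HasChi Torus 0 := HasChi.prod chi_circle chi_circle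

theorem chi_S2 : HasChi S2 2 := by
  have hc := S2_compact
  obtain ⟨e, hs, ht, -, -⟩ := chart0
  have h1 : HasChi e.target 1 := by
    rw [ht]
    exact cha_univ chi_C
  have h2 : HasChi (({PP 1 0} : Set S2)ᶜ : Set S2) 1 := by
    have h3 : (({PP 1 0} : Set S2)ᶜ : Set S2) = e.source := by
      rw [hs]
      rfl
    rw [h3]
    exact h1.homeo e.toHomeomorphSourceTarget.symm
  exact HasChi.union ({PP 1 0} : Set S2) isClosed_singleton (cha_single _) h2

private theorem cha_sn_div {r : ℝ} (hr : 0 ≤ r) (z : ℂ) : sn (z / (r : ℂ)) = sn z / r := by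
  rw [div_eq_inv_mul, ← Complex.ofReal_inv, sn_mul (inv_nonneg.2 hr), div_eq_inv_mul]

theorem chi_sqo {ε : ℝ} (hε : 0 < ε) : HasChi {v : ℂ | sn v < ε} 1 := by
  let f : ℂ → ℂ := fun w => ((ε / (1 + sn w) : ℝ) : ℂ) * w
  let g : ℂ → ℂ := fun v => v / ((ε - sn v : ℝ) : ℂ)
  have hp : ∀ w : ℂ, 0 < 1 + sn w := fun w => by
    have := sn_nonneg w
    linarith
  have hf : ∀ w, sn (f w) = ε / (1 + sn w) * sn w := fun w =>
    sn_mul (div_pos hε (hp w)).le w
  refine (cha_univ chi_C).homeo (cha_homeo f g ?_ ?_ ?_ ?_ ?_ ?_)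
  · have h1 : Continuous f := by
      refine Continuous.mul (Complex.continuous_ofReal.comp ?_) continuous_id
      exact continuous_const.div (continuous_const.add sn_cont) fun w => (hp w).ne'
    exact h1.continuousOn
  · refine ContinuousOn.div continuousOn_id ?_ ?_
    · exact (Complex.continuous_ofReal.comp (continuous_const.sub sn_cont)).continuousOn
    · intro v hv
      have h1 : ε - sn v ≠ 0 := by
        have : sn v < ε := hv
        linarith
      exact_mod_cast h1
  · intro w _
    change sn (f w) < ε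
    rw [hf, div_mul_eq_mul_div, div_lt_iff₀ (hp w)]
    nlinarith
  · intro v _
    exact mem_univ _
  · intro w _
    have h1 : ε - sn (f w) = ε / (1 + sn w) := by
      rw [hf]
      have := (hp w).ne'
      field_simp
      ring
    change f w / ((ε - sn (f w) : ℝ) : ℂ) = w
    rw [h1]
    have h2 : ((ε / (1 + sn w) : ℝ) : ℂ) ≠ 0 := by
      exact_mod_cast (div_pos hε (hp w)).ne'
    exact mul_div_cancel_left₀ w h2
  · intro v hv
    have h0 : 0 < ε - sn v := by
      have : sn v < ε := hv
      linarith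
    have h1 : sn (g v) = sn v / (ε - sn v) := cha_sn_div h0.le v
    have h2 : ε / (1 + sn (g v)) = ε - sn v := by
      rw [h1]
      have h5 : 1 + sn v / (ε - sn v) = ε / (ε - sn v) := by
        field_simp
        ring
      rw [h5]
      field_simp
    change ((ε / (1 + sn (g v)) : ℝ) : ℂ) * g v = v
    rw [h2]
    have h3 : ((ε - sn v : ℝ) : ℂ) ≠ 0 := by exact_mod_cast h0.ne'
    exact mul_div_cancel₀ v h3

/-- polar coordinates -/
private theorem cha_polar {I : Set ℝ} (hI : ∀ ρ ∈ I, 0 < ρ) {n : ℤ} (h : HasChi I n) :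
    HasChi {v : ℂ | sn v ∈ I} 0 := by
  have hsn : ∀ z : Circle, 0 < sn (z : ℂ) := fun z => sn_pos (Circle.coe_ne_zero z)
  have h0 : HasChi (Circle × I) (0 * n) := HasChi.prod chi_circle h
  rw [zero_mul] at h0
  have hsnf : ∀ (z : Circle) (ρ : I), sn (((ρ / sn (z : ℂ) : ℝ) : ℂ) * (z : ℂ)) = ρ := by
    intro z ρ
    rw [sn_mul (div_pos (hI _ ρ.2) (hsn z)).le]
    exact div_mul_cancel₀ _ (hsn z).ne'
  have hv0 : ∀ v : {v : ℂ | sn v ∈ I}, (v : ℂ) ≠ 0 := by
    intro v h1
    have h2 := hI _ v.2
    rw [h1, sn_eq_zero.2 rfl] at h2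
    exact lt_irrefl _ h2
  let e : Circle × I ≃ₜ {v : ℂ | sn v ∈ I} :=
    { toFun := fun p => ⟨((p.2 / sn (p.1 : ℂ) : ℝ) : ℂ) * (p.1 : ℂ), by
        change sn _ ∈ I
        rw [hsnf]
        exact p.2.2⟩
      invFun := fun v => (⟨(v : ℂ) / ((‖(v : ℂ)‖ : ℝ) : ℂ), by
        rw [← SetLike.mem_coe, Submonoid.coe_unitSphere, mem_sphere_zero_iff_norm, norm_div, Complex.norm_real, norm_norm]
        exact div_self (norm_ne_zero_iff.2 (hv0 v))⟩, ⟨sn v, v.2⟩)
      left_inv := by
        rintro ⟨z, ρ⟩
        have hp : 0 < (ρ : ℝ) / sn (z : ℂ) := div_pos (hI _ ρ.2) (hsn z)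
        refine Prod.ext ?_ ?_
        · apply Circle.ext
          change ((((ρ : ℝ) / sn (z : ℂ) : ℝ) : ℂ) * (z : ℂ)) /
            ((‖(((ρ : ℝ) / sn (z : ℂ) : ℝ) : ℂ) * (z : ℂ)‖ : ℝ) : ℂ) = z
          rw [norm_mul, Circle.norm_coe, mul_one, Complex.norm_real, Real.norm_of_nonneg hp.le]
          have h2 : (((ρ : ℝ) / sn (z : ℂ) : ℝ) : ℂ) ≠ 0 := by exact_mod_cast hp.ne'
          exact mul_div_cancel_left₀ _ h2
        · exact Subtype.ext (hsnf z ρ)
      right_inv := by
        intro v
        apply Subtype.ext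
        have hn : 0 < ‖(v : ℂ)‖ := norm_pos_iff.2 (hv0 v)
        have hs := sn_pos (hv0 v)
        change ((sn (v : ℂ) / sn ((v : ℂ) / ((‖(v : ℂ)‖ : ℝ) : ℂ)) : ℝ) : ℂ) *
          ((v : ℂ) / ((‖(v : ℂ)‖ : ℝ) : ℂ)) = v
        rw [cha_sn_div hn.le]
        have h2 : sn (v : ℂ) / (sn (v : ℂ) / ‖(v : ℂ)‖) = ‖(v : ℂ)‖ := by field_simp
        rw [h2]
        have h3 : ((‖(v : ℂ)‖ : ℝ) : ℂ) ≠ 0 := by exact_mod_cast hn.ne'
        exact mul_div_cancel₀ _ h3
      continuous_toFun := by
        refine Continuous.subtype_mk ?_ _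
        refine Continuous.mul (Complex.continuous_ofReal.comp ?_) ?_
        · refine Continuous.div ?_ ?_ fun p => (hsn p.1).ne'
          · exact continuous_subtype_val.comp continuous_snd
          · exact sn_cont.comp (continuous_subtype_val.comp continuous_fst)
        · exact continuous_subtype_val.comp continuous_fst
      continuous_invFun := by
        refine Continuous.prodMk ?_ ?_
        · refine Continuous.subtype_mk ?_ _
          refine Continuous.div continuous_subtype_val ?_ ?_
          · exact Complex.continuous_ofReal.comp continuous_subtype_val.norm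
          · intro v
            exact_mod_cast norm_ne_zero_iff.2 (hv0 v)
        · exact Continuous.subtype_mk (sn_cont.comp continuous_subtype_val) _ }
  exact h0.homeo e

private theorem cha_bd {c : ℝ} (hc : 0 < c) : HasChi {v : ℂ | sn v = c} 0 := by
  have h := cha_polar (I := {c}) (fun ρ hρ => by rw [mem_singleton_iff] at hρ; rwa [hρ])
    (cha_single c)
  exact h

theorem chi_sqc {c : ℝ} (hc : 0 < c) : HasChi {v : ℂ | sn v ≤ c} 1 := by
  have hlc : LocallyCompactSpace {v : ℂ | sn v ≤ c} :=
    (isClosed_le sn_cont continuous_const).isClosedEmbedding_subtypeVal.locallyCompactSpace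
  have h1 : HasChi ({v : ℂ | sn v ≤ c} ∩ {v : ℂ | sn v = c} : Set ℂ) 0 := by
    have e : ({v : ℂ | sn v ≤ c} ∩ {v : ℂ | sn v = c} : Set ℂ) = {v : ℂ | sn v = c} := by
      ext v
      constructor
      · exact fun h => h.2
      · exact fun h => ⟨le_of_eq h, h⟩
    rw [e]
    exact cha_bd hc
  have h2 : HasChi ({v : ℂ | sn v ≤ c} \ {v : ℂ | sn v = c} : Set ℂ) 1 := by
    have e : ({v : ℂ | sn v ≤ c} \ {v : ℂ | sn v = c} : Set ℂ) = {v : ℂ | sn v < c} := by
      ext v
      constructor
      · exact fun h => lt_of_le_of_ne h.1 h.2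
      · intro h
        have h' : sn v < c := h
        exact ⟨h'.le, h'.ne⟩
    rw [e]
    exact chi_sqo hc
  exact cha_split (isClosed_eq sn_cont continuous_const) h1 h2

private theorem cha_Ico {a b : ℝ} (hab : a < b) : HasChi (Set.Ico a b) 0 := by
  refine chi_Ici.homeo (cha_homeo (fun y => (a + b * y) / (1 + y)) (fun x => (x - a) / (b - x))
    ?_ ?_ ?_ ?_ ?_ ?_)
  · refine ContinuousOn.div (by fun_prop) (by fun_prop) ?_
    intro y hy
    have : 0 ≤ y := hy
    have : 0 < 1 + y := by linarith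
    exact this.ne'
  · refine ContinuousOn.div (by fun_prop) (by fun_prop) ?_
    intro x hx
    have : x < b := hx.2
    have : 0 < b - x := by linarith
    exact this.ne'
  · intro y hy
    have h1 : 0 ≤ y := hy
    have h2 : 0 < 1 + y := by linarith
    refine ⟨?_, ?_⟩
    · change a ≤ (a + b * y) / (1 + y)
      rw [le_div_iff₀ h2]
      nlinarith
    · change (a + b * y) / (1 + y) < b
      rw [div_lt_iff₀ h2]
      nlinarith
  · intro x hx
    change 0 ≤ (x - a) / (b - x)
    exact div_nonneg (by linarith [hx.1]) (by linarith [hx.2])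
  · intro y hy
    have h1 : 0 ≤ y := hy
    have h2 : 0 < 1 + y := by linarith
    change ((a + b * y) / (1 + y) - a) / (b - (a + b * y) / (1 + y)) = y
    have h3 : (a + b * y) / (1 + y) - a = (b - a) * y / (1 + y) := by
      field_simp
      ring
    have h4 : b - (a + b * y) / (1 + y) = (b - a) / (1 + y) := by
      field_simp
      ring
    rw [h3, h4]
    have h5 : b - a ≠ 0 := by
      have : 0 < b - a := by linarith
      exact this.ne'
    field_simp
  · intro x hx
    have h2 : 0 < b - x := by linarith [hx.2]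
    have h5 : 0 < b - a := by linarith
    change (a + b * ((x - a) / (b - x))) / (1 + (x - a) / (b - x)) = x
    have h3 : 1 + (x - a) / (b - x) = (b - a) / (b - x) := by
      field_simp
      ring
    rw [h3]
    field_simp
    ring

theorem chi_ann {ε : ℝ} (hε : 0 < ε) : HasChi {v : ℂ | ε / 2 ≤ sn v ∧ sn v < ε} 0 := by
  have h := cha_polar (I := Set.Ico (ε / 2) ε) (fun ρ hρ => by
    have := hρ.1
    linarith) (cha_Ico (by linarith))
  exact h

theorem chi_disc : HasChi {v : ℂ | ‖v‖ ≤ 1} 1 := by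
  have hlc : LocallyCompactSpace {v : ℂ | ‖v‖ ≤ 1} :=
    (isClosed_le continuous_norm continuous_const).isClosedEmbedding_subtypeVal.locallyCompactSpace
  have h1 : HasChi ({v : ℂ | ‖v‖ ≤ 1} ∩ {v : ℂ | ‖v‖ = 1} : Set ℂ) 0 := by
    have e : ({v : ℂ | ‖v‖ ≤ 1} ∩ {v : ℂ | ‖v‖ = 1} : Set ℂ) = {v : ℂ | ‖v‖ = 1} := by
      ext v
      constructor
      · exact fun h => h.2
      · exact fun h => ⟨le_of_eq h, h⟩
    rw [e]
    let e' : Circle ≃ₜ {v : ℂ | ‖v‖ = 1} :=
      { toFun := fun z => ⟨z, Circle.norm_coe z⟩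
        invFun := fun v => ⟨v.1, by rw [← SetLike.mem_coe, Submonoid.coe_unitSphere, mem_sphere_zero_iff_norm]; exact v.2⟩
        left_inv := fun _ => rfl
        right_inv := fun _ => rfl
        continuous_toFun := Continuous.subtype_mk continuous_subtype_val _
        continuous_invFun := Continuous.subtype_mk continuous_subtype_val fun v => by
          rw [← SetLike.mem_coe, Submonoid.coe_unitSphere, mem_sphere_zero_iff_norm]; exact v.2 }
    exact chi_circle.homeo e'
  have h2 : HasChi ({v : ℂ | ‖v‖ ≤ 1} \ {v : ℂ | ‖v‖ = 1} : Set ℂ) 1 := by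
    have e : ({v : ℂ | ‖v‖ ≤ 1} \ {v : ℂ | ‖v‖ = 1} : Set ℂ) = Metric.ball (0 : ℂ) 1 := by
      ext v
      rw [mem_ball_zero_iff]
      constructor
      · exact fun h => lt_of_le_of_ne h.1 h.2
      · exact fun h => ⟨le_of_lt h, ne_of_lt h⟩
    rw [e]
    exact chi_C.homeo Homeomorph.unitBall
  exact cha_split (isClosed_eq continuous_norm continuous_const) h1 h2

end

end Pool.Agent.FibC
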