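import Pool.Agent.Lib.FibC.Nrm

/-!
# Pol: polar coordinates for a continuous family of gauges, flat charts

PROOF. `polar`: the inverse is `(b, r, θ) ↦ (b, (r / N b u) * u)`, `u = y0 * exp (i θ)`, on `0 < r`, `-π < θ < π`.
`flat_of_chart`: compose `φ` with the polar chart at `y0 = (φ q).2` (nonzero because `N (φ q) = 1` and `N b 0 = 0`) and with the homeomorphism
`(b, (r, θ)) ↦ (1 - r, θ, b.re, b.im)` onto an open subset of `EuclideanSpace ℝ (Fin 4)`.
-/

set_option autoImplicit false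

namespace Pool.Agent.FibC

open Complex ComplexConjugate Set

noncomputable section

/-- in a chart at `q` the set `X` is a half space and `M` its boundary -/
def FlatAt {S : Type} [TopologicalSpace S] (X M : Set S) (q : S) : Prop :=
  ∃ e : OpenPartialHomeomorph S (EuclideanSpace ℝ (Fin 4)), q ∈ e.source ∧
    ∀ p ∈ e.source, (p ∈ X ↔ 0 ≤ e p 0) ∧ (p ∈ M ↔ e p 0 = 0)

/-- the point with argument `θ` relative to `y0` -/
private def pu (y0 : ℂ) (θ : ℝ) : ℂ := y0 * exp ((θ : ℂ) * I)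

private theorem pu_ne {y0 : ℂ} (hy : y0 ≠ 0) (θ : ℝ) : pu y0 θ ≠ 0 :=
  mul_ne_zero hy (Complex.exp_ne_zero _)

private theorem pu_cont (y0 : ℂ) : Continuous (pu y0) := by
  unfold pu
  fun_prop

private theorem arg_pu {y0 : ℂ} (hy : y0 ≠ 0) {r θ : ℝ} (hr : 0 < r) (h1 : -Real.pi < θ)
    (h2 : θ ≤ Real.pi) : arg ((r : ℂ) * pu y0 θ / y0) = θ := by
  have h3 : (r : ℂ) * pu y0 θ / y0 = (r : ℂ) * (cos θ + sin θ * I) := by
    unfold pu
    rw [Complex.exp_mul_I]
    field_simp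
  rw [h3]
  exact Complex.arg_mul_cos_add_sin_mul_I hr ⟨h1, h2⟩

private theorem pu_arg {y0 y : ℂ} (hy : y0 ≠ 0) (h : y ≠ 0) :
    pu y0 (arg (y / y0)) = ((‖y0‖ / ‖y‖ : ℝ) : ℂ) * y := by
  have h1 := Complex.norm_mul_exp_arg_mul_I (y / y0)
  have h2 : (‖y‖ : ℂ) ≠ 0 := by rw [Ne, Complex.ofReal_eq_zero, norm_eq_zero]; exact h
  have h3 : (‖y0‖ : ℂ) ≠ 0 := by rw [Ne, Complex.ofReal_eq_zero, norm_eq_zero]; exact hy
  rw [norm_div] at h1
  unfold pu
  have h4 : exp ((arg (y / y0) : ℂ) * I) = ((‖y0‖ / ‖y‖ : ℝ) : ℂ) * (y / y0) := by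
    rw [← h1]
    have h5 : ((‖y‖ / ‖y0‖ : ℝ) : ℂ) ≠ 0 := by push_cast; exact div_ne_zero h2 h3
    rw [h1]
    have h6 : ((‖y0‖ / ‖y‖ : ℝ) : ℂ) * ((‖y‖ / ‖y0‖ : ℝ) : ℂ) = 1 := by
      push_cast
      field_simp
    calc exp ((arg (y / y0) : ℂ) * I)
        = (((‖y0‖ / ‖y‖ : ℝ) : ℂ) * ((‖y‖ / ‖y0‖ : ℝ) : ℂ)) * exp ((arg (y / y0) : ℂ) * I) := by
          rw [h6, one_mul]
      _ = ((‖y0‖ / ‖y‖ : ℝ) : ℂ) * (((‖y‖ / ‖y0‖ : ℝ) : ℂ) * exp ((arg (y / y0) : ℂ) * I)) := by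
          ring
      _ = ((‖y0‖ / ‖y‖ : ℝ) : ℂ) * (y / y0) := by rw [h1]
  rw [h4]
  field_simp

theorem polar {B : Type} [TopologicalSpace B] (N : B → ℂ → ℝ)
    (hc : Continuous (fun p : B × ℂ => N p.1 p.2))
    (hh : ∀ (b : B) (r : ℝ) (y : ℂ), 0 ≤ r → N b ((r : ℂ) * y) = r * N b y)
    (hp : ∀ (b : B) (y : ℂ), y ≠ 0 → 0 < N b y) {y0 : ℂ} (hy : y0 ≠ 0) :
    ∃ e : OpenPartialHomeomorph (B × ℂ) (B × (ℝ × ℝ)), e.source = {p | p.2 / y0 ∈ slitPlane} ∧
      ∀ p, e p = (p.1, (N p.1 p.2, arg (p.2 / y0))) := by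
  have hcq : Continuous fun q : B × (ℝ × ℝ) => N q.1 (pu y0 q.2.2) :=
    hc.comp (continuous_fst.prodMk ((pu_cont y0).comp (continuous_snd.comp continuous_snd)))
  have hcd : Continuous fun p : B × ℂ => p.2 / y0 := continuous_snd.div_const _
  refine ⟨{ toFun := fun p => (p.1, (N p.1 p.2, arg (p.2 / y0)))
            invFun := fun q => (q.1, ((q.2.1 / N q.1 (pu y0 q.2.2) : ℝ) : ℂ) * pu y0 q.2.2)
            source := {p | p.2 / y0 ∈ slitPlane}
            target := {q | 0 < q.2.1 ∧ -Real.pi < q.2.2 ∧ q.2.2 < Real.pi}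
            map_source' := ?_
            map_target' := ?_
            left_inv' := ?_
            right_inv' := ?_
            open_source := ?_
            open_target := ?_
            continuousOn_toFun := ?_
            continuousOn_invFun := ?_ }, rfl, fun p => rfl⟩
  · intro p hp'
    have h1 : p.2 / y0 ∈ slitPlane := hp'
    rw [Complex.mem_slitPlane_iff_arg] at h1
    have h2 : p.2 ≠ 0 := fun h => h1.2 (by rw [h, zero_div])
    exact ⟨hp _ _ h2, Complex.neg_pi_lt_arg _, lt_of_le_of_ne (Complex.arg_le_pi _) h1.1⟩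
  · rintro q ⟨h1, h2, h3⟩
    have h4 : 0 < q.2.1 / N q.1 (pu y0 q.2.2) := div_pos h1 (hp _ _ (pu_ne hy _))
    have h5 := arg_pu hy h4 h2 h3.le
    show ((q.2.1 / N q.1 (pu y0 q.2.2) : ℝ) : ℂ) * pu y0 q.2.2 / y0 ∈ slitPlane
    rw [Complex.mem_slitPlane_iff_arg, h5]
    refine ⟨h3.ne, div_ne_zero (mul_ne_zero ?_ (pu_ne hy _)) hy⟩
    rw [Ne, Complex.ofReal_eq_zero]
    exact h4.ne'
  · intro p hp'
    have h1 : p.2 / y0 ∈ slitPlane := hp'
    rw [Complex.mem_slitPlane_iff_arg] at h1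
    have h2 : p.2 ≠ 0 := fun h => h1.2 (by rw [h, zero_div])
    have h3 : 0 < N p.1 p.2 := hp _ _ h2
    have h4 : 0 < ‖y0‖ / ‖p.2‖ := div_pos (norm_pos_iff.2 hy) (norm_pos_iff.2 h2)
    apply Prod.ext
    · rfl
    · simp only []
      rw [pu_arg hy h2, hh _ _ _ h4.le, ← mul_assoc, ← Complex.ofReal_mul]
      have h5 : N p.1 p.2 / (‖y0‖ / ‖p.2‖ * N p.1 p.2) * (‖y0‖ / ‖p.2‖) = 1 := by
        have := h4.ne'
        have := h3.ne'
        rw [div_mul_eq_mul_div, mul_comm (N p.1 p.2), div_self (mul_ne_zero h4.ne' h3.ne')]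
      rw [h5, Complex.ofReal_one, one_mul]
  · rintro q ⟨h1, h2, h3⟩
    have h0 := hp q.1 _ (pu_ne hy q.2.2)
    have h4 : 0 < q.2.1 / N q.1 (pu y0 q.2.2) := div_pos h1 h0
    have h5 := arg_pu hy h4 h2 h3.le
    apply Prod.ext
    · rfl
    · apply Prod.ext
      · simp only []
        rw [hh _ _ _ h4.le, div_mul_cancel₀ _ h0.ne']
      · exact h5
  · refine ContinuousOn.prodMk continuous_fst.continuousOn (ContinuousOn.prodMk hc.continuousOn ?_)
    intro p hp'
    have h1 : ContinuousAt arg (p.2 / y0) := Complex.continuousAt_arg hp'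
    exact (ContinuousAt.comp (f := fun p : B × ℂ => p.2 / y0) (g := arg) h1
      hcd.continuousAt).continuousWithinAt
  · refine Continuous.continuousOn (continuous_fst.prodMk (Continuous.mul ?_
      ((pu_cont y0).comp (continuous_snd.comp continuous_snd))))
    refine Complex.continuous_ofReal.comp ((continuous_fst.comp continuous_snd).div hcq
      fun q => (hp _ _ (pu_ne hy _)).ne')
  · exact Complex.isOpen_slitPlane.preimage hcd
  · exact (isOpen_lt continuous_const (continuous_fst.comp continuous_snd)).inter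
      ((isOpen_lt continuous_const (continuous_snd.comp continuous_snd)).inter
        (isOpen_lt (continuous_snd.comp continuous_snd) continuous_const))

/-- the coordinates `(1 - r, θ, b)` -/
private def Psi : (ℂ × (ℝ × ℝ)) ≃ₜ EuclideanSpace ℝ (Fin 4) where
  toFun q := WithLp.toLp 2 ![1 - q.2.1, q.2.2, q.1.re, q.1.im]
  invFun x := (⟨x 2, x 3⟩, (1 - x 0, x 1))
  left_inv q := by
    apply Prod.ext
    · apply Complex.ext <;> simp
    · apply Prod.ext <;> simp
  right_inv x := by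
    ext i
    fin_cases i <;> simp
  continuous_toFun := by
    refine (PiLp.continuous_toLp 2 _).comp (continuous_pi fun i => ?_)
    fin_cases i
    · exact continuous_const.sub (continuous_fst.comp continuous_snd)
    · exact continuous_snd.comp continuous_snd
    · exact Complex.continuous_re.comp continuous_fst
    · exact Complex.continuous_im.comp continuous_fst
  continuous_invFun := by
    have h : ∀ i : Fin 4, Continuous fun x : EuclideanSpace ℝ (Fin 4) => x i := fun i =>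
      PiLp.continuous_apply 2 (fun _ : Fin 4 => ℝ) i
    refine Continuous.prodMk ?_ ((continuous_const.sub (h 0)).prodMk (h 1))
    have h2 : (fun x : EuclideanSpace ℝ (Fin 4) => (⟨x 2, x 3⟩ : ℂ)) =
        fun x => ((x 2 : ℝ) : ℂ) + ((x 3 : ℝ) : ℂ) * I := by
      funext x
      apply Complex.ext <;> simp
    rw [h2]
    exact (Complex.continuous_ofReal.comp (h 2)).add
      ((Complex.continuous_ofReal.comp (h 3)).mul continuous_const)

theorem flat_of_chart {S : Type} [TopologicalSpace S] {X M : Set S} {q : S}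
    (φ : OpenPartialHomeomorph S (ℂ × ℂ)) (hq : q ∈ φ.source) (N : ℂ → ℂ → ℝ)
    (hc : Continuous (fun p : ℂ × ℂ => N p.1 p.2))
    (hh : ∀ (b : ℂ) (r : ℝ) (y : ℂ), 0 ≤ r → N b ((r : ℂ) * y) = r * N b y)
    (hp : ∀ (b : ℂ) (y : ℂ), y ≠ 0 → 0 < N b y) (h1 : N (φ q).1 (φ q).2 = 1)
    (h : ∀ p ∈ φ.source, (p ∈ X ↔ N (φ p).1 (φ p).2 ≤ 1) ∧ (p ∈ M ↔ N (φ p).1 (φ p).2 = 1)) :
    FlatAt X M q := by
  have hy : (φ q).2 ≠ 0 := by
    intro h0
    rw [h0] at h1
    have h2 := hh (φ q).1 0 0 le_rfl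
    rw [mul_zero, zero_mul] at h2
    linarith
  obtain ⟨e, he, he'⟩ := polar N hc hh hp hy
  refine ⟨(φ.trans e).transHomeomorph Psi, ?_, ?_⟩
  · show q ∈ (φ.trans e).source
    rw [OpenPartialHomeomorph.trans_source]
    refine ⟨hq, ?_⟩
    rw [Set.mem_preimage, he]
    show (φ q).2 / (φ q).2 ∈ slitPlane
    rw [div_self hy]
    exact Complex.one_mem_slitPlane
  · intro p hp'
    have hp1 : p ∈ (φ.trans e).source := hp'
    rw [OpenPartialHomeomorph.trans_source] at hp1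
    have h2 : ((φ.trans e).transHomeomorph Psi) p 0 = 1 - N (φ p).1 (φ p).2 := by
      show (Psi (e (φ p))) 0 = _
      rw [he']
      simp [Psi]
    rw [h2]
    obtain ⟨h3, h4⟩ := h p hp1.1
    refine ⟨h3.trans ⟨fun h => by linarith, fun h => by linarith⟩,
      h4.trans ⟨fun h => by linarith, fun h => by linarith⟩⟩

end

end Pool.Agent.FibC
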