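import Pool.Agent.Lib.FibC.ChiD
import Pool.Agent.Lib.FibC.Pol

/-!
# ChB: Euler characteristics of subsets, the scaling homeomorphism

PROOF. `chi_union`: in the type `↥(A ∪ B)` (locally compact, Hausdorff) the set `A' = {x | x.1 ∈ A}` is closed (`= {x | x.1 ∈ F}`), `A' ≃ₜ A`, `A'ᶜ ≃ₜ B`. The same for `chi_open`
(with `HasChi.openPart`). `scale`: `(b, t) ↦ (b, (N b t / ‖t‖) t)`, inverse `(b, t) ↦ (b, (‖t‖ / N b t) t)`; continuity at `(b, 0)`: the norm of the second component is `N b t`; for the inverse: near `b₀` the continuous function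
`N` has a positive lower bound `c` on `{b near b₀} × unit circle` (tube lemma, compactness of the circle), so the norm `‖t‖² / N b t ≤ ‖t‖ / c`. `chi_image`: `OpenPartialHomeomorph.homeomorphOfImageSubsetSource`.
-/

set_option autoImplicit false

namespace Pool.Agent.FibC

open Complex ComplexConjugate Set

noncomputable section

/-- a subset of `A` in a bigger set -/
private def subH {S : Type} [TopologicalSpace S] {C A : Set S} (A' : Set C) (hAC : A ⊆ C)
    (h : ∀ x : C, x ∈ A' ↔ x.1 ∈ A) : A' ≃ₜ A where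
  toFun x := ⟨x.1.1, (h x.1).1 x.2⟩
  invFun a := ⟨⟨a.1, hAC a.2⟩, (h ⟨a.1, hAC a.2⟩).2 a.2⟩
  left_inv _ := rfl
  right_inv _ := rfl
  continuous_toFun :=
    (continuous_subtype_val.comp continuous_subtype_val).subtype_mk _
  continuous_invFun := (continuous_subtype_val.subtype_mk _).subtype_mk _

private def clo {S : Type} (A B F : Set S) : Set ↥(A ∪ B) := {x | x.1 ∈ F}

private theorem clo_closed {S : Type} [TopologicalSpace S] {A B F : Set S} (hF : IsClosed F) :
    IsClosed (clo A B F) := hF.preimage continuous_subtype_val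

private theorem clo_mem {S : Type} {A B F : Set S} (hA : A ⊆ F) (hB : Disjoint B F)
    (x : ↥(A ∪ B)) : x ∈ clo A B F ↔ x.1 ∈ A := by
  constructor
  · intro h
    rcases x.2 with h1 | h1
    · exact h1
    · exact absurd h (Set.disjoint_left.1 hB h1)
  · intro h
    exact hA h

private theorem clo_compl {S : Type} {A B F : Set S} (hA : A ⊆ F) (hB : Disjoint B F)
    (x : ↥(A ∪ B)) : x ∈ (clo A B F)ᶜ ↔ x.1 ∈ B := by
  constructor
  · intro h
    rcases x.2 with h1 | h1
    · exact absurd (hA h1) h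
    · exact h1
  · intro h
    exact Set.disjoint_left.1 hB h

theorem chi_union {S : Type} [TopologicalSpace S] [T2Space S] {A B F : Set S}
    [LocallyCompactSpace ↥(A ∪ B)] (hF : IsClosed F) (hA : A ⊆ F) (hB : Disjoint B F) {m n : ℤ}
    (h1 : HasChi A m) (h2 : HasChi B n) : HasChi ↥(A ∪ B) (m + n) :=
  HasChi.union (clo A B F) (clo_closed hF)
    (HasChi.homeo (subH (clo A B F) subset_union_left (clo_mem hA hB)).symm h1)
    (HasChi.homeo (subH (clo A B F)ᶜ subset_union_right (clo_compl hA hB)).symm h2)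

theorem chi_closed {S : Type} [TopologicalSpace S] [T2Space S] {A B F : Set S}
    [LocallyCompactSpace ↥(A ∪ B)] (hF : IsClosed F) (hA : A ⊆ F) (hB : Disjoint B F) {m n : ℤ}
    (h1 : HasChi ↥(A ∪ B) (m + n)) (h2 : HasChi B n) : HasChi A m :=
  HasChi.homeo (subH (clo A B F) subset_union_left (clo_mem hA hB))
    (HasChi.closedPart (clo A B F) (clo_closed hF) h1
      (HasChi.homeo (subH (clo A B F)ᶜ subset_union_right (clo_compl hA hB)).symm h2))

theorem chi_open {S : Type} [TopologicalSpace S] [T2Space S] {A B F : Set S}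
    [LocallyCompactSpace ↥(A ∪ B)] (hF : IsClosed F) (hA : A ⊆ F) (hB : Disjoint B F) {m n : ℤ}
    (h1 : HasChi ↥(A ∪ B) (m + n)) (h2 : HasChi A m) : HasChi B n :=
  HasChi.homeo (subH (clo A B F)ᶜ subset_union_right (clo_compl hA hB))
    (HasChi.openPart (clo A B F) (clo_closed hF) h1
      (HasChi.homeo (subH (clo A B F) subset_union_left (clo_mem hA hB)).symm h2))

theorem chi_image {S S' : Type} [TopologicalSpace S] [TopologicalSpace S']
    (e : OpenPartialHomeomorph S S') {A : Set S} (hA : A ⊆ e.source) {n : ℤ} (h : HasChi A n) :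
    HasChi ↥(e '' A) n :=
  HasChi.homeo (e.homeomorphOfImageSubsetSource hA rfl) h

/-- products of sets -/
theorem chi_prod {S S' : Type} [TopologicalSpace S] [TopologicalSpace S'] {A : Set S} {B : Set S'}
    {m n : ℤ} (h1 : HasChi A m) (h2 : HasChi B n) : HasChi ↥(A ×ˢ B) (m * n) :=
  HasChi.homeo (Homeomorph.Set.prod A B).symm (HasChi.prod h1 h2)

theorem scale {B : Type} [TopologicalSpace B] (N : B → ℂ → ℝ)
    (hc : Continuous (fun p : B × ℂ => N p.1 p.2))
    (hh : ∀ (b : B) (r : ℝ) (y : ℂ), 0 ≤ r → N b ((r : ℂ) * y) = r * N b y)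
    (hp : ∀ (b : B) (y : ℂ), y ≠ 0 → 0 < N b y) :
    ∃ e : B × ℂ ≃ₜ B × ℂ, ∀ p, (e p).1 = p.1 ∧ ‖(e p).2‖ = N p.1 p.2 := by
  have h0 : ∀ b, N b 0 = 0 := by
    intro b
    have h := hh b 0 1 le_rfl
    rw [ofReal_zero, zero_mul, zero_mul] at h
    exact h
  have hn : ∀ b y, 0 ≤ N b y := by
    intro b y
    by_cases h : y = 0
    · rw [h, h0]
    · exact (hp b y h).le
  -- the map and its norm
  have f_norm : ∀ b y, ‖((N b y / ‖y‖ : ℝ) : ℂ) * y‖ = N b y := by
    intro b y
    by_cases h : y = 0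
    · rw [h, h0, mul_zero, norm_zero]
    · have h1 : ‖y‖ ≠ 0 := norm_ne_zero_iff.2 h
      rw [norm_mul, Complex.norm_real, Real.norm_of_nonneg (div_nonneg (hn b y) (norm_nonneg y)),
        div_mul_cancel₀ _ h1]
  have g_norm : ∀ b y, ‖((‖y‖ / N b y : ℝ) : ℂ) * y‖ = ‖y‖ / N b y * ‖y‖ := by
    intro b y
    rw [norm_mul, Complex.norm_real, Real.norm_of_nonneg (div_nonneg (norm_nonneg y) (hn b y))]
  have f_cont : Continuous fun p : B × ℂ => ((N p.1 p.2 / ‖p.2‖ : ℝ) : ℂ) * p.2 := by
    rw [continuous_iff_continuousAt]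
    rintro ⟨b, y⟩
    by_cases h : y = 0
    · subst h
      unfold ContinuousAt
      simp only [mul_zero]
      refine squeeze_zero_norm (a := fun p : B × ℂ => N p.1 p.2)
        (fun p => le_of_eq (f_norm p.1 p.2)) ?_
      have h2 := hc.tendsto (b, (0 : ℂ))
      simpa only [h0] using h2
    · refine ContinuousAt.mul ?_ continuous_snd.continuousAt
      refine Complex.continuous_ofReal.continuousAt.comp ?_
      exact hc.continuousAt.div (continuous_snd.norm).continuousAt (norm_ne_zero_iff.2 h)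
  have g_cont : Continuous fun p : B × ℂ => ((‖p.2‖ / N p.1 p.2 : ℝ) : ℂ) * p.2 := by
    rw [continuous_iff_continuousAt]
    rintro ⟨b, y⟩
    by_cases h : y = 0
    · subst h
      -- the lower bound
      have hb : ∃ c : ℝ, 0 < c ∧ ∀ᶠ b' in nhds b, ∀ z : ℂ, ‖z‖ = 1 → c < N b' z := by
        have hcs : IsCompact (Metric.sphere (0 : ℂ) 1) := isCompact_sphere 0 1
        have hne : (Metric.sphere (0 : ℂ) 1).Nonempty := ⟨1, by simp⟩
        obtain ⟨z₀, hz₀, hmin⟩ := hcs.exists_isMinOn (f := fun z => N b z) hne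
          ((hc.comp (continuous_const.prodMk continuous_id)).continuousOn)
        have hz0 : z₀ ≠ 0 := by
          intro h
          rw [h] at hz₀
          simp at hz₀
        have hpos := hp b z₀ hz0
        refine ⟨N b z₀ / 2, by linarith, ?_⟩
        have hop : IsOpen {p : B × ℂ | N b z₀ / 2 < N p.1 p.2} := isOpen_lt continuous_const hc
        obtain ⟨u, v, hu, -, hbu, hsv, huv⟩ := generalized_tube_lemma
          (isCompact_singleton (x := b)) hcs hop (by
            rintro ⟨b', z⟩ ⟨hb', hz⟩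
            rw [Set.mem_singleton_iff] at hb'
            have h5 : N b z₀ ≤ N b z := hmin hz
            change N b z₀ / 2 < N b' z
            have h6 : b' = b := hb'
            rw [h6]
            linarith)
        filter_upwards [hu.mem_nhds (hbu (Set.mem_singleton b))] with b' hb' z hz
        exact huv (Set.mk_mem_prod hb' (hsv (by simpa using hz)))
      obtain ⟨c, hc0, hev⟩ := hb
      have hev2 : ∀ᶠ p : B × ℂ in nhds (b, (0 : ℂ)),
          ‖((‖p.2‖ / N p.1 p.2 : ℝ) : ℂ) * p.2‖ ≤ ‖p.2‖ / c := by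
        have h7 : ∀ᶠ p : B × ℂ in nhds (b, (0 : ℂ)), ∀ z : ℂ, ‖z‖ = 1 → c < N p.1 z :=
          Filter.Tendsto.eventually (f := fun p : B × ℂ => p.1)
            (continuous_fst.tendsto ((b, (0 : ℂ)) : B × ℂ)) hev
        filter_upwards [h7] with p hp7
        rw [g_norm]
        by_cases hy : p.2 = 0
        · rw [hy, norm_zero, mul_zero, zero_div]
        · have h8 : 0 < ‖p.2‖ := norm_pos_iff.2 hy
          have h9 : N p.1 p.2 = ‖p.2‖ * N p.1 (((‖p.2‖⁻¹ : ℝ) : ℂ) * p.2) := by
            rw [hh _ _ _ (inv_nonneg.2 h8.le), ← mul_assoc, mul_inv_cancel₀ h8.ne', one_mul]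
          have h10 : c < N p.1 (((‖p.2‖⁻¹ : ℝ) : ℂ) * p.2) := by
            refine hp7 _ ?_
            rw [norm_mul, Complex.norm_real, Real.norm_of_nonneg (inv_nonneg.2 h8.le),
              inv_mul_cancel₀ h8.ne']
          have h11 : ‖p.2‖ * c ≤ N p.1 p.2 := by
            rw [h9]
            exact mul_le_mul_of_nonneg_left h10.le h8.le
          have h12 : 0 < N p.1 p.2 := hp _ _ hy
          rw [div_mul_eq_mul_div, div_le_div_iff₀ h12 hc0]
          calc ‖p.2‖ * ‖p.2‖ * c = ‖p.2‖ * (‖p.2‖ * c) := by ring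
            _ ≤ ‖p.2‖ * N p.1 p.2 := mul_le_mul_of_nonneg_left h11 h8.le
      unfold ContinuousAt
      simp only [mul_zero]
      refine squeeze_zero_norm' hev2 ?_
      have h13 : Continuous fun p : B × ℂ => ‖p.2‖ / c := (continuous_snd.norm).div_const c
      have h14 := h13.tendsto (b, (0 : ℂ))
      simpa using h14
    · refine ContinuousAt.mul ?_ continuous_snd.continuousAt
      refine Complex.continuous_ofReal.continuousAt.comp ?_
      exact (continuous_snd.norm).continuousAt.div hc.continuousAt (hp b y h).ne'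
  refine ⟨{ toFun := fun p => (p.1, ((N p.1 p.2 / ‖p.2‖ : ℝ) : ℂ) * p.2)
            invFun := fun p => (p.1, ((‖p.2‖ / N p.1 p.2 : ℝ) : ℂ) * p.2)
            left_inv := ?_
            right_inv := ?_
            continuous_toFun := continuous_fst.prodMk f_cont
            continuous_invFun := continuous_fst.prodMk g_cont }, fun p => ⟨rfl, f_norm p.1 p.2⟩⟩
  · rintro ⟨b, y⟩
    refine Prod.ext rfl ?_
    change ((‖((N b y / ‖y‖ : ℝ) : ℂ) * y‖ / N b (((N b y / ‖y‖ : ℝ) : ℂ) * y) : ℝ) : ℂ) *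
      (((N b y / ‖y‖ : ℝ) : ℂ) * y) = y
    by_cases h : y = 0
    · rw [h, mul_zero, mul_zero]
    · have h1 : ‖y‖ ≠ 0 := norm_ne_zero_iff.2 h
      have h2 : N b y ≠ 0 := (hp b y h).ne'
      rw [f_norm, hh b _ y (div_nonneg (hn b y) (norm_nonneg y)), ← mul_assoc, ← ofReal_mul]
      have e : N b y / (N b y / ‖y‖ * N b y) * (N b y / ‖y‖) = 1 := by
        field_simp
      rw [e, ofReal_one, one_mul]
  · rintro ⟨b, y⟩
    refine Prod.ext rfl ?_
    change ((N b (((‖y‖ / N b y : ℝ) : ℂ) * y) / ‖((‖y‖ / N b y : ℝ) : ℂ) * y‖ : ℝ) : ℂ) *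
      (((‖y‖ / N b y : ℝ) : ℂ) * y) = y
    by_cases h : y = 0
    · rw [h, mul_zero, mul_zero]
    · have h1 : ‖y‖ ≠ 0 := norm_ne_zero_iff.2 h
      have h2 : N b y ≠ 0 := (hp b y h).ne'
      rw [g_norm, hh b _ y (div_nonneg (norm_nonneg y) (hn b y)), ← mul_assoc, ← ofReal_mul]
      have e : ‖y‖ / N b y * N b y / (‖y‖ / N b y * ‖y‖) * (‖y‖ / N b y) = 1 := by
        field_simp
      rw [e, ofReal_one, one_mul]

end

end Pool.Agent.FibC
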