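import Pool.Agent.Lib.FibC.XC
import Pool.Agent.Lib.FibC.Pol

/-!
# FlC: flat charts inside the small bidisc

PROOF. `chI`: source `{p | sn p.1 < 1/2 ∧ sn p.2 < ε/2 ∧ p ≠ 0}`, target `{e | 1 < gg e}`, map `inv ∘ LLi ε`, inverse `LL ε ∘ inv` (`gg_inv`, `gg_LLi_lt`,
`LL_LLi`, `LLi_LL`, `re_of_gg`, `inv_inv`). `torC`: `polar` twice (with `B = Unit`, `N = sn`, at `a0` and `b0`):
`(a, b) ↦ (arg (a / a0) + i arg (b / b0), (sn a - 1) + i (sn b - 1))`. `flatC`: compose the inverse of the tube, `chI`, `torC`; `N b y = 4 sn y`;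
`mem_in`, `mem_Kin`, `mem_Min`; `tor e = sn ((sn a - 1) + i (sn b - 1))`; `a0, b0 ≠ 0` since `|sn a0 - 1| ≤ 1/4`.
-/

set_option autoImplicit false

namespace Pool.Agent.FibC

open Complex ComplexConjugate Set

noncomputable section

private theorem gg_one : gg (1 : ℂ × ℂ) = 0 := by
  simp [gg, gg1]

private theorem ne_one_of_gg {q : ℂ × ℂ} (h : 1 < gg q) : q ≠ 1 := by
  rintro rfl
  rw [gg_one] at h
  linarith

private theorem re_gt {z : ℂ} (h : sn z < 1 / 2) : -(1 / 2) < z.re ∧ -(1 / 2) < z.im := by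
  unfold sn at h
  have h1 := (le_max_left _ _).trans_lt h
  have h2 := (le_max_right _ _).trans_lt h
  exact ⟨(abs_lt.1 h1).1, (abs_lt.1 h2).1⟩

/-- properties of the inverse map -/
private theorem back {ε : ℝ} (hε : 0 < ε) {q : ℂ × ℂ} (h : 1 < gg q) :
    LLi ε (LL ε (inv q)) = inv q ∧ sn (LL ε (inv q)).1 < 1 / 2 ∧ sn (LL ε (inv q)).2 < ε / 2 ∧
      LL ε (inv q) ≠ 0 ∧ (inv q).1.re ≠ 0 ∧ (inv q).2.re ≠ 0 := by
  have hg1 : gg (inv q) < 1 := by rw [gg_inv]; exact inv_lt_one_of_one_lt₀ h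
  obtain ⟨hr1, hr2⟩ := re_of_gg hg1.le
  have hr1' : (inv q).1.re ≠ 0 := by linarith
  have hr2' : (inv q).2.re ≠ 0 := by linarith
  have hL : LLi ε (LL ε (inv q)) = inv q := LLi_LL hε hr1' hr2'
  have hsn := (gg_LLi_lt hε (LL ε (inv q))).1 (by rw [hL]; exact hg1)
  refine ⟨hL, hsn.1, hsn.2, ?_, hr1', hr2'⟩
  intro h0
  rw [h0, LLi_zero] at hL
  exact inv_ne (ne_one_of_gg h) hL.symm

private theorem forw {ε : ℝ} (hε : 0 < ε) {p : ℂ × ℂ} (h1 : sn p.1 < 1 / 2) (h2 : sn p.2 < ε / 2)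
    (h0 : p ≠ 0) : 1 < gg (inv (LLi ε p)) ∧ LL ε (inv (inv (LLi ε p))) = p := by
  have hg : gg (LLi ε p) < 1 := (gg_LLi_lt hε p).2 ⟨h1, h2⟩
  have hpos : 0 < gg (LLi ε p) := gg_pos (LLi_ne hε h0 h1.le)
  obtain ⟨ha, hb⟩ := re_gt h1
  constructor
  · rw [gg_inv]
    exact (one_lt_inv₀ hpos).2 hg
  · rw [inv_inv]
    exact LL_LLi hε (by linarith) (by linarith)

theorem chI {ε : ℝ} (hε : 0 < ε) : ∃ e : OpenPartialHomeomorph (ℂ × ℂ) (ℂ × ℂ),
    e.source = {p | sn p.1 < 1 / 2 ∧ sn p.2 < ε / 2 ∧ p ≠ 0} ∧ e.target = {e | 1 < gg e} ∧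
      (∀ p, e p = inv (LLi ε p)) ∧ ∀ p, e.symm p = LL ε (inv p) := by
  refine ⟨{
    toFun := fun p => inv (LLi ε p)
    invFun := fun q => LL ε (inv q)
    source := {p | sn p.1 < 1 / 2 ∧ sn p.2 < ε / 2 ∧ p ≠ 0}
    target := {e | 1 < gg e}
    map_source' := fun p hp => (forw hε hp.1 hp.2.1 hp.2.2).1
    map_target' := fun q hq => ⟨(back hε hq).2.1, (back hε hq).2.2.1, (back hε hq).2.2.2.1⟩
    left_inv' := fun p hp => (forw hε hp.1 hp.2.1 hp.2.2).2
    right_inv' := fun q hq => by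
      show inv (LLi ε (LL ε (inv q))) = q
      rw [(back hε hq).1, inv_inv]
    open_source := ?_
    open_target := ?_
    continuousOn_toFun := ?_
    continuousOn_invFun := ?_ }, rfl, rfl, fun p => rfl, fun p => rfl⟩
  · intro p hp
    exact (ContinuousAt.comp (f := LLi ε) (g := inv) (inv_cont (LLi_ne hε hp.2.2 hp.1.le))
      (LLi_cont ε).continuousAt).continuousWithinAt
  · intro q hq
    obtain ⟨-, -, -, -, h1, h2⟩ := back hε hq
    exact (ContinuousAt.comp (f := inv) (g := LL ε) (LL_cont ε h1 h2)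
      (inv_cont (ne_one_of_gg hq))).continuousWithinAt
  · exact (isOpen_lt (sn_cont.comp continuous_fst) continuous_const).inter
      ((isOpen_lt (sn_cont.comp continuous_snd) continuous_const).inter isOpen_ne)
  · exact isOpen_lt continuous_const gg_cont

private theorem mk_cont {X : Type*} [TopologicalSpace X] {f g : X → ℝ} (hf : Continuous f)
    (hg : Continuous g) : Continuous (fun y => (⟨f y, g y⟩ : ℂ)) := by
  have h : (fun y => (⟨f y, g y⟩ : ℂ)) = fun y => ((f y : ℝ) : ℂ) + ((g y : ℝ) : ℂ) * I := by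
    funext y
    exact Complex.mk_eq_add_mul_I _ _
  rw [h]
  exact (Complex.continuous_ofReal.comp hf).add
    ((Complex.continuous_ofReal.comp hg).mul continuous_const)

/-- rearrangement of the coordinates -/
private def rear : ((ℝ × ℝ) × (ℝ × ℝ)) ≃ₜ (ℂ × ℂ) where
  toFun x := (⟨x.1.2, x.2.2⟩, ⟨x.1.1 - 1, x.2.1 - 1⟩)
  invFun z := ((z.2.re + 1, z.1.re), (z.2.im + 1, z.1.im))
  left_inv x := by simp
  right_inv z := by simp
  continuous_toFun := (mk_cont (by fun_prop) (by fun_prop)).prodMk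
    (mk_cont (by fun_prop) (by fun_prop))
  continuous_invFun := by
    have hre : Continuous Complex.re := Complex.continuous_re
    have him : Continuous Complex.im := Complex.continuous_im
    exact (((hre.comp continuous_snd).add continuous_const).prodMk (hre.comp continuous_fst)).prodMk
      (((him.comp continuous_snd).add continuous_const).prodMk (him.comp continuous_fst))

private theorem pol1 {a0 : ℂ} (ha : a0 ≠ 0) : ∃ e : OpenPartialHomeomorph ℂ (ℝ × ℝ),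
    a0 ∈ e.source ∧ ∀ a, (e a).1 = sn a := by
  obtain ⟨e, he, hea⟩ := polar (B := Unit) (fun _ y => sn y) (sn_cont.comp continuous_snd)
    (fun _ r y hr => sn_mul hr y) (fun _ y hy => sn_pos hy) ha
  refine ⟨(Homeomorph.punitProd ℂ).symm.toOpenPartialHomeomorph.trans
    (e.trans (Homeomorph.punitProd (ℝ × ℝ)).toOpenPartialHomeomorph), ?_, ?_⟩
  · rw [OpenPartialHomeomorph.trans_source, OpenPartialHomeomorph.trans_source]
    refine ⟨mem_univ _, ?_, mem_univ _⟩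
    show (Homeomorph.punitProd ℂ).symm a0 ∈ e.source
    rw [he]
    show a0 / a0 ∈ slitPlane
    rw [div_self ha]
    exact one_mem_slitPlane
  · intro a
    show (e ((Homeomorph.punitProd ℂ).symm a)).2.1 = sn a
    rw [hea]
    rfl

theorem torC {a0 b0 : ℂ} (ha : a0 ≠ 0) (hb : b0 ≠ 0) : ∃ φ : OpenPartialHomeomorph (ℂ × ℂ) (ℂ × ℂ),
    (a0, b0) ∈ φ.source ∧ ∀ e : ℂ × ℂ, (φ e).2 = ⟨sn e.1 - 1, sn e.2 - 1⟩ := by
  obtain ⟨e1, h1, h1'⟩ := pol1 ha
  obtain ⟨e2, h2, h2'⟩ := pol1 hb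
  refine ⟨(e1.prod e2).trans rear.toOpenPartialHomeomorph, ?_, ?_⟩
  · rw [OpenPartialHomeomorph.trans_source]
    exact ⟨⟨h1, h2⟩, mem_univ _⟩
  · intro e
    show (⟨(e1 e.1).1 - 1, (e2 e.2).1 - 1⟩ : ℂ) = _
    rw [h1', h2']

theorem flatC {ε : ℝ} (h : IsTube ε) {p : ℂ × ℂ} (h1 : sn p.1 < 1 / 2) (h2 : sn p.2 < ε / 2)
    (hM : Phi p ∈ MM ε) : FlatAt (XX ε) (MM ε) (Phi p) := by
  have hε := h.pos
  obtain ⟨T, hTs, hT⟩ := h.emb
  obtain ⟨C, c1, -, c3, -⟩ := chI hε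
  have hpU : p ∈ UU ε := by
    refine ⟨?_, by linarith⟩
    have := le_sn p.1
    linarith
  have hq0 : T.symm (Phi p) = p := by
    rw [← hT p hpU]
    exact T.left_inv (by rw [hTs]; exact hpU)
  have hqt : Phi p ∈ T.target := by
    rw [← hT p hpU]
    exact T.map_source (by rw [hTs]; exact hpU)
  have hMin := (mem_in h hpU h2.le).2.1 hM
  obtain ⟨m1, m2, m3, m4⟩ := (mem_Min hε p).1 hMin
  set e0 := inv (LLi ε p) with he0
  have hne : ∀ z : ℂ, |sn z - 1| ≤ 1 / 4 → z ≠ 0 := by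
    rintro z hz rfl
    rw [sn_eq_zero.2 rfl] at hz
    norm_num at hz
  have ht1 : |sn e0.1 - 1| ≤ 1 / 4 := by rw [← m4]; exact le_max_left _ _
  have ht2 : |sn e0.2 - 1| ≤ 1 / 4 := by rw [← m4]; exact le_max_right _ _
  obtain ⟨φ, f1, f2⟩ := torC (hne _ ht1) (hne _ ht2)
  have hsnt : ∀ e : ℂ × ℂ, sn (φ e).2 = tor e := by
    intro e
    rw [f2]
    rfl
  refine flat_of_chart (T.symm.trans (C.trans φ)) ?_ (fun _ y => 4 * sn y) ?_ ?_ ?_ ?_ ?_
  · rw [OpenPartialHomeomorph.trans_source, OpenPartialHomeomorph.trans_source]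
    refine ⟨hqt, ?_, ?_⟩
    · show T.symm (Phi p) ∈ C.source
      rw [hq0, c1]
      exact ⟨h1, h2, m1⟩
    · show C (T.symm (Phi p)) ∈ φ.source
      rw [hq0, c3]
      exact f1
  · exact continuous_const.mul (sn_cont.comp continuous_snd)
  · intro b r y hr
    show 4 * sn ((r : ℂ) * y) = r * (4 * sn y)
    rw [sn_mul hr]
    ring
  · intro b y hy
    have := sn_pos hy
    show 0 < 4 * sn y
    linarith
  · show 4 * sn (φ (C (T.symm (Phi p)))).2 = 1
    rw [hq0, c3, hsnt, ← he0, m4]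
    norm_num
  · intro q hq
    rw [OpenPartialHomeomorph.trans_source, OpenPartialHomeomorph.trans_source] at hq
    obtain ⟨hq1, hq2, -⟩ := hq
    have hq2' : T.symm q ∈ C.source := hq2
    rw [c1] at hq2'
    obtain ⟨d1, d2, d3⟩ := hq2'
    have hqU : T.symm q ∈ UU ε := by
      rw [← hTs]
      exact T.symm.map_source hq1
    have hqP : Phi (T.symm q) = q := by
      rw [← hT _ hqU]
      exact T.right_inv hq1
    show (q ∈ XX ε ↔ 4 * sn (φ (C (T.symm q))).2 ≤ 1) ∧ (q ∈ MM ε ↔ 4 * sn (φ (C (T.symm q))).2 = 1)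
    have h6 := mem_in h hqU d2.le
    rw [hqP, mem_Kin hε, mem_Min hε] at h6
    rw [h6.1, h6.2, c3, hsnt]
    constructor
    · constructor
      · rintro ⟨_, _, _, h7⟩
        linarith
      · intro h7
        exact ⟨d3, d1.le, d2.le, by linarith⟩
    · constructor
      · rintro ⟨_, _, _, h7⟩
        linarith
      · intro h7
        exact ⟨d3, d1.le, d2.le, by linarith⟩

end

end Pool.Agent.FibC
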