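import Pool.Agent.Lib.FibC.Defs
import Pool.Agent.Lib.FibC.Stm

/-!
# SeD: definitions for the Seifert structure

`ech ε` is the chart of the torus, with coordinate `ω = 1 / v`; `v` is the coordinate of the base, `1 + v` the first
argument of `Vb`, `v` the second coordinate of the tube. `sl x` are the slopes of `x : Torus`.
-/

set_option autoImplicit false

namespace Pool.Agent.FibC

open Complex ComplexConjugate Set

noncomputable section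

def ss (ε : ℝ) (ω : ℂ) : ℂ := ((ε / 4 * (‖ω‖ / sn ω) ^ 2 : ℝ) : ℂ) * conj ω

/-- the chart of the torus -/
def ech (ε : ℝ) (ω : ℂ) : Torus :=
  (Circle.exp (Real.arctan (ss ε ω).re), Circle.exp (Real.arctan (ss ε ω).im))

/-- the slopes -/
def sl (x : Torus) : ℂ := ⟨(x.1 : ℂ).im / (x.1 : ℂ).re, (x.2 : ℂ).im / (x.2 : ℂ).re⟩

/-- from slopes to the base coordinate -/
def vs (ε : ℝ) (s : ℂ) : ℂ := ((ε / (4 * sn s ^ 2) : ℝ) : ℂ) * s

/-- the square in the torus -/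
def Sq : Set Torus := {x | 0 < (x.1 : ℂ).re ∧ 0 < (x.2 : ℂ).re ∧ sn (sl x) ≤ 1 / 2}

/-- a point of `{tor = 1/4}` -/
def kap (x : Torus) (s : Circle) : ℂ × ℂ :=
  ((((1 + (s : ℂ).re / (4 * sn s)) / sn x.1 : ℝ) : ℂ) * (x.1 : ℂ),
    (((1 + (s : ℂ).im / (4 * sn s)) / sn x.2 : ℝ) : ℂ) * (x.2 : ℂ))

open Classical in
/-- the part over the base coordinates `ε / 2 ≤ sn v` -/
def Fo (ε : ℝ) (v : ℂ) (s : Circle) : S2 × ℂ :=
  if ε ≤ sn v then Vb (1 + v) s else Phi ((((nu ε v s)⁻¹ : ℝ) : ℂ) * (s : ℂ), v)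

/-- the part over the torus minus the square -/
def Fi (ε : ℝ) (x : Torus) (s : Circle) : S2 × ℂ := Phi (LL ε (inv (kap x s)))

open Classical in
def FF (ε : ℝ) (z : Torus × Circle) : S2 × ℂ :=
  if z.1 ∈ Sq then Fo ε (vs ε (sl z.1)) z.2 else Fi ε z.1 z.2

/-- the two solid tori -/
def om0 (y : ℂ) (t : Circle) : ℂ := y ^ 3 * conj (t : ℂ) / ((4 * ‖y‖ ^ 2 : ℝ) : ℂ)

def G0 (z : ℂ × Circle) : S2 × ℂ :=
  (PP 1 (z.1 * conj (z.2 : ℂ) / (4 * (1 + om0 z.1 z.2))), un (1 + om0 z.1 z.2) * (z.2 : ℂ))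

def om1 (y : ℂ) (t : Circle) : ℂ := -1 + y ^ 3 * (t : ℂ) / ((4 * ‖y‖ ^ 2 : ℝ) : ℂ)

def G1 (z : ℂ × Circle) : S2 × ℂ :=
  (PP (z.1 * (z.2 : ℂ) / (4 * om1 z.1 z.2)) 1, (z.2 : ℂ) * conj (un (om1 z.1 z.2)))

end

end Pool.Agent.FibC
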