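import Pool.Agent.Lib.FibC.ChA
import Pool.Agent.Lib.FibC.ChB
import Pool.Agent.Lib.FibC.FlC
import Pool.Agent.Lib.FibC.SeD

/-!
# ChX: the Euler characteristic of the region

PROOF. `chi_W`: `univ ×ˢ {‖w‖ ≤ 1}`, `2 * 1`. `chi_out`: `W = A ∪ B`, `B = Phi '' {‖t‖ ≤ 1, sn v < ε}`, homeomorphic (`IsTube.emb`) to `{‖t‖ ≤ 1} ×ˢ {sn v < ε}`, `1 * 1`; `A = W \ B` is closed in `S2 × ℂ` (`F = A`: `B = W ∩ Phi '' {p ∈ UU ε | sn p.2 < ε}`, `Phi_open`);
`chi_closed` with `2 = 1 + 1`. `chi_R1`: by `scale` (with `B = ℂ`, `N = nu ε`) the set `{p | ε/2 ≤ sn p.2 < ε, nu ≤ 1}` is homeomorphic (after `Prod.swap`) to `{ε/2 ≤ sn v < ε} ×ˢ {‖t‖ ≤ 1}`: `0 * 1`. `chi_T`: `{e | 1 < gg e ∧ tor e ≤ 1/4}` is homeomorphic to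
`Sqᶜ ×ˢ {y | sn y ≤ 1/4}` by `e ↦ ((un e.1, un e.2), (sn e.1 - 1) + i (sn e.2 - 1))`, inverse `(x, y) ↦ (((1 + y.re) / sn x.1) x.1, ((1 + y.im) / sn x.2) x.2)`; for `tor e ≤ 1/4`: `1 < gg e` iff `x ∉ Sq`. `Sq` is homeomorphic to `{s | sn s ≤ 1/2}` (slopes `sl`,
inverse `s ↦ (exp (i arctan s.re), exp (i arctan s.im))`), so `χ(Sqᶜ) = 0 - 1` (`Sq` is closed). `chi_R2`: `{p ∈ Kin | sn p.2 < ε/2}` is the image of that set under the inverse of `chI` (`mem_Kin`, `inv_edge`, `gg_LLi_lt`, `gg_inv`). `chi_X`: `XX = A ∪ (R1 ∪ R2)`, `A = W \ Phi '' {‖t‖ ≤ 1, sn v < ε}`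
(closed, `F = A`), `R1 = Phi '' {ε/2 ≤ sn v < ε, nu ≤ 1}`, `R2 = Phi '' {p ∈ Kin | sn p.2 < ε/2}`; `R1 ∪ R2` is locally compact (open in the compact `XX`), `R1` is closed in it (`F` = complement of the open set `Phi '' {p ∈ UU ε | sn p.2 < ε/2}`); points of `Kin` with `sn p.2 = ε/2` are in `Kmid`
(`inv_edge`). `1 + (0 + (-1)) = 0`.
-/

set_option autoImplicit false

namespace Pool.Agent.FibC

open Complex ComplexConjugate Set

noncomputable section

private theorem cx_congr {S : Type} [TopologicalSpace S] {A B : Set S} (h : A = B) {n : ℤ}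
    (hA : HasChi A n) : HasChi B n := by
  subst h; exact hA

private theorem cx_pre {S S' : Type} [TopologicalSpace S] [TopologicalSpace S'] (g : S ≃ₜ S')
    {A : Set S} {B : Set S'} (h : ∀ x, x ∈ A ↔ g x ∈ B) {n : ℤ} (hB : HasChi B n) : HasChi A n :=
  HasChi.homeo (g.subtype h).symm hB

theorem chi_W : HasChi {q : S2 × ℂ | ‖q.2‖ ≤ 1} 2 := by
  have h1 : HasChi (univ : Set S2) 2 := HasChi.homeo (Homeomorph.Set.univ S2).symm chi_S2
  have h2 := chi_prod h1 chi_disc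
  rw [mul_one] at h2
  refine cx_congr ?_ h2
  ext q
  simp

private theorem cx_le {ε : ℝ} (h : IsTube ε) {p : ℂ × ℂ} (hp : p ∈ UU ε) :
    ‖(Phi p).2‖ ≤ 1 ↔ ‖p.1‖ ≤ 1 := by
  rw [le_iff_lt_or_eq, le_iff_lt_or_eq, h.lt p hp, h.eq p hp]

private def cxO (ε c : ℝ) : Set (ℂ × ℂ) := {p | ‖p.1‖ < 1 + ε ∧ sn p.2 < c}

private theorem cxO_open (ε c : ℝ) : IsOpen (cxO ε c) :=
  (isOpen_lt (f := fun p : ℂ × ℂ => ‖p.1‖) (by fun_prop) continuous_const).inter
    (isOpen_lt (f := fun p : ℂ × ℂ => sn p.2) (sn_cont.comp continuous_snd) continuous_const)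

private theorem cxO_sub {ε c : ℝ} (hc : c ≤ 2 * ε) : cxO ε c ⊆ UU ε := fun _ hp =>
  ⟨hp.1, hp.2.trans_le hc⟩

private theorem cx_sub {ε : ℝ} (h : IsTube ε) : {p : ℂ × ℂ | ‖p.1‖ ≤ 1 ∧ sn p.2 < ε} ⊆ cxO ε ε :=
  fun _ hp => ⟨by have := hp.1; have := h.pos; linarith, hp.2⟩

private theorem cx_diff {ε : ℝ} (h : IsTube ε) :
    ({q : S2 × ℂ | ‖q.2‖ ≤ 1} \ Phi '' {p | ‖p.1‖ ≤ 1 ∧ sn p.2 < ε}) =
      {q | ‖q.2‖ ≤ 1} \ Phi '' cxO ε ε := by
  have hpos := h.pos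
  ext q
  constructor
  · rintro ⟨h1, h2⟩
    refine ⟨h1, ?_⟩
    rintro ⟨p, hp, rfl⟩
    exact h2 ⟨p, ⟨(cx_le h (cxO_sub (by linarith) hp)).1 h1, hp.2⟩, rfl⟩
  · rintro ⟨h1, h2⟩
    exact ⟨h1, fun h3 => h2 (image_mono (cx_sub h) h3)⟩

private theorem cx_W_closed : IsClosed {q : S2 × ℂ | ‖q.2‖ ≤ 1} :=
  isClosed_le (by fun_prop) continuous_const

theorem out_closed {ε : ℝ} (h : IsTube ε) :
    IsClosed ({q : S2 × ℂ | ‖q.2‖ ≤ 1} \ Phi '' {p | ‖p.1‖ ≤ 1 ∧ sn p.2 < ε}) := by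
  rw [cx_diff h]
  exact cx_W_closed.sdiff (Phi_open h (cxO_open _ _) (cxO_sub (by have := h.pos; linarith)))

private theorem cx_Phi {ε : ℝ} (h : IsTube ε) {A : Set (ℂ × ℂ)} (hA : A ⊆ UU ε) {n : ℤ}
    (hn : HasChi A n) : HasChi ↥(Phi '' A) n := by
  obtain ⟨T, hT, hTe⟩ := h.emb
  have h1 := chi_image T (A := A) (by rw [hT]; exact hA) hn
  refine cx_congr ?_ h1
  exact image_congr fun p hp => hTe p (hA hp)

private theorem cx_lc : LocallyCompactSpace (S2 × ℂ) := by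
  have := S2_compact
  infer_instance

theorem chi_out {ε : ℝ} (h : IsTube ε) :
    HasChi ↥({q : S2 × ℂ | ‖q.2‖ ≤ 1} \ Phi '' {p | ‖p.1‖ ≤ 1 ∧ sn p.2 < ε}) 1 := by
  have := cx_lc
  have hpos := h.pos
  have hB : HasChi ↥(Phi '' {p | ‖p.1‖ ≤ 1 ∧ sn p.2 < ε}) 1 := by
    refine cx_Phi h ((cx_sub h).trans (cxO_sub (by linarith))) ?_
    have h2 := chi_prod chi_disc (chi_sqo hpos)
    rw [mul_one] at h2
    exact h2
  have hun : ({q : S2 × ℂ | ‖q.2‖ ≤ 1} \ Phi '' {p | ‖p.1‖ ≤ 1 ∧ sn p.2 < ε}) ∪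
      Phi '' {p | ‖p.1‖ ≤ 1 ∧ sn p.2 < ε} = {q : S2 × ℂ | ‖q.2‖ ≤ 1} := by
    refine sdiff_union_of_subset ?_
    rintro q ⟨p, hp, rfl⟩
    exact (cx_le h (cxO_sub (by linarith) (cx_sub h hp))).2 hp.1
  have : LocallyCompactSpace ↥(({q : S2 × ℂ | ‖q.2‖ ≤ 1} \ Phi '' {p | ‖p.1‖ ≤ 1 ∧ sn p.2 < ε}) ∪
      Phi '' {p | ‖p.1‖ ≤ 1 ∧ sn p.2 < ε}) := by
    rw [hun]
    exact cx_W_closed.locallyCompactSpace
  refine chi_closed (out_closed h) Subset.rfl disjoint_sdiff_right (m := 1) (n := 1) ?_ hB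
  exact cx_congr hun.symm chi_W

theorem chi_R1 {ε : ℝ} (h : IsTube ε) :
    HasChi ↥(Phi '' {p | ε / 2 ≤ sn p.2 ∧ sn p.2 < ε ∧ nu ε p.2 p.1 ≤ 1}) 0 := by
  have hpos := h.pos
  refine cx_Phi h ?_ ?_
  · rintro p ⟨-, h2, h3⟩
    refine ⟨?_, by linarith⟩
    have := nu_ge ε p.2 p.1
    linarith
  · obtain ⟨e, he⟩ := scale (B := ℂ) (nu ε) (nu_cont hpos) (fun b r y hr => nu_mul ε b hr y)
      (fun b y hy => nu_pos ε b hy)
    have h2 := chi_prod (chi_ann hpos) chi_disc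
    rw [zero_mul] at h2
    refine cx_pre ((Homeomorph.prodComm ℂ ℂ).trans e) (fun p => ?_) h2
    have h3 := he (p.2, p.1)
    simp only [mem_ofPred_eq, mem_prod, Homeomorph.trans_apply, Homeomorph.coe_prodComm, Prod.swap,
      h3.1, h3.2]
    tauto

private theorem cx_re {z : Circle} (h : 2 * |(z : ℂ).im| ≤ (z : ℂ).re) : 0 < (z : ℂ).re := by
  have h1 : 0 ≤ (z : ℂ).re := le_trans (by positivity) h
  refine lt_of_le_of_ne h1 fun h2 => ?_
  rw [← h2] at h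
  have h3 : |(z : ℂ).im| = 0 := le_antisymm (by linarith) (abs_nonneg _)
  have h4 := Circle.normSq_coe z
  rw [Complex.normSq_apply, ← h2, abs_eq_zero.1 h3] at h4
  norm_num at h4

private theorem cx_Sq (x : Torus) : x ∈ Sq ↔
    2 * |(x.1 : ℂ).im| ≤ (x.1 : ℂ).re ∧ 2 * |(x.2 : ℂ).im| ≤ (x.2 : ℂ).re := by
  have key : ∀ z : Circle, 0 < (z : ℂ).re →
      (|(z : ℂ).im / (z : ℂ).re| ≤ 1 / 2 ↔ 2 * |(z : ℂ).im| ≤ (z : ℂ).re) := by
    intro z hz
    rw [abs_div, abs_of_pos hz, div_le_iff₀ hz]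
    constructor <;> intro h <;> linarith
  constructor
  · rintro ⟨h1, h2, h3⟩
    unfold sn sl at h3
    simp only [max_le_iff] at h3
    exact ⟨(key _ h1).1 h3.1, (key _ h2).1 h3.2⟩
  · rintro ⟨h1, h2⟩
    refine ⟨cx_re h1, cx_re h2, ?_⟩
    unfold sn sl
    simp only [max_le_iff]
    exact ⟨(key _ (cx_re h1)).2 h1, (key _ (cx_re h2)).2 h2⟩

private theorem cx_coe_cont : Continuous (fun z : Circle => (z : ℂ)) := continuous_subtype_val

private theorem cx_Sq_closed : IsClosed Sq := by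
  have h : Sq = {x : Torus | 2 * |(x.1 : ℂ).im| ≤ (x.1 : ℂ).re} ∩
      {x : Torus | 2 * |(x.2 : ℂ).im| ≤ (x.2 : ℂ).re} := by
    ext x; exact cx_Sq x
  have c1 : Continuous fun x : Torus => (x.1 : ℂ) := cx_coe_cont.comp continuous_fst
  have c2 : Continuous fun x : Torus => (x.2 : ℂ) := cx_coe_cont.comp continuous_snd
  rw [h]
  exact (isClosed_le (continuous_const.mul (continuous_im.comp c1).abs) (continuous_re.comp c1)).inter
    (isClosed_le (continuous_const.mul (continuous_im.comp c2).abs) (continuous_re.comp c2))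

private theorem cx_exp_re (t : ℝ) : ((Circle.exp (Real.arctan t) : Circle) : ℂ).re = 1 / √(1 + t ^ 2) := by
  rw [Circle.coe_exp, Complex.exp_ofReal_mul_I_re, Real.cos_arctan]

private theorem cx_exp_im (t : ℝ) : ((Circle.exp (Real.arctan t) : Circle) : ℂ).im = t / √(1 + t ^ 2) := by
  rw [Circle.coe_exp, Complex.exp_ofReal_mul_I_im, Real.sin_arctan]

private theorem cx_exp_div (t : ℝ) : ((Circle.exp (Real.arctan t) : Circle) : ℂ).im /
    ((Circle.exp (Real.arctan t) : Circle) : ℂ).re = t := by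
  rw [cx_exp_re, cx_exp_im]
  have : 0 < √(1 + t ^ 2) := Real.sqrt_pos.2 (by positivity)
  field_simp

private theorem cx_exp_re_pos (t : ℝ) : 0 < ((Circle.exp (Real.arctan t) : Circle) : ℂ).re := by
  rw [cx_exp_re]
  have : 0 < √(1 + t ^ 2) := Real.sqrt_pos.2 (by positivity)
  positivity

private theorem cx_exp_eq {z : Circle} (hz : 0 < (z : ℂ).re) :
    Circle.exp (Real.arctan ((z : ℂ).im / (z : ℂ).re)) = z := by
  have h1 : √(1 + ((z : ℂ).im / (z : ℂ).re) ^ 2) = 1 / (z : ℂ).re := by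
    have h2 : 1 + ((z : ℂ).im / (z : ℂ).re) ^ 2 = (1 / (z : ℂ).re) ^ 2 := by
      have h3 := Circle.normSq_coe z
      rw [Complex.normSq_apply] at h3
      field_simp
      linarith
    rw [h2, Real.sqrt_sq (by positivity)]
  apply Circle.ext
  apply Complex.ext
  · rw [cx_exp_re, h1]; field_simp
  · rw [cx_exp_im, h1]; field_simp

private def cxSq : Sq ≃ₜ {s : ℂ | sn s ≤ 1 / 2} where
  toFun x := ⟨sl x.1, x.2.2.2⟩
  invFun s := ⟨(Circle.exp (Real.arctan s.1.re), Circle.exp (Real.arctan s.1.im)),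
    ⟨cx_exp_re_pos _, cx_exp_re_pos _, by
      have h1 : sl (Circle.exp (Real.arctan s.1.re), Circle.exp (Real.arctan s.1.im)) = s.1 := by
        unfold sl
        apply Complex.ext
        · exact cx_exp_div _
        · exact cx_exp_div _
      rw [h1]
      exact s.2⟩⟩
  left_inv x := by
    apply Subtype.ext
    apply Prod.ext
    · exact cx_exp_eq x.2.1
    · exact cx_exp_eq x.2.2.1
  right_inv s := by
    apply Subtype.ext
    show sl (Circle.exp (Real.arctan s.1.re), Circle.exp (Real.arctan s.1.im)) = s.1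
    unfold sl
    apply Complex.ext
    · exact cx_exp_div _
    · exact cx_exp_div _
  continuous_toFun := by
    refine Continuous.subtype_mk ?_ _
    have c1 : Continuous fun x : Sq => (x.1.1 : ℂ) :=
      cx_coe_cont.comp (continuous_fst.comp continuous_subtype_val)
    have c2 : Continuous fun x : Sq => (x.1.2 : ℂ) :=
      cx_coe_cont.comp (continuous_snd.comp continuous_subtype_val)
    have h1 : Continuous fun x : Sq => ((((x.1.1 : ℂ).im / (x.1.1 : ℂ).re : ℝ) : ℂ) +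
        (((x.1.2 : ℂ).im / (x.1.2 : ℂ).re : ℝ) : ℂ) * I) :=
      (continuous_ofReal.comp ((continuous_im.comp c1).div (continuous_re.comp c1)
        fun x => x.2.1.ne')).add ((continuous_ofReal.comp ((continuous_im.comp c2).div
        (continuous_re.comp c2) fun x => x.2.2.1.ne')).mul continuous_const)
    refine h1.congr fun x => ?_
    unfold sl
    exact (Complex.mk_eq_add_mul_I _ _).symm
  continuous_invFun := by
    refine Continuous.subtype_mk ?_ _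
    exact (Circle.exp.continuous.comp (Real.continuous_arctan.comp
      (continuous_re.comp continuous_subtype_val))).prodMk
      (Circle.exp.continuous.comp (Real.continuous_arctan.comp
      (continuous_im.comp continuous_subtype_val)))

theorem chi_Sq : HasChi ↥(Sqᶜ : Set Torus) (-1) := by
  have h1 : HasChi Sq 1 := HasChi.homeo cxSq.symm (chi_sqc (by norm_num))
  exact HasChi.openPart (m := 1) (n := -1) Sq cx_Sq_closed chi_torus h1

private theorem cx_un_norm {z : ℂ} (hz : z ≠ 0) : ‖un z‖ = 1 := by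
  unfold un
  rw [norm_div, Complex.norm_real, norm_norm, div_self (norm_ne_zero_iff.2 hz)]

private def cu (z : ℂ) (hz : z ≠ 0) : Circle := ⟨un z, mem_sphere_zero_iff_norm.2 (cx_un_norm hz)⟩

private theorem cu_coe (z : ℂ) (hz : z ≠ 0) : ((cu z hz : Circle) : ℂ) = un z := rfl

private theorem cx_gg1 {z : ℂ} (h : |sn z - 1| ≤ 1 / 4) :
    gg1 (z - 1) ≤ 1 ↔ 2 * |z.im| ≤ z.re := by
  unfold gg1
  simp only [sub_re, sub_im, one_re, one_im, sub_zero, max_le_iff]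
  constructor
  · rintro ⟨-, h2⟩; linarith
  · intro h2
    have h3 : 0 ≤ z.re := le_trans (by positivity) h2
    have h4 : sn z = z.re := by
      unfold sn
      rw [abs_of_nonneg h3, max_eq_left]
      have := abs_nonneg z.im
      linarith
    rw [h4] at h
    exact ⟨by linarith, by linarith⟩

private theorem cx_un_le {z : ℂ} (hz : z ≠ 0) :
    2 * |(un z).im| ≤ (un z).re ↔ 2 * |z.im| ≤ z.re := by
  have h0 : 0 < ‖z‖ := norm_pos_iff.2 hz
  unfold un
  rw [Complex.div_ofReal_im, Complex.div_ofReal_re, abs_div, abs_of_pos h0, mul_div_assoc',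
    div_le_div_iff_of_pos_right h0]

private theorem cx_ne {z : ℂ} (h : |sn z - 1| ≤ 1 / 4) : z ≠ 0 := by
  rintro rfl
  rw [sn_eq_zero.2 rfl] at h
  norm_num at h

private theorem cx_un_mul {r : ℝ} (hr : 0 < r) (x : Circle) : un ((r : ℂ) * (x : ℂ)) = x := by
  unfold un
  rw [norm_mul, Complex.norm_real, Real.norm_eq_abs, abs_of_pos hr, Circle.norm_coe, mul_one]
  have : (r : ℂ) ≠ 0 := by exact_mod_cast hr.ne'
  field_simp

private theorem cx_sn_un {z : ℂ} (hz : z ≠ 0) : sn (un z) = sn z / ‖z‖ := by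
  have h0 : 0 < ‖z‖ := norm_pos_iff.2 hz
  have h1 : un z = ((‖z‖⁻¹ : ℝ) : ℂ) * z := by
    unfold un
    push_cast
    rw [div_eq_inv_mul]
  rw [h1, sn_mul (by positivity), inv_mul_eq_div]

private theorem cx_un_back {z : ℂ} (hz : z ≠ 0) :
    (((1 + (sn z - 1)) / sn (un z) : ℝ) : ℂ) * un z = z := by
  have h0 : 0 < ‖z‖ := norm_pos_iff.2 hz
  have h1 := sn_pos hz
  rw [cx_sn_un hz]
  have h2 : (1 + (sn z - 1)) / (sn z / ‖z‖) = ‖z‖ := by
    field_simp
    ring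
  rw [h2]
  unfold un
  have : (‖z‖ : ℂ) ≠ 0 := by exact_mod_cast h0.ne'
  field_simp

private theorem cx_tor {e : ℂ × ℂ} (h : tor e ≤ 1 / 4) :
    |sn e.1 - 1| ≤ 1 / 4 ∧ |sn e.2 - 1| ≤ 1 / 4 := by
  unfold tor at h
  exact max_le_iff.1 h

private theorem cx_mem {e : ℂ × ℂ} (h : tor e ≤ 1 / 4) :
    ((cu e.1 (cx_ne (cx_tor h).1), cu e.2 (cx_ne (cx_tor h).2)) : Torus) ∈ Sq ↔ gg e ≤ 1 := by
  obtain ⟨h1, h2⟩ := cx_tor h
  rw [cx_Sq]
  simp only [cu_coe]
  rw [cx_un_le (cx_ne h1), cx_un_le (cx_ne h2), ← cx_gg1 h1, ← cx_gg1 h2]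
  unfold gg
  exact max_le_iff.symm

/-- the point with direction `x` and radii `1 + y.re`, `1 + y.im` -/
private def cxB (x : Torus) (y : ℂ) : ℂ × ℂ :=
  ((((1 + y.re) / sn x.1 : ℝ) : ℂ) * (x.1 : ℂ), (((1 + y.im) / sn x.2 : ℝ) : ℂ) * (x.2 : ℂ))

private theorem cx_sn_c (x : Circle) : 0 < sn (x : ℂ) := sn_pos (Circle.coe_ne_zero x)

private theorem cx_y {y : ℂ} (h : sn y ≤ 1 / 4) : 0 < 1 + y.re ∧ 0 < 1 + y.im := by
  unfold sn at h
  obtain ⟨h1, h2⟩ := max_le_iff.1 h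
  exact ⟨by linarith [(abs_le.1 h1).1], by linarith [(abs_le.1 h2).1]⟩

private theorem cxB_sn (x : Torus) {y : ℂ} (h : sn y ≤ 1 / 4) :
    sn (cxB x y).1 = 1 + y.re ∧ sn (cxB x y).2 = 1 + y.im := by
  obtain ⟨h1, h2⟩ := cx_y h
  have h3 := cx_sn_c x.1
  have h4 := cx_sn_c x.2
  constructor
  · show sn ((((1 + y.re) / sn x.1 : ℝ) : ℂ) * (x.1 : ℂ)) = _
    rw [sn_mul (by positivity), div_mul_cancel₀ _ h3.ne']
  · show sn ((((1 + y.im) / sn x.2 : ℝ) : ℂ) * (x.2 : ℂ)) = _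
    rw [sn_mul (by positivity), div_mul_cancel₀ _ h4.ne']

private theorem cxB_tor (x : Torus) {y : ℂ} (h : sn y ≤ 1 / 4) : tor (cxB x y) ≤ 1 / 4 := by
  obtain ⟨h1, h2⟩ := cxB_sn x h
  unfold tor
  rw [h1, h2, add_sub_cancel_left, add_sub_cancel_left]
  exact h

private theorem cxB_un (x : Torus) {y : ℂ} (h : sn y ≤ 1 / 4) :
    un (cxB x y).1 = x.1 ∧ un (cxB x y).2 = x.2 := by
  obtain ⟨h1, h2⟩ := cx_y h
  have h3 := cx_sn_c x.1
  have h4 := cx_sn_c x.2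
  exact ⟨cx_un_mul (by positivity) _, cx_un_mul (by positivity) _⟩

private def cxT : {e : ℂ × ℂ | 1 < gg e ∧ tor e ≤ 1 / 4} ≃ₜ
    ↥((Sqᶜ : Set Torus) ×ˢ {y : ℂ | sn y ≤ 1 / 4}) where
  toFun e := ⟨((cu e.1.1 (cx_ne (cx_tor e.2.2).1), cu e.1.2 (cx_ne (cx_tor e.2.2).2)),
    ((sn e.1.1 - 1 : ℝ) : ℂ) + ((sn e.1.2 - 1 : ℝ) : ℂ) * I),
    ⟨fun h => absurd ((cx_mem e.2.2).1 h) (not_le.2 e.2.1), by
      have h := e.2.2
      unfold tor at h
      show sn _ ≤ 1 / 4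
      rw [← Complex.mk_eq_add_mul_I]
      exact h⟩⟩
  invFun q := ⟨cxB q.1.1 q.1.2, by
    have hq := cxB_tor q.1.1 q.2.2
    refine ⟨?_, hq⟩
    by_contra hcon
    refine q.2.1 ?_
    have h1 := (cx_mem hq).2 (not_lt.1 hcon)
    have h2 : ((cu (cxB q.1.1 q.1.2).1 (cx_ne (cx_tor hq).1),
        cu (cxB q.1.1 q.1.2).2 (cx_ne (cx_tor hq).2)) : Torus) = q.1.1 := by
      apply Prod.ext
      · exact Circle.ext (cxB_un q.1.1 q.2.2).1
      · exact Circle.ext (cxB_un q.1.1 q.2.2).2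
    rw [h2] at h1
    exact h1⟩
  left_inv e := by
    apply Subtype.ext
    have h1 := cx_ne (cx_tor e.2.2).1
    have h2 := cx_ne (cx_tor e.2.2).2
    apply Prod.ext
    · show ((((1 + ((((sn e.1.1 - 1 : ℝ) : ℂ) + ((sn e.1.2 - 1 : ℝ) : ℂ) * I) : ℂ).re) / sn (un e.1.1)) : ℝ) : ℂ) * un e.1.1 = e.1.1
      rw [← Complex.mk_eq_add_mul_I]
      exact cx_un_back h1
    · show ((((1 + ((((sn e.1.1 - 1 : ℝ) : ℂ) + ((sn e.1.2 - 1 : ℝ) : ℂ) * I) : ℂ).im) / sn (un e.1.2)) : ℝ) : ℂ) * un e.1.2 = e.1.2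
      rw [← Complex.mk_eq_add_mul_I]
      exact cx_un_back h2
  right_inv q := by
    apply Subtype.ext
    have h1 := cxB_un q.1.1 q.2.2
    have h2 := cxB_sn q.1.1 q.2.2
    apply Prod.ext
    · apply Prod.ext
      · exact Circle.ext h1.1
      · exact Circle.ext h1.2
    · show ((sn (cxB q.1.1 q.1.2).1 - 1 : ℝ) : ℂ) + ((sn (cxB q.1.1 q.1.2).2 - 1 : ℝ) : ℂ) * I = q.1.2
      rw [h2.1, h2.2, add_sub_cancel_left, add_sub_cancel_left]
      exact Complex.re_add_im _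
  continuous_toFun := by
    refine Continuous.subtype_mk ?_ _
    have c1 : Continuous fun e : {e : ℂ × ℂ | 1 < gg e ∧ tor e ≤ 1 / 4} => e.1.1 :=
      continuous_fst.comp continuous_subtype_val
    have c2 : Continuous fun e : {e : ℂ × ℂ | 1 < gg e ∧ tor e ≤ 1 / 4} => e.1.2 :=
      continuous_snd.comp continuous_subtype_val
    refine Continuous.prodMk (Continuous.prodMk ?_ ?_) ?_
    · refine Continuous.subtype_mk (c1.div (continuous_ofReal.comp c1.norm) fun e => ?_) _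
      exact Complex.ofReal_ne_zero.2 (norm_ne_zero_iff.2 (cx_ne (cx_tor e.2.2).1))
    · refine Continuous.subtype_mk (c2.div (continuous_ofReal.comp c2.norm) fun e => ?_) _
      exact Complex.ofReal_ne_zero.2 (norm_ne_zero_iff.2 (cx_ne (cx_tor e.2.2).2))
    · exact (continuous_ofReal.comp ((sn_cont.comp c1).sub continuous_const)).add
        ((continuous_ofReal.comp ((sn_cont.comp c2).sub continuous_const)).mul continuous_const)
  continuous_invFun := by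
    refine Continuous.subtype_mk ?_ _
    have c0 : Continuous fun q : ↥((Sqᶜ : Set Torus) ×ˢ {y : ℂ | sn y ≤ 1 / 4}) => q.1.2 :=
      continuous_snd.comp continuous_subtype_val
    have c1 : Continuous fun q : ↥((Sqᶜ : Set Torus) ×ˢ {y : ℂ | sn y ≤ 1 / 4}) => (q.1.1.1 : ℂ) :=
      cx_coe_cont.comp (continuous_fst.comp (continuous_fst.comp continuous_subtype_val))
    have c2 : Continuous fun q : ↥((Sqᶜ : Set Torus) ×ˢ {y : ℂ | sn y ≤ 1 / 4}) => (q.1.1.2 : ℂ) :=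
      cx_coe_cont.comp (continuous_snd.comp (continuous_fst.comp continuous_subtype_val))
    refine Continuous.prodMk ?_ ?_
    · exact (continuous_ofReal.comp ((continuous_const.add (continuous_re.comp c0)).div
        (sn_cont.comp c1) fun q => (cx_sn_c _).ne')).mul c1
    · exact (continuous_ofReal.comp ((continuous_const.add (continuous_im.comp c0)).div
        (sn_cont.comp c2) fun q => (cx_sn_c _).ne')).mul c2

theorem chi_T : HasChi {e : ℂ × ℂ | 1 < gg e ∧ tor e ≤ 1 / 4} (-1) := by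
  have h1 := chi_prod chi_Sq (chi_sqc (c := 1 / 4) (by norm_num))
  rw [mul_one] at h1
  exact HasChi.homeo cxT.symm h1

theorem chi_R2 {ε : ℝ} (h : IsTube ε) :
    HasChi ↥(Phi '' {p | p ∈ Kin ε ∧ sn p.2 < ε / 2}) (-1) := by
  have hpos := h.pos
  refine cx_Phi h ?_ ?_
  · intro p hp
    exact (sub_UU h).2.2 ((sub_UU h).1 (Or.inr hp.1))
  · obtain ⟨e, hs, ht, he, hes⟩ := chI hpos
    have h1 := chi_image e.symm (A := {e : ℂ × ℂ | 1 < gg e ∧ tor e ≤ 1 / 4}) (by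
      intro x hx
      rw [OpenPartialHomeomorph.symm_source, ht]
      exact hx.1) chi_T
    refine cx_congr ?_ h1
    ext p
    constructor
    · rintro ⟨x, hx, rfl⟩
      have h2 : e.symm x ∈ e.source := e.map_target (by rw [ht]; exact hx.1)
      rw [hs] at h2
      refine ⟨⟨x, ⟨hx.1.le, hx.2⟩, (hes x).symm⟩, h2.2.1⟩
    · rintro ⟨h2, h3⟩
      obtain ⟨h4, h5, h6, h7⟩ := (mem_Kin hpos p).1 h2
      have h8 : sn p.1 < 1 / 2 := by
        refine lt_of_le_of_ne h5 fun h9 => ?_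
        obtain ⟨h10, h11⟩ := inv_edge hpos h5 h6 (Or.inl h9)
        rw [h10, h11, h9] at h7
        norm_num at h7
      have h9 : p ∈ e.source := by rw [hs]; exact ⟨h8, h3, h4⟩
      refine ⟨e p, ⟨?_, ?_⟩, e.left_inv h9⟩
      · have := e.map_source h9
        rw [ht] at this
        exact this
      · rw [he]; exact h7

theorem chi_X {ε : ℝ} (h : IsTube ε) : HasChi (XX ε) 0 := by
  have := cx_lc
  have hpos := h.pos
  obtain ⟨A, hA⟩ : ∃ A : Set (S2 × ℂ), A = {q : S2 × ℂ | ‖q.2‖ ≤ 1} \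
    Phi '' {p | ‖p.1‖ ≤ 1 ∧ sn p.2 < ε} := ⟨_, rfl⟩
  obtain ⟨r1, hr1⟩ : ∃ r1 : Set (ℂ × ℂ), r1 = {p | ε / 2 ≤ sn p.2 ∧ sn p.2 < ε ∧
    nu ε p.2 p.1 ≤ 1} := ⟨_, rfl⟩
  obtain ⟨r2, hr2⟩ : ∃ r2 : Set (ℂ × ℂ), r2 = {p | p ∈ Kin ε ∧ sn p.2 < ε / 2} := ⟨_, rfl⟩
  have cA : HasChi A 1 := by rw [hA]; exact chi_out h
  have c1 : HasChi ↥(Phi '' r1) 0 := by rw [hr1]; exact chi_R1 h
  have c2 : HasChi ↥(Phi '' r2) (-1) := by rw [hr2]; exact chi_R2 h
  have hAc : IsClosed A := by rw [hA]; exact out_closed h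
  have hKin : Kin ε ⊆ {p | ‖p.1‖ ≤ 1 ∧ sn p.2 ≤ ε} := fun p hp => (sub_UU h).1 (Or.inr hp)
  have hKU := (sub_UU h).2.2
  -- positions
  have hr1s : r1 ⊆ {p | ‖p.1‖ ≤ 1 ∧ sn p.2 < ε} := by
    rw [hr1]
    rintro p ⟨-, h2, h3⟩
    exact ⟨(nu_ge ε p.2 p.1).trans h3, h2⟩
  have hr2s : r2 ⊆ {p | ‖p.1‖ ≤ 1 ∧ sn p.2 < ε} := by
    rw [hr2]
    rintro p ⟨h1, h2⟩
    exact ⟨(hKin h1).1, by linarith⟩
  have hsO : {p : ℂ × ℂ | ‖p.1‖ ≤ 1 ∧ sn p.2 < ε} ⊆ UU ε := (cx_sub h).trans (cxO_sub (by linarith))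
  have hinj := Phi_inj h
  have hXX : XX ε = A ∪ (Phi '' r1 ∪ Phi '' r2) := by
    unfold XX
    rw [← hA]
    apply Subset.antisymm
    · rintro q (hq | ⟨p, hp, rfl⟩)
      · exact Or.inl hq
      · rcases hp with hp | hp
        · rcases lt_or_eq_of_le hp.2.1 with h1 | h1
          · exact Or.inr (Or.inl ⟨p, by rw [hr1]; exact ⟨hp.1, h1, hp.2.2⟩, rfl⟩)
          · left
            have hpU : p ∈ UU ε := hKU ((sub_UU h).1 (Or.inl hp))
            have h2 := hp.2.2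
            rw [nu_out hpos h1.ge] at h2
            rw [hA]
            refine ⟨(cx_le h hpU).2 h2, ?_⟩
            rintro ⟨p', hp', he⟩
            have h3 := hinj (hsO hp') hpU he
            rw [h3] at hp'
            exact absurd h1 hp'.2.ne
        · right
          obtain ⟨h4, h5, h6, h7⟩ := (mem_Kin hpos p).1 hp
          rcases lt_or_eq_of_le h6 with h8 | h8
          · exact Or.inr ⟨p, by rw [hr2]; exact ⟨hp, h8⟩, rfl⟩
          · left
            obtain ⟨h10, h11⟩ := inv_edge hpos h5 h6 (Or.inr h8)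
            rw [h10, h11] at h7
            refine ⟨p, ?_, rfl⟩
            rw [hr1]
            refine ⟨h8.ge, by linarith, ?_⟩
            rw [nu_in hpos (by linarith)]
            linarith
    · refine union_subset_union_right _ ?_
      rw [image_union]
      refine union_subset_union (image_mono ?_) (image_mono ?_)
      · rw [hr1]
        rintro p ⟨h1, h2, h3⟩
        exact ⟨h1, h2.le, h3⟩
      · rw [hr2]
        rintro p ⟨h1, -⟩
        exact h1
  have hdis : Disjoint (Phi '' r1 ∪ Phi '' r2) A := by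
    rw [hA]
    refine Disjoint.mono_left ?_ disjoint_sdiff_right
    exact union_subset (image_mono hr1s) (image_mono hr2s)
  have hO : IsOpen (Phi '' cxO ε (ε / 2)) := Phi_open h (cxO_open _ _) (cxO_sub (by linarith))
  have hO' : IsOpen (Phi '' cxO ε ε) := Phi_open h (cxO_open _ _) (cxO_sub (by linarith))
  have hR : Phi '' r1 ∪ Phi '' r2 = XX ε ∩ Phi '' cxO ε ε := by
    apply Subset.antisymm
    · refine subset_inter (by rw [hXX]; exact subset_union_right) ?_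
      exact union_subset (image_mono (hr1s.trans (cx_sub h))) (image_mono (hr2s.trans (cx_sub h)))
    · rintro q ⟨hq, hq'⟩
      rw [hXX] at hq
      rcases hq with hq | hq
      · rw [hA, cx_diff h] at hq
        exact absurd hq' hq.2
      · exact hq
  have : LocallyCompactSpace ↥(Phi '' r1 ∪ Phi '' r2) := by
    rw [hR]
    exact ((XX_compact h).isClosed.isLocallyClosed.inter hO'.isLocallyClosed).locallyCompactSpace
  have : LocallyCompactSpace ↥(A ∪ (Phi '' r1 ∪ Phi '' r2)) := by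
    rw [← hXX]
    exact (XX_compact h).isClosed.locallyCompactSpace
  have c3 : HasChi ↥(Phi '' r1 ∪ Phi '' r2) (0 + -1) := by
    refine chi_union (F := (Phi '' cxO ε (ε / 2))ᶜ) hO.isClosed_compl ?_ ?_ c1 c2
    · rintro q ⟨p, hp, rfl⟩ ⟨p', hp', he⟩
      have h3 := hinj (cxO_sub (by linarith) hp') (hsO (hr1s hp)) he
      rw [h3] at hp'
      rw [hr1] at hp
      exact absurd hp.1 (not_le.2 hp'.2)
    · refine disjoint_compl_right.mono_left (image_mono ?_)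
      rw [hr2]
      rintro p ⟨h1, h2⟩
      exact ⟨by have := (hKin h1).1; linarith, h2⟩
  have c4 := chi_union hAc Subset.rfl hdis cA c3
  rw [hXX]
  exact c4

end

end Pool.Agent.FibC
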