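import Pool.Agent.Lib.FibC.Defs

/-!
# Chg: the change of coordinates, the boundary values, the norm of the last component

PROOF. `chg_emb`: for `‖v‖ < 1/2`, `z = 1 + v` has positive real part; the inverse map: `(t', m) ↦ (t' exp (-i arg E), ‖E‖ exp (3 i arg E) - 1)`,
`E = (1 + m) / (1 - m)`: indeed `arg (E3 v) = arg (1 + v) / 3`, `‖E3 v‖ = ‖1 + v‖`. Target:
`{(t', m) | m ≠ 1, 0 < re E, |arg E| < π / 6, ‖‖E‖ exp (3 i arg E) - 1‖ < 1 / 2}` (with `E ∈ slitPlane`), open.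
`chg_small`: `v ↦ (E3 v - 1) / (E3 v + 1)` is continuous at `0` with value `0`.
`Phi_bd`: for `‖t‖ = 1`, `rho = 0`, `SS = 2`, `xx = t' `, `yy = conj t'`, `X0 = 2 t' (1 + m)`, `Y0 = 2 conj t' (1 - m)`, so
`X0 / Y0 = t'² (1 + m) / (1 - m) = t'² E3 v = t² (1 + v)`, `w0 = t'³ = t³ exp (i arg (1 + v)) = t³ un (1 + v)`; use that `PP a b = PP (a / b) 1` for
`b ≠ 0`. (`PP_smul` is in PPa.)
`w_norm`: `t³ + ρ t = t (1 + 2 i Y t)`, and `‖t² + ρ‖ ≤ 1` for `‖t‖ ≤ 1` (`‖t²‖ + ρ = 1`), `‖t² + ρ‖ ≥ ‖t‖² - |ρ| = 1` for `‖t‖ ≥ 1`.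
If `‖t‖ < 1`: `‖w0‖ ≤ ‖t‖ + 8 ρ ‖m‖`, `ρ ≤ 2 (1 - ‖t‖)`. If `1 < ‖t‖ < 2`: `‖w0‖ ≥ ‖t‖ - 8 |ρ| 4 ‖m‖`, `|ρ| ≤ 3 (‖t‖ - 1)`. If `‖t‖ = 1`: `w0 = t³`.
-/

set_option autoImplicit false

namespace Pool.Agent.FibC

open Complex ComplexConjugate Set

noncomputable section

private theorem arg_polar {r θ : ℝ} (hr : 0 < r) (hθ : |θ| < Real.pi) :
    arg ((r : ℂ) * exp (I * (θ : ℝ))) = θ := by
  rw [mul_comm I, exp_mul_I]
  exact arg_mul_cos_add_sin_mul_I hr ⟨(abs_lt.1 hθ).1, (abs_lt.1 hθ).2.le⟩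

private theorem norm_eI (θ : ℝ) : ‖exp (I * (θ : ℝ))‖ = 1 := by
  rw [mul_comm]; exact norm_exp_ofReal_mul_I θ

private theorem norm_polar {r θ : ℝ} (hr : 0 ≤ r) : ‖(r : ℂ) * exp (I * (θ : ℝ))‖ = r := by
  rw [norm_mul, norm_eI, mul_one, norm_real, Real.norm_of_nonneg hr]

private theorem polar_self (z : ℂ) : ((‖z‖ : ℝ) : ℂ) * exp (I * (arg z : ℝ)) = z := by
  rw [mul_comm I]; exact norm_mul_exp_arg_mul_I z

private theorem re_one_add {v : ℂ} (hv : ‖v‖ < 1 / 2) : 0 < (1 + v).re := by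
  rw [add_re, one_re]
  have h := (abs_le.1 (abs_re_le_norm v)).1
  linarith

private theorem arg_small {z : ℂ} (hz : 0 < z.re) : |arg z| < Real.pi / 2 :=
  abs_arg_lt_pi_div_two_iff.2 (Or.inl hz)

/-- `(1 + m) / (1 - m)` -/
private def Em (m : ℂ) : ℂ := (1 + m) / (1 - m)

/-- inverse of `chg` -/
private def chi (q : ℂ × ℂ) : ℂ × ℂ :=
  (q.1 * exp (I * ((-arg (Em q.2) : ℝ) : ℂ)),
    (‖Em q.2‖ : ℂ) * exp (I * ((3 * arg (Em q.2) : ℝ) : ℂ)) - 1)

private def U0 : Set (ℂ × ℂ) := {q | q.2 ≠ 1} ∩ (fun q : ℂ × ℂ => (Em q.2).re) ⁻¹' Ioi 0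

private theorem Em_cont : ContinuousOn (fun q : ℂ × ℂ => Em q.2) {q | q.2 ≠ 1} := by
  unfold Em
  refine ContinuousOn.div (by fun_prop) (by fun_prop) ?_
  intro q hq h
  exact hq (by rw [sub_eq_zero] at h; exact h.symm)

private theorem open1 : IsOpen {q : ℂ × ℂ | q.2 ≠ 1} :=
  isOpen_ne.preimage continuous_snd

private theorem U0_open : IsOpen U0 :=
  (continuous_re.comp_continuousOn Em_cont).isOpen_inter_preimage open1 isOpen_Ioi

private theorem argE_cont : ContinuousOn (fun q : ℂ × ℂ => arg (Em q.2)) U0 := by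
  intro q hq
  have h1 : ContinuousWithinAt (fun q : ℂ × ℂ => Em q.2) U0 q :=
    (Em_cont q hq.1).mono (fun x hx => hx.1)
  have h2 : ContinuousAt arg (Em q.2) := continuousAt_arg (Or.inl hq.2)
  exact ContinuousAt.comp_continuousWithinAt (f := fun q : ℂ × ℂ => Em q.2) h2 h1

private theorem chi_cont : ContinuousOn chi U0 := by
  have h1 : ContinuousOn (fun q : ℂ × ℂ => Em q.2) U0 := Em_cont.mono (fun x hx => hx.1)
  have hof : Continuous Complex.ofReal := Complex.continuous_ofReal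
  unfold chi
  refine ContinuousOn.prodMk ?_ ?_
  · exact continuousOn_fst.mul (Complex.continuous_exp.comp_continuousOn
      (continuousOn_const.mul (hof.comp_continuousOn argE_cont.neg)))
  · exact ((hof.comp_continuousOn h1.norm).mul (Complex.continuous_exp.comp_continuousOn
      (continuousOn_const.mul (hof.comp_continuousOn (continuousOn_const.mul argE_cont))))).sub
      continuousOn_const

private theorem E3_cont {v : ℂ} (hv : 0 < (1 + v).re) : ContinuousAt E3 v := by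
  have hof : Continuous Complex.ofReal := Complex.continuous_ofReal
  have h1 : ContinuousAt (fun v : ℂ => 1 + v) v := by fun_prop
  have h2 : ContinuousAt arg (1 + v) := continuousAt_arg (Or.inl hv)
  have h3 : ContinuousAt (fun v : ℂ => arg (1 + v)) v := ContinuousAt.comp (f := fun v : ℂ => 1 + v) h2 h1
  unfold E3
  exact (hof.continuousAt.comp h1.norm).mul (Complex.continuous_exp.continuousAt.comp
    (continuousAt_const.mul (hof.continuousAt.comp (h3.div_const 3))))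

/-- properties of `E3 v` -/
private theorem E3_prop {v : ℂ} (hv : 0 < (1 + v).re) : ‖E3 v‖ = ‖1 + v‖ ∧
    arg (E3 v) = arg (1 + v) / 3 ∧ 0 < (E3 v).re ∧ |arg (E3 v)| < Real.pi / 6 ∧ E3 v + 1 ≠ 0 := by
  have h0 : 1 + v ≠ 0 := by rintro h; rw [h, zero_re] at hv; exact lt_irrefl _ hv
  have hn : 0 < ‖1 + v‖ := norm_pos_iff.2 h0
  have ha : |arg (1 + v)| < Real.pi / 2 := arg_small hv
  have hpi := Real.pi_pos
  have ha3 : |arg (1 + v) / 3| < Real.pi / 6 := by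
    rw [abs_div, abs_of_pos (by norm_num : (0 : ℝ) < 3)]
    linarith
  have h1 : ‖E3 v‖ = ‖1 + v‖ := norm_polar hn.le
  have h2 : arg (E3 v) = arg (1 + v) / 3 := arg_polar hn (by linarith)
  have h3 : 0 < (E3 v).re := by
    have h4 : |arg (E3 v)| < Real.pi / 2 := by rw [h2]; linarith
    rcases abs_arg_lt_pi_div_two_iff.1 h4 with h | h
    · exact h
    · rw [h, norm_zero] at h1
      linarith
  refine ⟨h1, h2, h3, by rw [h2]; exact ha3, ?_⟩
  intro h
  have : (E3 v + 1).re = 0 := by rw [h, zero_re]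
  rw [add_re, one_re] at this
  linarith

private theorem Em_of {E : ℂ} (h : E + 1 ≠ 0) : (E - 1) / (E + 1) ≠ 1 ∧ Em ((E - 1) / (E + 1)) = E := by
  constructor
  · intro h1
    rw [div_eq_one_iff_eq h] at h1
    have : (-1 : ℂ) = 1 := by linear_combination h1
    norm_num at this
  · unfold Em
    have h2 : 1 + (E - 1) / (E + 1) = 2 * E / (E + 1) := by field_simp; ring
    have h3 : 1 - (E - 1) / (E + 1) = 2 / (E + 1) := by field_simp; ring
    rw [h2, h3]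
    field_simp

private theorem of_Em {m : ℂ} (h : m ≠ 1) : (Em m - 1) / (Em m + 1) = m := by
  have h1 : 1 - m ≠ 0 := sub_ne_zero.2 (Ne.symm h)
  have h2 : Em m - 1 = 2 * m / (1 - m) := by unfold Em; field_simp; ring
  have h3 : Em m + 1 = 2 / (1 - m) := by unfold Em; field_simp; ring
  rw [h2, h3]
  field_simp

private theorem chg_fst (p : ℂ × ℂ) : (chg p).1 = p.1 * exp (I * (arg (1 + p.2) / 3 : ℝ)) := rfl

private theorem chg_snd (p : ℂ × ℂ) : (chg p).2 = (E3 p.2 - 1) / (E3 p.2 + 1) := rfl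

private theorem ee_neg (a : ℂ) (θ : ℝ) {φ : ℝ} (h : θ + φ = 0) :
    a * exp (I * (θ : ℝ)) * exp (I * (φ : ℝ)) = a := by
  rw [mul_assoc, ← exp_add, ← mul_add, ← ofReal_add, h, ofReal_zero, mul_zero, exp_zero, mul_one]

private theorem chi_chg {p : ℂ × ℂ} (hp : ‖p.2‖ < 1 / 2) : chi (chg p) = p := by
  obtain ⟨h1, h2, h3, h4, h5⟩ := E3_prop (re_one_add hp)
  have hE : Em (chg p).2 = E3 p.2 := by rw [chg_snd]; exact (Em_of h5).2
  unfold chi
  rw [hE, h1, h2]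
  refine Prod.ext ?_ ?_
  · simp only
    rw [chg_fst]
    exact ee_neg _ _ (by ring)
  · simp only
    rw [show 3 * (arg (1 + p.2) / 3) = arg (1 + p.2) by ring, polar_self]
    ring

private theorem chg_chi {q : ℂ × ℂ} (h1 : q.2 ≠ 1) (h2 : 0 < (Em q.2).re)
    (h3 : |arg (Em q.2)| < Real.pi / 6) : chg (chi q) = q := by
  have h0 : Em q.2 ≠ 0 := by rintro h; rw [h, zero_re] at h2; exact lt_irrefl _ h2
  have hn : 0 < ‖Em q.2‖ := norm_pos_iff.2 h0
  have hpi := Real.pi_pos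
  have hz : 1 + (chi q).2 = (‖Em q.2‖ : ℂ) * exp (I * ((3 * arg (Em q.2) : ℝ) : ℂ)) := by
    simp only [chi]; ring
  have harg : arg (1 + (chi q).2) = 3 * arg (Em q.2) := by
    rw [hz]
    refine arg_polar hn ?_
    rw [abs_mul, abs_of_pos (by norm_num : (0 : ℝ) < 3)]
    linarith
  have hnorm : ‖1 + (chi q).2‖ = ‖Em q.2‖ := by
    rw [hz]; exact norm_polar hn.le
  have hE : E3 (chi q).2 = Em q.2 := by
    unfold E3
    rw [harg, hnorm, show 3 * arg (Em q.2) / 3 = arg (Em q.2) by ring]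
    exact polar_self _
  refine Prod.ext ?_ ?_
  · rw [chg_fst, harg]
    simp only [chi]
    exact ee_neg _ _ (by ring)
  · rw [chg_snd, hE, of_Em h1]

theorem chg_emb : ∃ C : OpenPartialHomeomorph (ℂ × ℂ) (ℂ × ℂ), C.source = {p | ‖p.2‖ < 1 / 2} ∧
    ∀ p, C p = chg p := by
  refine ⟨{
    toFun := chg
    invFun := chi
    source := {p | ‖p.2‖ < 1 / 2}
    target := (U0 ∩ (fun q : ℂ × ℂ => arg (Em q.2)) ⁻¹' (Ioo (-(Real.pi / 6)) (Real.pi / 6))) ∩
      (U0 ∩ chi ⁻¹' {p | ‖p.2‖ < 1 / 2})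
    map_source' := ?_
    map_target' := ?_
    left_inv' := ?_
    right_inv' := ?_
    open_source := ?_
    open_target := ?_
    continuousOn_toFun := ?_
    continuousOn_invFun := ?_ }, rfl, fun p => rfl⟩
  · intro p hp
    have hp' : ‖p.2‖ < 1 / 2 := hp
    obtain ⟨h1, h2, h3, h4, h5⟩ := E3_prop (re_one_add hp')
    have hE : Em (chg p).2 = E3 p.2 := by rw [chg_snd]; exact (Em_of h5).2
    have hU : chg p ∈ U0 := by
      refine ⟨?_, ?_⟩
      · change (chg p).2 ≠ 1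
        rw [chg_snd]
        exact (Em_of h5).1
      · change 0 < (Em (chg p).2).re
        rw [hE]
        exact h3
    refine ⟨⟨hU, ?_⟩, ⟨hU, ?_⟩⟩
    · change arg (Em (chg p).2) ∈ Ioo (-(Real.pi / 6)) (Real.pi / 6)
      rw [hE]
      exact abs_lt.1 h4
    · change ‖(chi (chg p)).2‖ < 1 / 2
      rw [chi_chg hp']
      exact hp'
  · intro q hq
    exact hq.2.2
  · intro p hp
    exact chi_chg hp
  · intro q hq
    exact chg_chi hq.1.1.1 hq.1.1.2 (abs_lt.2 hq.1.2)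
  · intro p hp
    have hre := re_one_add hp
    obtain ⟨h1, h2, h3, h4, h5⟩ := E3_prop hre
    refine ContinuousAt.continuousWithinAt ?_
    have hof : Continuous Complex.ofReal := Complex.continuous_ofReal
    have c1 : ContinuousAt (fun p : ℂ × ℂ => 1 + p.2) p := by fun_prop
    have c2 : ContinuousAt arg (1 + p.2) := continuousAt_arg (Or.inl hre)
    have c3 : ContinuousAt (fun p : ℂ × ℂ => arg (1 + p.2)) p :=
      ContinuousAt.comp (f := fun p : ℂ × ℂ => 1 + p.2) c2 c1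
    have c4 : ContinuousAt (fun p : ℂ × ℂ => E3 p.2) p :=
      ContinuousAt.comp (f := fun p : ℂ × ℂ => p.2) (E3_cont hre) continuousAt_snd
    refine ContinuousAt.prodMk ?_ ?_
    · exact continuousAt_fst.mul (Complex.continuous_exp.continuousAt.comp
        (continuousAt_const.mul (hof.continuousAt.comp (c3.div_const 3))))
    · exact (c4.sub continuousAt_const).div (c4.add continuousAt_const) h5
  · exact chi_cont.mono fun q hq => hq.1.1
  · exact isOpen_lt (by fun_prop) continuous_const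
  · exact (argE_cont.isOpen_inter_preimage U0_open isOpen_Ioo).inter
      (chi_cont.isOpen_inter_preimage U0_open (isOpen_lt (by fun_prop) continuous_const))

theorem chg_small {δ : ℝ} (hδ : 0 < δ) : ∃ ε > 0, ∀ p : ℂ × ℂ, ‖p.2‖ < ε → ‖(chg p).2‖ < δ := by
  have h0 : E3 0 = 1 := by simp [E3]
  have hre : 0 < (1 + (0 : ℂ)).re := by simp
  have hc : ContinuousAt (fun v => (E3 v - 1) / (E3 v + 1)) 0 :=
    ((E3_cont hre).sub continuousAt_const).div ((E3_cont hre).add continuousAt_const)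
      (by rw [h0]; norm_num)
  rw [Metric.continuousAt_iff] at hc
  obtain ⟨ε, hε, h⟩ := hc δ hδ
  refine ⟨ε, hε, fun p hp => ?_⟩
  have h1 := h (x := p.2) (by rw [dist_zero_right]; exact hp)
  rw [h0, sub_self, zero_div, dist_zero_right] at h1
  exact h1

theorem chg_norm (p : ℂ × ℂ) : ‖(chg p).1‖ = ‖p.1‖ := by
  rw [chg_fst, norm_mul, norm_eI, mul_one]

private theorem rho_eq (t : ℂ) : rho t = 1 - ‖t‖ ^ 2 := by
  rw [rho, ← normSq_eq_norm_sq, normSq_apply]; ring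

private theorem third {t m : ℂ} : ‖8 * I * (rho t : ℂ) *
    (((max t.im 0) ^ 2 : ℝ) * conj m + ((max (-t.im) 0) ^ 2 : ℝ) * m)‖ ≤
    8 * |rho t| * (‖t‖ ^ 2 * ‖m‖) := by
  rw [norm_mul, norm_mul, norm_mul, norm_I, norm_real, Real.norm_eq_abs, mul_one, Complex.norm_ofNat]
  refine mul_le_mul_of_nonneg_left ?_ (by positivity)
  have him : t.im ^ 2 ≤ ‖t‖ ^ 2 := by
    rw [← normSq_eq_norm_sq, normSq_apply]; nlinarith [sq_nonneg t.re]
  have hm : 0 ≤ ‖m‖ := norm_nonneg m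
  rcases le_total t.im 0 with h | h
  · rw [max_eq_right h, max_eq_left (by linarith : (0 : ℝ) ≤ -t.im)]
    rw [show ((((0 : ℝ)) ^ 2 : ℝ) : ℂ) = 0 by norm_num, zero_mul, zero_add, norm_mul, norm_real,
      Real.norm_eq_abs, abs_of_nonneg (sq_nonneg _), neg_sq]
    exact mul_le_mul_of_nonneg_right him hm
  · rw [max_eq_left h, max_eq_right (by linarith : -t.im ≤ (0 : ℝ))]
    rw [show ((((0 : ℝ)) ^ 2 : ℝ) : ℂ) = 0 by norm_num, zero_mul, add_zero, norm_mul, norm_real,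
      Real.norm_eq_abs, abs_of_nonneg (sq_nonneg _), RCLike.norm_conj]
    exact mul_le_mul_of_nonneg_right him hm

theorem w_norm {t m : ℂ} (ht : ‖t‖ < 2) (hm : ‖m‖ < 1 / 96) :
    (‖w0 t m‖ < 1 ↔ ‖t‖ < 1) ∧ (‖w0 t m‖ = 1 ↔ ‖t‖ = 1) := by
  set r := ‖t‖ with hr
  have hr0 : 0 ≤ r := norm_nonneg t
  have hm0 : 0 ≤ ‖m‖ := norm_nonneg m
  have hrho : rho t = 1 - r ^ 2 := rho_eq t
  set A : ℂ := t ^ 3 + (rho t : ℂ) * t with hA
  set B : ℂ := 8 * I * (rho t : ℂ) *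
    (((max t.im 0) ^ 2 : ℝ) * conj m + ((max (-t.im) 0) ^ 2 : ℝ) * m) with hB
  have hw : w0 t m = A - B := rfl
  have hBle : ‖B‖ ≤ 8 * |rho t| * (r ^ 2 * ‖m‖) := third
  have hAn : ‖A‖ = r * ‖t ^ 2 + (rho t : ℂ)‖ := by
    rw [hA, show t ^ 3 + (rho t : ℂ) * t = t * (t ^ 2 + (rho t : ℂ)) by ring, norm_mul]
  have hrn : ‖(rho t : ℂ)‖ = |rho t| := by rw [norm_real, Real.norm_eq_abs]
  have ht2 : ‖t ^ 2‖ = r ^ 2 := norm_pow t 2
  rcases lt_trichotomy r 1 with h | h | h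
  · have h1 : |rho t| = 1 - r ^ 2 := by rw [hrho, abs_of_nonneg (by nlinarith)]
    have h2 : ‖t ^ 2 + (rho t : ℂ)‖ ≤ 1 := by
      refine (norm_add_le _ _).trans ?_
      rw [ht2, hrn, h1]
      linarith
    have h3 : ‖w0 t m‖ < 1 := by
      rw [hw]
      refine lt_of_le_of_lt (norm_sub_le _ _) ?_
      have h4 : ‖A‖ ≤ r := by rw [hAn]; exact mul_le_of_le_one_right hr0 h2
      rw [h1] at hBle
      have h5 : r ^ 2 * ‖m‖ ≤ 1 / 96 := by
        have : r ^ 2 ≤ 1 := by nlinarith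
        calc r ^ 2 * ‖m‖ ≤ 1 * (1 / 96) := mul_le_mul this hm.le hm0 zero_le_one
          _ = 1 / 96 := by ring
      have h6 : 8 * (1 - r ^ 2) * (r ^ 2 * ‖m‖) ≤ 8 * (1 - r ^ 2) * (1 / 96) :=
        mul_le_mul_of_nonneg_left h5 (by nlinarith)
      nlinarith
    exact ⟨⟨fun _ => h, fun _ => h3⟩, ⟨fun h' => absurd h' h3.ne, fun h' => absurd h' h.ne⟩⟩
  · have h1 : rho t = 0 := by rw [hrho, h]; ring
    have h3 : ‖w0 t m‖ = 1 := by
      rw [hw, hA, hB, h1]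
      simp only [ofReal_zero, zero_mul, mul_zero, add_zero, sub_zero]
      rw [norm_pow, ← hr, h, one_pow]
    refine ⟨⟨fun h' => absurd h3 h'.ne, fun h' => absurd h h'.ne⟩, ⟨fun _ => h, fun _ => h3⟩⟩
  · have h1 : |rho t| = r ^ 2 - 1 := by rw [hrho, abs_of_nonpos (by nlinarith)]; ring
    have h2 : 1 ≤ ‖t ^ 2 + (rho t : ℂ)‖ := by
      have h4 : ‖t ^ 2‖ - ‖(rho t : ℂ)‖ ≤ ‖t ^ 2 + (rho t : ℂ)‖ := norm_sub_le_norm_add _ _
      rw [ht2, hrn, h1] at h4
      linarith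
    have h3 : 1 < ‖w0 t m‖ := by
      rw [hw]
      refine lt_of_lt_of_le ?_ (norm_sub_norm_le _ _)
      have h4 : r ≤ ‖A‖ := by rw [hAn]; exact le_mul_of_one_le_right hr0 h2
      rw [h1] at hBle
      have h5 : 8 * (r ^ 2 - 1) * (r ^ 2 * ‖m‖) < r - 1 := by
        have h6 : r ^ 2 * ‖m‖ < 4 * (1 / 96) := by
          have : r ^ 2 ≤ 4 := by nlinarith
          have h7 : r ^ 2 * ‖m‖ < r ^ 2 * (1 / 96) := mul_lt_mul_of_pos_left hm (by positivity)
          nlinarith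
        have h8 : 0 < r ^ 2 - 1 := by nlinarith
        have h9 : 8 * (r ^ 2 - 1) * (r ^ 2 * ‖m‖) < 8 * (r ^ 2 - 1) * (4 * (1 / 96)) :=
          mul_lt_mul_of_pos_left h6 (by positivity)
        nlinarith
      linarith
    refine ⟨⟨fun h' => absurd h3 h'.not_gt, fun h' => absurd h h'.not_gt⟩,
      ⟨fun h' => absurd h' h3.ne', fun h' => absurd h' h.ne'⟩⟩

end

end Pool.Agent.FibC
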