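import Mathlib

/-!
# ChiD: Euler characteristic with compact supports, by additivity

`HasChi X n` is derived from: `χ(point) = 1`, `χ(ℝ) = -1`, homeomorphism invariance, the product formula and
`χ(X) = χ(A) + χ(X \ A)` for a closed subset `A` of a locally compact Hausdorff space `X` (if two of the three are known then so is
the third).
-/

set_option autoImplicit false

namespace Pool.Agent.FibC

/-- the Euler characteristic with compact supports (for compact spaces: the Euler characteristic), given by additivity -/
inductive HasChi : ∀ (X : Type) [TopologicalSpace X], ℤ → Prop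
  | point : HasChi Unit 1
  | line : HasChi ℝ (-1)
  | homeo {X Y : Type} [TopologicalSpace X] [TopologicalSpace Y] {n : ℤ} (e : X ≃ₜ Y) :
      HasChi X n → HasChi Y n
  | prod {X Y : Type} [TopologicalSpace X] [TopologicalSpace Y] {m n : ℤ} :
      HasChi X m → HasChi Y n → HasChi (X × Y) (m * n)
  | union {X : Type} [TopologicalSpace X] [LocallyCompactSpace X] [T2Space X] {m n : ℤ} (A : Set X)
      (hA : IsClosed A) : HasChi A m → HasChi (Aᶜ : Set X) n → HasChi X (m + n)
  | openPart {X : Type} [TopologicalSpace X] [LocallyCompactSpace X] [T2Space X] {m n : ℤ} (A : Set X)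
      (hA : IsClosed A) : HasChi X (m + n) → HasChi A m → HasChi (Aᶜ : Set X) n
  | closedPart {X : Type} [TopologicalSpace X] [LocallyCompactSpace X] [T2Space X] {m n : ℤ} (A : Set X)
      (hA : IsClosed A) : HasChi X (m + n) → HasChi (Aᶜ : Set X) n → HasChi A m

end Pool.Agent.FibC
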