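import Pool.Agent.Lib.FibC.Inj
import Pool.Agent.Lib.FibC.PPc

/-!
# CoD: the complement of the disc in `S2 × open disc` is connected

PROOF. `D = {q | ∃ t, ‖t‖ < 1 ∧ q = Phi0 (t, 0)}`, `W = {‖q.2‖ < 1}`. Let `P ⊆ S2` be the set of the points `PP 1 1` and
`(Phi0 (t, 0)).1` for the `t` with `(Phi0 (t, 0)).2 = 0` (`disc_w`): a finite set. `S2 \ P` is connected: by `chart0` the set `S2 \ (P ∪ {PP 1 0})` is the image of
the complement of a finite set of `ℂ` (`Set.Countable.isConnected_compl_of_one_lt_rank`), and `S2 \ P` lies between it and its closure. Let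
`G = {q ∈ W | q.1 ∉ P} \ D`. For `p ∉ P` the slice `{w | ‖w‖ < 1, (p, w) ∉ D}` is the open unit disc minus at most one point
(`disc_z`, `disc_real`: two points `t, t'` with the same first component `≠ PP 1 1` are equal), it contains `0`, and it is connected (a ball minus a
point: e.g. the complement of a countable set in an open connected set, or by the homeomorphism of the ball with `ℂ`); all these slices meet the connected set
`(S2 \ P) × {0} ⊆ G`. So `G` is connected. `W \ D ⊆ closure G`: `D` is closed in `W` (`D ∩ W`: `closure D ⊆ Phi0 '' (closedBall × {0})`, and `‖(Phi0 (t,0)).2‖ = 1` for `‖t‖ = 1`), points of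
`P` are not isolated in `S2`. So `W \ D` is connected.
-/

set_option autoImplicit false

namespace Pool.Agent.FibC

open Complex ComplexConjugate Set

noncomputable section

/-- the open disc -/
def Disc : Set (S2 × ℂ) := {q | ∃ t : ℂ, ‖t‖ < 1 ∧ q = Phi0 (t, 0)}

/-- a ball minus a point is connected -/
private theorem conn_ball (w : ℂ) : IsPreconnected {z : ℂ | ‖z‖ < 1 ∧ z ≠ w} := by
  let e := OpenPartialHomeomorph.univUnitBall (E := ℂ)
  have h0 : ({x : ℂ | e x = w}).Countable := by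
    refine Set.Subsingleton.countable fun x hx y hy => ?_
    exact e.injOn (mem_univ x) (mem_univ y) (Eq.trans hx (Eq.symm hy))
  have h1 : IsPreconnected (({x : ℂ | e x = w})ᶜ) :=
    (h0.isConnected_compl_of_one_lt_rank
      (rank_real_complex ▸ Nat.one_lt_ofNat)).isPreconnected
  have h2 : IsPreconnected (e '' (({x : ℂ | e x = w})ᶜ)) :=
    h1.image _ (e.continuousOn.mono (subset_univ _))
  have h3 : e '' (({x : ℂ | e x = w})ᶜ) = {z : ℂ | ‖z‖ < 1 ∧ z ≠ w} := by
    ext z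
    constructor
    · rintro ⟨x, hx, rfl⟩
      exact ⟨mem_ball_zero_iff.1 (e.map_source (mem_univ x)), hx⟩
    · rintro ⟨hz, hzw⟩
      have h4 : e (e.symm z) = z := e.right_inv (mem_ball_zero_iff.2 hz)
      exact ⟨e.symm z, fun h => hzw (h4.symm.trans h), h4⟩
  rw [← h3]
  exact h2

private theorem cont0 : Continuous fun z : ℂ => PP z 1 :=
  continuous_iff_continuousAt.2 fun z => by
    have h1 : ContinuousAt (fun p : ℂ × ℂ => PP p.1 p.2) (z, 1) := PP_cont (by simp)
    have h2 : ContinuousAt (fun z : ℂ => ((z, 1) : ℂ × ℂ)) z := by fun_prop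
    exact ContinuousAt.comp (f := fun z : ℂ => ((z, 1) : ℂ × ℂ)) h1 h2

private theorem cont1 : Continuous fun z : ℂ => PP 1 z :=
  continuous_iff_continuousAt.2 fun z => by
    have h1 : ContinuousAt (fun p : ℂ × ℂ => PP p.1 p.2) (1, z) := PP_cont (by simp)
    have h2 : ContinuousAt (fun z : ℂ => ((1, z) : ℂ × ℂ)) z := by fun_prop
    exact ContinuousAt.comp (f := fun z : ℂ => ((1, z) : ℂ × ℂ)) h1 h2

private theorem inj0 : Function.Injective fun z : ℂ => PP z 1 := by
  intro z z' h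
  have h1 := (PP_eq_iff (by simp) (by simp)).1 h
  simpa using h1

private theorem inj1 : Function.Injective fun z : ℂ => PP 1 z := by
  intro z z' h
  have h1 := (PP_eq_iff (by simp) (by simp)).1 h
  simpa using h1.symm

/-- a finite set has a dense complement -/
private theorem dense_S2 {P : Set S2} (hP : P.Finite) : Dense Pᶜ := by
  have key : ∀ f : ℂ → S2, Continuous f → Function.Injective f → ∀ z, f z ∈ closure Pᶜ := by
    intro f hf hi z
    have h1 : (f ⁻¹' P).Finite := hP.preimage hi.injOn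
    have h2 : Dense (f ⁻¹' P)ᶜ := h1.countable.dense_compl ℝ
    have h3 : z ∈ closure (f ⁻¹' P)ᶜ := h2 z
    exact closure_mono (by rintro _ ⟨x, hx, rfl⟩; exact hx)
      (image_closure_subset_closure_image hf (mem_image_of_mem f h3))
  intro p
  rcases PP_surj p with h | ⟨z, h⟩
  · rw [h]
    exact key _ cont1 inj1 0
  · rw [h]
    exact key _ cont0 inj0 z

private theorem conn_S2 {P : Set S2} (hP : P.Finite) : IsConnected Pᶜ := by
  have h1 : ((fun z : ℂ => PP z 1) ⁻¹' P).Finite := hP.preimage inj0.injOn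
  have h2 : IsConnected (((fun z : ℂ => PP z 1) ⁻¹' P)ᶜ) :=
    h1.countable.isConnected_compl_of_one_lt_rank (rank_real_complex ▸ Nat.one_lt_ofNat)
  have h3 : IsConnected ((fun z : ℂ => PP z 1) '' (((fun z : ℂ => PP z 1) ⁻¹' P)ᶜ)) :=
    h2.image _ cont0.continuousOn
  refine h3.subset_closure ?_ ?_
  · rintro _ ⟨x, hx, rfl⟩
    exact hx
  · have h4 : Dense (P ∪ {PP 1 0})ᶜ := dense_S2 (hP.union (finite_singleton _))
    have h5 : (P ∪ {PP 1 0})ᶜ ⊆ (fun z : ℂ => PP z 1) '' (((fun z : ℂ => PP z 1) ⁻¹' P)ᶜ) := by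
      intro p hp
      rcases PP_surj p with h | ⟨z, h⟩
      · exact absurd (Or.inr h) hp
      · refine ⟨z, fun hz => hp (Or.inl ?_), h.symm⟩
        rw [h]
        exact hz
    intro p _
    exact closure_mono h5 (h4 p)

private theorem cont_disc : Continuous fun t : ℂ => Phi0 (t, 0) := by
  have hrho : Continuous rho := by
    unfold rho
    fun_prop
  have hx : Continuous xx := by
    unfold xx
    exact continuous_id.add (continuous_const.mul (continuous_ofReal.comp hrho))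
  have hy : Continuous yy := by
    unfold yy
    exact continuous_conj.add (continuous_const.mul (continuous_ofReal.comp hrho))
  have h1 : Continuous fun t : ℂ => (Phi0 (t, 0)).1 := by
    have e : (fun t : ℂ => (Phi0 (t, 0)).1) = fun t => PP (xx t) (yy t) := funext disc_fst
    rw [e]
    refine continuous_iff_continuousAt.2 fun t => ?_
    exact ContinuousAt.comp (f := fun t : ℂ => ((xx t, yy t) : ℂ × ℂ))
      (PP_cont (xy_ne t)) (hx.prodMk hy).continuousAt
  have h2 : Continuous fun t : ℂ => (Phi0 (t, 0)).2 := by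
    show Continuous fun t : ℂ => w0 t 0
    have e : (fun t : ℂ => w0 t 0) = fun t => t ^ 3 + (rho t : ℂ) * t := by
      funext t
      simp [w0]
    rw [e]
    exact (continuous_id.pow 3).add ((continuous_ofReal.comp hrho).mul continuous_id)
  exact h1.prodMk h2

/-- the finite set of bad first components -/
private def Bad : Set S2 :=
  {PP 1 1, (Phi0 (0, 0)).1, (Phi0 (I / (Real.sqrt 2 : ℝ), 0)).1, (Phi0 (-I / (Real.sqrt 2 : ℝ), 0)).1}

private theorem bad_fin : Bad.Finite := by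
  unfold Bad
  exact Set.toFinite _

private theorem zero_notMem {p : S2} (hp : p ∉ Bad) : (p, (0 : ℂ)) ∉ Disc := by
  rintro ⟨t, -, he⟩
  have h1 : (Phi0 (t, 0)).1 = p := (congrArg Prod.fst he).symm
  have h2 : (Phi0 (t, 0)).2 = 0 := (congrArg Prod.snd he).symm
  apply hp
  rw [← h1]
  unfold Bad
  rcases disc_w h2 with h | h | h <;> rw [h]
  · right; left; rfl
  · right; right; left; rfl
  · right; right; right; rfl

private theorem slice {p : S2} (hp : p ∉ Bad) : ∃ w : ℂ, ∀ z : ℂ, ‖z‖ < 1 →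
    ((p, z) ∉ Disc ↔ z ≠ w) := by
  by_cases h : ∃ t : ℂ, ‖t‖ < 1 ∧ (Phi0 (t, 0)).1 = p
  · obtain ⟨t, ht, htp⟩ := h
    refine ⟨(Phi0 (t, 0)).2, fun z _ => not_congr ⟨?_, ?_⟩⟩
    · rintro ⟨t', ht', he⟩
      have h1 : p = (Phi0 (t', 0)).1 := congrArg Prod.fst he
      have h2 : z = (Phi0 (t', 0)).2 := congrArg Prod.snd he
      have h3 : t = t' := by
        rcases disc_z ht ht' (htp.trans h1) with h4 | ⟨h4, -⟩
        · exact h4
        · exfalso
          apply hp
          rw [← htp, disc_real h4]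
          left; rfl
      rw [h2, h3]
    · intro hz
      exact ⟨t, ht, Prod.ext htp.symm hz⟩
  · refine ⟨2, fun z hz => ⟨fun _ h2 => ?_, fun _ => ?_⟩⟩
    · rw [h2] at hz
      norm_num at hz
    · rintro ⟨t', ht', he⟩
      exact h ⟨t', ht', (congrArg Prod.fst he).symm⟩

private theorem disc_closed {q : S2 × ℂ} (hq : ‖q.2‖ < 1) (hD : q ∉ Disc) :
    ∃ U : Set (S2 × ℂ), IsOpen U ∧ q ∈ U ∧ ∀ x ∈ U, x ∉ Disc := by
  have hK : IsCompact ((fun t : ℂ => Phi0 (t, 0)) '' Metric.closedBall 0 1) :=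
    (isCompact_closedBall 0 1).image cont_disc
  refine ⟨((fun t : ℂ => Phi0 (t, 0)) '' Metric.closedBall 0 1)ᶜ, hK.isClosed.isOpen_compl, ?_, ?_⟩
  · rintro ⟨t, ht, he⟩
    have he' : Phi0 (t, 0) = q := he
    have ht1 : ‖t‖ ≤ 1 := mem_closedBall_zero_iff.1 ht
    rcases lt_or_eq_of_le ht1 with h | h
    · exact hD ⟨t, h, he'.symm⟩
    · have h1 : rho t = 0 := by
        have h2 : ‖t‖ ^ 2 = t.re ^ 2 + t.im ^ 2 := by
          rw [← normSq_eq_norm_sq, normSq_apply]; ring
        rw [rho, ← h2, h]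
        norm_num
      have h3 : q.2 = t ^ 3 := by
        rw [← he']
        show w0 t 0 = t ^ 3
        simp [w0, h1]
      rw [h3, norm_pow, h] at hq
      norm_num at hq
  · rintro x hx ⟨t, ht, he⟩
    exact hx ⟨t, mem_closedBall_zero_iff.2 ht.le, he.symm⟩

theorem conn_disc_compl : IsConnected ({q : S2 × ℂ | ‖q.2‖ < 1} \ Disc) := by
  set G : Set (S2 × ℂ) := {q | ‖q.2‖ < 1 ∧ q.1 ∉ Bad ∧ q ∉ Disc} with hG
  have hS := conn_S2 bad_fin
  obtain ⟨p0, hp0⟩ := hS.nonempty
  have hz : ‖(0 : ℂ)‖ < 1 := by norm_num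
  have hbase : ∀ p : S2, p ∉ Bad → (p, (0 : ℂ)) ∈ G := fun p hp => ⟨hz, hp, zero_notMem hp⟩
  have hH : IsPreconnected ((fun p : S2 => (p, (0 : ℂ))) '' Badᶜ) :=
    hS.isPreconnected.image _ (by fun_prop)
  have hGc : IsConnected G := by
    refine ⟨⟨_, hbase p0 hp0⟩, isPreconnected_of_forall (p0, 0) ?_⟩
    rintro ⟨p, z⟩ ⟨h1, h2, h3⟩
    have h1' : ‖z‖ < 1 := h1
    have h2' : p ∉ Bad := h2
    obtain ⟨w, hw⟩ := slice h2'
    have hv : IsPreconnected ((fun z : ℂ => (p, z)) '' {z : ℂ | ‖z‖ < 1 ∧ z ≠ w}) :=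
      (conn_ball w).image _ (by fun_prop)
    refine ⟨((fun p : S2 => (p, (0 : ℂ))) '' Badᶜ) ∪
      ((fun z : ℂ => (p, z)) '' {z : ℂ | ‖z‖ < 1 ∧ z ≠ w}), ?_, ?_, ?_, ?_⟩
    · rintro x (⟨p', hp', rfl⟩ | ⟨z', ⟨hz', hz2⟩, rfl⟩)
      · exact hbase p' hp'
      · exact ⟨hz', h2', (hw z' hz').2 hz2⟩
    · exact Or.inl ⟨p0, hp0, rfl⟩
    · exact Or.inr ⟨z, ⟨h1', (hw z h1').1 h3⟩, rfl⟩
    · exact hH.union (p, 0) ⟨p, h2', rfl⟩ ⟨0, ⟨hz, (hw 0 hz).1 (zero_notMem h2')⟩, rfl⟩ hv
  refine hGc.subset_closure ?_ ?_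
  · rintro q ⟨h1, -, h3⟩
    exact ⟨h1, h3⟩
  · rintro q ⟨h1, h3⟩
    have h1' : ‖q.2‖ < 1 := h1
    obtain ⟨U, hU, hqU, hUD⟩ := disc_closed h1' h3
    rw [mem_closure_iff]
    intro V hV hqV
    -- the points `(p', q.2)`
    have hc : Continuous fun p : S2 => (p, q.2) := by fun_prop
    have hO : IsOpen ((fun p : S2 => (p, q.2)) ⁻¹' (U ∩ V)) := (hU.inter hV).preimage hc
    obtain ⟨p', hp', hb⟩ := (dense_S2 bad_fin).inter_open_nonempty _ hO ⟨q.1, hqU, hqV⟩
    exact ⟨(p', q.2), hp'.2, h1', hb, hUD _ hp'.1⟩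

end

end Pool.Agent.FibC
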