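import Pool.Agent.Lib.FibC.LLm

/-!
# CoI: two connected pieces of the interior

PROOF. `conn_ann`: the annulus `{ε/2 ≤ sn v ≤ ε}` is the image of `[ε/2, ε] × (unit circle)` under `(r, u) ↦ (r / sn u) u`. The set of `conn_mid` is a union of the connected fibres
(`{t | nu ε v t < 1}` is star-shaped about `0`), all meeting the zero section `{0} × annulus`. `conn_out`: let `C = {a | 0 < a.re ∧ |a.im| < a.re / 2}` (a convex cone containing `1`). `A = {a | a ≠ 0 ∧ a ∉ C}` is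
star-shaped about `-1`: if `(1 - r) a - r ∈ C ∪ {0}` (`0 < r < 1`) then `a = (q + r) / (1 - r) ∈ C`. So `A' = {a | sn a = 1 ∧ a ∉ C}` (image of `A` under `a ↦ a / sn a`) and the circle `Q = {sn a = 1}` are connected and
`T' = A' × Q ∪ Q × A'` is connected (both sets contain `(-1, -1)`). For `tor e < 1/4`: `1 ≤ gg e` iff `e.1 ∉ C` or `e.2 ∉ C` (if `a ∈ C` and `|sn a - 1| < 1/4` then `sn a = a.re`, `gg1 (a - 1) < 1`; if `a ∉ C`,
`|sn a - 1| < 1/4`, then `gg1 (a - 1) ≥ 1`). The set of `conn_out` is the union of the segments from `e = (a, b)` to `(a / sn a, b / sn b) ∈ T'` (`a ((1 - r) + r / sn a)`, `a ≠ 0`).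
-/

set_option autoImplicit false

namespace Pool.Agent.FibC

open Complex ComplexConjugate Set

noncomputable section

private theorem conn_of_fib {X : Type*} [TopologicalSpace X] {S T : Set X} (hT : IsConnected T)
    (hTS : T ⊆ S)
    (h : ∀ y ∈ S, ∃ t : Set X, t ⊆ S ∧ (∃ x, x ∈ t ∧ x ∈ T) ∧ y ∈ t ∧ IsPreconnected t) :
    IsConnected S := by
  obtain ⟨x₀, hx₀⟩ := hT.nonempty
  refine ⟨⟨x₀, hTS hx₀⟩, ?_⟩
  refine isPreconnected_of_forall x₀ fun y hy => ?_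
  obtain ⟨t, htS, ⟨x, hxt, hxT⟩, hyt, htc⟩ := h y hy
  exact ⟨T ∪ t, union_subset hTS htS, Or.inl hx₀, Or.inr hyt,
    IsPreconnected.union x hxT hxt hT.isPreconnected htc⟩

private theorem conn_punct : IsConnected ({(0 : ℂ)}ᶜ : Set ℂ) :=
  isConnected_compl_singleton_of_one_lt_rank (by
    rw [Complex.rank_real_complex]; exact Nat.one_lt_ofNat) 0

private theorem cont_scal {T : Type*} [TopologicalSpace T] {f : T → ℝ} {g : T → ℂ} {s : Set T}
    (hf : ContinuousOn f s) (hg : ContinuousOn g s) (h0 : ∀ x ∈ s, g x ≠ 0) :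
    ContinuousOn (fun x => ((f x / sn (g x) : ℝ) : ℂ) * g x) s := by
  refine ContinuousOn.mul ?_ hg
  refine continuous_ofReal.comp_continuousOn ?_
  exact hf.div (sn_cont.comp_continuousOn hg) fun x hx => (sn_pos (h0 x hx)).ne'

private theorem sn_scal {r : ℝ} (hr : 0 ≤ r) {u : ℂ} (hu : u ≠ 0) :
    sn (((r / sn u : ℝ) : ℂ) * u) = r := by
  have h := sn_pos hu
  rw [sn_mul (div_nonneg hr h.le)]
  field_simp

private theorem conn_ann {ε : ℝ} (hε : 0 < ε) : IsConnected {v : ℂ | ε / 2 ≤ sn v ∧ sn v ≤ ε} := by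
  have h1 : IsConnected ((Icc (ε / 2) ε) ×ˢ ({(0 : ℂ)}ᶜ : Set ℂ)) :=
    (isConnected_Icc (by linarith)).prod conn_punct
  have h2 := h1.image (fun x : ℝ × ℂ => ((x.1 / sn x.2 : ℝ) : ℂ) * x.2)
    (cont_scal continuous_fst.continuousOn continuous_snd.continuousOn (fun x hx => hx.2))
  convert h2 using 1
  ext v
  constructor
  · rintro ⟨hv1, hv2⟩
    have hv0 : v ≠ 0 := by
      rintro rfl
      rw [sn_eq_zero.2 rfl] at hv1
      linarith
    refine ⟨(sn v, v), ⟨⟨hv1, hv2⟩, hv0⟩, ?_⟩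
    simp only
    rw [div_self (sn_pos hv0).ne']
    simp
  · rintro ⟨⟨r, u⟩, ⟨⟨hr1, hr2⟩, hu⟩, rfl⟩
    simp only at hr1 hr2 hu ⊢
    rw [mem_ofPred_eq, sn_scal (by linarith) hu]
    exact ⟨hr1, hr2⟩

theorem conn_mid {ε : ℝ} (hε : 0 < ε) :
    IsConnected {p : ℂ × ℂ | ε / 2 ≤ sn p.2 ∧ sn p.2 ≤ ε ∧ nu ε p.2 p.1 < 1} := by
  have hnu0 : ∀ v : ℂ, nu ε v 0 = 0 := by
    intro v
    have h := nu_mul ε v (le_refl (0 : ℝ)) 0
    simpa using h
  refine conn_of_fib (T := (fun v : ℂ => ((0 : ℂ), v)) '' {v : ℂ | ε / 2 ≤ sn v ∧ sn v ≤ ε})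
    ((conn_ann hε).image _ (by fun_prop)) ?_ ?_
  · rintro _ ⟨v, ⟨h1, h2⟩, rfl⟩
    refine ⟨h1, h2, ?_⟩
    simp only
    rw [hnu0]
    norm_num
  · rintro ⟨t, v⟩ ⟨h1, h2, h3⟩
    simp only at h1 h2 h3
    refine ⟨(fun r : ℝ => ((r : ℂ) * t, v)) '' Icc 0 1, ?_, ⟨(0, v), ⟨0, ⟨le_rfl, zero_le_one⟩, by simp⟩,
      ⟨v, ⟨h1, h2⟩, rfl⟩⟩, ⟨1, ⟨zero_le_one, le_rfl⟩, by simp⟩, ?_⟩
    · rintro _ ⟨r, ⟨hr0, hr1⟩, rfl⟩
      refine ⟨h1, h2, ?_⟩
      simp only
      rw [nu_mul ε v hr0]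
      have hn : 0 ≤ nu ε v t := (norm_nonneg t).trans (nu_ge ε v t)
      nlinarith
    · exact isPreconnected_Icc.image _ (by fun_prop)

/-- the cone -/
private def Cn : Set ℂ := {a | 0 < a.re ∧ |a.im| < a.re / 2}

private theorem Cn_scal {r : ℝ} (hr : 0 < r) (a : ℂ) : ((r : ℂ) * a ∈ Cn) ↔ a ∈ Cn := by
  simp only [Cn, mem_ofPred_eq, re_ofReal_mul, im_ofReal_mul, abs_mul, abs_of_pos hr]
  constructor
  · rintro ⟨h1, h2⟩
    refine ⟨(mul_pos_iff_of_pos_left hr).1 h1, ?_⟩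
    by_contra hcon
    rw [not_lt] at hcon
    have := mul_le_mul_of_nonneg_left hcon hr.le
    linarith
  · rintro ⟨h1, h2⟩
    refine ⟨mul_pos hr h1, ?_⟩
    have := mul_lt_mul_of_pos_left h2 hr
    linarith

private theorem gg1_ge_iff {a : ℂ} (h : |sn a - 1| < 1 / 4) : 1 ≤ gg1 (a - 1) ↔ a ∉ Cn := by
  rw [abs_lt] at h
  obtain ⟨h1, h2⟩ := h
  simp only [gg1, sub_re, sub_im, one_re, one_im, sub_zero, Cn, mem_ofPred_eq, not_and, not_lt]
  constructor
  · intro hg hre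
    by_contra hcon
    rw [not_le] at hcon
    have hsn : sn a = a.re := by
      unfold sn
      rw [abs_of_pos hre]
      exact max_eq_left (by linarith)
    rw [hsn] at h1 h2
    have h3 : |a.re - 1| < 1 / 4 := abs_lt.2 ⟨h1, h2⟩
    have h4 : max (2 * |a.re - 1|) (2 * |a.im| - (a.re - 1)) < 1 := max_lt (by linarith) (by linarith)
    linarith
  · intro hC
    by_cases hre : 0 < a.re
    · exact le_max_of_le_right (by have := hC hre; linarith)
    · rw [not_lt] at hre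
      refine le_max_of_le_left ?_
      rw [abs_of_nonpos (by linarith)]
      linarith

private theorem conn_Q : IsConnected {a : ℂ | sn a = 1} := by
  have h2 := conn_punct.image (fun x : ℂ => ((1 / sn x : ℝ) : ℂ) * x)
    (cont_scal continuousOn_const continuousOn_id (fun x hx => hx))
  convert h2 using 1
  ext v
  constructor
  · intro hv
    rw [mem_ofPred_eq] at hv
    have hv0 : v ≠ 0 := by
      rintro rfl
      rw [sn_eq_zero.2 rfl] at hv
      norm_num at hv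
    refine ⟨v, hv0, ?_⟩
    simp [hv]
  · rintro ⟨u, hu, rfl⟩
    exact sn_scal zero_le_one hu

private theorem conn_A : IsConnected {a : ℂ | a ≠ 0 ∧ a ∉ Cn} := by
  have hm : (-1 : ℂ) ∈ {a : ℂ | a ≠ 0 ∧ a ∉ Cn} := by
    refine ⟨by norm_num, ?_⟩
    rintro ⟨h, _⟩
    norm_num at h
  refine conn_of_fib (T := {(-1 : ℂ)}) isConnected_singleton ?_ ?_
  · rintro _ rfl
    exact hm
  · rintro y ⟨hy0, hyC⟩
    refine ⟨(fun r : ℝ => ((1 - r : ℝ) : ℂ) * y - (r : ℂ)) '' Icc 0 1, ?_,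
      ⟨-1, ⟨1, ⟨zero_le_one, le_rfl⟩, by simp⟩, rfl⟩, ⟨0, ⟨le_rfl, zero_le_one⟩, by simp⟩, ?_⟩
    · rintro _ ⟨r, ⟨hr0, hr1⟩, rfl⟩
      rcases eq_or_lt_of_le hr1 with rfl | hr1
      · simpa using hm
      have hb : 0 < 1 - r := by linarith
      have hre : (((1 - r : ℝ) : ℂ) * y - (r : ℂ)).re = (1 - r) * y.re - r := by
        rw [sub_re, re_ofReal_mul, ofReal_re]
      have him : (((1 - r : ℝ) : ℂ) * y - (r : ℂ)).im = (1 - r) * y.im := by
        rw [sub_im, im_ofReal_mul, ofReal_im, sub_zero]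
      constructor
      · intro h0
        simp only at h0
        rw [h0, zero_re] at hre
        rw [h0, zero_im] at him
        have him' : y.im = 0 := by
          rcases mul_eq_zero.1 him.symm with h | h
          · linarith
          · exact h
        have hre' : (1 - r) * y.re = r := by linarith
        rcases eq_or_lt_of_le hr0 with hr | hr
        · rw [← hr] at hre'
          have : y.re = 0 := by linarith
          exact hy0 (Complex.ext this him')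
        · have hyre : 0 < y.re := by
            by_contra hcon
            rw [not_lt] at hcon
            nlinarith
          exact hyC ⟨hyre, by rw [him', abs_zero]; linarith⟩
      · rintro ⟨h1, h2⟩
        simp only at h1 h2
        rw [hre] at h1 h2
        rw [him, abs_mul, abs_of_pos hb] at h2
        have hyre : 0 < y.re := by
          by_contra hcon
          rw [not_lt] at hcon
          nlinarith
        refine hyC ⟨hyre, ?_⟩
        by_contra hcon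
        rw [not_lt] at hcon
        have := mul_le_mul_of_nonneg_left hcon hb.le
        linarith
    · exact isPreconnected_Icc.image _ (by fun_prop)

private theorem conn_A' : IsConnected {a : ℂ | sn a = 1 ∧ a ∉ Cn} := by
  have h2 := conn_A.image (fun x : ℂ => ((1 / sn x : ℝ) : ℂ) * x)
    (cont_scal continuousOn_const continuousOn_id (fun x hx => hx.1))
  convert h2 using 1
  ext v
  constructor
  · rintro ⟨hv, hvC⟩
    have hv0 : v ≠ 0 := by
      rintro rfl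
      rw [sn_eq_zero.2 rfl] at hv
      norm_num at hv
    refine ⟨v, ⟨hv0, hvC⟩, ?_⟩
    simp [hv]
  · rintro ⟨u, ⟨hu, huC⟩, rfl⟩
    refine ⟨sn_scal zero_le_one hu, ?_⟩
    simp only
    rwa [Cn_scal (div_pos one_pos (sn_pos hu))]

private theorem sn_m1 : sn (-1 : ℂ) = 1 := by
  simp [sn]

private theorem m1_not : (-1 : ℂ) ∉ Cn := by
  rintro ⟨h, _⟩
  norm_num at h

theorem conn_out : IsConnected {e : ℂ × ℂ | 1 ≤ gg e ∧ tor e < 1 / 4} := by
  have hS : {e : ℂ × ℂ | 1 ≤ gg e ∧ tor e < 1 / 4} =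
      {e : ℂ × ℂ | (e.1 ∉ Cn ∨ e.2 ∉ Cn) ∧ |sn e.1 - 1| < 1 / 4 ∧ |sn e.2 - 1| < 1 / 4} := by
    ext e
    simp only [mem_ofPred_eq, gg, tor, le_max_iff, max_lt_iff]
    constructor
    · rintro ⟨h, h1, h2⟩
      rw [gg1_ge_iff h1, gg1_ge_iff h2] at h
      exact ⟨h, h1, h2⟩
    · rintro ⟨h, h1, h2⟩
      rw [gg1_ge_iff h1, gg1_ge_iff h2]
      exact ⟨h, h1, h2⟩
  rw [hS]
  have hT : IsConnected (({a : ℂ | sn a = 1 ∧ a ∉ Cn} ×ˢ {a : ℂ | sn a = 1}) ∪
      ({a : ℂ | sn a = 1} ×ˢ {a : ℂ | sn a = 1 ∧ a ∉ Cn})) := by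
    refine IsConnected.union ⟨(-1, -1), ⟨⟨sn_m1, m1_not⟩, sn_m1⟩, ⟨sn_m1, ⟨sn_m1, m1_not⟩⟩⟩
      (conn_A'.prod conn_Q) (conn_Q.prod conn_A')
  refine conn_of_fib hT ?_ ?_
  · rintro ⟨a, b⟩ (⟨⟨h1, h2⟩, h3⟩ | ⟨h1, ⟨h2, h3⟩⟩)
    · simp only [mem_ofPred_eq] at h1 h2 h3 ⊢
      rw [h1, h3]
      exact ⟨Or.inl h2, by norm_num, by norm_num⟩
    · simp only [mem_ofPred_eq] at h1 h2 h3 ⊢
      rw [h1, h2]
      exact ⟨Or.inr h3, by norm_num, by norm_num⟩
  · rintro ⟨a, b⟩ ⟨hC, ha, hb⟩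
    simp only at hC ha hb
    have hsa : 0 < sn a := by rw [abs_lt] at ha; linarith [ha.1]
    have hsb : 0 < sn b := by rw [abs_lt] at hb; linarith [hb.1]
    have hsc : ∀ r ∈ Icc (0 : ℝ) 1, ∀ s : ℝ, 0 < s → 0 < (1 - r) + r / s := by
      rintro r ⟨hr0, hr1⟩ s hs
      rcases eq_or_lt_of_le hr0 with hr | hr
      · rw [← hr]; simp
      · have : 0 < r / s := div_pos hr hs
        linarith
    have hsn : ∀ r ∈ Icc (0 : ℝ) 1, ∀ z : ℂ, 0 < sn z → |sn z - 1| < 1 / 4 →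
        |sn ((((1 - r) + r / sn z : ℝ) : ℂ) * z) - 1| < 1 / 4 := by
      rintro r ⟨hr0, hr1⟩ z hz hz1
      rw [sn_mul (hsc r ⟨hr0, hr1⟩ _ hz).le]
      have h1 : ((1 - r) + r / sn z) * sn z - 1 = (1 - r) * (sn z - 1) := by
        field_simp
        ring
      rw [h1, abs_mul, abs_of_nonneg (by linarith)]
      have : 0 ≤ |sn z - 1| := abs_nonneg _
      nlinarith
    have h1a : sn (((((1 - 1) + 1 / sn a : ℝ)) : ℂ) * a) = 1 := by
      rw [sn_mul (by simpa using hsa.le)]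
      field_simp
      ring
    have h1b : sn (((((1 - 1) + 1 / sn b : ℝ)) : ℂ) * b) = 1 := by
      rw [sn_mul (by simpa using hsb.le)]
      field_simp
      ring
    have h1 : (1 : ℝ) ∈ Icc (0 : ℝ) 1 := ⟨zero_le_one, le_rfl⟩
    refine ⟨(fun r : ℝ => ((((1 - r) + r / sn a : ℝ) : ℂ) * a, (((1 - r) + r / sn b : ℝ) : ℂ) * b)) ''
      Icc 0 1, ?_, ⟨_, ⟨1, h1, rfl⟩, ?_⟩, ⟨0, ⟨le_rfl, zero_le_one⟩, by simp⟩, ?_⟩
    · rintro _ ⟨r, hr, rfl⟩
      refine ⟨?_, hsn r hr a hsa ha, hsn r hr b hsb hb⟩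
      simp only
      rw [Cn_scal (hsc r hr _ hsa), Cn_scal (hsc r hr _ hsb)]
      exact hC
    · rcases hC with hC | hC
      · left
        refine ⟨⟨h1a, ?_⟩, h1b⟩
        rwa [Cn_scal (hsc 1 h1 _ hsa)]
      · right
        refine ⟨h1a, ⟨h1b, ?_⟩⟩
        rwa [Cn_scal (hsc 1 h1 _ hsb)]
    · refine isPreconnected_Icc.image _ ?_
      fun_prop

end

end Pool.Agent.FibC
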