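import Pool.Agent.Lib.FibC.XLoc
import Pool.Agent.Lib.FibC.PPc

/-!
# XC: the region is compact

PROOF. `Kmid ε` is closed (`nu_cont`, `sn_cont`) and bounded (`‖t‖ ≤ nu ≤ 1`, `‖v‖ ≤ 2 sn v ≤ 2 ε`). `{e | 1 ≤ gg e ∧ tor e ≤ 1/4}` is closed and bounded
(`sn e.1 ≤ 5/4`), `inv` is continuous on it (`gg e ≥ 1` gives `e ≠ 1`), `LL ε` is continuous at `inv e` (`gg (inv e) ≤ 1`, `re_of_gg`). So
`Phi '' (Kmid ∪ Kin)` is compact (`sub_UU`, `Phi_cont`). By `IsTube.lt`, `IsTube.eq`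
`{‖q.2‖ ≤ 1} \ Phi '' {‖t‖ ≤ 1, sn v < ε} = {‖q.2‖ ≤ 1} \ Phi '' {p ∈ UU ε | sn p.2 < ε}`, closed (`Phi_open`) in the compact set
`univ ×ˢ closedBall 0 1`. The same for `MM`; `sub_W`: `‖(Phi p).2‖ ≤ 1` for `‖p.1‖ ≤ 1`.
-/

set_option autoImplicit false

namespace Pool.Agent.FibC

open Complex ComplexConjugate Set

noncomputable section

private theorem xc_img {ε : ℝ} {S : Set (ℂ × ℂ)} (hS : IsClosed S)
    (h : ∀ e ∈ S, 1 ≤ gg e ∧ tor e ≤ 1 / 4) : IsCompact ((fun e => LL ε (inv e)) '' S) := by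
  have hC : IsCompact S := by
    refine Metric.isCompact_of_isClosed_isBounded hS ?_
    refine (Metric.isBounded_closedBall (x := (0 : ℂ × ℂ)) (r := 5 / 2)).subset ?_
    intro e he
    obtain ⟨h1, h2⟩ := max_le_iff.1 (h e he).2
    have h3 := (abs_le.1 h1).2
    have h4 := (abs_le.1 h2).2
    have h5 := le_sn e.1
    have h6 := le_sn e.2
    rw [mem_closedBall_zero_iff, Prod.norm_def]
    exact max_le (by linarith) (by linarith)
  refine hC.image_of_continuousOn ?_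
  intro e he
  have hg := (h e he).1
  have hne : e ≠ 1 := by
    rintro rfl
    have h0 : gg (1 : ℂ × ℂ) = 0 := by simp [gg, gg1]
    rw [h0] at hg
    linarith
  have hgi : gg (inv e) ≤ 1 := by
    rw [gg_inv]
    exact inv_le_one_of_one_le₀ hg
  obtain ⟨h1, h2⟩ := re_of_gg hgi
  have hc : ContinuousAt (LL ε) (inv e) := LL_cont ε (by linarith) (by linarith)
  exact (ContinuousAt.comp (f := inv) (g := LL ε) hc (inv_cont hne)).continuousWithinAt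

theorem Kin_compact {ε : ℝ} (hε : 0 < ε) : IsCompact (Kin ε) := by
  refine xc_img ?_ fun e he => he
  exact (isClosed_le continuous_const gg_cont).inter (isClosed_le tor_cont continuous_const)

private theorem xc_Min (ε : ℝ) : IsCompact (Min ε) := by
  refine xc_img ?_ fun e he => ⟨he.1, he.2.le⟩
  exact (isClosed_le continuous_const gg_cont).inter (isClosed_eq tor_cont continuous_const)

private theorem xc_bdd {ε : ℝ} {S : Set (ℂ × ℂ)} (hS : IsClosed S)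
    (h : ∀ p ∈ S, ‖p.1‖ ≤ 1 ∧ sn p.2 ≤ ε) : IsCompact S := by
  refine Metric.isCompact_of_isClosed_isBounded hS ?_
  refine (Metric.isBounded_closedBall (x := (0 : ℂ × ℂ)) (r := max 1 (2 * ε))).subset ?_
  intro p hp
  obtain ⟨h1, h2⟩ := h p hp
  have h3 := le_sn p.2
  rw [mem_closedBall_zero_iff, Prod.norm_def]
  exact max_le (h1.trans (le_max_left _ _)) (le_trans (by linarith) (le_max_right _ _))

private theorem xc_sn2 : Continuous fun p : ℂ × ℂ => sn p.2 := sn_cont.comp continuous_snd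

private theorem xc_nu {ε : ℝ} (hε : 0 < ε) : Continuous fun p : ℂ × ℂ => nu ε p.2 p.1 :=
  (nu_cont hε).comp (continuous_snd.prodMk continuous_fst)

private theorem xc_Kmid {ε : ℝ} (hε : 0 < ε) : IsCompact (Kmid ε) := by
  refine xc_bdd (ε := ε) ?_ fun p hp => ⟨(nu_ge ε p.2 p.1).trans hp.2.2, hp.2.1⟩
  exact (isClosed_le continuous_const xc_sn2).inter
    ((isClosed_le xc_sn2 continuous_const).inter (isClosed_le (xc_nu hε) continuous_const))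

private theorem xc_Mmid {ε : ℝ} (hε : 0 < ε) : IsCompact (Mmid ε) := by
  refine xc_bdd (ε := ε) ?_ fun p hp => ⟨(nu_ge ε p.2 p.1).trans hp.2.2.le, hp.2.1⟩
  exact (isClosed_le continuous_const xc_sn2).inter
    ((isClosed_le xc_sn2 continuous_const).inter (isClosed_eq (xc_nu hε) continuous_const))

theorem tube_closed {ε : ℝ} (h : IsTube ε) : IsClosed (Phi '' {p | ‖p.1‖ ≤ 1 ∧ sn p.2 ≤ ε}) := by
  refine IsCompact.isClosed (IsCompact.image_of_continuousOn (xc_bdd (ε := ε) ?_ fun p hp => hp)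
    ((Phi_cont h).mono (sub_UU h).2.2))
  exact (isClosed_le (continuous_norm.comp continuous_fst) continuous_const).inter
    (isClosed_le xc_sn2 continuous_const)

private theorem xc_le {ε : ℝ} (h : IsTube ε) {p : ℂ × ℂ} (hp : p ∈ UU ε) :
    ‖(Phi p).2‖ ≤ 1 ↔ ‖p.1‖ ≤ 1 := by
  rw [le_iff_lt_or_eq, le_iff_lt_or_eq, h.lt p hp, h.eq p hp]

private theorem xc_open {ε : ℝ} (h : IsTube ε) :
    IsOpen (Phi '' {p | p ∈ UU ε ∧ sn p.2 < ε}) := by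
  refine Phi_open h ?_ fun p hp => hp.1
  have h1 : IsOpen (UU ε) :=
    (isOpen_lt (continuous_norm.comp continuous_fst) continuous_const).inter
      (isOpen_lt xc_sn2 continuous_const)
  exact h1.inter (isOpen_lt xc_sn2 continuous_const)

private theorem xc_cyl : IsCompact {q : S2 × ℂ | ‖q.2‖ ≤ 1} := by
  have h1 : {q : S2 × ℂ | ‖q.2‖ ≤ 1} = (univ : Set S2) ×ˢ Metric.closedBall (0 : ℂ) 1 := by
    ext q
    simp
  rw [h1]
  have := S2_compact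
  exact isCompact_univ.prod (isCompact_closedBall _ _)

private theorem xc_UU {ε : ℝ} (h : IsTube ε) {p : ℂ × ℂ} (h1 : ‖p.1‖ ≤ 1) (h2 : sn p.2 < ε) :
    p ∈ UU ε := (sub_UU h).2.2 ⟨h1, h2.le⟩

private theorem xc_eqX {ε : ℝ} (h : IsTube ε) :
    {q : S2 × ℂ | ‖q.2‖ ≤ 1} \ Phi '' {p | ‖p.1‖ ≤ 1 ∧ sn p.2 < ε} =
      {q : S2 × ℂ | ‖q.2‖ ≤ 1} ∩ (Phi '' {p | p ∈ UU ε ∧ sn p.2 < ε})ᶜ := by
  ext q
  constructor
  · rintro ⟨h1, h2⟩
    refine ⟨h1, ?_⟩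
    rintro ⟨p, ⟨hp, hs⟩, rfl⟩
    exact h2 ⟨p, ⟨(xc_le h hp).1 h1, hs⟩, rfl⟩
  · rintro ⟨h1, h2⟩
    refine ⟨h1, ?_⟩
    rintro ⟨p, ⟨hp, hs⟩, rfl⟩
    exact h2 ⟨p, ⟨xc_UU h hp hs, hs⟩, rfl⟩

private theorem xc_eqM {ε : ℝ} (h : IsTube ε) :
    {q : S2 × ℂ | ‖q.2‖ = 1} \ Phi '' {p | ‖p.1‖ = 1 ∧ sn p.2 < ε} =
      {q : S2 × ℂ | ‖q.2‖ = 1} ∩ (Phi '' {p | p ∈ UU ε ∧ sn p.2 < ε})ᶜ := by
  ext q
  constructor
  · rintro ⟨h1, h2⟩
    refine ⟨h1, ?_⟩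
    rintro ⟨p, ⟨hp, hs⟩, rfl⟩
    exact h2 ⟨p, ⟨(h.eq p hp).1 h1, hs⟩, rfl⟩
  · rintro ⟨h1, h2⟩
    refine ⟨h1, ?_⟩
    rintro ⟨p, ⟨hp, hs⟩, rfl⟩
    exact h2 ⟨p, ⟨xc_UU h (le_of_eq hp) hs, hs⟩, rfl⟩

theorem XX_compact {ε : ℝ} (h : IsTube ε) : IsCompact (XX ε) := by
  refine IsCompact.union ?_ ?_
  · rw [xc_eqX h]
    exact xc_cyl.inter_right (xc_open h).isClosed_compl
  · exact ((xc_Kmid h.pos).union (Kin_compact h.pos)).image_of_continuousOn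
      ((Phi_cont h).mono ((sub_UU h).1.trans (sub_UU h).2.2))

theorem MM_compact {ε : ℝ} (h : IsTube ε) : IsCompact (MM ε) := by
  refine IsCompact.union ?_ ?_
  · rw [xc_eqM h]
    have h1 : IsCompact {q : S2 × ℂ | ‖q.2‖ = 1} := by
      refine xc_cyl.of_isClosed_subset ?_ fun q hq => le_of_eq hq
      exact isClosed_eq (continuous_norm.comp continuous_snd) continuous_const
    exact h1.inter_right (xc_open h).isClosed_compl
  · exact ((xc_Mmid h.pos).union (xc_Min ε)).image_of_continuousOn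
      ((Phi_cont h).mono ((sub_UU h).2.1.trans (sub_UU h).2.2))

theorem XX_sub {ε : ℝ} (h : IsTube ε) : XX ε ⊆ {q | ‖q.2‖ ≤ 1} ∧ MM ε ⊆ XX ε := by
  constructor
  · rintro q (⟨h1, -⟩ | ⟨p, hp, rfl⟩)
    · exact h1
    · have h2 := (sub_UU h).1 hp
      exact (xc_le h ((sub_UU h).2.2 h2)).2 h2.1
  · rintro q (⟨h1, h2⟩ | ⟨p, hp, rfl⟩)
    · left
      refine ⟨le_of_eq h1, ?_⟩
      rintro ⟨p, ⟨hp, hs⟩, rfl⟩
      exact h2 ⟨p, ⟨(h.eq p (xc_UU h hp hs)).1 h1, hs⟩, rfl⟩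
    · right
      refine ⟨p, ?_, rfl⟩
      rcases hp with hp | ⟨e, he, rfl⟩
      · exact Or.inl ⟨hp.1, hp.2.1, le_of_eq hp.2.2⟩
      · exact Or.inr ⟨e, ⟨he.1, le_of_eq he.2⟩, rfl⟩

end

end Pool.Agent.FibC
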