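import Pool.Agent.Lib.FibC.CoD
import Pool.Agent.Lib.FibC.XC

/-!
# CoT: the complement of the open tube is connected

The complement of the disc retracts onto the complement of the open tube.
-/

set_option autoImplicit false

namespace Pool.Agent.FibC

open Complex ComplexConjugate Set

noncomputable section

theorem Phi_zero (t : ℂ) : Phi (t, 0) = Phi0 (t, 0) := by
  have h1 : E3 0 = 1 := by simp [E3]
  have h2 : chg (t, 0) = (t, 0) := by
    unfold chg
    simp only [h1, add_zero, arg_one, sub_self, zero_div]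
    simp
  rw [Phi, h2]

private theorem contOn_glue {X Y : Type*} [TopologicalSpace X] [TopologicalSpace Y] {f : X → Y}
    {A C1 C2 : Set X} (h1 : IsClosed C1) (h2 : IsClosed C2) (hA : A ⊆ C1 ∪ C2)
    (hf1 : ContinuousOn f (A ∩ C1)) (hf2 : ContinuousOn f (A ∩ C2)) : ContinuousOn f A := by
  have key : ∀ C : Set X, IsClosed C → ContinuousOn f (A ∩ C) → ∀ x ∈ A,
      ContinuousWithinAt f (A ∩ C) x := by
    intro C hC hf x hx
    by_cases hxC : x ∈ C
    · exact hf x ⟨hx, hxC⟩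
    · exact continuousWithinAt_of_notMem_closure fun h =>
        hxC (hC.closure_eq ▸ closure_mono inter_subset_right h)
  intro x hx
  have h3 := (key C1 h1 hf1 x hx).union (key C2 h2 hf2 x hx)
  rwa [← inter_union_distrib_left, inter_eq_left.2 hA] at h3

theorem conn_tube_compl {ε : ℝ} (h : IsTube ε) :
    IsConnected ({q : S2 × ℂ | ‖q.2‖ < 1} \ Phi '' {p | ‖p.1‖ < 1 ∧ sn p.2 < ε}) := by
  classical
  have hε := h.pos
  obtain ⟨T, hT, hTP⟩ := h.emb
  have hinj := Phi_inj h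
  set O : Set (ℂ × ℂ) := {p | p ∈ UU ε ∧ sn p.2 < ε} with hO
  have hUo : IsOpen (UU ε) := hT ▸ T.open_source
  have hOo : IsOpen O := hUo.inter (isOpen_lt (sn_cont.comp continuous_snd) continuous_const)
  set C1 : Set (S2 × ℂ) := Phi '' {p | ‖p.1‖ ≤ 1 ∧ sn p.2 ≤ ε} with hC1
  set C2 : Set (S2 × ℂ) := (Phi '' O)ᶜ with hC2
  have hC1c : IsClosed C1 := tube_closed h
  have hC2c : IsClosed C2 := (Phi_open h hOo fun p hp => hp.1).isClosed_compl
  set A : Set (S2 × ℂ) := {q : S2 × ℂ | ‖q.2‖ < 1} \ Disc with hA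
  have hsub : {p : ℂ × ℂ | ‖p.1‖ ≤ 1 ∧ sn p.2 ≤ ε} ⊆ UU ε := (sub_UU h).2.2
  have hleft : ∀ p ∈ UU ε, T.symm (Phi p) = p := by
    intro p hp
    rw [← hTP p hp]
    exact T.left_inv (by rw [hT]; exact hp)
  -- points of the tube outside the disc
  have hne : ∀ p ∈ UU ε, Phi p ∈ A → ‖p.1‖ < 1 ∧ p.2 ≠ 0 := by
    intro p hp hq
    have h1 : ‖p.1‖ < 1 := (h.lt p hp).1 hq.1
    refine ⟨h1, fun h0 => hq.2 ⟨p.1, h1, ?_⟩⟩
    rw [← Phi_zero, ← h0]
  set m : ℂ × ℂ → ℂ × ℂ := fun p => (p.1, ((ε / sn p.2 : ℝ) : ℂ) * p.2) with hm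
  have hmsn : ∀ p : ℂ × ℂ, p.2 ≠ 0 → sn (m p).2 = ε := by
    intro p hp
    have := sn_pos hp
    rw [hm]
    simp only
    rw [sn_mul (by positivity), div_mul_cancel₀ _ this.ne']
  have hmU : ∀ p ∈ UU ε, p.2 ≠ 0 → m p ∈ UU ε := by
    intro p hp hp0
    refine ⟨hp.1, ?_⟩
    rw [hmsn p hp0]
    linarith
  set r : S2 × ℂ → S2 × ℂ := fun q => if q ∈ C2 then q else Phi (m (T.symm q)) with hr
  have hr2 : ∀ q ∈ C2, r q = q := fun q hq => if_pos hq
  have hAC : A ⊆ C1 ∪ C2 := by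
    intro q hq
    by_cases h2 : q ∈ C2
    · exact Or.inr h2
    · left
      obtain ⟨p, hp, rfl⟩ := not_not.1 h2
      exact ⟨p, ⟨(hne p hp.1 hq).1.le, hp.2.le⟩, rfl⟩
  have hr1 : ∀ q ∈ A ∩ C1, r q = Phi (m (T.symm q)) := by
    rintro _ ⟨hqA, ⟨p, hp, rfl⟩⟩
    have hpU := hsub hp
    by_cases h2 : Phi p ∈ C2
    · rw [hr2 _ h2, hleft p hpU]
      have h3 : sn p.2 = ε := by
        refine le_antisymm hp.2 (not_lt.1 fun h4 => h2 ⟨p, ⟨hpU, h4⟩, rfl⟩)
      congr 1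
      rw [hm]
      simp only [h3, div_self hε.ne', ofReal_one, one_mul]
    · exact if_neg h2
  have hrc : ContinuousOn r A := by
    refine contOn_glue hC1c hC2c hAC ?_ ?_
    · refine ContinuousOn.congr ?_ hr1
      have hC1T : ∀ q ∈ A ∩ C1, q ∈ T.target ∧ T.symm q ∈ UU ε ∧ (T.symm q).2 ≠ 0 := by
        rintro _ ⟨hqA, ⟨p, hp, rfl⟩⟩
        have hpU := hsub hp
        refine ⟨?_, ?_, ?_⟩
        · rw [← hTP p hpU]
          exact T.map_source (by rw [hT]; exact hpU)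
        · rw [hleft p hpU]
          exact hpU
        · rw [hleft p hpU]
          exact (hne p hpU hqA).2
      have c1 : ContinuousOn T.symm (A ∩ C1) :=
        T.continuousOn_symm.mono fun q hq => (hC1T q hq).1
      have c2 : ContinuousOn m {p | p ∈ UU ε ∧ p.2 ≠ 0} := by
        rw [hm]
        refine continuousOn_fst.prodMk (ContinuousOn.mul ?_ continuousOn_snd)
        refine continuous_ofReal.comp_continuousOn ?_
        refine continuousOn_const.div (sn_cont.comp continuous_snd).continuousOn ?_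
        intro p hp
        exact (sn_pos hp.2).ne'
      have c3 : ContinuousOn Phi (UU ε) := Phi_cont h
      exact c3.comp (c2.comp c1 fun q hq => (hC1T q hq).2)
        fun q hq => hmU _ (hC1T q hq).2.1 (hC1T q hq).2.2
    · exact continuousOn_id.congr fun q hq => hr2 q hq.2
  have himg : r '' A = {q : S2 × ℂ | ‖q.2‖ < 1} \ Phi '' {p | ‖p.1‖ < 1 ∧ sn p.2 < ε} := by
    have hsub2 : ∀ p : ℂ × ℂ, ‖p.1‖ < 1 → sn p.2 < ε → p ∈ UU ε := fun p h1 h2 =>
      hsub ⟨h1.le, h2.le⟩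
    ext q
    constructor
    · rintro ⟨q, hq, rfl⟩
      by_cases h2 : q ∈ C2
      · rw [hr2 q h2]
        refine ⟨hq.1, ?_⟩
        rintro ⟨p, hp, rfl⟩
        exact h2 ⟨p, ⟨hsub2 p hp.1 hp.2, hp.2⟩, rfl⟩
      · obtain ⟨p, hp, rfl⟩ := not_not.1 h2
        obtain ⟨h3, h4⟩ := hne p hp.1 hq
        have h5 : r (Phi p) = Phi (m p) := by
          rw [hr]
          simp only [if_neg h2]
          rw [hleft p hp.1]
        have h6 := hmU p hp.1 h4
        rw [h5]
        refine ⟨(h.lt _ h6).2 h3, ?_⟩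
        rintro ⟨p', hp', he⟩
        have h7 := hinj (hsub2 p' hp'.1 hp'.2) h6 he
        have h8 := hmsn p h4
        rw [← h7] at h8
        linarith [hp'.2]
    · rintro ⟨hq, hq'⟩
      refine ⟨q, ⟨hq, ?_⟩, hr2 q ?_⟩
      · rintro ⟨t, ht, rfl⟩
        refine hq' ⟨(t, 0), ⟨ht, ?_⟩, Phi_zero t⟩
        rw [sn_eq_zero.2 rfl]
        exact hε
      · rintro ⟨p, hp, rfl⟩
        exact hq' ⟨p, ⟨(h.lt p hp.1).1 hq, hp.2⟩, rfl⟩
  rw [← himg]
  exact conn_disc_compl.image r hrc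

end

end Pool.Agent.FibC
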