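import Pool.Agent.Lib.FibC.XC
import Pool.Agent.Lib.FibC.Pol

/-!
# FlD: flat charts at the wall of the small bidisc

PROOF. `chJ`: the map `C`: for `ε/2 ≤ sn v`: `C (t, v) = (ε v / (4 sn v ²), t)`; for `sn v ≤ ε/2`: with `(a, b) = inv (LLi ε (t, v))`:
`C (t, v) = (s, y)`, `(y, s) = LL 1 (a, b)`. They agree for `sn v = ε/2`, `sn t < 1/2` (`inv_edge`; `LL 1 (LLi ε (t, v)) = (t, v / ε)`).
Inverse `D`: for `sn s ≤ 1/2`: `D (s, y) = (y, ε s / (4 sn s ²))`; for `1/2 ≤ sn s`: `D (s, y) = LL ε (inv (LLi 1 (y, s)))`. Target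
`{(s, y) | 1/3 < sn s < 1, sn y < 1/2}`: note `gg (LLi 1 (y, s)) ≥ 1` iff `sn s ≥ 1/2` there (`gg_LLi_lt`, `gg_LLi`). Source: the image of the target under
`D`; it is `{(t, v) | sn t < 1/2, (ε/2 ≤ sn v → sn v < 3ε/4), (sn v ≤ ε/2 → (t, v) ≠ 0 ∧ 0 < a.re ∧ 0 < b.re ∧ LL 1 (a, b) ∈ {sn y < 1/2, sn s < 1})}`, which is
open (both descriptions agree on the common wall). Both maps are continuous (piecewise on closed sets).
For `sn s < 1`, `sn y < 1/2`: `sn a = a.re` for `(a, b) = LLi 1 (y, s)`, so `tor (LLi 1 (y, s)) = sn y` (`tor_LLi`). So for `p ∈ source`: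
`tor (inv (LLi ε p)) = sn (C p).2` when `sn p.2 ≤ ε/2`, `nu ε p.2 p.1 = 4 sn p.1 = 4 sn (C p).2` when `ε/2 ≤ sn p.2 < 3ε/4`.
`flatD`: compose the inverse of the tube with `chJ`, `N b y = 4 sn y`, `mem_mid`, `mem_in`, `mem_Kin`, `mem_Min`.
-/

set_option autoImplicit false

namespace Pool.Agent.FibC

open Complex ComplexConjugate Set

noncomputable section

private theorem glueAt {X Y : Type} [TopologicalSpace X] [TopologicalSpace Y] {h : X → ℝ}
    (hh : Continuous h) {c : ℝ} {f g : X → Y} {x : X} (hf : c ≤ h x → ContinuousAt f x)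
    (hg : h x ≤ c → ContinuousAt g x) (hfg : h x = c → f x = g x) :
    ContinuousAt (fun x => if c ≤ h x then f x else g x) x := by
  rcases lt_trichotomy (h x) c with hlt | heq | hgt
  · refine (hg hlt.le).congr ?_
    have h1 : ∀ᶠ y in nhds x, h y < c := hh.continuousAt.eventually (gt_mem_nhds hlt)
    filter_upwards [h1] with y hy
    rw [if_neg (not_le.2 hy)]
  · have h1 := hf heq.ge
    have h2 := hg heq.le
    unfold ContinuousAt at h1 h2 ⊢
    show Filter.Tendsto _ _ (nhds (if c ≤ h x then f x else g x))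
    rw [if_pos heq.ge]
    rw [← hfg heq] at h2
    exact Filter.Tendsto.if' h1 h2
  · refine (hf hgt.le).congr ?_
    have h1 : ∀ᶠ y in nhds x, c < h y := hh.continuousAt.eventually (lt_mem_nhds hgt)
    filter_upwards [h1] with y hy
    rw [if_pos hy.le]

private def CJ (ε : ℝ) (p : ℂ × ℂ) : ℂ × ℂ :=
  if ε / 2 ≤ sn p.2 then (((ε / (4 * sn p.2 ^ 2) : ℝ) : ℂ) * p.2, p.1)
  else ((LL 1 (inv (LLi ε p))).2, (LL 1 (inv (LLi ε p))).1)

private def DJ (ε : ℝ) (q : ℂ × ℂ) : ℂ × ℂ :=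
  if 1 / 2 ≤ sn q.1 then LL ε (inv (LLi 1 (q.2, q.1)))
  else (q.2, ((ε / (4 * sn q.1 ^ 2) : ℝ) : ℂ) * q.1)

private theorem LL_scale (ε : ℝ) (e : ℂ × ℂ) : LL ε e = ((LL 1 e).1, (ε : ℂ) * (LL 1 e).2) := by
  unfold LL
  refine Prod.ext rfl ?_
  apply Complex.ext <;> simp

private theorem re_gt {z : ℂ} (h : sn z < 1 / 2) : -(1 / 2) < z.re ∧ -(1 / 2) < z.im := by
  unfold sn at h
  have h1 := (le_max_left _ _).trans_lt h
  have h2 := (le_max_right _ _).trans_lt h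
  exact ⟨(abs_lt.1 h1).1, (abs_lt.1 h2).1⟩

private theorem LL_LLi' {ε : ℝ} (hε : 0 < ε) {p : ℂ × ℂ} (h : sn p.1 < 1 / 2) :
    LL ε (LLi ε p) = p := by
  obtain ⟨h1, h2⟩ := re_gt h
  exact LL_LLi hε (by linarith) (by linarith)

private theorem LLi_re (ε : ℝ) (p : ℂ × ℂ) :
    (LLi ε p).1.re = 1 + p.1.re ∧ (LLi ε p).2.re = 1 + p.1.im := by
  unfold LLi
  constructor <;> simp

/-- the two formulas for `C` agree on the wall -/
private theorem C_wall {ε : ℝ} (hε : 0 < ε) {p : ℂ × ℂ} (h : sn p.1 < 1 / 2)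
    (h2 : sn p.2 = ε / 2) :
    (((ε / (4 * sn p.2 ^ 2) : ℝ) : ℂ) * p.2, p.1) =
      ((LL 1 (inv (LLi ε p))).2, (LL 1 (inv (LLi ε p))).1) := by
  have h3 := (inv_edge hε h.le h2.le (Or.inr h2)).1
  rw [h3]
  have h4 := LL_LLi' hε h
  rw [LL_scale] at h4
  have h5 : (LL 1 (LLi ε p)).1 = p.1 := by
    have h5' := congrArg Prod.fst h4
    exact h5'
  have h6 : (ε : ℂ) * (LL 1 (LLi ε p)).2 = p.2 := by
    have h6' := congrArg Prod.snd h4
    exact h6'
  have hε' : (ε : ℂ) ≠ 0 := by exact_mod_cast hε.ne'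
  refine Prod.ext ?_ h5.symm
  show ((ε / (4 * sn p.2 ^ 2) : ℝ) : ℂ) * p.2 = (LL 1 (LLi ε p)).2
  rw [h2, ← h6]
  push_cast
  field_simp
  try norm_num

/-- the two formulas for `D` agree on the wall -/
private theorem D_wall {ε : ℝ} {q : ℂ × ℂ} (h : sn q.2 < 1 / 2)
    (h2 : sn q.1 = 1 / 2) :
    LL ε (inv (LLi 1 (q.2, q.1))) = (q.2, ((ε / (4 * sn q.1 ^ 2) : ℝ) : ℂ) * q.1) := by
  have h3 := (inv_edge (p := (q.2, q.1)) one_pos h.le h2.le (Or.inr h2)).1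
  rw [h3, LL_scale, LL_LLi' (p := (q.2, q.1)) one_pos h, h2]
  refine Prod.ext rfl ?_
  push_cast
  norm_num

private theorem CJ_low {ε : ℝ} (hε : 0 < ε) {p : ℂ × ℂ} (h : sn p.1 < 1 / 2)
    (h2 : sn p.2 ≤ ε / 2) :
    CJ ε p = ((LL 1 (inv (LLi ε p))).2, (LL 1 (inv (LLi ε p))).1) := by
  unfold CJ
  split_ifs with h3
  · exact C_wall hε h (le_antisymm h2 h3)
  · rfl

private theorem CJ_high {ε : ℝ} {p : ℂ × ℂ} (h2 : ε / 2 ≤ sn p.2) :
    CJ ε p = (((ε / (4 * sn p.2 ^ 2) : ℝ) : ℂ) * p.2, p.1) := by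
  unfold CJ
  rw [if_pos h2]

private theorem DJ_low {ε : ℝ} {q : ℂ × ℂ} (h : sn q.2 < 1 / 2) (h2 : sn q.1 ≤ 1 / 2) :
    DJ ε q = (q.2, ((ε / (4 * sn q.1 ^ 2) : ℝ) : ℂ) * q.1) := by
  unfold DJ
  split_ifs with h3
  · exact D_wall h (le_antisymm h2 h3)
  · rfl

private theorem DJ_high {ε : ℝ} {q : ℂ × ℂ} (h2 : 1 / 2 ≤ sn q.1) :
    DJ ε q = LL ε (inv (LLi 1 (q.2, q.1))) := by
  unfold DJ
  rw [if_pos h2]

private theorem sn_resc {c : ℝ} (hc : 0 < c) {v : ℂ} (hv : 0 < sn v) :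
    sn (((c / (4 * sn v ^ 2) : ℝ) : ℂ) * v) = c / (4 * sn v) := by
  rw [sn_mul (by positivity)]
  field_simp

private theorem resc_resc {c : ℝ} (hc : 0 < c) {v : ℂ} (hv : 0 < sn v) :
    ((c / (4 * sn (((c / (4 * sn v ^ 2) : ℝ) : ℂ) * v) ^ 2) : ℝ) : ℂ) *
      (((c / (4 * sn v ^ 2) : ℝ) : ℂ) * v) = v := by
  rw [sn_resc hc hv, ← mul_assoc, ← Complex.ofReal_mul]
  have h1 : c / (4 * (c / (4 * sn v)) ^ 2) * (c / (4 * sn v ^ 2)) = 1 := by
    field_simp
    try norm_num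
  rw [h1, Complex.ofReal_one, one_mul]

private def QJ (ε : ℝ) : Set (ℂ × ℂ) :=
  {p | 0 < (inv (LLi ε p)).1.re ∧ 0 < (inv (LLi ε p)).2.re}

private def WJ (ε : ℝ) : Set (ℂ × ℂ) :=
  {p | (sn p.1 < 1 / 2 ∧ 4 * sn p.2 < 3 * ε ∧ p ≠ 0) ∧ (ε / 2 < sn p.2 ∨ p ∈ QJ ε)}

private def UJ : Set (ℂ × ℂ) := {q | 1 / 3 < sn q.1 ∧ sn q.1 < 1 ∧ sn q.2 < 1 / 2}

private theorem UJ_open : IsOpen UJ := by
  have h1 : Continuous fun q : ℂ × ℂ => sn q.1 := sn_cont.comp continuous_fst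
  have h2 : Continuous fun q : ℂ × ℂ => sn q.2 := sn_cont.comp continuous_snd
  exact (isOpen_lt continuous_const h1).inter
    ((isOpen_lt h1 continuous_const).inter (isOpen_lt h2 continuous_const))

private theorem invLLi_cont {ε : ℝ} (hε : 0 < ε) {p : ℂ × ℂ} (h : p ≠ 0) (h1 : sn p.1 ≤ 1 / 2) :
    ContinuousAt (fun p => inv (LLi ε p)) p :=
  ContinuousAt.comp (f := LLi ε) (g := inv) (inv_cont (LLi_ne hε h h1)) (LLi_cont ε).continuousAt

private theorem QJ_wall {ε : ℝ} (hε : 0 < ε) {p : ℂ × ℂ} (h : sn p.1 < 1 / 2)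
    (h2 : sn p.2 = ε / 2) : p ∈ QJ ε := by
  have h3 := (inv_edge hε h.le h2.le (Or.inr h2)).1
  show 0 < (inv (LLi ε p)).1.re ∧ 0 < (inv (LLi ε p)).2.re
  rw [h3, (LLi_re ε p).1, (LLi_re ε p).2]
  obtain ⟨h4, h5⟩ := re_gt h
  constructor <;> linarith

private theorem WJ_open {ε : ℝ} (hε : 0 < ε) : IsOpen (WJ ε) := by
  rw [isOpen_iff_mem_nhds]
  rintro p ⟨⟨h1, h2, h3⟩, h4⟩
  have e1 : ∀ᶠ p' in nhds p, sn p'.1 < 1 / 2 :=
    (sn_cont.comp continuous_fst).continuousAt.eventually (gt_mem_nhds h1)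
  have e2 : ∀ᶠ p' : ℂ × ℂ in nhds p, 4 * sn p'.2 < 3 * ε :=
    ((continuous_const.mul (sn_cont.comp continuous_snd)).continuousAt.eventually
      (gt_mem_nhds h2) : ∀ᶠ p' in nhds p, 4 * (sn ∘ Prod.snd) p' < 3 * ε)
  have e3 : ∀ᶠ p' in nhds p, p' ≠ 0 := isOpen_ne.mem_nhds h3
  have e4 : ∀ᶠ p' in nhds p, ε / 2 < sn p'.2 ∨ p' ∈ QJ ε := by
    rcases h4 with h4 | h4
    · have h5 : ∀ᶠ p' in nhds p, ε / 2 < sn p'.2 :=
        (sn_cont.comp continuous_snd).continuousAt.eventually (lt_mem_nhds h4)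
      filter_upwards [h5] with p' hp' using Or.inl hp'
    · have hc := invLLi_cont hε h3 h1.le
      have c1 : ContinuousAt (fun p => (inv (LLi ε p)).1.re) p :=
        (Complex.continuous_re.comp continuous_fst).continuousAt.comp hc
      have c2 : ContinuousAt (fun p => (inv (LLi ε p)).2.re) p :=
        (Complex.continuous_re.comp continuous_snd).continuousAt.comp hc
      have h5 := c1.eventually (lt_mem_nhds h4.1)
      have h6 := c2.eventually (lt_mem_nhds h4.2)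
      filter_upwards [h5, h6] with p' hp' hp'' using Or.inr ⟨hp', hp''⟩
  filter_upwards [e1, e2, e3, e4] with p' a b c d using ⟨⟨a, b, c⟩, d⟩

private theorem WJ_Q {ε : ℝ} {p : ℂ × ℂ} (hp : p ∈ WJ ε) (h : sn p.2 ≤ ε / 2) :
    p ∈ QJ ε := by
  rcases hp.2 with h4 | h4
  · exact absurd h4 (not_lt.2 h)
  · exact h4

private theorem resc_cont {c : ℝ} {v : ℂ} (hv : v ≠ 0) :
    ContinuousAt (fun v : ℂ => ((c / (4 * sn v ^ 2) : ℝ) : ℂ) * v) v := by
  have h1 : ContinuousAt (fun v : ℂ => c / (4 * sn v ^ 2)) v := by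
    refine continuousAt_const.div (continuousAt_const.mul (sn_cont.continuousAt.pow 2)) ?_
    have := sn_pos hv
    positivity
  exact (Complex.continuous_ofReal.continuousAt.comp h1).mul continuousAt_id

private theorem CJ_cont {ε : ℝ} (hε : 0 < ε) {p : ℂ × ℂ} (hp : p ∈ WJ ε) :
    ContinuousAt (CJ ε) p := by
  unfold CJ
  refine glueAt (h := fun p : ℂ × ℂ => sn p.2) (sn_cont.comp continuous_snd) ?_ ?_ ?_
  · intro h
    have hv : p.2 ≠ 0 := by
      intro h0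
      rw [h0, sn_eq_zero.2 rfl] at h
      linarith
    refine ContinuousAt.prodMk ?_ continuousAt_fst
    exact ContinuousAt.comp (f := fun p : ℂ × ℂ => p.2)
      (g := fun v : ℂ => ((ε / (4 * sn v ^ 2) : ℝ) : ℂ) * v) (resc_cont hv) continuousAt_snd
  · intro h
    have hQ := WJ_Q hp h
    have hc := invLLi_cont hε hp.1.2.2 hp.1.1.le
    have h1 : ContinuousAt (fun p => LL 1 (inv (LLi ε p))) p :=
      ContinuousAt.comp (f := fun p => inv (LLi ε p)) (g := LL 1) (LL_cont 1 hQ.1.ne' hQ.2.ne') hc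
    exact ContinuousAt.prodMk (continuousAt_snd.comp h1) (continuousAt_fst.comp h1)
  · intro h
    exact C_wall hε hp.1.1 h

private theorem pos_of_UJ {q : ℂ × ℂ} (hq : q ∈ UJ) : 0 < sn q.1 := by
  have := hq.1
  linarith

private theorem ne_of_sn {v : ℂ} (h : 0 < sn v) : v ≠ 0 := by
  intro h0
  rw [h0, sn_eq_zero.2 rfl] at h
  exact lt_irrefl _ h

private theorem e_ne {q : ℂ × ℂ} (hq : q ∈ UJ) : LLi 1 (q.2, q.1) ≠ 1 := by
  refine LLi_ne one_pos ?_ hq.2.2.le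
  intro h
  exact ne_of_sn (pos_of_UJ hq) (congrArg Prod.snd h)

private theorem gg_ge {q : ℂ × ℂ} (h : 1 / 2 ≤ sn q.1) : 1 ≤ gg (LLi 1 (q.2, q.1)) := by
  by_contra hlt
  have h1 := (gg_LLi_lt one_pos (q.2, q.1)).1 (not_le.1 hlt)
  exact absurd h1.2 (not_lt.2 h)

private theorem gg_inv_le {e : ℂ × ℂ} (h : 1 ≤ gg e) : gg (inv e) ≤ 1 := by
  rw [gg_inv]
  exact inv_le_one_of_one_le₀ h

private theorem DJ_cont {ε : ℝ} {q : ℂ × ℂ} (hq : q ∈ UJ) :
    ContinuousAt (DJ ε) q := by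
  unfold DJ
  refine glueAt (h := fun q : ℂ × ℂ => sn q.1) (sn_cont.comp continuous_fst) ?_ ?_ ?_
  · intro h
    have h1 := re_of_gg (gg_inv_le (gg_ge h))
    have hc : ContinuousAt (fun q : ℂ × ℂ => inv (LLi 1 (q.2, q.1))) q :=
      ContinuousAt.comp (f := fun q : ℂ × ℂ => LLi 1 (q.2, q.1)) (g := inv) (inv_cont (e_ne hq))
        ((LLi_cont 1).comp continuous_swap).continuousAt
    exact ContinuousAt.comp (f := fun q : ℂ × ℂ => inv (LLi 1 (q.2, q.1))) (g := LL ε)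
      (LL_cont ε (by linarith [h1.1]) (by linarith [h1.2])) hc
  · intro h
    refine ContinuousAt.prodMk continuousAt_snd ?_
    exact ContinuousAt.comp (f := fun p : ℂ × ℂ => p.1)
      (g := fun v : ℂ => ((ε / (4 * sn v ^ 2) : ℝ) : ℂ) * v)
      (resc_cont (ne_of_sn (pos_of_UJ hq))) continuousAt_fst
  · intro h
    exact D_wall hq.2.2 h

private theorem DJ_spec {ε : ℝ} (hε : 0 < ε) {q : ℂ × ℂ} (hq : q ∈ UJ) :
    DJ ε q ∈ WJ ε ∧ CJ ε (DJ ε q) = q := by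
  have hpos := pos_of_UJ hq
  obtain ⟨q1, q2, q3⟩ := hq
  rcases le_or_gt (sn q.1) (1 / 2) with h | h
  · rw [DJ_low q3 h]
    have h1 : sn (((ε / (4 * sn q.1 ^ 2) : ℝ) : ℂ) * q.1) = ε / (4 * sn q.1) := sn_resc hε hpos
    have h2 : ε / 2 ≤ ε / (4 * sn q.1) := by
      rw [div_le_div_iff₀ two_pos (by positivity)]
      nlinarith
    have h3 : 4 * (ε / (4 * sn q.1)) < 3 * ε := by
      rw [mul_div_assoc', div_lt_iff₀ (by positivity)]
      nlinarith
    constructor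
    · refine ⟨⟨q3, by rw [h1]; exact h3, ?_⟩, ?_⟩
      · intro h0
        have h4 : ((ε / (4 * sn q.1 ^ 2) : ℝ) : ℂ) * q.1 = 0 := congrArg Prod.snd h0
        rw [h4, sn_eq_zero.2 rfl] at h1
        have : 0 < ε / (4 * sn q.1) := by positivity
        linarith
      · rcases h2.lt_or_eq with h4 | h4
        · left
          rw [h1]
          exact h4
        · right
          refine QJ_wall hε q3 ?_
          rw [h1, ← h4]
    · rw [CJ_high (by rw [h1]; exact h2)]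
      exact Prod.ext (resc_resc hε hpos) rfl
  · rw [DJ_high h.le]
    set e := LLi 1 (q.2, q.1) with he
    have hne : e ≠ 1 := e_ne ⟨q1, q2, q3⟩
    have hgg : 1 < gg e := by
      by_contra hle
      have h1 := (gg_LLi one_pos (q.2, q.1)).1 (not_lt.1 hle)
      exact absurd h1.2 (not_le.2 h)
    have hgi : gg (inv e) < 1 := by
      rw [gg_inv]
      exact inv_lt_one_of_one_lt₀ hgg
    obtain ⟨r1, r2⟩ := re_of_gg hgi.le
    have hLL : LLi ε (LL ε (inv e)) = inv e :=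
      LLi_LL hε (by linarith) (by linarith)
    have hlt := (gg_LLi_lt hε (LL ε (inv e))).1 (by rw [hLL]; exact hgi)
    have hn0 : LL ε (inv e) ≠ 0 := by
      intro h0
      rw [h0, LLi_zero] at hLL
      exact inv_ne hne hLL.symm
    obtain ⟨g1, g2⟩ := re_gt q3
    constructor
    · refine ⟨⟨hlt.1, by linarith [hlt.2], hn0⟩, Or.inr ?_⟩
      show 0 < (inv (LLi ε (LL ε (inv e)))).1.re ∧ 0 < (inv (LLi ε (LL ε (inv e)))).2.re
      rw [hLL, inv_inv, he, (LLi_re 1 (q.2, q.1)).1, (LLi_re 1 (q.2, q.1)).2]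
      constructor
      · show 0 < 1 + q.2.re
        linarith
      · show 0 < 1 + q.2.im
        linarith
    · rw [CJ_low hε hlt.1 hlt.2.le, hLL, inv_inv, he, LL_LLi' (p := (q.2, q.1)) one_pos q3]

private theorem CJ_spec {ε : ℝ} (hε : 0 < ε) {p : ℂ × ℂ} (hp : p ∈ WJ ε) (hU : CJ ε p ∈ UJ) :
    DJ ε (CJ ε p) = p := by
  obtain ⟨⟨h1, h2, h3⟩, h4⟩ := hp
  rcases le_or_gt (ε / 2) (sn p.2) with h | h
  · have hpos : 0 < sn p.2 := by linarith
    rw [CJ_high h] at hU ⊢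
    have h5 : sn (((ε / (4 * sn p.2 ^ 2) : ℝ) : ℂ) * p.2) = ε / (4 * sn p.2) := sn_resc hε hpos
    have h6 : ε / (4 * sn p.2) ≤ 1 / 2 := by
      rw [div_le_div_iff₀ (by positivity) two_pos]
      linarith
    rw [DJ_low h1 (by rw [h5]; exact h6)]
    exact Prod.ext rfl (resc_resc hε hpos)
  · have hQ : p ∈ QJ ε := by
      rcases h4 with h4 | h4
      · exact absurd h4 (not_lt.2 h.le)
      · exact h4
    rw [CJ_low hε h1 h.le] at hU ⊢
    set e := inv (LLi ε p) with he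
    have hLi : LLi 1 (LL 1 e) = e := LLi_LL one_pos hQ.1.ne' hQ.2.ne'
    have hgl : gg (LLi ε p) < 1 := (gg_LLi_lt hε p).2 ⟨h1, h⟩
    have hgp : 0 < gg (LLi ε p) := gg_pos (LLi_ne hε h3 h1.le)
    have hge : 1 < gg e := by
      rw [he, gg_inv]
      exact (one_lt_inv₀ hgp).2 hgl
    have hs : 1 / 2 < sn (LL 1 e).2 := by
      by_contra hle
      have h5 := (gg_LLi one_pos (LL 1 e)).2 ⟨hU.2.2.le, not_lt.1 hle⟩
      rw [hLi] at h5
      exact absurd h5 (not_le.2 hge)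
    rw [DJ_high hs.le]
    show LL ε (inv (LLi 1 ((LL 1 e).1, (LL 1 e).2))) = p
    rw [Prod.mk.eta, hLi, he, inv_inv, LL_LLi' hε h1]

theorem chJ {ε : ℝ} (hε : 0 < ε) : ∃ C : OpenPartialHomeomorph (ℂ × ℂ) (ℂ × ℂ),
    (∀ p : ℂ × ℂ, sn p.1 < 1 / 2 → sn p.2 = ε / 2 → p ∈ C.source) ∧
    (∀ p ∈ C.source, p ≠ 0 ∧ sn p.1 < 1 / 2 ∧ 4 * sn p.2 < 3 * ε) ∧
    (∀ p ∈ C.source, ε / 2 ≤ sn p.2 → (C p).2 = p.1) ∧
    (∀ p ∈ C.source, sn p.2 ≤ ε / 2 → tor (inv (LLi ε p)) = sn (C p).2) := by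
  let C : OpenPartialHomeomorph (ℂ × ℂ) (ℂ × ℂ) :=
    { toFun := CJ ε
      invFun := DJ ε
      source := WJ ε ∩ CJ ε ⁻¹' UJ
      target := UJ
      map_source' := fun p hp => hp.2
      map_target' := fun q hq => ⟨(DJ_spec hε hq).1, by
        show CJ ε (DJ ε q) ∈ UJ
        rw [(DJ_spec hε hq).2]
        exact hq⟩
      left_inv' := fun p hp => CJ_spec hε hp.1 hp.2
      right_inv' := fun q hq => (DJ_spec hε hq).2
      open_source := by
        have hc : ContinuousOn (CJ ε) (WJ ε) := fun p hp => (CJ_cont hε hp).continuousWithinAt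
        exact hc.isOpen_inter_preimage (WJ_open hε) UJ_open
      open_target := UJ_open
      continuousOn_toFun := fun p hp => (CJ_cont hε hp.1).continuousWithinAt
      continuousOn_invFun := fun q hq => (DJ_cont hq).continuousWithinAt }
  have hCs : ∀ p, p ∈ C.source ↔ p ∈ WJ ε ∧ CJ ε p ∈ UJ := fun p => Iff.rfl
  have hCa : ∀ p, C p = CJ ε p := fun p => rfl
  refine ⟨C, ?_, ?_, ?_, ?_⟩
  · intro p h1 h2
    rw [hCs]
    have hpos : 0 < sn p.2 := by linarith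
    refine ⟨⟨⟨h1, by linarith, ?_⟩, Or.inr (QJ_wall hε h1 h2)⟩, ?_⟩
    · intro h0
      rw [h0] at hpos
      exact ne_of_sn hpos rfl
    · rw [CJ_high h2.ge]
      have h5 : sn (((ε / (4 * sn p.2 ^ 2) : ℝ) : ℂ) * p.2) = ε / (4 * sn p.2) := sn_resc hε hpos
      have h6 : ε / (4 * sn p.2) = 1 / 2 := by
        rw [h2]
        field_simp
        try norm_num
      refine ⟨?_, ?_, h1⟩
      · show 1 / 3 < sn (((ε / (4 * sn p.2 ^ 2) : ℝ) : ℂ) * p.2)
        rw [h5, h6]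
        norm_num
      · show sn (((ε / (4 * sn p.2 ^ 2) : ℝ) : ℂ) * p.2) < 1
        rw [h5, h6]
        norm_num
  · intro p hp
    have h := ((hCs p).1 hp).1.1
    exact ⟨h.2.2, h.1, h.2.1⟩
  · intro p hp h
    rw [hCa, CJ_high h]
  · intro p hp h
    obtain ⟨hW, hU⟩ := (hCs p).1 hp
    rcases h.lt_or_eq with h' | h'
    · rw [hCa]
      have hQ := WJ_Q hW h
      rw [CJ_low hε hW.1.1 h] at hU ⊢
      have hLi : LLi 1 (LL 1 (inv (LLi ε p))) = inv (LLi ε p) :=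
        LLi_LL one_pos hQ.1.ne' hQ.2.ne'
      have h5 := tor_LLi (p := LL 1 (inv (LLi ε p))) one_pos hU.2.2.le hU.2.1.le
      rw [hLi] at h5
      exact h5
    · obtain ⟨h5, h6⟩ := inv_edge hε hW.1.1.le h (Or.inr h')
      rw [hCa, CJ_high h'.ge, h5, h6]

theorem flatD {ε : ℝ} (h : IsTube ε) {p : ℂ × ℂ} (h1 : sn p.1 < 1 / 2) (h2 : sn p.2 = ε / 2)
    (hM : Phi p ∈ MM ε) : FlatAt (XX ε) (MM ε) (Phi p) := by
  have hε := h.pos
  obtain ⟨T, hTs, hT⟩ := h.emb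
  obtain ⟨C, c1, c2, c3, c4⟩ := chJ hε
  have hpU : p ∈ UU ε := by
    refine ⟨?_, by linarith⟩
    have := le_sn p.1
    linarith
  have hq0 : T.symm (Phi p) = p := by
    rw [← hT p hpU]
    exact T.left_inv (by rw [hTs]; exact hpU)
  have hqt : Phi p ∈ T.target := by
    rw [← hT p hpU]
    exact T.map_source (by rw [hTs]; exact hpU)
  refine flat_of_chart (T.symm.trans C) ?_ (fun _ y => 4 * sn y) ?_ ?_ ?_ ?_ ?_
  · rw [OpenPartialHomeomorph.trans_source]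
    refine ⟨hqt, ?_⟩
    show T.symm (Phi p) ∈ C.source
    rw [hq0]
    exact c1 p h1 h2
  · exact continuous_const.mul (sn_cont.comp continuous_snd)
  · intro b r y hr
    show 4 * sn ((r : ℂ) * y) = r * (4 * sn y)
    rw [sn_mul hr]
    ring
  · intro b y hy
    have := sn_pos hy
    show 0 < 4 * sn y
    linarith
  · show 4 * sn (C (T.symm (Phi p))).2 = 1
    rw [hq0, c3 p (c1 p h1 h2) h2.ge]
    have h3 := (mem_mid h hpU h2.ge).2.1 hM
    rw [nu_in hε (by linarith)] at h3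
    exact h3
  · intro q hq
    rw [OpenPartialHomeomorph.trans_source] at hq
    obtain ⟨hq1, hq2⟩ := hq
    have hq2' : T.symm q ∈ C.source := hq2
    have hqU : T.symm q ∈ UU ε := by
      rw [← hTs]
      exact T.symm.map_source hq1
    have hqP : Phi (T.symm q) = q := by
      rw [← hT _ hqU]
      exact T.right_inv hq1
    obtain ⟨d1, d2, d3⟩ := c2 _ hq2'
    show (q ∈ XX ε ↔ 4 * sn (C (T.symm q)).2 ≤ 1) ∧ (q ∈ MM ε ↔ 4 * sn (C (T.symm q)).2 = 1)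
    rcases le_total (ε / 2) (sn (T.symm q).2) with h5 | h5
    · have h6 := mem_mid h hqU h5
      rw [hqP, nu_in hε d3.le] at h6
      rw [c3 _ hq2' h5]
      exact h6
    · have h6 := mem_in h hqU h5
      rw [hqP, mem_Kin hε, mem_Min hε, c4 _ hq2' h5] at h6
      rw [h6.1, h6.2]
      constructor
      · constructor
        · rintro ⟨_, _, _, h7⟩
          linarith
        · intro h7
          exact ⟨d1, d2.le, h5, by linarith⟩
      · constructor
        · rintro ⟨_, _, _, h7⟩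
          linarith
        · intro h7
          exact ⟨d1, d2.le, h5, by linarith⟩

end

end Pool.Agent.FibC
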