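import Pool.Agent.Lib.FibC.FlA
import Pool.Agent.Lib.FibC.FlC
import Pool.Agent.Lib.FibC.FlD

/-!
# Frn: the boundary of the region

PROOF. `flat_all`: `q ∉ Phi '' {‖t‖ ≤ 1, sn v ≤ ε}`: `flatA`. Otherwise `q = Phi p`; `ε/2 < sn p.2`: `flatB`; `sn p.2 = ε/2`: `nu = 1` gives `sn p.1 = 1/4`: `flatD`;
`sn p.2 < ε/2`: `p ∈ Min`, `sn p.1 ≤ 1/2` and not `= 1/2` (`inv_edge`: `tor` would be `1/2`): `flatC`.
`int_XX`: `XX \ MM` is open: at `q` outside the closed tube: `‖q.2‖ < 1` near `q` (`mem_out`). At `Phi p`, `p ∈ UU`, `ε/2 < sn p.2`: `nu < 1` near `p`. At `Phi p`, `sn p.2 ≤ ε/2`: `p ∈ Kin`,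
`p ≠ 0`, `sn p.1 < 1/2`, the function `tor ∘ inv ∘ LLi ε` is continuous at `p` with value `< 1/4`; for `p'` near `p`: if `sn p'.2 ≤ ε/2` use `mem_in`, `mem_Kin`; if
`ε/2 < sn p'.2` then `sn p.2 = ε/2`, `nu p = 4 sn p.1 < 1` and `nu < 1` near `p`. `MM ⊆` closure of the complement of `XX`: by the flat chart. `frontier_XX` from
`XX` closed, `int_XX`.
-/

set_option autoImplicit false

namespace Pool.Agent.FibC

open Complex ComplexConjugate Set

noncomputable section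

private theorem UU_open (ε : ℝ) : IsOpen (UU ε) :=
  (isOpen_lt (f := fun p : ℂ × ℂ => ‖p.1‖) (by fun_prop) continuous_const).inter
    (isOpen_lt (f := fun p : ℂ × ℂ => sn p.2) (sn_cont.comp continuous_snd) continuous_const)

/-- a point of `XX` in the closed tube -/
private theorem tube_pt {ε : ℝ} (h : IsTube ε) {q : S2 × ℂ}
    (hq : q ∈ Phi '' {p | ‖p.1‖ ≤ 1 ∧ sn p.2 ≤ ε}) : ∃ p ∈ UU ε, sn p.2 ≤ ε ∧ q = Phi p := by
  obtain ⟨p, hp, rfl⟩ := hq
  exact ⟨p, (sub_UU h).2.2 hp, hp.2, rfl⟩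

private theorem wall_t {ε : ℝ} (h : IsTube ε) {p : ℂ × ℂ} (hp : p ∈ Kin ε) : sn p.1 < 1 / 2 := by
  obtain ⟨h0, h1, h2, h3⟩ := (mem_Kin h.pos p).1 hp
  refine lt_of_le_of_ne h1 fun h4 => ?_
  obtain ⟨h5, h6⟩ := inv_edge h.pos h1 h2 (Or.inl h4)
  rw [h5, h6, h4] at h3
  norm_num at h3

private theorem Min_Kin {ε : ℝ} (h : IsTube ε) {p : ℂ × ℂ} (hp : p ∈ Min ε) : p ∈ Kin ε := by
  obtain ⟨h0, h1, h2, h3⟩ := (mem_Min h.pos p).1 hp
  exact (mem_Kin h.pos p).2 ⟨h0, h1, h2, h3.le⟩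

theorem flat_all {ε : ℝ} (h : IsTube ε) {q : S2 × ℂ} (hM : q ∈ MM ε) : FlatAt (XX ε) (MM ε) q := by
  by_cases hq : q ∈ Phi '' {p | ‖p.1‖ ≤ 1 ∧ sn p.2 ≤ ε}
  · obtain ⟨p, hp, hv, rfl⟩ := tube_pt h hq
    rcases lt_trichotomy (sn p.2) (ε / 2) with h1 | h1 | h1
    · have h2 := ((mem_in h hp h1.le).2).1 hM
      exact flatC h (wall_t h (Min_Kin h h2)) h1 hM
    · have h2 := ((mem_in h hp h1.le).2).1 hM
      exact flatD h (wall_t h (Min_Kin h h2)) h1 hM
    · exact flatB h hp h1 hM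
  · exact flatA h hq hM

private theorem MM_sub {ε : ℝ} (h : IsTube ε) : MM ε ⊆ XX ε := (XX_sub h).2

private theorem open_part {ε : ℝ} (h : IsTube ε) : XX ε \ MM ε ⊆ interior (XX ε) := by
  rintro q ⟨hX, hM⟩
  rw [mem_interior_iff_mem_nhds]
  by_cases hq : q ∈ Phi '' {p | ‖p.1‖ ≤ 1 ∧ sn p.2 ≤ ε}
  · obtain ⟨p, hp, hv, rfl⟩ := tube_pt h hq
    -- it is enough to find a neighbourhood of `p`
    have main : ∀ O : Set (ℂ × ℂ), O ∈ nhds p → (∀ p' ∈ O, p' ∈ UU ε → Phi p' ∈ XX ε) →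
        XX ε ∈ nhds (Phi p) := by
      intro O hO hsub
      obtain ⟨O', hO'O, hO', hpO'⟩ := mem_nhds_iff.1 hO
      have h1 : IsOpen (Phi '' (O' ∩ UU ε)) := Phi_open h (hO'.inter (UU_open ε)) inter_subset_right
      refine Filter.mem_of_superset (h1.mem_nhds ⟨p, ⟨hpO', hp⟩, rfl⟩) ?_
      rintro _ ⟨p', ⟨hp1, hp2⟩, rfl⟩
      exact hsub p' (hO'O hp1) hp2
    have hnu : Continuous fun p : ℂ × ℂ => nu ε p.2 p.1 :=
      (nu_cont h.pos).comp (continuous_snd.prodMk continuous_fst)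
    rcases lt_or_ge (ε / 2) (sn p.2) with h1 | h1
    · -- middle part
      have h2 := (mem_mid h hp h1.le).1.1 hX
      have h3 : nu ε p.2 p.1 ≠ 1 := fun h4 => hM ((mem_mid h hp h1.le).2.2 h4)
      have h4 : nu ε p.2 p.1 < 1 := lt_of_le_of_ne h2 h3
      refine main {p' | ε / 2 < sn p'.2 ∧ nu ε p'.2 p'.1 < 1} ?_ ?_
      · exact ((isOpen_lt (g := fun p : ℂ × ℂ => sn p.2) continuous_const
          (sn_cont.comp continuous_snd)).inter (isOpen_lt hnu continuous_const)).mem_nhds ⟨h1, h4⟩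
      · rintro p' ⟨h5, h6⟩ hU
        exact (mem_mid h hU h5.le).1.2 h6.le
    · -- inner part
      have h2 := (mem_in h hp h1).1.1 hX
      have h3 : p ∉ Min ε := fun h4 => hM ((mem_in h hp h1).2.2 h4)
      obtain ⟨k0, k1, k2, k3⟩ := (mem_Kin h.pos p).1 h2
      have k4 : tor (inv (LLi ε p)) < 1 / 4 := by
        refine lt_of_le_of_ne k3 fun h4 => h3 ((mem_Min h.pos p).2 ⟨k0, k1, k2, h4⟩)
      have k5 := wall_t h h2
      have hc : ContinuousAt (fun p' => tor (inv (LLi ε p'))) p :=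
        tor_cont.continuousAt.comp
          ((inv_cont (LLi_ne h.pos k0 k1)).comp (LLi_cont ε).continuousAt)
      have hsn1 : Continuous fun p : ℂ × ℂ => sn p.1 := sn_cont.comp continuous_fst
      have hN : {p' : ℂ × ℂ | tor (inv (LLi ε p')) < 1 / 4 ∧ p' ≠ 0 ∧ sn p'.1 < 1 / 2} ∈ nhds p := by
        filter_upwards [hc.preimage_mem_nhds (Iio_mem_nhds k4), isOpen_ne.mem_nhds k0,
          (isOpen_lt hsn1 continuous_const).mem_nhds k5] with p' a b c using ⟨a, b, c⟩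
      rcases lt_or_eq_of_le h1 with h6 | h6
      · refine main _ (Filter.inter_mem hN ((isOpen_lt (f := fun p : ℂ × ℂ => sn p.2)
          (sn_cont.comp continuous_snd) continuous_const).mem_nhds h6)) ?_
        rintro p' ⟨⟨a, b, c⟩, d⟩ hU
        have d' : sn p'.2 < ε / 2 := d
        exact (mem_in h hU d'.le).1.2 ((mem_Kin h.pos p').2 ⟨b, c.le, d'.le, a.le⟩)
      · obtain ⟨e1, e2⟩ := inv_edge h.pos k1 k2 (Or.inr h6)
        have h7 : nu ε p.2 p.1 < 1 := by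
          rw [nu_in h.pos (by rw [h6]; linarith [h.pos])]
          rw [e1, e2] at k4
          linarith
        refine main _ (Filter.inter_mem hN ((isOpen_lt hnu continuous_const).mem_nhds h7)) ?_
        rintro p' ⟨⟨a, b, c⟩, d⟩ hU
        have d' : nu ε p'.2 p'.1 < 1 := d
        rcases le_total (sn p'.2) (ε / 2) with h8 | h8
        · exact (mem_in h hU h8).1.2 ((mem_Kin h.pos p').2 ⟨b, c.le, h8, a.le⟩)
        · exact (mem_mid h hU h8).1.2 d'.le
  · have h1 := ((mem_out h hq).1).1 hX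
    have h2 : ‖q.2‖ ≠ 1 := fun h3 => hM (((mem_out h hq).2).2 h3)
    have h3 : ‖q.2‖ < 1 := lt_of_le_of_ne h1 h2
    filter_upwards [(tube_closed h).isOpen_compl.mem_nhds hq,
      (isOpen_lt (f := fun q : S2 × ℂ => ‖q.2‖) (by fun_prop) continuous_const).mem_nhds h3]
      with q' a b
    exact ((mem_out h a).1).2 (le_of_lt b)

theorem int_XX {ε : ℝ} (h : IsTube ε) : interior (XX ε) = XX ε \ MM ε := by
  apply Subset.antisymm
  · intro q hq
    refine ⟨interior_subset hq, fun hM => ?_⟩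
    obtain ⟨e, he, hev⟩ := flat_all h hM
    -- points of the chart with negative first coordinate near `q`
    have h0 : e q 0 = 0 := ((hev q he).2).1 hM
    have hnb : e '' (interior (XX ε) ∩ e.source) ∈ nhds (e q) :=
      (e.isOpen_image_of_subset_source (isOpen_interior.inter e.open_source)
        inter_subset_right).mem_nhds ⟨q, ⟨hq, he⟩, rfl⟩
    have hcont : ContinuousAt (fun s : ℝ => e q - s • EuclideanSpace.single (0 : Fin 4) (1 : ℝ)) 0 := by
      fun_prop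
    have hnb' : e '' (interior (XX ε) ∩ e.source) ∈
        nhds ((fun s : ℝ => e q - s • EuclideanSpace.single (0 : Fin 4) (1 : ℝ)) 0) := by
      simpa using hnb
    have hev2 := hcont.preimage_mem_nhds hnb'
    obtain ⟨δ, hδ, hball⟩ := Metric.mem_nhds_iff.1 hev2
    have hmem : (δ / 2) ∈ Metric.ball (0 : ℝ) δ := by
      simp only [Metric.mem_ball, dist_zero_right, Real.norm_eq_abs]
      rw [abs_of_pos (by linarith)]; linarith
    obtain ⟨p, ⟨hp1, hp2⟩, hp3⟩ := hball hmem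
    have h4 : e p 0 = -(δ / 2) := by
      rw [hp3]
      simp [h0]
    have h5 := ((hev p hp2).1).1 (interior_subset hp1)
    rw [h4] at h5
    linarith
  · exact open_part h

theorem frontier_XX {ε : ℝ} (h : IsTube ε) : frontier (XX ε) = MM ε := by
  rw [(XX_compact h).isClosed.frontier_eq, int_XX h, sdiff_sdiff_right_self]
  exact inter_eq_right.2 (MM_sub h)

end

end Pool.Agent.FibC
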