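import Pool.Agent.Lib.FibC.CoT
import Pool.Agent.Lib.FibC.CoI
import Pool.Agent.Lib.FibC.Frn

/-!
# CoX: the interior of the region is connected

PROOF. `interior = XX \ MM` (`int_XX`) is the union of `C1 = W° \ Phi '' {‖t‖ < 1, sn v < ε}` (`conn_tube_compl`), `C2 = Phi '' {ε/2 ≤ sn v ≤ ε, nu < 1}` and
`C3 = Phi '' (LL ε ∘ inv '' {1 ≤ gg e, tor e < 1/4})` (images of `conn_mid`, `conn_out`). Inclusions: a point of `XX \ MM` outside the closed tube is in `C1` (`mem_out`); a point `Phi p` in it with `ε/2 ≤ sn p.2` in `C2`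
(`mem_mid`), with `sn p.2 ≤ ε/2` in `C3` (`mem_in`, `mem_Kin`, `mem_Min`). Conversely a point of `C1` is either outside the closed tube, or `Phi p` with `ε ≤ sn p.2` (`IsTube.lt`: `‖p.1‖ < 1`), so `nu = ‖p.1‖ < 1`. `C1 ∩ C2` contains `Phi (0, ε)`,
`C2 ∩ C3` contains `Phi (0, ε/2)`.
-/

set_option autoImplicit false

namespace Pool.Agent.FibC

open Complex ComplexConjugate Set

noncomputable section

private theorem sn_re {x : ℝ} (hx : 0 ≤ x) : sn (x : ℂ) = x := by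
  simp [sn, abs_of_nonneg hx, hx]

private theorem sn_zero' : sn 0 = 0 := by simp [sn]

private theorem nu_zero {ε : ℝ} (v : ℂ) : nu ε v 0 = 0 := by simp [nu, sn_zero']

theorem conn_int {ε : ℝ} (h : IsTube ε) : IsConnected (interior (XX ε)) := by
  have hε := h.pos
  have hU0 : ∀ {v : ℂ}, sn v ≤ ε → ((0 : ℂ), v) ∈ UU ε := by
    intro v hv
    refine ⟨?_, ?_⟩
    · simp only [norm_zero]; linarith
    · simp only; linarith
  have hmidU : ∀ p ∈ {p : ℂ × ℂ | ε / 2 ≤ sn p.2 ∧ sn p.2 ≤ ε ∧ nu ε p.2 p.1 < 1}, p ∈ UU ε := by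
    rintro p ⟨h1, h2, h3⟩
    refine ⟨?_, ?_⟩
    · have := nu_ge ε p.2 p.1
      linarith
    · linarith
  -- the three pieces
  obtain ⟨C1, hC1⟩ : ∃ C1, C1 = {q : S2 × ℂ | ‖q.2‖ < 1} \ Phi '' {p | ‖p.1‖ < 1 ∧ sn p.2 < ε} :=
    ⟨_, rfl⟩
  obtain ⟨C2, hC2⟩ : ∃ C2, C2 = Phi '' {p : ℂ × ℂ | ε / 2 ≤ sn p.2 ∧ sn p.2 ≤ ε ∧ nu ε p.2 p.1 < 1} :=
    ⟨_, rfl⟩
  obtain ⟨C3, hC3⟩ : ∃ C3, C3 = Phi '' ((fun e => LL ε (inv e)) '' {e | 1 ≤ gg e ∧ tor e < 1 / 4}) :=
    ⟨_, rfl⟩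
  have hinvgg : ∀ e : ℂ × ℂ, 1 ≤ gg e → gg (inv e) ≤ 1 := by
    intro e he
    rw [gg_inv]; exact inv_le_one_of_one_le₀ he
  have hLLi : ∀ e : ℂ × ℂ, 1 ≤ gg e → LLi ε (LL ε (inv e)) = inv e := by
    intro e he
    obtain ⟨a, b⟩ := re_of_gg (hinvgg e he)
    exact LLi_LL hε (by linarith) (by linarith)
  have hin : ∀ e : ℂ × ℂ, 1 ≤ gg e → sn (LL ε (inv e)).1 ≤ 1 / 2 ∧ sn (LL ε (inv e)).2 ≤ ε / 2 := by
    intro e he
    rw [← gg_LLi hε, hLLi e he]
    exact hinvgg e he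
  have hinU : ∀ p : ℂ × ℂ, sn p.1 ≤ 1 / 2 → sn p.2 ≤ ε / 2 → p ∈ UU ε := by
    intro p h1 h2
    refine ⟨?_, by linarith⟩
    have := le_sn p.1
    linarith
  have k1 : IsConnected C1 := by rw [hC1]; exact conn_tube_compl h
  have k2 : IsConnected C2 := by
    rw [hC2]
    exact (conn_mid hε).image _ ((Phi_cont h).mono hmidU)
  have k3 : IsConnected C3 := by
    rw [hC3]
    refine (conn_out.image _ ?_).image _ ((Phi_cont h).mono ?_)
    · intro e he
      have hne : e ≠ 1 := by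
        intro h0
        rw [h0] at he
        have : gg (1 : ℂ × ℂ) = 0 := by simp [gg, gg1]
        linarith [he.1]
      obtain ⟨a, b⟩ := re_of_gg (hinvgg e he.1)
      exact (ContinuousAt.comp (g := LL ε) (LL_cont ε (by linarith) (by linarith))
        (inv_cont hne)).continuousWithinAt
    · rintro _ ⟨e, he, rfl⟩
      obtain ⟨a, b⟩ := hin e he.1
      exact hinU _ a b
  have hp1 : ((0 : ℂ), (ε : ℂ)) ∈ {p : ℂ × ℂ | ε / 2 ≤ sn p.2 ∧ sn p.2 ≤ ε ∧ nu ε p.2 p.1 < 1} := by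
    refine ⟨?_, ?_, ?_⟩
    · simp only; rw [sn_re hε.le]; linarith
    · simp only; rw [sn_re hε.le]
    · simp only; rw [nu_zero]; norm_num
  have hp2 : ((0 : ℂ), ((ε / 2 : ℝ) : ℂ)) ∈
      {p : ℂ × ℂ | ε / 2 ≤ sn p.2 ∧ sn p.2 ≤ ε ∧ nu ε p.2 p.1 < 1} := by
    refine ⟨?_, ?_, ?_⟩
    · simp only; rw [sn_re (by linarith)]
    · simp only; rw [sn_re (by linarith)]; linarith
    · simp only; rw [nu_zero]; norm_num
  have i12 : (C1 ∩ C2).Nonempty := by
    refine ⟨Phi (0, (ε : ℂ)), ?_, ?_⟩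
    · rw [hC1]
      refine ⟨(h.lt _ (hmidU _ hp1)).2 (by simp), ?_⟩
      rintro ⟨p, ⟨h1, h2⟩, h3⟩
      have hpU : p ∈ UU ε := ⟨by linarith, by linarith⟩
      have h4 := Phi_inj h hpU (hmidU _ hp1) h3
      rw [h4] at h2
      simp only at h2
      rw [sn_re hε.le] at h2
      exact lt_irrefl _ h2
    · rw [hC2]; exact ⟨_, hp1, rfl⟩
  have i23 : (C2 ∩ C3).Nonempty := by
    refine ⟨Phi (0, ((ε / 2 : ℝ) : ℂ)), ?_, ?_⟩
    · rw [hC2]; exact ⟨_, hp2, rfl⟩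
    · rw [hC3]
      obtain ⟨e1, e2⟩ := inv_edge hε (p := ((0 : ℂ), ((ε / 2 : ℝ) : ℂ)))
        (by simp only; rw [sn_zero']; norm_num) (by simp only; rw [sn_re (by linarith)])
        (Or.inr (by simp only; rw [sn_re (by linarith)]))
      refine ⟨_, ⟨LLi ε (0, ((ε / 2 : ℝ) : ℂ)), ⟨?_, ?_⟩, rfl⟩, ?_⟩
      · by_contra hlt
        have h5 := (gg_LLi_lt hε _).1 (not_le.1 hlt)
        have h6 := h5.2
        simp only at h6
        rw [sn_re (by linarith)] at h6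
        exact lt_irrefl _ h6
      · rw [e2]; simp only; rw [sn_zero']; norm_num
      · simp only
        rw [e1, LL_LLi hε (by simp) (by simp)]
  have hunion : interior (XX ε) = (C1 ∪ C2) ∪ C3 := by
    rw [int_XX h]
    apply Subset.antisymm
    · rintro q ⟨hX, hM⟩
      by_cases hq : q ∈ Phi '' {p | ‖p.1‖ ≤ 1 ∧ sn p.2 ≤ ε}
      · obtain ⟨p, hp, rfl⟩ := hq
        have hpU := (sub_UU h).2.2 hp
        rcases le_total (ε / 2) (sn p.2) with h1 | h1
        · left; right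
          rw [hC2]
          refine ⟨p, ⟨h1, hp.2, ?_⟩, rfl⟩
          refine lt_of_le_of_ne ((mem_mid h hpU h1).1.1 hX) fun h2 => hM ((mem_mid h hpU h1).2.2 h2)
        · right
          rw [hC3]
          have h2 := (mem_in h hpU h1).1.1 hX
          obtain ⟨a0, a1, a2, a3⟩ := (mem_Kin hε p).1 h2
          have h3 : tor (inv (LLi ε p)) < 1 / 4 := by
            refine lt_of_le_of_ne a3 fun h4 => hM ((mem_in h hpU h1).2.2 ?_)
            exact (mem_Min hε p).2 ⟨a0, a1, a2, h4⟩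
          refine ⟨p, ⟨inv (LLi ε p), ⟨?_, h3⟩, ?_⟩, rfl⟩
          · rw [gg_inv]
            exact (one_le_inv₀ (gg_pos (LLi_ne hε a0 a1))).2 ((gg_LLi hε p).2 ⟨a1, a2⟩)
          · simp only
            rw [inv_inv]
            have hb := abs_le.1 ((le_max_left |p.1.re| |p.1.im|).trans a1)
            have hb' := abs_le.1 ((le_max_right |p.1.re| |p.1.im|).trans a1)
            exact LL_LLi hε (by linarith [hb.1]) (by linarith [hb'.1])
      · left; left
        rw [hC1]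
        obtain ⟨h1, h2⟩ := mem_out h hq
        refine ⟨lt_of_le_of_ne (h1.1 hX) fun h3 => hM (h2.2 h3), ?_⟩
        rintro ⟨p, ⟨h3, h4⟩, rfl⟩
        exact hq ⟨p, ⟨h3.le, h4.le⟩, rfl⟩
    · rintro q ((hq | hq) | hq)
      · rw [hC1] at hq
        obtain ⟨h1, h2⟩ := hq
        have h1' : ‖q.2‖ < 1 := h1
        by_cases hq' : q ∈ Phi '' {p | ‖p.1‖ ≤ 1 ∧ sn p.2 ≤ ε}
        · obtain ⟨p, hp, rfl⟩ := hq'
          have hpU := (sub_UU h).2.2 hp
          have h3 : ‖p.1‖ < 1 := (h.lt p hpU).1 h1'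
          have h4 : ε ≤ sn p.2 := by
            by_contra h5
            exact h2 ⟨p, ⟨h3, not_le.1 h5⟩, rfl⟩
          have h6 := mem_mid h hpU (by linarith)
          rw [nu_out hε h4] at h6
          exact ⟨h6.1.2 h3.le, fun h7 => h3.ne (h6.2.1 h7)⟩
        · obtain ⟨h3, h4⟩ := mem_out h hq'
          exact ⟨h3.2 h1'.le, fun h5 => h1'.ne (h4.1 h5)⟩
      · rw [hC2] at hq
        obtain ⟨p, hp, rfl⟩ := hq
        have h3 := mem_mid h (hmidU p hp) hp.1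
        exact ⟨h3.1.2 hp.2.2.le, fun h5 => hp.2.2.ne (h3.2.1 h5)⟩
      · rw [hC3] at hq
        obtain ⟨_, ⟨e, ⟨he1, he2⟩, rfl⟩, rfl⟩ := hq
        obtain ⟨a, b⟩ := hin e he1
        simp only
        have hU := hinU _ a b
        have h3 := mem_in h hU b
        have h4 : tor (inv (LLi ε (LL ε (inv e)))) = tor e := by rw [hLLi e he1, inv_inv]
        have hne : LL ε (inv e) ≠ 0 := by
          intro h0
          have h5 := hLLi e he1
          rw [h0, LLi_zero] at h5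
          have h6 := congrArg inv h5
          rw [inv_inv] at h6
          have h7 : inv (1 : ℂ × ℂ) = 1 := by simp [inv, Prod.ext_iff]
          rw [h7] at h6
          have h8 : gg (1 : ℂ × ℂ) = 0 := by simp [gg, gg1]
          rw [← h6, h8] at he1
          norm_num at he1
        refine ⟨h3.1.2 ((mem_Kin hε _).2 ⟨hne, a, b, by rw [h4]; exact he2.le⟩), fun h5 => ?_⟩
        have h6 := ((mem_Min hε _).1 (h3.2.1 h5)).2.2.2
        rw [h4] at h6
        exact he2.ne h6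
  rw [hunion]
  refine IsConnected.union ?_ (IsConnected.union i12 k1 k2) k3
  obtain ⟨x, hx2, hx3⟩ := i23
  exact ⟨x, Or.inr hx2, hx3⟩

end

end Pool.Agent.FibC
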