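import Pool.Agent.Lib.FibC.XC

/-!
# CoY: every point outside the region can be joined to a point outside `{‖q.2‖ ≤ 1}`

Paths in tube coordinates; near the double points the path is constructed in the coordinates
inverted by `inv`.
-/

set_option autoImplicit false

namespace Pool.Agent.FibC

open Complex ComplexConjugate Set

noncomputable section

private theorem joinedIn_line {X : Type*} [TopologicalSpace X] {F : Set X} {x y : X} (f : ℝ → X)
    (hf : Continuous f) (h0 : f 0 = x) (h1 : f 1 = y) (h : ∀ s : ℝ, 0 ≤ s → s ≤ 1 → f s ∈ F) :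
    JoinedIn F x y :=
  JoinedIn.ofLine hf.continuousOn h0 h1 (by
    rintro _ ⟨s, hs, rfl⟩
    exact h s hs.1 hs.2)

private theorem gg1_zero : gg1 0 = 0 := by simp [gg1]

private theorem sn_one_add (w : ℂ) : sn w - 1 ≤ sn (1 + w) := by
  unfold sn
  simp only [add_re, one_re, add_im, one_im, zero_add]
  rcases le_total |w.re| |w.im| with h | h
  · rw [max_eq_right h]
    have := le_max_right |1 + w.re| |w.im|
    linarith
  · rw [max_eq_left h]
    have h1 := le_max_left |1 + w.re| |w.im|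
    have h2 : |w.re| ≤ |1 + w.re| + 1 := by
      have := abs_sub (1 + w.re) 1
      simpa using this
    linarith

private theorem joinA {e : ℂ × ℂ} (h : 1 ≤ gg e) (h' : 1 / 4 < |sn e.1 - 1|) :
    JoinedIn {e : ℂ × ℂ | 1 ≤ gg e ∧ 1 / 4 < tor e} e (1 / 2, 1) := by
  obtain ⟨a, b⟩ := e
  simp only at h'
  -- step 1
  have s1 : ∃ b1 : ℂ, 1 ≤ gg1 (b1 - 1) ∧ 1 / 4 < |sn b1 - 1| ∧
      JoinedIn {e : ℂ × ℂ | 1 ≤ gg e ∧ 1 / 4 < tor e} (a, b) (a, b1) := by
    by_cases hb : b = 1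
    · subst hb
      have hga : 1 ≤ gg1 (a - 1) := by
        have : gg (a, 1) = max (gg1 (a - 1)) (gg1 (1 - 1)) := rfl
        rw [this, sub_self, gg1_zero] at h
        rcases le_max_iff.1 h with h | h
        · exact h
        · linarith
      refine ⟨3, ?_, ?_, ?_⟩
      · have : (3 : ℂ) - 1 = 2 := by norm_num
        rw [this]
        unfold gg1
        norm_num
      · have : sn 3 = 3 := by
          unfold sn
          norm_num
        rw [this]
        norm_num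
      · refine joinedIn_line (fun s => (a, ((1 + 2 * s : ℝ) : ℂ))) (by fun_prop) (by simp)
          (by norm_num) ?_
        intro s _ _
        exact ⟨le_max_of_le_left hga, lt_max_of_lt_left h'⟩
    · have hb' : b - 1 ≠ 0 := sub_ne_zero.2 hb
      have hg := gg1_pos hb'
      have hs := sn_pos hb'
      set m : ℝ := 1 + (gg1 (b - 1))⁻¹ + 3 * (sn (b - 1))⁻¹ with hm
      have hm1 : 1 ≤ m := by
        have := inv_pos.2 hg
        have := inv_pos.2 hs
        linarith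
      refine ⟨1 + (m : ℂ) * (b - 1), ?_, ?_, ?_⟩
      · rw [add_sub_cancel_left, gg1_mul (by linarith)]
        have : (gg1 (b - 1))⁻¹ * gg1 (b - 1) = 1 := inv_mul_cancel₀ hg.ne'
        have h2 : 0 ≤ 3 * (sn (b - 1))⁻¹ * gg1 (b - 1) := by positivity
        rw [hm]
        nlinarith
      · have h1 := sn_one_add ((m : ℂ) * (b - 1))
        rw [sn_mul (by linarith)] at h1
        have h2 : 3 ≤ m * sn (b - 1) := by
          have : (sn (b - 1))⁻¹ * sn (b - 1) = 1 := inv_mul_cancel₀ hs.ne'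
          have h2 : 0 ≤ (gg1 (b - 1))⁻¹ * sn (b - 1) := by positivity
          rw [hm]
          nlinarith
        rw [lt_abs]
        left
        linarith
      · refine joinedIn_line (fun s => (a, 1 + (((1 - s) + s * m : ℝ) : ℂ) * (b - 1))) (by fun_prop)
          (by simp) (by simp) ?_
        intro s h0 h1
        refine ⟨?_, lt_max_of_lt_left h'⟩
        have hk : 1 ≤ (1 - s) + s * m := by nlinarith
        have e1 : gg (a, 1 + (((1 - s) + s * m : ℝ) : ℂ) * (b - 1)) =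
            max (gg1 (a - 1)) (gg1 (1 + (((1 - s) + s * m : ℝ) : ℂ) * (b - 1) - 1)) := rfl
        have e2 : gg (a, b) = max (gg1 (a - 1)) (gg1 (b - 1)) := rfl
        rw [e1, add_sub_cancel_left, gg1_mul (by linarith)]
        rw [e2] at h
        refine h.trans (max_le_max le_rfl ?_)
        nlinarith
  obtain ⟨b1, hb1, hb2, hj⟩ := s1
  refine hj.trans (JoinedIn.trans (y := (1 / 2, b1)) ?_ ?_)
  · refine joinedIn_line (fun s => ((1 - s : ℝ) * a + (s : ℝ) * (1 / 2), b1)) (by fun_prop)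
      (by simp) (by simp) ?_
    intro s _ _
    exact ⟨le_max_of_le_right hb1, lt_max_of_lt_right hb2⟩
  · refine joinedIn_line (fun s => ((1 / 2 : ℂ), (1 - s : ℝ) * b1 + (s : ℝ))) (by fun_prop)
      (by simp) (by simp) ?_
    intro s _ _
    refine ⟨le_max_of_le_left ?_, lt_max_of_lt_left ?_⟩
    · show 1 ≤ gg1 ((1 / 2 : ℂ) - 1)
      unfold gg1
      norm_num
    · show 1 / 4 < |sn (1 / 2) - 1|
      unfold sn
      norm_num

theorem joinQ {e : ℂ × ℂ} (h : 1 ≤ gg e) (h' : 1 / 4 < tor e) :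
    JoinedIn {e : ℂ × ℂ | 1 ≤ gg e ∧ 1 / 4 < tor e} e (1 / 2, 1) ∨
      JoinedIn {e : ℂ × ℂ | 1 ≤ gg e ∧ 1 / 4 < tor e} e (1, 1 / 2) := by
  have hg : ∀ e : ℂ × ℂ, gg e.swap = gg e := fun e => max_comm _ _
  have ht : ∀ e : ℂ × ℂ, tor e.swap = tor e := fun e => max_comm _ _
  rcases lt_max_iff.1 h' with h1 | h1
  · exact Or.inl (joinA h h1)
  · right
    have h2 := (joinA (e := e.swap) (by rwa [hg]) h1).map continuous_swap
    refine h2.mono ?_
    rintro _ ⟨e', he', rfl⟩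
    exact ⟨by rw [hg]; exact he'.1, by rw [ht]; exact he'.2⟩

/-! ### paths in tube coordinates -/

private def NN (ε : ℝ) : Set (ℂ × ℂ) := {p | p ∈ UU ε ∧ Phi p ∉ XX ε}

private theorem join_map {ε : ℝ} (h : IsTube ε) {p p' : ℂ × ℂ} (hj : JoinedIn (NN ε) p p') :
    JoinedIn (XX ε)ᶜ (Phi p) (Phi p') := by
  refine (hj.map_continuousOn ((Phi_cont h).mono fun p hp => hp.1)).mono ?_
  rintro _ ⟨x, hx, rfl⟩
  exact hx.2

private theorem out_of {ε : ℝ} (h : IsTube ε) {p : ℂ × ℂ} (hp : p ∈ UU ε) (h1 : 1 < ‖p.1‖) :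
    1 < ‖(Phi p).2‖ := by
  rcases lt_trichotomy ‖(Phi p).2‖ 1 with h2 | h2 | h2
  · exact absurd ((h.lt p hp).1 h2) (by linarith)
  · exact absurd ((h.eq p hp).1 h2) h1.ne'
  · exact h2

private def Good (ε : ℝ) (p : ℂ × ℂ) : Prop :=
  ∃ p' ∈ NN ε, 1 < ‖p'.1‖ ∧ JoinedIn (NN ε) p p'

/-- radial paths -/
private theorem good_scal {ε : ℝ} (h : IsTube ε) {p : ℂ × ℂ} (hp : p ∈ UU ε) (h0 : p.1 ≠ 0)
    (hN : ∀ l : ℝ, 1 ≤ l → ((l : ℂ) * p.1, p.2) ∈ UU ε → Phi ((l : ℂ) * p.1, p.2) ∉ XX ε) :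
    Good ε p := by
  have hpos : 0 < ‖p.1‖ := norm_pos_iff.2 h0
  have hε := h.pos
  -- the radius at the end
  obtain ⟨r, hr1, hr2, hr3⟩ : ∃ r : ℝ, ‖p.1‖ ≤ r ∧ 1 < r ∧ r < 1 + ε := by
    rcases le_or_gt ‖p.1‖ 1 with h1 | h1
    · exact ⟨1 + ε / 2, by linarith, by linarith, by linarith⟩
    · exact ⟨‖p.1‖, le_rfl, h1, hp.1⟩
  set l : ℝ := r / ‖p.1‖ with hl
  have hl1 : 1 ≤ l := (one_le_div hpos).2 hr1
  have hlr : l * ‖p.1‖ = r := div_mul_cancel₀ _ hpos.ne'
  have key : ∀ s : ℝ, 1 ≤ s → s ≤ l → ((s : ℂ) * p.1, p.2) ∈ NN ε := by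
    intro s hs hs'
    have hu : ((s : ℂ) * p.1, p.2) ∈ UU ε := by
      refine ⟨?_, hp.2⟩
      simp only [norm_mul, norm_real, Real.norm_eq_abs, abs_of_nonneg (by linarith : (0 : ℝ) ≤ s)]
      have : s * ‖p.1‖ ≤ l * ‖p.1‖ := mul_le_mul_of_nonneg_right hs' hpos.le
      linarith
    exact ⟨hu, hN s hs hu⟩
  refine ⟨((l : ℂ) * p.1, p.2), key l hl1 le_rfl, ?_, ?_⟩
  · simp only [norm_mul, norm_real, Real.norm_eq_abs, abs_of_nonneg (by linarith : (0 : ℝ) ≤ l)]
    rw [hlr]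
    exact hr2
  · refine joinedIn_line (fun s => ((((1 - s) + s * l : ℝ) : ℂ) * p.1, p.2)) (by fun_prop)
      (by simp) (by simp) ?_
    intro s hs hs'
    exact key _ (by nlinarith) (by nlinarith)

private theorem good_a {ε : ℝ} (h : IsTube ε) {p : ℂ × ℂ} (hp : p ∈ NN ε) (hv : ε / 2 ≤ sn p.2) :
    Good ε p := by
  have h1 : 1 < nu ε p.2 p.1 := by
    by_contra h2
    exact hp.2 ((mem_mid h hp.1 hv).1.2 (not_lt.1 h2))
  refine good_scal h hp.1 ?_ ?_
  · intro h0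
    rw [h0] at h1
    have : nu ε p.2 0 = 0 := by
      have := nu_mul ε p.2 (le_refl (0 : ℝ)) 0
      simpa using this
    linarith
  · intro l hl hu hx
    have h3 := (mem_mid h hu hv).1.1 hx
    rw [nu_mul _ _ (by linarith)] at h3
    nlinarith

private theorem good_b {ε : ℝ} (h : IsTube ε) {p : ℂ × ℂ} (hp : p ∈ UU ε) (hv : sn p.2 ≤ ε / 2)
    (ht : 1 / 2 ≤ sn p.1) : Good ε p := by
  refine good_scal h hp ?_ ?_
  · intro h0
    rw [h0, sn_eq_zero.2 rfl] at ht
    linarith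
  · intro l hl hu hx
    have h3 := (mem_Kin h.pos _).1 ((mem_in h hu hv).1.1 hx)
    have h4 : sn ((l : ℂ) * p.1) = l * sn p.1 := sn_mul (by linarith) _
    have h5 : 1 / 2 ≤ sn ((l : ℂ) * p.1) := by rw [h4]; nlinarith
    have h6 : sn ((l : ℂ) * p.1) = 1 / 2 := le_antisymm h3.2.1 h5
    obtain ⟨h7, h8⟩ := inv_edge h.pos (p := ((l : ℂ) * p.1, p.2)) h3.2.1 h3.2.2.1 (Or.inl h6)
    have h9 := h3.2.2.2
    rw [h7, h8] at h9
    simp only at h9
    linarith

private theorem good_of_joined {ε : ℝ} {p p' : ℂ × ℂ} (hj : JoinedIn (NN ε) p p')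
    (h : Good ε p') : Good ε p := by
  obtain ⟨p'', h1, h2, h3⟩ := h
  exact ⟨p'', h1, h2, hj.trans h3⟩

private theorem norm_of_sn {z : ℂ} (h : sn z ≤ 1 / 2) : ‖z‖ ≤ 1 := by
  have := le_sn z
  linarith

private theorem good_c {ε : ℝ} (h : IsTube ε) {p : ℂ × ℂ} (hp : p ∈ NN ε) (hv : sn p.2 ≤ ε / 2)
    (ht : sn p.1 ≤ 1 / 2) (h0 : p ≠ 0) : Good ε p := by
  have hε := h.pos
  have hne : LLi ε p ≠ 1 := LLi_ne hε h0 ht
  have hg : gg (LLi ε p) ≤ 1 := (gg_LLi hε p).2 ⟨ht, hv⟩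
  have hgp : 0 < gg (LLi ε p) := gg_pos hne
  have h1 : 1 ≤ gg (inv (LLi ε p)) := by
    rw [gg_inv]
    exact (one_le_inv₀ hgp).2 hg
  have h2 : 1 / 4 < tor (inv (LLi ε p)) := by
    by_contra h3
    exact hp.2 ((mem_in h hp.1 hv).1.2 ((mem_Kin hε p).2 ⟨h0, ht, hv, not_lt.1 h3⟩))
  have gone : gg (1 : ℂ × ℂ) = 0 := by
    show max (gg1 ((1 : ℂ) - 1)) (gg1 ((1 : ℂ) - 1)) = 0
    rw [sub_self, gg1_zero, max_self]
  have hone : ∀ e : ℂ × ℂ, 1 ≤ gg e → e ≠ 1 := by
    rintro e he rfl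
    rw [gone] at he
    linarith
  have hinv : ∀ e : ℂ × ℂ, 1 ≤ gg e → gg (inv e) ≤ 1 := by
    intro e he
    rw [gg_inv]
    exact inv_le_one_of_one_le₀ he
  have hmaps : ∀ e : ℂ × ℂ, 1 ≤ gg e → 1 / 4 < tor e → LL ε (inv e) ∈ NN ε := by
    intro e he he'
    have hre := re_of_gg (hinv e he)
    have hL : LLi ε (LL ε (inv e)) = inv e :=
      LLi_LL hε (by linarith [hre.1] : (0 : ℝ) < _).ne' (by linarith [hre.2] : (0 : ℝ) < _).ne'
    have hs : sn (LL ε (inv e)).1 ≤ 1 / 2 ∧ sn (LL ε (inv e)).2 ≤ ε / 2 := by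
      rw [← gg_LLi hε, hL]
      exact hinv e he
    have hu : LL ε (inv e) ∈ UU ε := by
      refine ⟨?_, ?_⟩
      · have := norm_of_sn hs.1
        linarith
      · have := hs.2
        linarith
    refine ⟨hu, fun hx => ?_⟩
    have h3 := ((mem_Kin hε _).1 ((mem_in h hu hs.2).1.1 hx)).2.2.2
    rw [hL, inv_inv] at h3
    linarith
  have hcont : ContinuousOn (fun e => LL ε (inv e)) {e : ℂ × ℂ | 1 ≤ gg e ∧ 1 / 4 < tor e} := by
    intro e he
    have hre := re_of_gg (hinv e he.1)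
    have c1 : ContinuousAt (LL ε) (inv e) :=
      LL_cont ε (by linarith [hre.1] : (0 : ℝ) < _).ne' (by linarith [hre.2] : (0 : ℝ) < _).ne'
    exact (c1.comp (inv_cont (hone e he.1))).continuousWithinAt
  have hstart : LL ε (inv (inv (LLi ε p))) = p := by
    rw [inv_inv]
    have hb : ∀ x : ℝ, |x| ≤ 1 / 2 → -1 < x := by
      intro x hx
      linarith [(abs_le.1 hx).1]
    exact LL_LLi hε (hb _ ((le_max_left _ _).trans ht)) (hb _ ((le_max_right _ _).trans ht))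
  have fin : ∀ e : ℂ × ℂ, JoinedIn {e : ℂ × ℂ | 1 ≤ gg e ∧ 1 / 4 < tor e} (inv (LLi ε p)) e →
      gg e = 1 → sn (LL ε e).2 ≤ ε / 2 → 1 / 2 ≤ sn (LL ε e).1 → Good ε p := by
    intro e hj hge hs1 hs2
    have h3 := hj.map_continuousOn hcont
    simp only [hstart, inv_one hge] at h3
    have h4 : JoinedIn (NN ε) p (LL ε e) := by
      refine h3.mono ?_
      rintro _ ⟨e', he', rfl⟩
      exact hmaps e' he'.1 he'.2
    exact good_of_joined h4 (good_b h h4.target_mem.1 hs1 hs2)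
  have g0 : gg1 ((1 / 2 : ℂ) - 1) = 1 := by
    unfold gg1
    norm_num
  rcases joinQ h1 h2 with hj | hj
  · refine fin _ hj ?_ ?_ ?_
    · show max (gg1 ((1 / 2 : ℂ) - 1)) (gg1 ((1 : ℂ) - 1)) = 1
      rw [g0, sub_self, gg1_zero]
      norm_num
    · unfold LL sn
      simp
      positivity
    · unfold LL sn
      norm_num
  · refine fin _ hj ?_ ?_ ?_
    · show max (gg1 ((1 : ℂ) - 1)) (gg1 ((1 / 2 : ℂ) - 1)) = 1
      rw [g0, sub_self, gg1_zero]
      norm_num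
    · unfold LL sn
      simp
      positivity
    · unfold LL sn
      norm_num

private theorem good_d {ε : ℝ} (h : IsTube ε) : Good ε 0 := by
  have hε := h.pos
  set P : ℝ → ℂ × ℂ := fun s => ((-(1 + I)) * (s : ℂ), 0) with hP
  have hsn : ∀ s : ℝ, 0 ≤ s → sn (P s).1 = s := by
    intro s hs
    have e1 : ((-(1 + I)) * (s : ℂ)).re = -s := by simp
    have e2 : ((-(1 + I)) * (s : ℂ)).im = -s := by simp
    show max |((-(1 + I)) * (s : ℂ)).re| |((-(1 + I)) * (s : ℂ)).im| = s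
    rw [e1, e2, max_self, abs_neg, abs_of_nonneg hs]
  have hsn2 : ∀ s : ℝ, sn (P s).2 = 0 := fun s => sn_eq_zero.2 rfl
  have hmem : ∀ s : ℝ, 0 ≤ s → s ≤ 1 / 20 → P s ∈ NN ε := by
    intro s hs hs'
    have hu : P s ∈ UU ε := by
      refine ⟨?_, ?_⟩
      · have := norm_of_sn (z := (P s).1) (by rw [hsn s hs]; linarith)
        linarith
      · rw [hsn2]
        linarith
    refine ⟨hu, fun hx => ?_⟩
    have h3 := (mem_Kin hε _).1 ((mem_in h hu (by rw [hsn2]; linarith)).1.1 hx)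
    have hs0 : 0 < s := by
      rcases hs.lt_or_eq with h4 | h4
      · exact h4
      · exfalso
        apply h3.1
        rw [← h4, hP]
        simp
    have e1 : LLi ε (P s) = (((1 - s : ℝ) : ℂ), ((1 - s : ℝ) : ℂ)) := by
      rw [hP]
      unfold LLi
      ext <;> simp <;> ring_nf
    have e2 : gg (((1 - s : ℝ) : ℂ), ((1 - s : ℝ) : ℂ)) = 2 * s := by
      unfold gg gg1
      simp
      rw [abs_of_pos hs0]
      exact max_eq_left (by linarith)
    have e3 : (inv (LLi ε (P s))).1 = ((1 - 1 / (4 * s) : ℝ) : ℂ) := by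
      rw [e1]
      unfold inv
      rw [e2]
      push_cast
      have : (s : ℂ) ≠ 0 := by exact_mod_cast hs0.ne'
      field_simp
      ring
    have h4 := h3.2.2.2
    have h5 : |sn (inv (LLi ε (P s))).1 - 1| ≤ 1 / 4 := (le_max_left _ _).trans h4
    rw [e3] at h5
    have e4 : sn ((1 - 1 / (4 * s) : ℝ) : ℂ) = 1 / (4 * s) - 1 := by
      have h6 : 5 ≤ 1 / (4 * s) := by
        rw [le_div_iff₀ (by linarith)]
        linarith
      unfold sn
      rw [ofReal_re, ofReal_im, abs_zero, max_eq_left (abs_nonneg _), abs_of_nonpos (by linarith)]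
      ring
    rw [e4] at h5
    have h6 : 5 ≤ 1 / (4 * s) := by
      rw [le_div_iff₀ (by linarith)]
      linarith
    have := (abs_le.1 h5).2
    linarith
  have hj : JoinedIn (NN ε) 0 (P (1 / 20)) := by
    refine joinedIn_line (fun s => P (s / 20)) ?_ ?_ rfl ?_
    · rw [hP]
      fun_prop
    · rw [hP]
      simp
    · intro s hs hs'
      exact hmem _ (by positivity) (by linarith)
  refine good_of_joined hj (good_c h hj.target_mem ?_ ?_ ?_)
  · rw [hsn2]
    linarith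
  · rw [hsn _ (by norm_num)]
    norm_num
  · intro h0
    have : sn (P (1 / 20)).1 = 0 := by
      rw [h0]
      exact sn_eq_zero.2 rfl
    rw [hsn _ (by norm_num)] at this
    norm_num at this

theorem join_out {ε : ℝ} (h : IsTube ε) {q : S2 × ℂ} (hq : q ∉ XX ε) :
    ∃ q' : S2 × ℂ, 1 < ‖q'.2‖ ∧ JoinedIn (XX ε)ᶜ q q' := by
  rcases lt_or_ge 1 ‖q.2‖ with h1 | h1
  · exact ⟨q, h1, JoinedIn.refl hq⟩
  have h2 : q ∈ Phi '' {p | ‖p.1‖ ≤ 1 ∧ sn p.2 ≤ ε} := by
    by_contra h3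
    exact hq ((mem_out h h3).1.2 h1)
  obtain ⟨p, hp, rfl⟩ := h2
  have hu : p ∈ UU ε := (sub_UU h).2.2 hp
  have hN : p ∈ NN ε := ⟨hu, hq⟩
  have hgood : Good ε p := by
    by_cases h0 : p = 0
    · rw [h0]
      exact good_d h
    · rcases le_total (ε / 2) (sn p.2) with h3 | h3
      · exact good_a h hN h3
      · rcases le_total (1 / 2) (sn p.1) with h4 | h4
        · exact good_b h hu h3 h4
        · exact good_c h hN h3 h4 h0
  obtain ⟨p', h3, h4, h5⟩ := hgood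
  exact ⟨Phi p', out_of h h3.1 h4, join_map h h5⟩

end

end Pool.Agent.FibC
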