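import Mathlib

/-!
# MP_599b3d_gt: definitions for the construction

`S2` is the sphere `P¹`, the construction takes place in `S2 × ℂ`, an open subset of the `4`-sphere.
-/

set_option autoImplicit false

namespace Pool.Agent.FibC

open Complex ComplexConjugate Set

noncomputable section

/-- the `2`-sphere -/
abbrev S2 : Type := {p : ℂ × ℝ // ‖p.1‖ ^ 2 + p.2 ^ 2 = 1}

/-- the point `[X : Y]` of the `2`-sphere -/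
def PP (X Y : ℂ) : S2 :=
  if h : normSq X + normSq Y = 0 then ⟨(0, 1), by norm_num⟩ else
    ⟨(2 * X * conj Y / ((normSq X + normSq Y : ℝ) : ℂ),
      (normSq X - normSq Y) / (normSq X + normSq Y)), by
      have h1 : ‖(2 * X * conj Y / ((normSq X + normSq Y : ℝ) : ℂ))‖ ^ 2 =
          4 * normSq X * normSq Y / (normSq X + normSq Y) ^ 2 := by
        rw [← normSq_eq_norm_sq, normSq_div, normSq_mul, normSq_mul, normSq_conj, normSq_ofReal]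
        norm_num [normSq_ofNat, sq]
      simp only []
      rw [h1]
      field_simp
      ring⟩

/-- the sup norm -/
def sn (z : ℂ) : ℝ := max |z.re| |z.im|

/-- the unit vector in the direction of `z` -/
def un (z : ℂ) : ℂ := z / (‖z‖ : ℂ)

/-! ### the disc and its tube -/

def rho (t : ℂ) : ℝ := 1 - (t.re ^ 2 + t.im ^ 2)

def xx (t : ℂ) : ℂ := t + I * (rho t : ℂ)

def yy (t : ℂ) : ℂ := conj t + I * (rho t : ℂ)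

def SS (t : ℂ) : ℝ := normSq (xx t) + normSq (yy t)

def X0 (t m : ℂ) : ℂ := xx t * (SS t : ℂ) + 2 * m * conj (xx t) * conj (yy t) ^ 2

def Y0 (t m : ℂ) : ℂ := yy t * (SS t : ℂ) - 2 * m * conj (xx t) ^ 2 * conj (yy t)

def w0 (t m : ℂ) : ℂ := t ^ 3 + (rho t : ℂ) * t -
  8 * I * (rho t : ℂ) * (((max t.im 0) ^ 2 : ℝ) * conj m + ((max (-t.im) 0) ^ 2 : ℝ) * m)

/-- the tube of the disc `t ↦ Phi0 (t, 0)` -/
def Phi0 (p : ℂ × ℂ) : S2 × ℂ := (PP (X0 p.1 p.2) (Y0 p.1 p.2), w0 p.1 p.2)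

def E3 (v : ℂ) : ℂ := (‖1 + v‖ : ℂ) * exp (I * (arg (1 + v) / 3 : ℝ))

/-- the change of coordinates which makes the fibration standard on the boundary -/
def chg (p : ℂ × ℂ) : ℂ × ℂ :=
  (p.1 * exp (I * (arg (1 + p.2) / 3 : ℝ)), (E3 p.2 - 1) / (E3 p.2 + 1))

def Phi (p : ℂ × ℂ) : S2 × ℂ := Phi0 (chg p)

/-- the point with base coordinate `b` and fibre coordinate `s` on `{‖q.2‖ = 1}` -/
def Vb (b s : ℂ) : S2 × ℂ := (PP (b * s ^ 2) 1, un b * s ^ 3)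

def UU (ε : ℝ) : Set (ℂ × ℂ) := {p | ‖p.1‖ < 1 + ε ∧ sn p.2 < 2 * ε}

structure IsTube (ε : ℝ) : Prop where
  pos : 0 < ε
  small : ε ≤ 1 / 16
  emb : ∃ T : OpenPartialHomeomorph (ℂ × ℂ) (S2 × ℂ), T.source = UU ε ∧ ∀ p ∈ UU ε, T p = Phi p
  lt : ∀ p ∈ UU ε, (‖(Phi p).2‖ < 1 ↔ ‖p.1‖ < 1)
  eq : ∀ p ∈ UU ε, (‖(Phi p).2‖ = 1 ↔ ‖p.1‖ = 1)

/-! ### the region in the tube -/

def lam (ε : ℝ) (v : ℂ) : ℝ := max 0 (min 1 ((4 * sn v - 3 * ε) / ε))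

/-- a family of norms of `t`, from `‖t‖` for `ε ≤ sn v` to `4 * sn t` for `sn v ≤ 3 * ε / 4` -/
def nu (ε : ℝ) (v t : ℂ) : ℝ := lam ε v * ‖t‖ + (1 - lam ε v) * (4 * sn t)

def gg1 (z : ℂ) : ℝ := max (2 * |z.re|) (2 * |z.im| - z.re)

/-- the gauge of the polydisc (a product of two trapezoids around `1`) -/
def gg (e : ℂ × ℂ) : ℝ := max (gg1 (e.1 - 1)) (gg1 (e.2 - 1))

/-- the inversion -/
def inv (e : ℂ × ℂ) : ℂ × ℂ :=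
  (1 + (e.1 - 1) / ((gg e ^ 2 : ℝ) : ℂ), 1 + (e.2 - 1) / ((gg e ^ 2 : ℝ) : ℂ))

/-- the distance to the torus `sn e.1 = sn e.2 = 1` -/
def tor (e : ℂ × ℂ) : ℝ := max |sn e.1 - 1| |sn e.2 - 1|

/-- from tube coordinates to the coordinates of the polydisc -/
def LLi (ε : ℝ) (p : ℂ × ℂ) : ℂ × ℂ :=
  (((1 + p.1.re : ℝ) : ℂ) * (1 + I * (p.2.re / ε : ℝ)),
    ((1 + p.1.im : ℝ) : ℂ) * (1 + I * (p.2.im / ε : ℝ)))

/-- from the coordinates of the polydisc to tube coordinates -/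
def LL (ε : ℝ) (e : ℂ × ℂ) : ℂ × ℂ :=
  (⟨e.1.re - 1, e.2.re - 1⟩, ⟨ε * (e.1.im / e.1.re), ε * (e.2.im / e.2.re)⟩)

def Kmid (ε : ℝ) : Set (ℂ × ℂ) := {p | ε / 2 ≤ sn p.2 ∧ sn p.2 ≤ ε ∧ nu ε p.2 p.1 ≤ 1}

def Mmid (ε : ℝ) : Set (ℂ × ℂ) := {p | ε / 2 ≤ sn p.2 ∧ sn p.2 ≤ ε ∧ nu ε p.2 p.1 = 1}

def Kin (ε : ℝ) : Set (ℂ × ℂ) := (fun e => LL ε (inv e)) '' {e | 1 ≤ gg e ∧ tor e ≤ 1 / 4}

def Min (ε : ℝ) : Set (ℂ × ℂ) := (fun e => LL ε (inv e)) '' {e | 1 ≤ gg e ∧ tor e = 1 / 4}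

/-- the region -/
def XX (ε : ℝ) : Set (S2 × ℂ) :=
  ({q | ‖q.2‖ ≤ 1} \ Phi '' {p | ‖p.1‖ ≤ 1 ∧ sn p.2 < ε}) ∪ Phi '' (Kmid ε ∪ Kin ε)

/-- its boundary -/
def MM (ε : ℝ) : Set (S2 × ℂ) :=
  ({q | ‖q.2‖ = 1} \ Phi '' {p | ‖p.1‖ = 1 ∧ sn p.2 < ε}) ∪ Phi '' (Mmid ε ∪ Min ε)

end

end Pool.Agent.FibC
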