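import Pool.Agent.Lib.FibC.Lin

/-!
# Der: smoothness and the derivative at the disc

PROOF. `X0`, `Y0` are polynomials in `t, conj t, re t, im t, m`; `w0` contains in addition
`(max t.im 0) ^ 2`, and `s ↦ (max s 0) ^ 2` is `C¹` with derivative `2 * max s 0` (`contDiff_one_iff_deriv`; at `0` the difference quotient is
`≤ |s|`). `der`: along `s ↦ (t + s d, s m)` put `r' = -(2 * (t.re * d.re + t.im * d.im))` (the derivative of `rho`); then `xx' = d + I r'`,
`yy' = conj d + I r'`; `SS' = σ` for some real `σ`; `X' = xx' SS + xx σ + 2 m conj xx conj yy²`, `Y' = yy' SS + yy σ - 2 m conj xx² conj yy`; so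
`Y0 X' - X0 Y' = SS² (yy xx' - xx yy') + 2 m SS conj xx conj yy (normSq yy + normSq xx)`
and `yy xx' - xx yy' = yy d - xx conj d + I r' (yy - xx) = BB d - AA conj d` (`yy - xx = -2 i Y`, `BB = yy - 2 Y conj t`,
`AA = xx + 2 Y t`, `r' = -(conj t d + t conj d)`). `w'`: the derivative of `t³ + ρ t` is `3 t² d + ρ d + r' t = EE d - t² conj d`; the third
summand is `8 i ρ (...)` with `s m` inside: the derivative at `s = 0` is the value with `m`.
-/

set_option autoImplicit false

namespace Pool.Agent.FibC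

open Complex ComplexConjugate Set

noncomputable section

private theorem sm_rho : ContDiff ℝ 1 (fun p : ℂ × ℂ => rho p.1) := by
  have h1 : ContDiff ℝ 1 (fun p : ℂ × ℂ => p.1.re) := reCLM.contDiff.comp contDiff_fst
  have h2 : ContDiff ℝ 1 (fun p : ℂ × ℂ => p.1.im) := imCLM.contDiff.comp contDiff_fst
  exact contDiff_const.sub ((h1.pow 2).add (h2.pow 2))

private theorem sm_ofReal {f : ℂ × ℂ → ℝ} (h : ContDiff ℝ 1 f) : ContDiff ℝ 1 (fun p => (f p : ℂ)) :=
  ofRealCLM.contDiff.comp h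

private theorem sm_conj {f : ℂ × ℂ → ℂ} (h : ContDiff ℝ 1 f) : ContDiff ℝ 1 (fun p => conj (f p)) :=
  conjCLE.contDiff.comp h

private theorem sm_fst : ContDiff ℝ 1 (fun p : ℂ × ℂ => p.1) := contDiff_fst

private theorem sm_snd : ContDiff ℝ 1 (fun p : ℂ × ℂ => p.2) := contDiff_snd

private theorem sm_xx : ContDiff ℝ 1 (fun p : ℂ × ℂ => xx p.1) :=
  sm_fst.add (contDiff_const.mul (sm_ofReal sm_rho))

private theorem sm_yy : ContDiff ℝ 1 (fun p : ℂ × ℂ => yy p.1) :=
  (sm_conj sm_fst).add (contDiff_const.mul (sm_ofReal sm_rho))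

private theorem sm_ns {f : ℂ × ℂ → ℂ} (h : ContDiff ℝ 1 f) : ContDiff ℝ 1 (fun p => normSq (f p)) := by
  have h1 : ContDiff ℝ 1 (fun p => (f p).re) := reCLM.contDiff.comp h
  have h2 : ContDiff ℝ 1 (fun p => (f p).im) := imCLM.contDiff.comp h
  have e : (fun p => normSq (f p)) = fun p => (f p).re * (f p).re + (f p).im * (f p).im :=
    funext fun p => normSq_apply _
  rw [e]
  exact (h1.mul h1).add (h2.mul h2)

private theorem sm_SS : ContDiff ℝ 1 (fun p : ℂ × ℂ => SS p.1) := (sm_ns sm_xx).add (sm_ns sm_yy)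

theorem smooth_X0 : ContDiff ℝ 1 (fun p : ℂ × ℂ => X0 p.1 p.2) :=
  (sm_xx.mul (sm_ofReal sm_SS)).add
    (((contDiff_const.mul sm_snd).mul (sm_conj sm_xx)).mul ((sm_conj sm_yy).pow 2))

theorem smooth_Y0 : ContDiff ℝ 1 (fun p : ℂ × ℂ => Y0 p.1 p.2) :=
  (sm_yy.mul (sm_ofReal sm_SS)).sub
    (((contDiff_const.mul sm_snd).mul ((sm_conj sm_xx).pow 2)).mul (sm_conj sm_yy))

private theorem der_max (x : ℝ) : HasDerivAt (fun s : ℝ => (max s 0) ^ 2) (2 * max x 0) x := by
  rcases lt_trichotomy x 0 with h | h | h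
  · rw [max_eq_right h.le, mul_zero]
    refine (hasDerivAt_const x (0 : ℝ)).congr_of_eventuallyEq ?_
    filter_upwards [eventually_lt_nhds h] with y hy
    rw [max_eq_right hy.le]; norm_num
  · subst h
    rw [max_self, mul_zero, hasDerivAt_iff_isLittleO]
    simp only [max_self, sub_zero, smul_zero, ne_eq, OfNat.ofNat_ne_zero, not_false_eq_true, zero_pow]
    have h1 : (fun x : ℝ => (max x 0) ^ 2) =O[nhds 0] fun x : ℝ => x ^ 2 := by
      refine Asymptotics.IsBigO.of_bound 1 (Filter.Eventually.of_forall fun y => ?_)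
      rw [Real.norm_eq_abs, Real.norm_eq_abs, abs_of_nonneg (sq_nonneg _), abs_of_nonneg (sq_nonneg _),
        one_mul]
      rcases le_total y 0 with hy | hy
      · rw [max_eq_right hy]; simp only [ne_eq, OfNat.ofNat_ne_zero, not_false_eq_true, zero_pow]; exact sq_nonneg _
      · rw [max_eq_left hy]
    have h2 : (fun x : ℝ => x ^ 2) =o[nhds 0] fun x : ℝ => x := by
      have := Asymptotics.isLittleO_pow_id (𝕜 := ℝ) (show 1 < 2 by norm_num)
      simpa using this
    exact h1.trans_isLittleO h2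
  · rw [max_eq_left h.le]
    have := hasDerivAt_pow 2 x
    simp only [Nat.cast_ofNat, Nat.add_one_sub_one, pow_one] at this
    refine this.congr_of_eventuallyEq ?_
    filter_upwards [eventually_gt_nhds h] with y hy
    rw [max_eq_left hy.le]

private theorem sm_max : ContDiff ℝ 1 (fun s : ℝ => (max s 0) ^ 2) := by
  rw [contDiff_one_iff_deriv]
  refine ⟨fun x => (der_max x).differentiableAt, ?_⟩
  have : deriv (fun s : ℝ => (max s 0) ^ 2) = fun x => 2 * max x 0 := funext fun x => (der_max x).deriv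
  rw [this]
  fun_prop

theorem smooth_w0 : ContDiff ℝ 1 (fun p : ℂ × ℂ => w0 p.1 p.2) := by
  have h2 : ContDiff ℝ 1 (fun p : ℂ × ℂ => p.1.im) := imCLM.contDiff.comp contDiff_fst
  have m1 : ContDiff ℝ 1 (fun p : ℂ × ℂ => (max p.1.im 0) ^ 2) := sm_max.comp h2
  have m2 : ContDiff ℝ 1 (fun p : ℂ × ℂ => (max (-p.1.im) 0) ^ 2) := sm_max.comp h2.neg
  exact ((sm_fst.pow 3).add ((sm_ofReal sm_rho).mul sm_fst)).sub
    ((contDiff_const.mul (sm_ofReal sm_rho)).mul
      (((sm_ofReal m1).mul (sm_conj sm_snd)).add ((sm_ofReal m2).mul sm_snd)))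

theorem der (t d m : ℂ) : ∃ X' Y' w' : ℂ,
    HasDerivAt (fun s : ℝ => X0 (t + s * d) (s * m)) X' 0 ∧
    HasDerivAt (fun s : ℝ => Y0 (t + s * d) (s * m)) Y' 0 ∧
    HasDerivAt (fun s : ℝ => w0 (t + s * d) (s * m)) w' 0 ∧
    Y0 t 0 * X' - X0 t 0 * Y' =
      (SS t : ℂ) ^ 2 * (BB t * d - AA t * conj d + 2 * conj (xx t * yy t) * m) ∧
    w' = EE t * d - t ^ 2 * conj d - 8 * I * (rho t : ℂ) *
      (((max t.im 0) ^ 2 : ℝ) * conj m + ((max (-t.im) 0) ^ 2 : ℝ) * m) := by
  -- the line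
  have ht : HasDerivAt (fun s : ℝ => t + s * d) d 0 := by
    have := ((hasDerivAt_id (0 : ℝ)).ofReal_comp.mul_const d).const_add t
    simpa using this
  have hm : HasDerivAt (fun s : ℝ => (s : ℂ) * m) m 0 := by
    have := (hasDerivAt_id (0 : ℝ)).ofReal_comp.mul_const m
    simpa using this
  have e0 : t + ((0 : ℝ) : ℂ) * d = t := by simp
  have em : ((0 : ℝ) : ℂ) * m = 0 := by simp
  have hre : HasDerivAt (fun s : ℝ => (t + s * d).re) d.re 0 := by
    exact reCLM.hasFDerivAt.comp_hasDerivAt (0 : ℝ) ht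
  have him : HasDerivAt (fun s : ℝ => (t + s * d).im) d.im 0 := by
    exact imCLM.hasFDerivAt.comp_hasDerivAt (0 : ℝ) ht
  have hr : HasDerivAt (fun s : ℝ => rho (t + s * d)) (-(2 * (t.re * d.re + t.im * d.im))) 0 := by
    have := ((hre.mul hre).add (him.mul him)).const_sub 1
    rw [e0] at this
    refine (this.congr_deriv ?_).congr_of_eventuallyEq (Filter.Eventually.of_forall fun s => ?_)
    · ring
    · simp only [rho, Pi.mul_apply, Pi.add_apply]; ring
  obtain ⟨r', hr'⟩ : ∃ r' : ℝ, r' = -(2 * (t.re * d.re + t.im * d.im)) := ⟨_, rfl⟩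
  rw [← hr'] at hr
  have hrc : HasDerivAt (fun s : ℝ => (rho (t + s * d) : ℂ)) (r' : ℂ) 0 := hr.ofReal_comp
  have htc : HasDerivAt (fun s : ℝ => conj (t + s * d)) (conj d) 0 := by
    exact conjCLE.hasFDerivAt.comp_hasDerivAt (0 : ℝ) ht
  have hmc : HasDerivAt (fun s : ℝ => conj ((s : ℂ) * m)) (conj m) 0 := by
    exact conjCLE.hasFDerivAt.comp_hasDerivAt (0 : ℝ) hm
  have hx : HasDerivAt (fun s : ℝ => xx (t + s * d)) (d + I * r') 0 := ht.add (hrc.const_mul I)
  have hy : HasDerivAt (fun s : ℝ => yy (t + s * d)) (conj d + I * r') 0 := htc.add (hrc.const_mul I)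
  have hxc : HasDerivAt (fun s : ℝ => conj (xx (t + s * d))) (conj (d + I * r')) 0 := by
    exact conjCLE.hasFDerivAt.comp_hasDerivAt (0 : ℝ) hx
  have hyc : HasDerivAt (fun s : ℝ => conj (yy (t + s * d))) (conj (conj d + I * r')) 0 := by
    exact conjCLE.hasFDerivAt.comp_hasDerivAt (0 : ℝ) hy
  have hS : ∃ σ : ℂ, HasDerivAt (fun s : ℝ => (SS (t + s * d) : ℂ)) σ 0 := by
    have h1 := (hx.mul hxc).add (hy.mul hyc)
    refine ⟨_, h1.congr_of_eventuallyEq (Filter.Eventually.of_forall fun s => ?_)⟩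
    simp only [SS, Pi.mul_apply, Pi.add_apply]
    push_cast
    rw [← mul_conj, ← mul_conj]
  obtain ⟨σ, hσ⟩ := hS
  have hX := (hx.mul hσ).add (((hm.const_mul 2).mul hxc).mul (hyc.pow 2))
  have hY := (hy.mul hσ).sub (((hm.const_mul 2).mul (hxc.pow 2)).mul hyc)
  have hmx1 : HasDerivAt (fun s : ℝ => (((max (t + s * d).im 0) ^ 2 : ℝ) : ℂ))
      ((2 * max t.im 0 * d.im : ℝ) : ℂ) 0 := by
    have := (der_max ((t + ((0 : ℝ) : ℂ) * d).im)).comp (0 : ℝ) him
    rw [e0] at this
    exact this.ofReal_comp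
  have hmx2 : HasDerivAt (fun s : ℝ => (((max (-(t + s * d).im) 0) ^ 2 : ℝ) : ℂ))
      ((2 * max (-t.im) 0 * -d.im : ℝ) : ℂ) 0 := by
    have := (der_max (-(t + ((0 : ℝ) : ℂ) * d).im)).comp (0 : ℝ) him.neg
    rw [e0] at this
    exact this.ofReal_comp
  have hw := ((ht.pow 3).add (hrc.mul ht)).sub
    ((hrc.const_mul (8 * I)).mul ((hmx1.mul hmc).add (hmx2.mul hm)))
  refine ⟨_, _, _, hX, hY, hw, ?_, ?_⟩
  · simp only [e0, em, map_zero, Pi.mul_apply, Pi.pow_apply, Pi.add_apply]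
    have hr2 : (r' : ℂ) = -(conj t * d + t * conj d) := by
      rw [hr']
      apply Complex.ext
      · simp; ring
      · simp; ring
    have hB : BB t = yy t - 2 * (t.im : ℂ) * conj t := by
      apply Complex.ext
      · simp [BB, yy, sq]; ring
      · simp [BB, yy, sq, rho]; ring
    have hA : AA t = xx t + 2 * (t.im : ℂ) * t := by
      apply Complex.ext
      · simp [AA, xx, sq]; ring
      · simp [AA, xx, sq, rho]; ring
    have hxy : yy t - xx t = -2 * I * (t.im : ℂ) := by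
      apply Complex.ext
      · simp [xx, yy]
      · simp [xx, yy]; ring
    have hSS : (SS t : ℂ) = xx t * conj (xx t) + yy t * conj (yy t) := by
      rw [SS]; push_cast; rw [mul_conj, mul_conj]
    have hmul : conj (xx t * yy t) = conj (xx t) * conj (yy t) := map_mul _ _ _
    have hI : I * I = -1 := I_mul_I
    rw [X0, Y0, hB, hA, hmul]
    have key : yy t * (d + I * r') - xx t * (conj d + I * r') =
        (yy t - 2 * (t.im : ℂ) * conj t) * d - (xx t + 2 * (t.im : ℂ) * t) * conj d := by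
      linear_combination (I * r') * hxy + (2 * (t.im : ℂ)) * hr2 - 2 * (t.im : ℂ) * r' * hI
    push_cast
    linear_combination ((SS t : ℂ) ^ 2) * key -
      (2 * m * (SS t : ℂ) * conj (xx t) * conj (yy t)) * hSS
  · simp only [e0, em, map_zero, Pi.mul_apply, Pi.pow_apply, Pi.add_apply]
    have hr2 : (r' : ℂ) = -(conj t * d + t * conj d) := by
      rw [hr']
      apply Complex.ext
      · simp; ring
      · simp; ring
    have hE : EE t = 3 * t ^ 2 + (rho t : ℂ) - t * conj t := by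
      rw [mul_conj, normSq_apply, EE, rho]; push_cast; ring
    rw [hE, hr2]
    push_cast
    ring

end

end Pool.Agent.FibC
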