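import Pool.Agent.Lib.FibC.PPc
import Pool.Agent.Lib.FibC.Stm

/-!
# Emb: the open embedding of `S2 × ℂ` in the `4`-sphere

PROOF. `J (p, w) = (p.1.re, p.1.im, p.2, w.re, w.im) / √(1 + ‖w‖²)`. Its image is the open set `{y | (y 0, y 1, y 2) ≠ 0}`, the inverse is `y ↦ ((y 0 + i y 1, y 2) / r, (y 3 + i y 4) / r)`,
`r = √(y 0 ² + y 1 ² + y 2 ²)`; both continuous. `J '' {‖q.2‖ ≤ 1} = {y | y 3 ² + y 4 ² ≤ 1/2}`. The complement `{1/2 < y 3 ² + y 4 ²}` is path connected: it is the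
image of the star convex set `{(u, θ) | ‖u‖ < 1}` under `(u, θ) ↦ (u, cos θ, sin θ) / √(1 + ‖u‖²)`.
-/

set_option autoImplicit false

namespace Pool.Agent.FibC

open Complex ComplexConjugate Set

noncomputable section

/-- a point of the sphere from its coordinates -/
private def mk5 (f : Fin 5 → ℝ) (h : ∑ i, f i ^ 2 = 1) : S4 :=
  ⟨WithLp.toLp 2 f, by
    rw [mem_sphere_zero_iff_norm, EuclideanSpace.norm_eq]
    have h1 : ∑ i, ‖(WithLp.toLp 2 f).ofLp i‖ ^ 2 = 1 := by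
      rw [← h]
      refine Finset.sum_congr rfl fun i _ => ?_
      rw [Real.norm_eq_abs, sq_abs]
    rw [h1, Real.sqrt_one]⟩

private theorem mk5_cont {X : Type*} [TopologicalSpace X] {f : X → Fin 5 → ℝ}
    (h : ∀ x, ∑ i, f x i ^ 2 = 1) (hf : Continuous f) : Continuous fun x => mk5 (f x) (h x) :=
  Continuous.subtype_mk ((PiLp.continuous_toLp 2 _).comp hf) _

private theorem sum5 (y : S4) : (y : EuclideanSpace ℝ (Fin 5)) 0 ^ 2 +
    (y : EuclideanSpace ℝ (Fin 5)) 1 ^ 2 + (y : EuclideanSpace ℝ (Fin 5)) 2 ^ 2 +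
    (y : EuclideanSpace ℝ (Fin 5)) 3 ^ 2 + (y : EuclideanSpace ℝ (Fin 5)) 4 ^ 2 = 1 := by
  have h1 : ‖(y : EuclideanSpace ℝ (Fin 5))‖ = 1 := mem_sphere_zero_iff_norm.1 y.2
  have h2 := EuclideanSpace.norm_sq_eq (y : EuclideanSpace ℝ (Fin 5))
  rw [h1, Fin.sum_univ_five] at h2
  simp only [Real.norm_eq_abs, sq_abs, one_pow] at h2
  linarith

private theorem ext5 {y y' : S4} (h : ∀ i, (y : EuclideanSpace ℝ (Fin 5)) i =
    (y' : EuclideanSpace ℝ (Fin 5)) i) : y = y' :=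
  Subtype.ext (PiLp.ext h)

private def RR (w : ℂ) : ℝ := Real.sqrt (1 + (w.re ^ 2 + w.im ^ 2))

private theorem RR_pos (w : ℂ) : 0 < RR w := Real.sqrt_pos.2 (by positivity)

private theorem RR_sq (w : ℂ) : RR w ^ 2 = 1 + (w.re ^ 2 + w.im ^ 2) := Real.sq_sqrt (by positivity)

private theorem RR_cont : Continuous RR := by
  unfold RR
  fun_prop

private theorem S2_eq (p : S2) : p.1.1.re ^ 2 + p.1.1.im ^ 2 + p.1.2 ^ 2 = 1 := by
  have h := p.2
  rw [← Complex.normSq_eq_norm_sq, Complex.normSq_apply] at h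
  nlinarith

private def Jv (q : S2 × ℂ) : Fin 5 → ℝ :=
  ![q.1.1.1.re / RR q.2, q.1.1.1.im / RR q.2, q.1.1.2 / RR q.2, q.2.re / RR q.2, q.2.im / RR q.2]

private theorem Jv_sum (q : S2 × ℂ) : ∑ i, Jv q i ^ 2 = 1 := by
  have h1 := RR_pos q.2
  have h2 := RR_sq q.2
  have h3 := S2_eq q.1
  rw [Fin.sum_univ_five]
  show (q.1.1.1.re / RR q.2) ^ 2 + (q.1.1.1.im / RR q.2) ^ 2 + (q.1.1.2 / RR q.2) ^ 2 +
    (q.2.re / RR q.2) ^ 2 + (q.2.im / RR q.2) ^ 2 = 1
  field_simp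
  linarith

private theorem Jv_cont : Continuous Jv := by
  have h0 : Continuous fun q : S2 × ℂ => RR q.2 := RR_cont.comp continuous_snd
  have hne : ∀ q : S2 × ℂ, RR q.2 ≠ 0 := fun q => (RR_pos q.2).ne'
  have hp : Continuous fun q : S2 × ℂ => (q.1 : ℂ × ℝ) := continuous_subtype_val.comp continuous_fst
  refine continuous_pi fun i => ?_
  fin_cases i
  · exact (Complex.continuous_re.comp (continuous_fst.comp hp)).div h0 hne
  · exact (Complex.continuous_im.comp (continuous_fst.comp hp)).div h0 hne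
  · exact (continuous_snd.comp hp).div h0 hne
  · exact (Complex.continuous_re.comp continuous_snd).div h0 hne
  · exact (Complex.continuous_im.comp continuous_snd).div h0 hne

private def J (q : S2 × ℂ) : S4 := mk5 (Jv q) (Jv_sum q)

private theorem J_cont : Continuous J := mk5_cont Jv_sum Jv_cont

/-- the square of `r` -/
private def r2 (y : S4) : ℝ := (y : EuclideanSpace ℝ (Fin 5)) 0 ^ 2 +
    (y : EuclideanSpace ℝ (Fin 5)) 1 ^ 2 + (y : EuclideanSpace ℝ (Fin 5)) 2 ^ 2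

private theorem co_cont (i : Fin 5) : Continuous fun y : S4 => (y : EuclideanSpace ℝ (Fin 5)) i :=
  (EuclideanSpace.proj (𝕜 := ℝ) i).continuous.comp continuous_subtype_val

private theorem r2_cont : Continuous r2 := by
  unfold r2
  exact (((co_cont 0).pow 2).add ((co_cont 1).pow 2)).add ((co_cont 2).pow 2)

private theorem r2_J (q : S2 × ℂ) : r2 (J q) = 1 / RR q.2 ^ 2 := by
  have h1 := RR_pos q.2
  have h3 := S2_eq q.1
  show (q.1.1.1.re / RR q.2) ^ 2 + (q.1.1.1.im / RR q.2) ^ 2 + (q.1.1.2 / RR q.2) ^ 2 = _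
  field_simp
  linarith

private abbrev Tg : Type := {y : S4 // 0 < r2 y}

private theorem rpos (y : Tg) : 0 < Real.sqrt (r2 y.1) := Real.sqrt_pos.2 y.2

private def Ki (y : Tg) : S2 × ℂ :=
  (⟨(⟨(y.1 : EuclideanSpace ℝ (Fin 5)) 0 / Real.sqrt (r2 y.1),
      (y.1 : EuclideanSpace ℝ (Fin 5)) 1 / Real.sqrt (r2 y.1)⟩,
      (y.1 : EuclideanSpace ℝ (Fin 5)) 2 / Real.sqrt (r2 y.1)), by
      rw [← Complex.normSq_eq_norm_sq, Complex.normSq_apply]
      have h1 := rpos y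
      have h2 := Real.sq_sqrt y.2.le
      show (y.1 : EuclideanSpace ℝ (Fin 5)) 0 / Real.sqrt (r2 y.1) *
        ((y.1 : EuclideanSpace ℝ (Fin 5)) 0 / Real.sqrt (r2 y.1)) +
        (y.1 : EuclideanSpace ℝ (Fin 5)) 1 / Real.sqrt (r2 y.1) *
        ((y.1 : EuclideanSpace ℝ (Fin 5)) 1 / Real.sqrt (r2 y.1)) +
        ((y.1 : EuclideanSpace ℝ (Fin 5)) 2 / Real.sqrt (r2 y.1)) ^ 2 = 1
      field_simp
      rw [h2]
      unfold r2
      ring⟩,
    ⟨(y.1 : EuclideanSpace ℝ (Fin 5)) 3 / Real.sqrt (r2 y.1),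
      (y.1 : EuclideanSpace ℝ (Fin 5)) 4 / Real.sqrt (r2 y.1)⟩)

private theorem mk_cont {X : Type*} [TopologicalSpace X] {f g : X → ℝ} (hf : Continuous f)
    (hg : Continuous g) : Continuous fun x => (⟨f x, g x⟩ : ℂ) :=
  Complex.equivRealProdCLM.symm.continuous.comp (hf.prodMk hg)

private theorem Ki_cont : Continuous Ki := by
  have h0 : Continuous fun y : Tg => Real.sqrt (r2 y.1) :=
    Real.continuous_sqrt.comp (r2_cont.comp continuous_subtype_val)
  have hne : ∀ y : Tg, Real.sqrt (r2 y.1) ≠ 0 := fun y => (rpos y).ne'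
  have hc : ∀ i : Fin 5, Continuous fun y : Tg =>
      (y.1 : EuclideanSpace ℝ (Fin 5)) i / Real.sqrt (r2 y.1) := fun i =>
    ((co_cont i).comp continuous_subtype_val).div h0 hne
  exact (Continuous.subtype_mk ((mk_cont (hc 0) (hc 1)).prodMk (hc 2)) _).prodMk
    (mk_cont (hc 3) (hc 4))

private theorem J_pos (q : S2 × ℂ) : 0 < r2 (J q) := by
  rw [r2_J]
  have := RR_pos q.2
  positivity

private theorem sqrt_r2_J (q : S2 × ℂ) : Real.sqrt (r2 (J q)) = 1 / RR q.2 := by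
  have h1 := RR_pos q.2
  rw [r2_J, Real.sqrt_eq_iff_mul_self_eq_of_pos (by positivity)]
  field_simp

private theorem Ki_J (q : S2 × ℂ) : Ki ⟨J q, J_pos q⟩ = q := by
  have h1 := RR_pos q.2
  have h2 := sqrt_r2_J q
  have hdiv : ∀ a : ℝ, a / RR q.2 / Real.sqrt (r2 (J q)) = a := by
    intro a
    rw [h2]
    field_simp
  apply Prod.ext
  · apply Subtype.ext
    apply Prod.ext
    · exact Complex.ext (hdiv q.1.1.1.re) (hdiv q.1.1.1.im)
    · exact hdiv q.1.1.2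
  · exact Complex.ext (hdiv q.2.re) (hdiv q.2.im)

private theorem RR_Ki (y : Tg) : RR (Ki y).2 = 1 / Real.sqrt (r2 y.1) := by
  have h1 := rpos y
  have h2 := Real.sq_sqrt y.2.le
  have h3 := sum5 y.1
  unfold RR
  rw [Real.sqrt_eq_iff_mul_self_eq_of_pos (by positivity)]
  show (1 / Real.sqrt (r2 y.1)) * (1 / Real.sqrt (r2 y.1)) =
    1 + (((y.1 : EuclideanSpace ℝ (Fin 5)) 3 / Real.sqrt (r2 y.1)) ^ 2 +
      ((y.1 : EuclideanSpace ℝ (Fin 5)) 4 / Real.sqrt (r2 y.1)) ^ 2)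
  field_simp
  rw [h2]
  unfold r2
  linarith

private theorem J_Ki (y : Tg) : J (Ki y) = y.1 := by
  have h1 := rpos y
  have h2 := RR_Ki y
  have hdiv : ∀ a : ℝ, a / Real.sqrt (r2 y.1) / RR (Ki y).2 = a := by
    intro a
    rw [h2]
    field_simp
  apply ext5
  intro i
  fin_cases i
  · exact hdiv _
  · exact hdiv _
  · exact hdiv _
  · exact hdiv _
  · exact hdiv _

private def Jh : (S2 × ℂ) ≃ₜ Tg where
  toFun q := ⟨J q, J_pos q⟩
  invFun := Ki
  left_inv := Ki_J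
  right_inv y := Subtype.ext (J_Ki y)
  continuous_toFun := J_cont.subtype_mk _
  continuous_invFun := Ki_cont

private theorem J_emb : Topology.IsOpenEmbedding J := by
  have h1 : IsOpen {y : S4 | 0 < r2 y} := isOpen_lt continuous_const r2_cont
  have h2 := h1.isOpenEmbedding_subtypeVal.comp Jh.isOpenEmbedding
  exact h2

private theorem J_image : (J '' {q : S2 × ℂ | ‖q.2‖ ≤ 1})ᶜ =
    {y : S4 | 1 / 2 < (y : EuclideanSpace ℝ (Fin 5)) 3 ^ 2 + (y : EuclideanSpace ℝ (Fin 5)) 4 ^ 2} := by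
  ext y
  rw [Set.mem_compl_iff, Set.mem_ofPred_eq, ← not_le, not_iff_not]
  have h5 := sum5 y
  constructor
  · rintro ⟨q, hq, rfl⟩
    have h1 := r2_J q
    have h2 : ‖q.2‖ ^ 2 ≤ 1 := by
      have h3 : ‖q.2‖ ≤ 1 := hq
      have h4 := norm_nonneg q.2
      nlinarith
    rw [← Complex.normSq_eq_norm_sq, Complex.normSq_apply] at h2
    have h3 := RR_sq q.2
    have h4 : RR q.2 ^ 2 ≤ 2 := by nlinarith
    have h6 : (1 : ℝ) / 2 ≤ 1 / RR q.2 ^ 2 :=
      one_div_le_one_div_of_le (by have := RR_pos q.2; positivity) h4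
    unfold r2 at h1
    linarith
  · intro h
    have h1 : r2 y = 1 - ((y : EuclideanSpace ℝ (Fin 5)) 3 ^ 2 +
        (y : EuclideanSpace ℝ (Fin 5)) 4 ^ 2) := by
      unfold r2
      linarith
    have h2 : 0 < r2 y := by linarith
    refine ⟨Ki ⟨y, h2⟩, ?_, J_Ki ⟨y, h2⟩⟩
    have h3 := RR_Ki ⟨y, h2⟩
    have h4 := RR_sq (Ki ⟨y, h2⟩).2
    rw [h3] at h4
    have h6 : (1 / Real.sqrt (r2 y)) ^ 2 ≤ 2 := by
      rw [div_pow, Real.sq_sqrt h2.le, one_pow, div_le_iff₀ h2]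
      linarith
    have h7 : ‖(Ki ⟨y, h2⟩).2‖ ^ 2 ≤ 1 := by
      rw [← Complex.normSq_eq_norm_sq, Complex.normSq_apply]
      nlinarith
    show ‖(Ki ⟨y, h2⟩).2‖ ≤ 1
    have h8 := norm_nonneg (Ki ⟨y, h2⟩).2
    nlinarith

/-- the parametrisation of the complement -/
private def QQ (u : (ℂ × ℝ) × ℝ) : ℝ :=
  Real.sqrt (1 + (u.1.1.re ^ 2 + u.1.1.im ^ 2 + u.1.2 ^ 2))

private theorem QQ_pos (u : (ℂ × ℝ) × ℝ) : 0 < QQ u := Real.sqrt_pos.2 (by positivity)

private theorem QQ_sq (u : (ℂ × ℝ) × ℝ) : QQ u ^ 2 = 1 + (u.1.1.re ^ 2 + u.1.1.im ^ 2 + u.1.2 ^ 2) :=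
  Real.sq_sqrt (by positivity)

private def Pv (u : (ℂ × ℝ) × ℝ) : Fin 5 → ℝ :=
  ![u.1.1.re / QQ u, u.1.1.im / QQ u, u.1.2 / QQ u, Real.cos u.2 / QQ u, Real.sin u.2 / QQ u]

private theorem Pv_sum (u : (ℂ × ℝ) × ℝ) : ∑ i, Pv u i ^ 2 = 1 := by
  have h1 := QQ_pos u
  have h2 := QQ_sq u
  have h3 := Real.sin_sq_add_cos_sq u.2
  rw [Fin.sum_univ_five]
  show (u.1.1.re / QQ u) ^ 2 + (u.1.1.im / QQ u) ^ 2 + (u.1.2 / QQ u) ^ 2 +
    (Real.cos u.2 / QQ u) ^ 2 + (Real.sin u.2 / QQ u) ^ 2 = 1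
  field_simp
  linarith

private theorem Pv_cont : Continuous Pv := by
  have h0 : Continuous QQ := by
    unfold QQ
    fun_prop
  have hne : ∀ u, QQ u ≠ 0 := fun u => (QQ_pos u).ne'
  refine continuous_pi fun i => ?_
  fin_cases i
  · exact (Complex.continuous_re.comp (continuous_fst.comp continuous_fst)).div h0 hne
  · exact (Complex.continuous_im.comp (continuous_fst.comp continuous_fst)).div h0 hne
  · exact (continuous_snd.comp continuous_fst).div h0 hne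
  · exact (Real.continuous_cos.comp continuous_snd).div h0 hne
  · exact (Real.continuous_sin.comp continuous_snd).div h0 hne

private def PJ (u : (ℂ × ℝ) × ℝ) : S4 := mk5 (Pv u) (Pv_sum u)

private theorem compl_conn : IsPathConnected {y : S4 | 1 / 2 <
    (y : EuclideanSpace ℝ (Fin 5)) 3 ^ 2 + (y : EuclideanSpace ℝ (Fin 5)) 4 ^ 2} := by
  have hstar : IsPathConnected {u : (ℂ × ℝ) × ℝ | u.1.1.re ^ 2 + u.1.1.im ^ 2 + u.1.2 ^ 2 < 1} := by
    refine StarConvex.isPathConnected (a := (0 : (ℂ × ℝ) × ℝ)) ?_ (by simp)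
    rw [starConvex_zero_iff]
    intro u hu a ha0 ha1
    have h1 : u.1.1.re ^ 2 + u.1.1.im ^ 2 + u.1.2 ^ 2 < 1 := hu
    show (a • u).1.1.re ^ 2 + (a • u).1.1.im ^ 2 + (a • u).1.2 ^ 2 < 1
    have e1 : (a • u).1.1.re = a * u.1.1.re := by simp
    have e2 : (a • u).1.1.im = a * u.1.1.im := by simp
    have e3 : (a • u).1.2 = a * u.1.2 := by simp
    rw [e1, e2, e3]
    have h2 : a ^ 2 ≤ 1 := by nlinarith
    have h3 : 0 ≤ u.1.1.re ^ 2 + u.1.1.im ^ 2 + u.1.2 ^ 2 := by positivity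
    nlinarith
  have himg : {y : S4 | 1 / 2 <
      (y : EuclideanSpace ℝ (Fin 5)) 3 ^ 2 + (y : EuclideanSpace ℝ (Fin 5)) 4 ^ 2} =
      PJ '' {u : (ℂ × ℝ) × ℝ | u.1.1.re ^ 2 + u.1.1.im ^ 2 + u.1.2 ^ 2 < 1} := by
    ext y
    constructor
    · intro hy
      have hy' : 1 / 2 < (y : EuclideanSpace ℝ (Fin 5)) 3 ^ 2 +
        (y : EuclideanSpace ℝ (Fin 5)) 4 ^ 2 := hy
      have h5 := sum5 y
      set z : ℂ := ⟨(y : EuclideanSpace ℝ (Fin 5)) 3, (y : EuclideanSpace ℝ (Fin 5)) 4⟩ with hz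
      have hzn : ‖z‖ ^ 2 = (y : EuclideanSpace ℝ (Fin 5)) 3 ^ 2 +
          (y : EuclideanSpace ℝ (Fin 5)) 4 ^ 2 := by
        rw [← Complex.normSq_eq_norm_sq, Complex.normSq_apply]
        show (y : EuclideanSpace ℝ (Fin 5)) 3 * (y : EuclideanSpace ℝ (Fin 5)) 3 +
          (y : EuclideanSpace ℝ (Fin 5)) 4 * (y : EuclideanSpace ℝ (Fin 5)) 4 = _
        ring
      have hz0 : 0 < ‖z‖ := by
        rcases (norm_nonneg z).eq_or_lt with h | h
        · rw [← h] at hzn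
          norm_num at hzn
          linarith
        · exact h
      set u : (ℂ × ℝ) × ℝ := ((⟨(y : EuclideanSpace ℝ (Fin 5)) 0 / ‖z‖,
        (y : EuclideanSpace ℝ (Fin 5)) 1 / ‖z‖⟩, (y : EuclideanSpace ℝ (Fin 5)) 2 / ‖z‖),
        arg z) with hu
      have hu2 : u.1.1.re ^ 2 + u.1.1.im ^ 2 + u.1.2 ^ 2 = (1 - ‖z‖ ^ 2) / ‖z‖ ^ 2 := by
        show ((y : EuclideanSpace ℝ (Fin 5)) 0 / ‖z‖) ^ 2 +
          ((y : EuclideanSpace ℝ (Fin 5)) 1 / ‖z‖) ^ 2 +
          ((y : EuclideanSpace ℝ (Fin 5)) 2 / ‖z‖) ^ 2 = _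
        rw [div_pow, div_pow, div_pow, ← add_div, ← add_div, hzn]
        congr 1
        linarith
      have hQ : QQ u = 1 / ‖z‖ := by
        unfold QQ
        rw [hu2, Real.sqrt_eq_iff_mul_self_eq_of_pos (by positivity)]
        field_simp
        ring
      refine ⟨u, ?_, ?_⟩
      · show u.1.1.re ^ 2 + u.1.1.im ^ 2 + u.1.2 ^ 2 < 1
        rw [hu2, div_lt_one (by positivity)]
        linarith
      · have hdiv : ∀ a : ℝ, a / ‖z‖ / QQ u = a := by
          intro a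
          rw [hQ]
          field_simp
        apply ext5
        intro i
        fin_cases i
        · exact hdiv _
        · exact hdiv _
        · exact hdiv _
        · show Real.cos (arg z) / QQ u = (y : EuclideanSpace ℝ (Fin 5)) 3
          rw [hQ]
          have := Complex.norm_mul_cos_arg z
          rw [show z.re = (y : EuclideanSpace ℝ (Fin 5)) 3 from rfl] at this
          rw [← this]
          field_simp
        · show Real.sin (arg z) / QQ u = (y : EuclideanSpace ℝ (Fin 5)) 4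
          rw [hQ]
          have := Complex.norm_mul_sin_arg z
          rw [show z.im = (y : EuclideanSpace ℝ (Fin 5)) 4 from rfl] at this
          rw [← this]
          field_simp
    · rintro ⟨u, hu, rfl⟩
      have hu' : u.1.1.re ^ 2 + u.1.1.im ^ 2 + u.1.2 ^ 2 < 1 := hu
      have h1 := QQ_pos u
      have h2 := QQ_sq u
      have h3 := Real.sin_sq_add_cos_sq u.2
      show 1 / 2 < (Real.cos u.2 / QQ u) ^ 2 + (Real.sin u.2 / QQ u) ^ 2
      rw [div_pow, div_pow, ← add_div, add_comm, h3]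
      apply one_div_lt_one_div_of_lt (by positivity)
      linarith
  rw [himg]
  exact hstar.image (mk5_cont Pv_sum Pv_cont)

theorem emb_exists : ∃ J : S2 × ℂ → S4, Topology.IsOpenEmbedding J ∧
    IsPathConnected (J '' {q : S2 × ℂ | ‖q.2‖ ≤ 1})ᶜ :=
  ⟨J, J_emb, by rw [J_image]; exact compl_conn⟩

end

end Pool.Agent.FibC
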