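import Pool.Agent.Lib.FibC.XC

/-!
# Fib: the fibre bounds a disc in the region; zero in homology

PROOF. `fib_disc`: `(r, s) ↦ Phi (r s, ε)`, `0 ≤ r ≤ 1`, is continuous with values in `XX ε` (`mem_mid`, `nu_out`: `nu = ‖r s‖ ≤ 1`). `hom_zero`: homotopic maps induce the same map in singular homology
(`TopCat.Homotopy.congr_homologyMap_singularChainComplexFunctor`), a constant map factors through a point, whose first homology is zero
(`isZero_singularHomologyFunctor_of_totallyDisconnectedSpace`).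
-/

set_option autoImplicit false

namespace Pool.Agent.FibC

open Complex ComplexConjugate Set

noncomputable section

theorem fib_disc {ε : ℝ} (h : IsTube ε) : ∃ H : ℝ × Circle → S2 × ℂ,
    ContinuousOn H (Icc 0 1 ×ˢ univ) ∧ (∀ z ∈ Icc (0 : ℝ) 1 ×ˢ (univ : Set Circle), H z ∈ XX ε) ∧
      (∀ s : Circle, H (1, s) = Phi ((s : ℂ), (ε : ℂ))) ∧ ∀ s : Circle, H (0, s) = Phi (0, (ε : ℂ)) := by
  have hε := h.pos
  have hsn : sn (ε : ℂ) = ε := by
    unfold sn
    rw [ofReal_re, ofReal_im, abs_zero, abs_of_pos hε]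
    exact max_eq_left hε.le
  have hn : ∀ z ∈ Icc (0 : ℝ) 1 ×ˢ (univ : Set Circle), ‖(z.1 : ℂ) * (z.2 : ℂ)‖ ≤ 1 := by
    rintro z ⟨⟨h0, h1⟩, -⟩
    rw [norm_mul, Circle.norm_coe, mul_one, norm_real, Real.norm_of_nonneg h0]
    exact h1
  have hU : ∀ z ∈ Icc (0 : ℝ) 1 ×ˢ (univ : Set Circle),
      (((z.1 : ℂ) * (z.2 : ℂ), (ε : ℂ)) : ℂ × ℂ) ∈ UU ε := by
    intro z hz
    refine ⟨?_, ?_⟩
    · have := hn z hz
      change ‖(z.1 : ℂ) * (z.2 : ℂ)‖ < 1 + ε
      linarith
    · change sn (ε : ℂ) < 2 * ε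
      rw [hsn]
      linarith
  refine ⟨fun z => Phi ((z.1 : ℂ) * (z.2 : ℂ), (ε : ℂ)), ?_, ?_, ?_, ?_⟩
  · refine (Phi_cont h).comp ?_ hU
    refine Continuous.continuousOn ?_
    exact ((continuous_ofReal.comp continuous_fst).mul
      (continuous_subtype_val.comp continuous_snd)).prodMk continuous_const
  · intro z hz
    refine ((mem_mid h (hU z hz) ?_).1).2 ?_
    · change ε / 2 ≤ sn (ε : ℂ)
      rw [hsn]
      linarith
    · change nu ε (ε : ℂ) ((z.1 : ℂ) * (z.2 : ℂ)) ≤ 1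
      rw [nu_out hε (le_of_eq hsn.symm)]
      exact hn z hz
  · intro s
    simp
  · intro s
    simp

open AlgebraicTopology in
/-- a null-homotopic map induces zero in the first rational homology -/
theorem hom_zero {X : Type} [TopologicalSpace X] (f : C(Circle, X)) (hf : f.Nullhomotopic) :
    ((singularHomologyFunctor (ModuleCat.{0} ℚ) 1).obj (ModuleCat.of ℚ ℚ)).map (TopCat.ofHom f) = 0 := by
  obtain ⟨y, ⟨H⟩⟩ := hf
  have h1 : ((singularHomologyFunctor (ModuleCat.{0} ℚ) 1).obj (ModuleCat.of ℚ ℚ)).map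
      (TopCat.ofHom f) =
      ((singularHomologyFunctor (ModuleCat.{0} ℚ) 1).obj (ModuleCat.of ℚ ℚ)).map
        (TopCat.ofHom (ContinuousMap.const Circle y)) :=
    TopCat.Homotopy.congr_homologyMap_singularChainComplexFunctor
      (f := TopCat.ofHom f) (g := TopCat.ofHom (ContinuousMap.const Circle y)) H
      (ModuleCat.of ℚ ℚ) 1
  have h2 : TopCat.ofHom (ContinuousMap.const Circle y) =
      CategoryTheory.CategoryStruct.comp
        (TopCat.ofHom (ContinuousMap.const Circle (PUnit.unit : PUnit.{1})))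
        (TopCat.ofHom (ContinuousMap.const PUnit.{1} y)) := rfl
  rw [h1, h2, CategoryTheory.Functor.map_comp]
  have hz : CategoryTheory.Limits.IsZero
      (((singularHomologyFunctor (ModuleCat.{0} ℚ) 1).obj (ModuleCat.of ℚ ℚ)).obj
        (TopCat.of PUnit.{1})) :=
    isZero_singularHomologyFunctor_of_totallyDisconnectedSpace _ _ _ _ one_ne_zero
  rw [hz.eq_zero_of_tgt (((singularHomologyFunctor (ModuleCat.{0} ℚ) 1).obj
    (ModuleCat.of ℚ ℚ)).map _), CategoryTheory.Limits.zero_comp]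

end

end Pool.Agent.FibC
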