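import Pool.Agent.Lib.FibC.XC
import Pool.Agent.Lib.FibC.Pol

/-!
# FlA: flat charts away from the small bidisc

PROOF. `flatA`: `q.1 ≠ PP 1 0` or `q.1 ≠ PP 0 1`; take `φ = (chart × id)` restricted to the complement of the closed set
`Phi '' {‖t‖ ≤ 1, sn v ≤ ε}` (`tube_closed`), `N b y = ‖y‖`; `mem_out`. `flatB`: `φ` = the inverse of the local homeomorphism of `IsTube.emb`
restricted to `{p ∈ UU ε | ε/2 < sn p.2}`, followed by `Prod.swap`, `N = nu ε`; `mem_mid`.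
-/

set_option autoImplicit false

namespace Pool.Agent.FibC

open Complex ComplexConjugate Set

noncomputable section

theorem flatA {ε : ℝ} (h : IsTube ε) {q : S2 × ℂ} (hq : q ∉ Phi '' {p | ‖p.1‖ ≤ 1 ∧ sn p.2 ≤ ε})
    (hM : q ∈ MM ε) : FlatAt (XX ε) (MM ε) q := by
  have key : ∀ e : OpenPartialHomeomorph S2 ℂ, q.1 ∈ e.source → FlatAt (XX ε) (MM ε) q := by
    intro e he
    have ho : IsOpen (Phi '' {p | ‖p.1‖ ≤ 1 ∧ sn p.2 ≤ ε})ᶜ := (tube_closed h).isOpen_compl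
    let φ : OpenPartialHomeomorph (S2 × ℂ) (ℂ × ℂ) :=
      (e.prod (OpenPartialHomeomorph.refl ℂ)).restrOpen _ ho
    have hφ : ∀ p, φ p = (e p.1, p.2) := fun p => rfl
    have hs : ∀ p, p ∈ φ.source → p ∉ Phi '' {p | ‖p.1‖ ≤ 1 ∧ sn p.2 ≤ ε} := by
      intro p hp
      have hp' : p ∈ (e.prod (OpenPartialHomeomorph.refl ℂ)).source ∩
        (Phi '' {p | ‖p.1‖ ≤ 1 ∧ sn p.2 ≤ ε})ᶜ := hp
      exact hp'.2
    refine flat_of_chart φ ?_ (fun _ y => ‖y‖) ?_ ?_ ?_ ?_ ?_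
    · show q ∈ (e.prod (OpenPartialHomeomorph.refl ℂ)).source ∩
        (Phi '' {p | ‖p.1‖ ≤ 1 ∧ sn p.2 ≤ ε})ᶜ
      exact ⟨⟨he, mem_univ _⟩, hq⟩
    · exact continuous_norm.comp continuous_snd
    · intro b r y hr
      show ‖(r : ℂ) * y‖ = r * ‖y‖
      rw [norm_mul, Complex.norm_real, Real.norm_of_nonneg hr]
    · intro b y hy
      exact norm_pos_iff.2 hy
    · show ‖(φ q).2‖ = 1
      rw [hφ]
      exact (mem_out h hq).2.1 hM
    · intro p hp
      show (p ∈ XX ε ↔ ‖(φ p).2‖ ≤ 1) ∧ (p ∈ MM ε ↔ ‖(φ p).2‖ = 1)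
      rw [hφ]
      exact mem_out h (hs p hp)
  obtain ⟨e0, h0, -⟩ := chart0
  obtain ⟨e1, h1, -⟩ := chart1
  by_cases hq0 : q.1 = PP 1 0
  · refine key e1 ?_
    rw [h1]
    show q.1 ≠ PP 0 1
    rw [hq0]
    intro heq
    have h2 := (PP_eq_iff (by simp) (by simp)).1 heq
    norm_num at h2
  · refine key e0 ?_
    rw [h0]
    exact hq0

theorem flatB {ε : ℝ} (h : IsTube ε) {p : ℂ × ℂ} (hp : p ∈ UU ε) (hv : ε / 2 < sn p.2)
    (hM : Phi p ∈ MM ε) : FlatAt (XX ε) (MM ε) (Phi p) := by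
  have hε := h.pos
  obtain ⟨T, hTs, hT⟩ := h.emb
  have hq0 : T.symm (Phi p) = p := by
    rw [← hT p hp]
    exact T.left_inv (by rw [hTs]; exact hp)
  have hqt : Phi p ∈ T.target := by
    rw [← hT p hp]
    exact T.map_source (by rw [hTs]; exact hp)
  have hO : IsOpen {p : ℂ × ℂ | ε / 2 < sn p.2} :=
    isOpen_lt continuous_const (sn_cont.comp continuous_snd)
  let φ : OpenPartialHomeomorph (S2 × ℂ) (ℂ × ℂ) :=
    (T.symm.trans (OpenPartialHomeomorph.ofSet _ hO)).trans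
      (Homeomorph.prodComm ℂ ℂ).toOpenPartialHomeomorph
  have hφ : ∀ q, φ q = ((T.symm q).2, (T.symm q).1) := fun q => rfl
  have hs : ∀ q, q ∈ φ.source ↔ q ∈ T.target ∧ ε / 2 < sn (T.symm q).2 := by
    intro q
    simp only [φ, OpenPartialHomeomorph.trans_source, OpenPartialHomeomorph.symm_source,
      OpenPartialHomeomorph.ofSet_source, Homeomorph.toOpenPartialHomeomorph_source,
      preimage_univ, inter_univ]
    exact Iff.rfl
  refine flat_of_chart φ ?_ (nu ε) (nu_cont hε) (fun b r y hr => nu_mul ε b hr y)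
    (fun b y hy => nu_pos ε b hy) ?_ ?_
  · rw [hs, hq0]
    exact ⟨hqt, hv⟩
  · rw [hφ, hq0]
    exact (mem_mid h hp hv.le).2.1 hM
  · intro q hq
    obtain ⟨hq1, hq2⟩ := (hs q).1 hq
    have hqU : T.symm q ∈ UU ε := by
      rw [← hTs]
      exact T.symm.map_source hq1
    have hqP : Phi (T.symm q) = q := by
      rw [← hT _ hqU]
      exact T.right_inv hq1
    rw [hφ]
    have h6 := mem_mid h hqU hq2.le
    rw [hqP] at h6
    exact h6

end

end Pool.Agent.FibC
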