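import Pool.Agent.Lib.FibC.PPa

/-!
# Inj: the disc is embedded

PROOF. `t = X + i Y`, `x = xx t`, `y = yy t`, never both zero (`x - y = 2 i Y`; if `x = y = 0` then `Y = 0`, `X = 0`,
`ρ = 0`, contradiction). `disc_fst`: `X0 t 0 = x SS`, `Y0 t 0 = y SS`, `SS ≠ 0`, `PP_smul`.
`disc_z`: by `PP_eq_iff` `x y' = x' y`. With `x + y = 2 (X + i ρ)`, `x - y = 2 i Y`: equivalent to
`(x + y)(x' - y') = (x' + y')(x - y)`, that is `(X + i ρ) Y' = (X' + i ρ') Y`, so `X Y' = X' Y`, `ρ Y' = ρ' Y`. If `Y = 0`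
then `ρ Y' = 0` and `X Y' = 0`, so `Y' = 0` (`X = ρ = 0` and `Y = 0` is impossible). If `Y, Y' ≠ 0`, put `k = Y' / Y`:
`X' = k X`, `Y' = k Y`, `ρ' = k ρ`, so `1 - k² r² = k (1 - r²)`, `(1 - k)(1 + k r²) = 0`. If `‖t‖, ‖t'‖ < 1` then `ρ, ρ' > 0`,
`k > 0`, `k = 1`. If `k ≠ 1`, `k = -1 / r²`, `ρ' = k ρ` with `ρ, ρ' ≥ 0` forces `ρ = 0`, `r = 1`, `k = -1`, `t' = -t`.
`disc_inj`: if `Y = Y' = 0`: second components: `w0 t 0 = t³ + ρ t = X` for real `t`. If `t' = -t`, `‖t‖ = 1`: second components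
`t³ = - t³`, impossible.
`disc_w`: `w0 t 0 = t (t² + ρ) = t (1 + 2 i Y t)` (`t² + 1 - r² = 1 + t (t - conj t)`). Zero iff `t = 0` or `2 i Y t = -1`: real part
`-2 Y² = -1`, imaginary part `2 X Y = 0`.
-/

set_option autoImplicit false

namespace Pool.Agent.FibC

open Complex ComplexConjugate Set

noncomputable section

private theorem xx_re (t : ℂ) : (xx t).re = t.re := by simp [xx]
private theorem xx_im (t : ℂ) : (xx t).im = t.im + rho t := by simp [xx]
private theorem yy_re (t : ℂ) : (yy t).re = t.re := by simp [yy]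
private theorem yy_im (t : ℂ) : (yy t).im = -t.im + rho t := by simp [yy]

theorem xy_ne (t : ℂ) : ¬ (xx t = 0 ∧ yy t = 0) := by
  rintro ⟨h1, h2⟩
  have a := congrArg re h1
  have b := congrArg im h1
  have d := congrArg im h2
  rw [xx_re] at a
  rw [xx_im] at b
  rw [yy_im] at d
  simp only [zero_re, zero_im] at a b d
  have e : t.im = 0 := by linarith
  have f : rho t = 0 := by linarith
  rw [rho, a, e] at f
  norm_num at f

theorem SS_pos (t : ℂ) : 0 < SS t := by
  rw [SS]
  by_cases h : xx t = 0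
  · have h2 : yy t ≠ 0 := fun h' => xy_ne t ⟨h, h'⟩
    have := normSq_pos.2 h2
    linarith [normSq_nonneg (xx t)]
  · have := normSq_pos.2 h
    linarith [normSq_nonneg (yy t)]

theorem disc_fst (t : ℂ) : (Phi0 (t, 0)).1 = PP (xx t) (yy t) := by
  have h : (SS t : ℂ) ≠ 0 := by exact_mod_cast (SS_pos t).ne'
  have e1 : X0 t 0 = (SS t : ℂ) * xx t := by rw [X0]; ring
  have e2 : Y0 t 0 = (SS t : ℂ) * yy t := by rw [Y0]; ring
  rw [Phi0]
  simp only
  rw [e1, e2, PP_smul h]

/-- the equation of `PP_eq_iff` in real terms -/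
private theorem eqs {t t' : ℂ} (he : (Phi0 (t, 0)).1 = (Phi0 (t', 0)).1) :
    t.re * t'.im = t'.re * t.im ∧ rho t * t'.im = rho t' * t.im := by
  rw [disc_fst, disc_fst, PP_eq_iff (xy_ne t) (xy_ne t')] at he
  have a := congrArg re he
  have b := congrArg im he
  simp only [mul_re, mul_im, xx_re, xx_im, yy_re, yy_im] at a b
  constructor <;> nlinarith

private theorem key {t t' : ℂ} (h1 : t.re * t'.im = t'.re * t.im)
    (h2 : rho t * t'.im = rho t' * t.im) (hY : t.im ≠ 0) :
    ∃ k : ℝ, t'.re = k * t.re ∧ t'.im = k * t.im ∧ rho t' = k * rho t ∧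
      (1 - k) * (1 + k * (t.re ^ 2 + t.im ^ 2)) = 0 := by
  refine ⟨t'.im / t.im, ?_, ?_, ?_, ?_⟩
  · field_simp; linarith
  · field_simp
  · field_simp; linarith
  · have e3 : rho t' = t'.im / t.im * rho t := by field_simp; linarith
    have e1 : t'.re = t'.im / t.im * t.re := by field_simp; linarith
    have e2 : t'.im = t'.im / t.im * t.im := by field_simp
    obtain ⟨k, hk⟩ : ∃ k, k = t'.im / t.im := ⟨_, rfl⟩
    rw [← hk] at e1 e2 e3 ⊢
    rw [rho, rho, e1, e2] at e3
    linarith

private theorem nsq (t : ℂ) : ‖t‖ ^ 2 = t.re ^ 2 + t.im ^ 2 := by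
  rw [← normSq_eq_norm_sq, normSq_apply]; ring

private theorem rho_nonneg {t : ℂ} (h : ‖t‖ ≤ 1) : 0 ≤ rho t := by
  rw [rho, ← nsq]; nlinarith [norm_nonneg t]

private theorem im_zero {t t' : ℂ} (h1 : t.re * t'.im = t'.re * t.im)
    (h2 : rho t * t'.im = rho t' * t.im) (hY : t.im = 0) : t'.im = 0 := by
  by_contra h
  rw [hY, mul_zero] at h1 h2
  have a : t.re = 0 := by
    rcases mul_eq_zero.1 h1 with h' | h'
    · exact h'
    · exact absurd h' h
  have b : rho t = 0 := by
    rcases mul_eq_zero.1 h2 with h' | h'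
    · exact h'
    · exact absurd h' h
  rw [rho, a, hY] at b
  norm_num at b

/-- two points of the open disc with the same first component are equal or both real -/
theorem disc_z {t t' : ℂ} (h : ‖t‖ < 1) (h' : ‖t'‖ < 1)
    (he : (Phi0 (t, 0)).1 = (Phi0 (t', 0)).1) : t = t' ∨ (t.im = 0 ∧ t'.im = 0) := by
  obtain ⟨h1, h2⟩ := eqs he
  by_cases hY : t.im = 0
  · exact Or.inr ⟨hY, im_zero h1 h2 hY⟩
  · left
    obtain ⟨k, e1, e2, e3, e4⟩ := key h1 h2 hY
    have r1 : 0 < rho t := by
      rw [rho, ← nsq]; nlinarith [norm_nonneg t]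
    have r2 : 0 < rho t' := by
      rw [rho, ← nsq]; nlinarith [norm_nonneg t']
    have hk : 0 < k := by
      by_contra hk
      push Not at hk
      nlinarith
    have : k = 1 := by
      rcases mul_eq_zero.1 e4 with h4 | h4
      · linarith
      · exfalso
        have : 0 ≤ k * (t.re ^ 2 + t.im ^ 2) := by positivity
        linarith
    rw [this, one_mul] at e1 e2
    exact Complex.ext e1.symm e2.symm

theorem disc_real {t : ℂ} (h : t.im = 0) : (Phi0 (t, 0)).1 = PP 1 1 := by
  have e : xx t = yy t := by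
    apply Complex.ext
    · rw [xx_re, yy_re]
    · rw [xx_im, yy_im, h]; ring
  have hne : xx t ≠ 0 := fun h0 => xy_ne t ⟨h0, by rw [← e]; exact h0⟩
  have := PP_smul hne 1 1
  rw [mul_one] at this
  rw [disc_fst, ← e, this]

private theorem w0_eq (t : ℂ) : w0 t 0 = t * (1 + 2 * I * t.im * t) := by
  apply Complex.ext <;>
  · simp [w0, rho, sq, pow_three]
    ring

theorem disc_inj {t t' : ℂ} (h : ‖t‖ ≤ 1) (h' : ‖t'‖ ≤ 1) (he : Phi0 (t, 0) = Phi0 (t', 0)) :
    t = t' := by
  have hf := congrArg Prod.fst he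
  have hw : w0 t 0 = w0 t' 0 := congrArg Prod.snd he
  obtain ⟨h1, h2⟩ := eqs hf
  by_cases hY : t.im = 0
  · have hY' := im_zero h1 h2 hY
    rw [w0_eq, w0_eq, hY, hY'] at hw
    simpa using hw
  · obtain ⟨k, e1, e2, e3, e4⟩ := key h1 h2 hY
    by_cases hk : k = 1
    · rw [hk, one_mul] at e1 e2
      exact Complex.ext e1.symm e2.symm
    · exfalso
      have h5 : 1 + k * (t.re ^ 2 + t.im ^ 2) = 0 := by
        rcases mul_eq_zero.1 e4 with h4 | h4
        · exact absurd (by linarith) hk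
        · exact h4
      have hk0 : k < 0 := by
        by_contra hk0
        push Not at hk0
        have : 0 ≤ k * (t.re ^ 2 + t.im ^ 2) := by positivity
        linarith
      have r1 := rho_nonneg h
      have r2 := rho_nonneg h'
      have r3 : rho t = 0 := by
        by_contra hr
        have : 0 < rho t := lt_of_le_of_ne r1 (Ne.symm hr)
        nlinarith
      have r4 : t.re ^ 2 + t.im ^ 2 = 1 := by rw [rho] at r3; linarith
      rw [r4] at h5
      have hk1 : k = -1 := by linarith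
      have e5 : t' = -t := by
        apply Complex.ext
        · rw [e1, hk1, neg_re]; ring
        · rw [e2, hk1, neg_im]; ring
      have r5 : rho t' = 0 := by rw [e3, r3, mul_zero]
      have : t ^ 3 = t' ^ 3 := by
        have a : w0 t 0 = t ^ 3 := by simp [w0, r3]
        have b : w0 t' 0 = t' ^ 3 := by simp [w0, r5]
        rw [← a, ← b, hw]
      rw [e5] at this
      have h0 : t ^ 3 = 0 := by linear_combination this / 2
      have : t = 0 := pow_eq_zero_iff (three_ne_zero) |>.1 h0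
      rw [this] at hY
      exact hY rfl

theorem disc_w {t : ℂ} (h : (Phi0 (t, 0)).2 = 0) :
    t = 0 ∨ t = I / (Real.sqrt 2 : ℝ) ∨ t = -I / (Real.sqrt 2 : ℝ) := by
  have hw : w0 t 0 = 0 := h
  rw [w0_eq] at hw
  rcases mul_eq_zero.1 hw with h1 | h1
  · exact Or.inl h1
  · right
    have a := congrArg re h1
    have b := congrArg im h1
    simp at a b
    have hY : t.im ≠ 0 := by
      intro h0; rw [h0] at a; norm_num at a
    have hX : t.re = 0 := by
      rcases b with b | b
      · exact absurd b hY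
      · exact b
    have h2 : t.im ^ 2 = 1 / 2 := by nlinarith
    have hs : (Real.sqrt 2) ^ 2 = 2 := Real.sq_sqrt (by norm_num)
    have hs0 : 0 < Real.sqrt 2 := Real.sqrt_pos.2 (by norm_num)
    have h3 : (t.im - 1 / Real.sqrt 2) * (t.im + 1 / Real.sqrt 2) = 0 := by
      have : (t.im - 1 / Real.sqrt 2) * (t.im + 1 / Real.sqrt 2) = t.im ^ 2 - 1 / (Real.sqrt 2) ^ 2 := by
        field_simp
        ring
      rw [this, h2, hs]; norm_num
    rcases mul_eq_zero.1 h3 with h4 | h4
    · left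
      apply Complex.ext
      · rw [hX, div_ofReal_re, I_re, zero_div]
      · rw [div_ofReal_im, I_im]; linarith
    · right
      apply Complex.ext
      · rw [hX, div_ofReal_re, neg_re, I_re, neg_zero, zero_div]
      · rw [div_ofReal_im, neg_im, I_im, neg_div]; linarith

end

end Pool.Agent.FibC
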