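import Pool.Agent.Lib.FibC.Nrm

/-!
# LLm: the polydisc and the small bidisc of the tube

PROOF. With `(a, b) = LLi ε p`: `a.re = 1 + p.1.re`, `a.im = (1 + p.1.re) p.2.re / ε`. `gg1 (a - 1) ≤ 1` iff
`|p.1.re| ≤ 1/2` and `2 |1 + p.1.re| |p.2.re / ε| ≤ 1 + p.1.re`. `tor_LLi`: `sn a = (1 + p.1.re) max 1 |p.2.re / ε| = 1 + p.1.re`.
`mem_Kin`: if `p = LL ε (inv e)` with `1 ≤ gg e`, `tor e ≤ 1/4`, then `gg (inv e) = (gg e)⁻¹ ≤ 1`, so `1/2 ≤ (inv e).1.re`,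
`LLi ε p = inv e`, `gg (LLi ε p) ≤ 1`, `inv (LLi ε p) = e`; `p = 0` would give `inv e = LLi ε 0 = 1`. Conversely `e = inv (LLi ε p)`.
`Kin_edge`: if `sn p.2 = ε/2` and `sn p.1 ≤ 1/2` then `gg (LLi ε p) = 1`, `inv (LLi ε p) = LLi ε p`, `tor (LLi ε p) = sn p.1`; if
`sn p.1 = 1/2` then also `gg = 1`. (`gg (LLi ε p) < 1 ↔ sn p.1 < 1/2 ∧ sn p.2 < ε/2`.)
-/

set_option autoImplicit false

namespace Pool.Agent.FibC

open Complex ComplexConjugate Set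

noncomputable section

private theorem LLi_re1 (ε : ℝ) (p : ℂ × ℂ) : (LLi ε p).1.re = 1 + p.1.re := by
  simp [LLi]

private theorem LLi_im1 (ε : ℝ) (p : ℂ × ℂ) : (LLi ε p).1.im = (1 + p.1.re) * (p.2.re / ε) := by
  simp only [LLi, add_im, one_im, zero_add, mul_im, I_re, I_im, ofReal_re,
    ofReal_im]
  ring

private theorem LLi_re2 (ε : ℝ) (p : ℂ × ℂ) : (LLi ε p).2.re = 1 + p.1.im := by
  simp [LLi]

private theorem LLi_im2 (ε : ℝ) (p : ℂ × ℂ) : (LLi ε p).2.im = (1 + p.1.im) * (p.2.im / ε) := by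
  simp only [LLi, add_im, one_im, zero_add, mul_im, I_re, I_im, ofReal_re,
    ofReal_im]
  ring

theorem LL_LLi {ε : ℝ} (hε : 0 < ε) {p : ℂ × ℂ} (h : -1 < p.1.re) (h' : -1 < p.1.im) :
    LL ε (LLi ε p) = p := by
  have h1 : 1 + p.1.re ≠ 0 := by linarith
  have h2 : 1 + p.1.im ≠ 0 := by linarith
  have h3 : ε ≠ 0 := hε.ne'
  unfold LL
  rw [LLi_re1, LLi_re2, LLi_im1, LLi_im2]
  refine Prod.ext (Complex.ext ?_ ?_) (Complex.ext ?_ ?_) <;> simp only <;> field_simp <;> ring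

theorem LLi_LL {ε : ℝ} (hε : 0 < ε) {e : ℂ × ℂ} (h : e.1.re ≠ 0) (h' : e.2.re ≠ 0) :
    LLi ε (LL ε e) = e := by
  have h3 : ε ≠ 0 := hε.ne'
  refine Prod.ext (Complex.ext ?_ ?_) (Complex.ext ?_ ?_)
  · rw [LLi_re1]; simp [LL]
  · rw [LLi_im1]; simp only [LL]; field_simp; ring
  · rw [LLi_re2]; simp [LL]
  · rw [LLi_im2]; simp only [LL]; field_simp; ring

private theorem aux_le {ε : ℝ} (hε : 0 < ε) (x s : ℝ) :
    (2 * |x| ≤ 1 ∧ 2 * |(1 + x) * (s / ε)| - x ≤ 1) ↔ (|x| ≤ 1 / 2 ∧ |s| ≤ ε / 2) := by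
  have key : |x| ≤ 1 / 2 → 0 < 1 + x ∧
      2 * |(1 + x) * (s / ε)| - (1 + x) = (1 + x) / ε * (2 * |s| - ε) := by
    intro h
    have h1 : 0 < 1 + x := by have := (abs_le.1 h).1; linarith
    refine ⟨h1, ?_⟩
    rw [abs_mul, abs_of_pos h1, abs_div, abs_of_pos hε]
    field_simp
  constructor
  · rintro ⟨h1, h2⟩
    have hx : |x| ≤ 1 / 2 := by linarith
    obtain ⟨h3, h4⟩ := key hx
    refine ⟨hx, ?_⟩
    have h5 : (1 + x) / ε * (2 * |s| - ε) ≤ 0 := by rw [← h4]; linarith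
    by_contra hcon
    rw [not_le] at hcon
    have : 0 < (1 + x) / ε * (2 * |s| - ε) := mul_pos (div_pos h3 hε) (by linarith)
    linarith
  · rintro ⟨h1, h2⟩
    obtain ⟨h3, h4⟩ := key h1
    refine ⟨by linarith, ?_⟩
    have : (1 + x) / ε * (2 * |s| - ε) ≤ 0 :=
      mul_nonpos_of_nonneg_of_nonpos (div_pos h3 hε).le (by linarith)
    linarith

private theorem aux_lt {ε : ℝ} (hε : 0 < ε) (x s : ℝ) :
    (2 * |x| < 1 ∧ 2 * |(1 + x) * (s / ε)| - x < 1) ↔ (|x| < 1 / 2 ∧ |s| < ε / 2) := by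
  have key : |x| ≤ 1 / 2 → 0 < 1 + x ∧
      2 * |(1 + x) * (s / ε)| - (1 + x) = (1 + x) / ε * (2 * |s| - ε) := by
    intro h
    have h1 : 0 < 1 + x := by have := (abs_le.1 h).1; linarith
    refine ⟨h1, ?_⟩
    rw [abs_mul, abs_of_pos h1, abs_div, abs_of_pos hε]
    field_simp
  constructor
  · rintro ⟨h1, h2⟩
    have hx : |x| < 1 / 2 := by linarith
    obtain ⟨h3, h4⟩ := key hx.le
    refine ⟨hx, ?_⟩
    have h5 : (1 + x) / ε * (2 * |s| - ε) < 0 := by rw [← h4]; linarith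
    by_contra hcon
    rw [not_lt] at hcon
    have : 0 ≤ (1 + x) / ε * (2 * |s| - ε) := mul_nonneg (div_pos h3 hε).le (by linarith)
    linarith
  · rintro ⟨h1, h2⟩
    obtain ⟨h3, h4⟩ := key h1.le
    refine ⟨by linarith, ?_⟩
    have : (1 + x) / ε * (2 * |s| - ε) < 0 :=
      mul_neg_of_pos_of_neg (div_pos h3 hε) (by linarith)
    linarith

theorem gg_LLi {ε : ℝ} (hε : 0 < ε) (p : ℂ × ℂ) :
    gg (LLi ε p) ≤ 1 ↔ sn p.1 ≤ 1 / 2 ∧ sn p.2 ≤ ε / 2 := by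
  simp only [gg, gg1, sn, sub_re, sub_im, one_re, one_im, sub_zero, LLi_re1, LLi_re2, LLi_im1,
    LLi_im2, add_sub_cancel_left, max_le_iff]
  rw [aux_le hε, aux_le hε]
  tauto

theorem gg_LLi_lt {ε : ℝ} (hε : 0 < ε) (p : ℂ × ℂ) :
    gg (LLi ε p) < 1 ↔ sn p.1 < 1 / 2 ∧ sn p.2 < ε / 2 := by
  simp only [gg, gg1, sn, sub_re, sub_im, one_re, one_im, sub_zero, LLi_re1, LLi_re2, LLi_im1,
    LLi_im2, add_sub_cancel_left, max_lt_iff]
  rw [aux_lt hε, aux_lt hε]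
  tauto

theorem re_of_gg {e : ℂ × ℂ} (h : gg e ≤ 1) : 1 / 2 ≤ e.1.re ∧ 1 / 2 ≤ e.2.re := by
  simp only [gg, gg1, sub_re, sub_im, one_re, one_im, sub_zero, max_le_iff] at h
  obtain ⟨⟨h1, _⟩, ⟨h2, _⟩⟩ := h
  have h3 : |e.1.re - 1| ≤ 1 / 2 := by linarith
  have h4 : |e.2.re - 1| ≤ 1 / 2 := by linarith
  exact ⟨by linarith [(abs_le.1 h3).1], by linarith [(abs_le.1 h4).1]⟩

private theorem aux_sn {ε : ℝ} (hε : 0 < ε) {x s : ℝ} (hx : |x| ≤ 1 / 2) (hs : |s| ≤ ε) :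
    |max |1 + x| |(1 + x) * (s / ε)| - 1| = |x| := by
  have h1 : 0 < 1 + x := by have := (abs_le.1 hx).1; linarith
  have h2 : |(1 + x) * (s / ε)| ≤ |1 + x| := by
    rw [abs_mul, abs_div, abs_of_pos hε]
    have h3 : |s| / ε ≤ 1 := (div_le_one hε).2 hs
    exact mul_le_of_le_one_right (abs_nonneg _) h3
  rw [max_eq_left h2, abs_of_pos h1, add_sub_cancel_left]

theorem tor_LLi {ε : ℝ} (hε : 0 < ε) {p : ℂ × ℂ} (h : sn p.1 ≤ 1 / 2) (h' : sn p.2 ≤ ε) :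
    tor (LLi ε p) = sn p.1 := by
  obtain ⟨h1, h2⟩ := max_le_iff.1 h
  obtain ⟨h3, h4⟩ := max_le_iff.1 h'
  simp only [tor, sn, LLi_re1, LLi_re2, LLi_im1, LLi_im2]
  rw [aux_sn hε h1 h3, aux_sn hε h2 h4]

theorem LLi_ne {ε : ℝ} (hε : 0 < ε) {p : ℂ × ℂ} (h : p ≠ 0) (h1 : sn p.1 ≤ 1 / 2) : LLi ε p ≠ 1 := by
  intro he
  have e1 : (LLi ε p).1.re = 1 := by rw [he]; simp
  have e2 : (LLi ε p).1.im = 0 := by rw [he]; simp
  have e3 : (LLi ε p).2.re = 1 := by rw [he]; simp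
  have e4 : (LLi ε p).2.im = 0 := by rw [he]; simp
  rw [LLi_re1] at e1
  rw [LLi_im1] at e2
  rw [LLi_re2] at e3
  rw [LLi_im2] at e4
  have x1 : p.1.re = 0 := by linarith
  have x2 : p.1.im = 0 := by linarith
  rw [x1, add_zero, one_mul, div_eq_zero_iff] at e2
  rw [x2, add_zero, one_mul, div_eq_zero_iff] at e4
  have x3 : p.2.re = 0 := e2.resolve_right hε.ne'
  have x4 : p.2.im = 0 := e4.resolve_right hε.ne'
  exact h (Prod.ext (Complex.ext x1 x2) (Complex.ext x3 x4))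

theorem LLi_zero (ε : ℝ) : LLi ε 0 = 1 := by
  refine Prod.ext (Complex.ext ?_ ?_) (Complex.ext ?_ ?_)
  · rw [LLi_re1]; simp
  · rw [LLi_im1]; simp
  · rw [LLi_re2]; simp
  · rw [LLi_im2]; simp

theorem LLi_cont (ε : ℝ) : Continuous (LLi ε) := by
  have hre : Continuous Complex.re := Complex.continuous_re
  have him : Continuous Complex.im := Complex.continuous_im
  have hof : Continuous Complex.ofReal := Complex.continuous_ofReal
  unfold LLi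
  refine Continuous.prodMk ?_ ?_
  · exact (hof.comp (continuous_const.add (hre.comp continuous_fst))).mul
      (continuous_const.add (continuous_const.mul
        (hof.comp ((hre.comp continuous_snd).div_const ε))))
  · exact (hof.comp (continuous_const.add (him.comp continuous_fst))).mul
      (continuous_const.add (continuous_const.mul
        (hof.comp ((him.comp continuous_snd).div_const ε))))

private theorem mk_cont {X : Type*} [TopologicalSpace X] {f g : X → ℝ} {x : X}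
    (hf : ContinuousAt f x) (hg : ContinuousAt g x) :
    ContinuousAt (fun y => (⟨f y, g y⟩ : ℂ)) x := by
  have h : (fun y => (⟨f y, g y⟩ : ℂ)) = fun y => ((f y : ℝ) : ℂ) + ((g y : ℝ) : ℂ) * I := by
    funext y
    exact Complex.mk_eq_add_mul_I _ _
  rw [h]
  exact (Complex.continuous_ofReal.continuousAt.comp hf).add
    ((Complex.continuous_ofReal.continuousAt.comp hg).mul continuousAt_const)

theorem LL_cont (ε : ℝ) {e : ℂ × ℂ} (h : e.1.re ≠ 0) (h' : e.2.re ≠ 0) : ContinuousAt (LL ε) e := by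
  have h1 : ContinuousAt (fun e : ℂ × ℂ => e.1.re) e :=
    (Complex.continuous_re.comp continuous_fst).continuousAt
  have h2 : ContinuousAt (fun e : ℂ × ℂ => e.2.re) e :=
    (Complex.continuous_re.comp continuous_snd).continuousAt
  have h3 : ContinuousAt (fun e : ℂ × ℂ => e.1.im) e :=
    (Complex.continuous_im.comp continuous_fst).continuousAt
  have h4 : ContinuousAt (fun e : ℂ × ℂ => e.2.im) e :=
    (Complex.continuous_im.comp continuous_snd).continuousAt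
  unfold LL
  exact (mk_cont (h1.sub continuousAt_const) (h2.sub continuousAt_const)).prodMk
    (mk_cont (continuousAt_const.mul (h3.div h1 h)) (continuousAt_const.mul (h4.div h2 h')))

private theorem gg_one : gg (1 : ℂ × ℂ) = 0 := by
  simp [gg, gg1]

private theorem mem_img {ε : ℝ} (hε : 0 < ε) (P : ℂ × ℂ → Prop) (p : ℂ × ℂ) :
    p ∈ (fun e => LL ε (inv e)) '' {e | 1 ≤ gg e ∧ P e} ↔
    p ≠ 0 ∧ sn p.1 ≤ 1 / 2 ∧ sn p.2 ≤ ε / 2 ∧ P (inv (LLi ε p)) := by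
  constructor
  · rintro ⟨e, ⟨hg, hP⟩, rfl⟩
    have hg1 : gg (inv e) ≤ 1 := by rw [gg_inv]; exact inv_le_one_of_one_le₀ hg
    obtain ⟨hr1, hr2⟩ := re_of_gg hg1
    have hL : LLi ε (LL ε (inv e)) = inv e := LLi_LL hε (by linarith) (by linarith)
    have hsn := (gg_LLi hε (LL ε (inv e))).1 (by rw [hL]; exact hg1)
    have he : e ≠ 1 := by
      rintro rfl
      rw [gg_one] at hg
      linarith
    refine ⟨?_, hsn.1, hsn.2, ?_⟩
    · intro h0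
      simp only at h0
      rw [h0, LLi_zero] at hL
      exact inv_ne he hL.symm
    · simp only
      rw [hL, inv_inv]
      exact hP
  · rintro ⟨h0, h1, h2, h3⟩
    have hg1 : gg (LLi ε p) ≤ 1 := (gg_LLi hε p).2 ⟨h1, h2⟩
    have hpos : 0 < gg (LLi ε p) := gg_pos (LLi_ne hε h0 h1)
    obtain ⟨ha, hb⟩ := max_le_iff.1 h1
    refine ⟨inv (LLi ε p), ⟨?_, h3⟩, ?_⟩
    · rw [gg_inv]
      exact (one_le_inv₀ hpos).2 hg1
    · simp only
      rw [inv_inv]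
      exact LL_LLi hε (by linarith [(abs_le.1 ha).1]) (by linarith [(abs_le.1 hb).1])

theorem mem_Kin {ε : ℝ} (hε : 0 < ε) (p : ℂ × ℂ) : p ∈ Kin ε ↔
    p ≠ 0 ∧ sn p.1 ≤ 1 / 2 ∧ sn p.2 ≤ ε / 2 ∧ tor (inv (LLi ε p)) ≤ 1 / 4 :=
  mem_img hε (fun e => tor e ≤ 1 / 4) p

theorem mem_Min {ε : ℝ} (hε : 0 < ε) (p : ℂ × ℂ) : p ∈ Min ε ↔
    p ≠ 0 ∧ sn p.1 ≤ 1 / 2 ∧ sn p.2 ≤ ε / 2 ∧ tor (inv (LLi ε p)) = 1 / 4 :=
  mem_img hε (fun e => tor e = 1 / 4) p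

/-- on the walls of the bidisc -/
theorem inv_edge {ε : ℝ} (hε : 0 < ε) {p : ℂ × ℂ} (h1 : sn p.1 ≤ 1 / 2) (h2 : sn p.2 ≤ ε / 2)
    (h : sn p.1 = 1 / 2 ∨ sn p.2 = ε / 2) : inv (LLi ε p) = LLi ε p ∧ tor (LLi ε p) = sn p.1 := by
  have hg1 : gg (LLi ε p) ≤ 1 := (gg_LLi hε p).2 ⟨h1, h2⟩
  have hg2 : ¬ gg (LLi ε p) < 1 := by
    rw [gg_LLi_lt hε]
    rintro ⟨h3, h4⟩
    rcases h with h | h <;> linarith
  exact ⟨inv_one (le_antisymm hg1 (not_lt.1 hg2)), tor_LLi hε h1 (by linarith)⟩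

end

end Pool.Agent.FibC
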