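import Pool.Agent.Lib.FibC.Poly

/-!
# Lin: the linear algebra at the disc

The tangent vector `d` of the disc and the normal vector `m` satisfy `h1`, `h2` only if they are zero.
-/

set_option autoImplicit false

namespace Pool.Agent.FibC

open Complex ComplexConjugate Set

noncomputable section

def AA (t : ℂ) : ℂ := t + I * (1 - t ^ 2)

def BB (t : ℂ) : ℂ := conj t + I * (1 - conj t ^ 2)

def EE (t : ℂ) : ℂ := 3 * t ^ 2 + ((1 - 2 * (t.re ^ 2 + t.im ^ 2) : ℝ) : ℂ)

private theorem det_id (t : ℂ) :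
    normSq (2 * (xx t * yy t) * EE t - 8 * I * (rho t : ℂ) * ((t.im ^ 2 : ℝ) : ℂ) * conj (AA t)) -
      normSq (2 * (xx t * yy t) * t ^ 2 - 8 * I * (rho t : ℂ) * ((t.im ^ 2 : ℝ) : ℂ) * conj (BB t)) =
      4 * DD t.re t.im := by
  obtain ⟨X, Y⟩ := t
  have hx : xx ⟨X, Y⟩ = ⟨X, Y + (1 - (X ^ 2 + Y ^ 2))⟩ := by
    apply Complex.ext <;> simp [xx, rho, sq]
  have hy : yy ⟨X, Y⟩ = ⟨X, -Y + (1 - (X ^ 2 + Y ^ 2))⟩ := by
    apply Complex.ext <;> simp [yy, rho, sq]
  have hE : EE ⟨X, Y⟩ = ⟨X ^ 2 - 5 * Y ^ 2 + 1, 6 * X * Y⟩ := by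
    apply Complex.ext <;> simp [EE, sq] <;> ring
  have hA : conj (AA ⟨X, Y⟩) = ⟨X + 2 * X * Y, -(Y + 1 - X ^ 2 + Y ^ 2)⟩ := by
    apply Complex.ext <;> simp [AA, sq] <;> ring
  have hB : conj (BB ⟨X, Y⟩) = ⟨X - 2 * X * Y, -(-Y + 1 - X ^ 2 + Y ^ 2)⟩ := by
    apply Complex.ext <;> simp [BB, sq] <;> ring
  have ht : (⟨X, Y⟩ : ℂ) ^ 2 = ⟨X ^ 2 - Y ^ 2, 2 * X * Y⟩ := by
    apply Complex.ext <;> simp [sq]; ring
  have hr : rho ⟨X, Y⟩ = 1 - (X ^ 2 + Y ^ 2) := rfl
  rw [hx, hy, hE, hA, hB, ht, hr, normSq_apply, normSq_apply]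
  simp only [sub_re, sub_im, mul_re, mul_im, I_re, I_im, ofReal_re, ofReal_im, re_ofNat, im_ofNat,
    DD]
  ring

private theorem ker_pos {t : ℂ} (ht : ‖t‖ ≤ 1) (hY : 0 ≤ t.im) {d m : ℂ}
    (h1 : BB t * d - AA t * conj d + 2 * conj (xx t * yy t) * m = 0)
    (h2 : EE t * d - t ^ 2 * conj d -
      8 * I * (rho t : ℂ) * (((t.im) ^ 2 : ℝ) * conj m) = 0) : d = 0 := by
  have h1' : 2 * (xx t * yy t) * conj m = conj (AA t) * d - conj (BB t) * conj d := by
    have := congrArg conj h1
    simp only [map_add, map_sub, map_mul, map_zero, conj_conj, map_ofNat] at this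
    linear_combination this
  have key : (2 * (xx t * yy t) * EE t - 8 * I * (rho t : ℂ) * ((t.im ^ 2 : ℝ) : ℂ) * conj (AA t)) * d =
      (2 * (xx t * yy t) * t ^ 2 - 8 * I * (rho t : ℂ) * ((t.im ^ 2 : ℝ) : ℂ) * conj (BB t)) * conj d := by
    linear_combination 2 * (xx t * yy t) * h2 - 8 * I * (rho t : ℂ) * ((t.im ^ 2 : ℝ) : ℂ) * (-h1')
  have hn := congrArg normSq key
  rw [normSq_mul, normSq_mul, normSq_conj] at hn
  have hD : 0 < DD t.re t.im := by
    apply DD_pos hY
    have : ‖t‖ ^ 2 ≤ 1 := by nlinarith [norm_nonneg t]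
    rw [← normSq_eq_norm_sq, normSq_apply] at this
    nlinarith
  have h3 : 4 * DD t.re t.im * normSq d = 0 := by
    rw [← det_id]; linarith
  rcases mul_eq_zero.1 h3 with h | h
  · exfalso; linarith
  · exact normSq_eq_zero.1 h

/-- `x y ≠ 0` away from two points, at which `ρ ≠ 0` and `Im t ≠ 0` -/
private theorem m_zero {t : ℂ} {m : ℂ} (h1 : 2 * conj (xx t * yy t) * m = 0)
    (h2 : (rho t : ℂ) * (((t.im) ^ 2 : ℝ) * conj m) = 0) : m = 0 := by
  by_contra hm
  have hm' : conj m ≠ 0 := by simpa using hm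
  have hc : xx t * yy t = 0 := by
    rcases mul_eq_zero.1 h1 with h | h
    · rcases mul_eq_zero.1 h with h | h
      · norm_num at h
      · simpa using h
    · exact absurd h hm
  have hr : rho t = 0 ∨ t.im = 0 := by
    rcases mul_eq_zero.1 h2 with h | h
    · left; exact_mod_cast h
    · rcases mul_eq_zero.1 h with h | h
      · right
        have : t.im ^ 2 = 0 := by exact_mod_cast h
        exact pow_eq_zero_iff (two_ne_zero) |>.1 this
      · exact absurd h hm'
  have hre : t.re = 0 ∧ (t.im + rho t = 0 ∨ -t.im + rho t = 0) := by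
    rcases mul_eq_zero.1 hc with h | h
    · have a := congrArg re h
      have b := congrArg im h
      simp [xx] at a b
      exact ⟨a, Or.inl b⟩
    · have a := congrArg re h
      have b := congrArg im h
      simp [yy] at a b
      exact ⟨a, Or.inr b⟩
  obtain ⟨hX, hY⟩ := hre
  have hrho : rho t = 1 - (t.re ^ 2 + t.im ^ 2) := rfl
  rw [hX] at hrho
  rcases hr with h | h
  · have : t.im = 0 := by rcases hY with h' | h' <;> linarith
    rw [this, h] at hrho; norm_num at hrho
  · have : rho t = 0 := by rcases hY with h' | h' <;> linarith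
    rw [this, h] at hrho; norm_num at hrho

theorem ker_trivial {t : ℂ} (ht : ‖t‖ ≤ 1) {d m : ℂ}
    (h1 : BB t * d - AA t * conj d + 2 * conj (xx t * yy t) * m = 0)
    (h2 : EE t * d - t ^ 2 * conj d - 8 * I * (rho t : ℂ) *
      (((max t.im 0) ^ 2 : ℝ) * conj m + ((max (-t.im) 0) ^ 2 : ℝ) * m) = 0) :
    d = 0 ∧ m = 0 := by
  rcases le_total 0 t.im with hY | hY
  · rw [max_eq_left hY, max_eq_right (by linarith : -t.im ≤ 0)] at h2
    have h2' : EE t * d - t ^ 2 * conj d -
      8 * I * (rho t : ℂ) * (((t.im) ^ 2 : ℝ) * conj m) = 0 := by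
      simpa using h2
    have hd := ker_pos ht hY h1 h2'
    refine ⟨hd, ?_⟩
    subst hd
    apply m_zero (t := t)
    · simpa using h1
    · have : 8 * I * ((rho t : ℂ) * (((t.im) ^ 2 : ℝ) * conj m)) = 0 := by
        linear_combination (-1 : ℂ) * h2' - t ^ 2 * (map_zero (starRingEnd ℂ))
      rcases mul_eq_zero.1 this with h | h
      · simp at h
      · exact h
  · rw [max_eq_right hY, max_eq_left (by linarith : 0 ≤ -t.im)] at h2
    have e1 : AA (conj t) = BB t := by simp [AA, BB]
    have e2 : BB (conj t) = AA t := by simp [AA, BB]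
    have e3 : xx (conj t) = yy t := by simp [xx, yy, rho]
    have e4 : yy (conj t) = xx t := by simp [xx, yy, rho]
    have e5 : EE (conj t) = conj (EE t) := by
      simp only [EE, map_add, map_mul, map_pow, map_ofNat, conj_ofReal, conj_re, conj_im, neg_sq]
    have e6 : rho (conj t) = rho t := by simp [rho]
    have h1' : BB (conj t) * conj d - AA (conj t) * conj (conj d) +
        2 * conj (xx (conj t) * yy (conj t)) * (-m) = 0 := by
      rw [e1, e2, e3, e4, conj_conj, mul_comm (yy t)]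
      linear_combination -h1
    have h2' : EE (conj t) * conj d - (conj t) ^ 2 * conj (conj d) -
        8 * I * (rho (conj t) : ℂ) * ((((conj t).im) ^ 2 : ℝ) * conj (-m)) = 0 := by
      have := congrArg conj h2
      simp only [map_add, map_sub, map_mul, map_zero, conj_conj, map_ofNat, conj_I, conj_ofReal,
        map_pow] at this
      rw [e5, e6, conj_im, conj_conj, map_neg]
      push_cast at this ⊢
      linear_combination this
    have hd := ker_pos (t := conj t) (by simpa using ht) (by simpa using hY) h1' h2'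
    have hd0 : d = 0 := by simpa using hd
    refine ⟨hd0, ?_⟩
    subst hd0
    have : -m = 0 := by
      apply m_zero (t := conj t)
      · simpa using h1'
      · have h3 : 8 * I * ((rho (conj t) : ℂ) * ((((conj t).im) ^ 2 : ℝ) * conj (-m))) = 0 := by
          rw [map_zero] at h2'
          linear_combination (-1 : ℂ) * h2' - (conj t) ^ 2 * (map_zero (starRingEnd ℂ))
        rcases mul_eq_zero.1 h3 with h | h
        · simp at h
        · exact h
    simpa using this

end

end Pool.Agent.FibC
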