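import Pool.Agent.Lib.FibC.Der
import Pool.Agent.Lib.FibC.Inj
import Pool.Agent.Lib.FibC.PPc

/-!
# Loc: `Phi0` is a local homeomorphism at the disc

PROOF. If `yy t ≠ 0`: `f p = (X0 p / Y0 p, w0 p)` is `C¹` near `(t, 0)` (`Y0 (t, 0) = yy t * SS t ≠ 0`). Its
derivative `f'` at `(t, 0)` is injective: for `(d, m)` in the kernel the derivative of `s ↦ f (t + s d, s m)` at `0` is zero, that
is (quotient rule, `der`) `Y0 X' - X0 Y' = 0` and `w' = 0`; `SS t ≠ 0`; `ker_trivial`. So `f'` is a linear equivalence (finite dimension,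
`LinearEquiv.ofInjectiveEndo`-style, `ContinuousLinearEquiv`), and `ContDiffAt.toOpenPartialHomeomorph` gives a local homeomorphism; compose
with `chart0.symm × id` (`PP (X0 / Y0) 1 = PP X0 Y0` by `PP_smul`) after restricting to the open set `Y0 ≠ 0`. If `yy t = 0` then
`xx t ≠ 0` (`xy_ne`): the same with `(Y0 / X0, w0)` and `chart1`.
-/

set_option autoImplicit false

namespace Pool.Agent.FibC

open Complex ComplexConjugate Set

noncomputable section

private theorem gen {num den : ℂ → ℂ → ℂ} (hn : ContDiff ℝ 1 (fun p : ℂ × ℂ => num p.1 p.2))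
    (hd : ContDiff ℝ 1 (fun p : ℂ × ℂ => den p.1 p.2)) {t : ℂ} (h0 : den t 0 ≠ 0)
    (hk : ∀ d m : ℂ, ∃ N' D' w' : ℂ, HasDerivAt (fun s : ℝ => num (t + s * d) (s * m)) N' 0 ∧
      HasDerivAt (fun s : ℝ => den (t + s * d) (s * m)) D' 0 ∧
      HasDerivAt (fun s : ℝ => w0 (t + s * d) (s * m)) w' 0 ∧
      (den t 0 * N' - num t 0 * D' = 0 → w' = 0 → d = 0 ∧ m = 0)) :
    ∃ e : OpenPartialHomeomorph (ℂ × ℂ) (ℂ × ℂ), (t, (0 : ℂ)) ∈ e.source ∧
      (∀ p ∈ e.source, den p.1 p.2 ≠ 0) ∧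
      ∀ p, e p = (num p.1 p.2 / den p.1 p.2, w0 p.1 p.2) := by
  obtain ⟨f, hf⟩ : ∃ f : ℂ × ℂ → ℂ × ℂ, f = fun p => (num p.1 p.2 / den p.1 p.2, w0 p.1 p.2) :=
    ⟨_, rfl⟩
  have hc : ContDiffAt ℝ 1 f (t, 0) := by
    have h1 : ContDiffAt ℝ 1 (fun p : ℂ × ℂ => num p.1 p.2 * (den p.1 p.2)⁻¹) (t, 0) :=
      (hn.contDiffAt (x := ((t, 0) : ℂ × ℂ))).mul
        ((hd.contDiffAt (x := ((t, 0) : ℂ × ℂ))).inv (𝕜 := ℝ) h0)
    simp only [div_eq_mul_inv] at hf
    rw [hf]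
    exact h1.prodMk smooth_w0.contDiffAt
  have hfd : HasFDerivAt f (fderiv ℝ f (t, 0)) (t, 0) := (hc.differentiableAt one_ne_zero).hasFDerivAt
  obtain ⟨f', hf'⟩ : ∃ f' : ℂ × ℂ →L[ℝ] ℂ × ℂ, f' = fderiv ℝ f (t, 0) := ⟨_, rfl⟩
  rw [← hf'] at hfd
  have hker : ∀ v : ℂ × ℂ, f' v = 0 → v = 0 := by
    rintro ⟨d, m⟩ hv
    obtain ⟨N', D', w', h1, h2, h3, h4⟩ := hk d m
    have hl : HasDerivAt (fun s : ℝ => ((t + s * d, s * m) : ℂ × ℂ)) (d, m) 0 := by
      have a1 : HasDerivAt (fun s : ℝ => t + s * d) d 0 := by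
        have := ((hasDerivAt_id (0 : ℝ)).ofReal_comp.mul_const d).const_add t
        simpa using this
      have a2 : HasDerivAt (fun s : ℝ => (s : ℂ) * m) m 0 := by
        have := (hasDerivAt_id (0 : ℝ)).ofReal_comp.mul_const m
        simpa using this
      exact a1.prodMk a2
    have e0 : ((t + ((0 : ℝ) : ℂ) * d, ((0 : ℝ) : ℂ) * m) : ℂ × ℂ) = (t, 0) := by simp
    have hfd' : HasFDerivAt f f' ((t + ((0 : ℝ) : ℂ) * d, ((0 : ℝ) : ℂ) * m) : ℂ × ℂ) := by
      rw [e0]; exact hfd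
    have hcomp := hfd'.comp_hasDerivAt (0 : ℝ) hl
    have hcomp2 : HasDerivAt (f ∘ fun s : ℝ => ((t + s * d, s * m) : ℂ × ℂ))
        (((N' * den t 0 - num t 0 * D') / den t 0 ^ 2, w') : ℂ × ℂ) 0 := by
      have b1 : den (t + ((0 : ℝ) : ℂ) * d) (((0 : ℝ) : ℂ) * m) ≠ 0 := by simpa using h0
      have b2 := h1.div h2 b1
      have b3 := b2.prodMk h3
      have e1 : t + ((0 : ℝ) : ℂ) * d = t := by simp
      have e2 : ((0 : ℝ) : ℂ) * m = 0 := by simp
      rw [e1, e2] at b3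
      rw [hf]
      exact b3
    have hu := hcomp.unique hcomp2
    rw [hv] at hu
    have u1 := congrArg Prod.fst hu
    have u2 := congrArg Prod.snd hu
    simp only [Prod.fst_zero, Prod.snd_zero] at u1 u2
    have u3 : den t 0 * N' - num t 0 * D' = 0 := by
      have : (N' * den t 0 - num t 0 * D') = 0 := by
        have h5 := u1.symm
        rcases div_eq_zero_iff.1 h5 with h6 | h6
        · exact h6
        · exact absurd h6 (pow_ne_zero 2 h0)
      linear_combination this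
    obtain ⟨hd0, hm0⟩ := h4 u3 u2.symm
    rw [hd0, hm0]; rfl
  have hinj : Function.Injective f'.toLinearMap := by
    rw [injective_iff_map_eq_zero]
    exact fun v hv => hker v hv
  let E : (ℂ × ℂ) ≃ₗ[ℝ] (ℂ × ℂ) := LinearEquiv.ofInjectiveEndo f'.toLinearMap hinj
  let E' : (ℂ × ℂ) ≃L[ℝ] (ℂ × ℂ) := E.toContinuousLinearEquiv
  have hE : (E' : ℂ × ℂ →L[ℝ] ℂ × ℂ) = f' := by
    ext v <;> rfl
  rw [← hE] at hfd
  have hopen : IsOpen {p : ℂ × ℂ | den p.1 p.2 ≠ 0} := isOpen_ne_fun hd.continuous continuous_const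
  refine ⟨(hc.toOpenPartialHomeomorph f hfd one_ne_zero).restrOpen _ hopen, ?_, ?_, ?_⟩
  · exact ⟨hc.mem_toOpenPartialHomeomorph_source hfd one_ne_zero, h0⟩
  · rintro p ⟨_, hp⟩
    exact hp
  · intro p
    have : ((hc.toOpenPartialHomeomorph f hfd one_ne_zero).restrOpen _ hopen) p = f p := rfl
    rw [this, hf]

theorem loc_homeo {t : ℂ} (ht : ‖t‖ ≤ 1) : ∃ e : OpenPartialHomeomorph (ℂ × ℂ) (S2 × ℂ),
    (t, (0 : ℂ)) ∈ e.source ∧ ∀ p ∈ e.source, e p = Phi0 p := by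
  have hS : (SS t : ℂ) ≠ 0 := by exact_mod_cast (SS_pos t).ne'
  have eX : X0 t 0 = xx t * (SS t : ℂ) := by rw [X0]; ring
  have eY : Y0 t 0 = yy t * (SS t : ℂ) := by rw [Y0]; ring
  by_cases hy : yy t = 0
  · have hx : xx t ≠ 0 := fun h => xy_ne t ⟨h, hy⟩
    obtain ⟨e, he, hne, hev⟩ := gen (num := Y0) (den := X0) smooth_Y0 smooth_X0 (t := t)
      (by rw [eX]; exact mul_ne_zero hx hS) (fun d m => by
        obtain ⟨X', Y', w', h1, h2, h3, h4, h5⟩ := der t d m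
        refine ⟨Y', X', w', h2, h1, h3, fun k1 k2 => ?_⟩
        apply ker_trivial ht
        · have : (SS t : ℂ) ^ 2 * (BB t * d - AA t * conj d + 2 * conj (xx t * yy t) * m) = 0 := by
            rw [← h4]; linear_combination -k1
          rcases mul_eq_zero.1 this with h | h
          · exact absurd h (pow_ne_zero 2 hS)
          · exact h
        · rw [← h5, k2])
    obtain ⟨c, hc1, hc2, hc3, hc4⟩ := chart1
    refine ⟨e.trans (c.symm.prod (OpenPartialHomeomorph.refl ℂ)), ?_, ?_⟩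
    · refine ⟨he, ?_⟩
      simp [hc2]
    · rintro p ⟨hp, -⟩
      have : (e.trans (c.symm.prod (OpenPartialHomeomorph.refl ℂ))) p =
          (c.symm (e p).1, (e p).2) := rfl
      rw [this, hev p, hc3, Phi0]
      have hX := hne p hp
      have := PP_smul hX 1 (Y0 p.1 p.2 / X0 p.1 p.2)
      rw [mul_one, mul_div_cancel₀ _ hX] at this
      rw [this]
  · obtain ⟨e, he, hne, hev⟩ := gen (num := X0) (den := Y0) smooth_X0 smooth_Y0 (t := t)
      (by rw [eY]; exact mul_ne_zero hy hS) (fun d m => by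
        obtain ⟨X', Y', w', h1, h2, h3, h4, h5⟩ := der t d m
        refine ⟨X', Y', w', h1, h2, h3, fun k1 k2 => ?_⟩
        apply ker_trivial ht
        · have : (SS t : ℂ) ^ 2 * (BB t * d - AA t * conj d + 2 * conj (xx t * yy t) * m) = 0 := by
            rw [← h4, k1]
          rcases mul_eq_zero.1 this with h | h
          · exact absurd h (pow_ne_zero 2 hS)
          · exact h
        · rw [← h5, k2])
    obtain ⟨c, hc1, hc2, hc3, hc4⟩ := chart0
    refine ⟨e.trans (c.symm.prod (OpenPartialHomeomorph.refl ℂ)), ?_, ?_⟩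
    · refine ⟨he, ?_⟩
      simp [hc2]
    · rintro p ⟨hp, -⟩
      have : (e.trans (c.symm.prod (OpenPartialHomeomorph.refl ℂ))) p =
          (c.symm (e p).1, (e p).2) := rfl
      rw [this, hev p, hc3, Phi0]
      have hY := hne p hp
      have := PP_smul hY (X0 p.1 p.2 / Y0 p.1 p.2) 1
      rw [mul_one, mul_div_cancel₀ _ hY] at this
      rw [this]

end

end Pool.Agent.FibC
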