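import Pool.Agent.Lib.FibC.Defs

/-!
# PPa: the points `[X : Y]` of the sphere

PROOF. `PP_coe`: `normSq X + normSq Y ≠ 0`. `PP_smul`: `normSq (a X) = normSq a * normSq X`, the factor
cancels (if `X = Y = 0` both sides are the default value). `PP_eq_iff`: if the values are equal then
`(normSq X - normSq Y)/(normSq X + normSq Y)` agree, so `normSq Y / N = normSq Y' / N'` (`N = normSq X + normSq Y`),
and `X conj Y / N = X' conj Y' / N'`; multiply: if `Y ≠ 0`: `Y' ≠ 0` and `X / Y = X conj Y / normSq Y` equals `X' / Y'`; if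
`Y = 0` then `Y' = 0`. Conversely: if `Y = 0` then `X * Y' = 0`, so `Y' = 0`, both points are `(0, 1)`; if `Y ≠ 0` then
`Y' ≠ 0`, use `PP_smul` with `a = Y' / Y`. `PP_surj`: if `p.2 ≠ 1` take `z = p.1 / (1 - p.2)`.
-/

set_option autoImplicit false

namespace Pool.Agent.FibC

open Complex ComplexConjugate Set

noncomputable section

private theorem ns_ne {X Y : ℂ} (h : ¬ (X = 0 ∧ Y = 0)) : normSq X + normSq Y ≠ 0 := by
  intro h0
  have hX := normSq_nonneg X
  have hY := normSq_nonneg Y
  exact h ⟨normSq_eq_zero.1 (by linarith), normSq_eq_zero.1 (by linarith)⟩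

theorem PP_coe {X Y : ℂ} (h : ¬ (X = 0 ∧ Y = 0)) : (PP X Y : ℂ × ℝ) =
    (2 * X * conj Y / ((normSq X + normSq Y : ℝ) : ℂ),
      (normSq X - normSq Y) / (normSq X + normSq Y)) := by
  rw [PP, dif_neg (ns_ne h)]

theorem PP_smul {a : ℂ} (ha : a ≠ 0) (X Y : ℂ) : PP (a * X) (a * Y) = PP X Y := by
  by_cases h : X = 0 ∧ Y = 0
  · rw [h.1, h.2, mul_zero]
  · have h' : ¬ (a * X = 0 ∧ a * Y = 0) := by
      simpa [ha] using h
    apply Subtype.ext
    rw [PP_coe h, PP_coe h']
    have hN := ns_ne h
    have hN' := ns_ne h'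
    have hna : normSq a ≠ 0 := by simpa using ha
    have e : a * conj a = (normSq a : ℂ) := mul_conj a
    apply Prod.ext
    · simp only [map_mul]
      have : (normSq a : ℂ) ≠ 0 := by exact_mod_cast hna
      have hc : ((normSq X + normSq Y : ℝ) : ℂ) ≠ 0 := by exact_mod_cast hN
      have e2 : ((normSq a * normSq X + normSq a * normSq Y : ℝ) : ℂ) =
          (normSq a : ℂ) * ((normSq X + normSq Y : ℝ) : ℂ) := by push_cast; ring
      rw [e2, div_eq_div_iff (mul_ne_zero this hc) hc]
      linear_combination (2 * X * conj Y * ((normSq X + normSq Y : ℝ) : ℂ)) * e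
    · simp only [normSq_mul]
      rw [← mul_sub, ← mul_add, mul_div_mul_left _ _ hna]

theorem PP_eq_iff {X Y X' Y' : ℂ} (h : ¬ (X = 0 ∧ Y = 0)) (h' : ¬ (X' = 0 ∧ Y' = 0)) :
    PP X Y = PP X' Y' ↔ X * Y' = X' * Y := by
  constructor
  · intro he
    have he2 := congrArg Subtype.val he
    rw [PP_coe h, PP_coe h'] at he2
    have e1 := congrArg Prod.fst he2
    have e2 := congrArg Prod.snd he2
    simp only at e1 e2
    have hN := ns_ne h
    have hN' := ns_ne h'
    rw [div_eq_div_iff hN hN'] at e2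
    have hc : ((normSq X + normSq Y : ℝ) : ℂ) ≠ 0 := by exact_mod_cast hN
    have hc' : ((normSq X' + normSq Y' : ℝ) : ℂ) ≠ 0 := by exact_mod_cast hN'
    rw [div_eq_div_iff hc hc'] at e1
    -- normSq Y * N' = normSq Y' * N
    have e3 : normSq Y * (normSq X' + normSq Y') = normSq Y' * (normSq X + normSq Y) := by
      nlinarith
    have e3' : (Y * conj Y) * ((normSq X' + normSq Y' : ℝ) : ℂ) =
        (Y' * conj Y') * ((normSq X + normSq Y : ℝ) : ℂ) := by
      rw [mul_conj, mul_conj]; exact_mod_cast e3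
    by_cases hY : Y = 0
    · have hY' : Y' = 0 := by
        rw [hY] at e3
        simp only [map_zero, zero_mul, add_zero] at e3
        have : normSq Y' * normSq X = 0 := e3.symm
        rcases mul_eq_zero.1 this with h1 | h1
        · exact normSq_eq_zero.1 h1
        · exact absurd ⟨normSq_eq_zero.1 h1, hY⟩ h
      rw [hY, hY', mul_zero, mul_zero]
    · have hcY : conj Y ≠ 0 := by simpa using hY
      have hY' : Y' ≠ 0 := by
        intro h0
        rw [h0] at e3
        simp only [map_zero, zero_mul, add_zero] at e3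
        rcases mul_eq_zero.1 e3 with h1 | h1
        · exact hY (normSq_eq_zero.1 h1)
        · exact h' ⟨normSq_eq_zero.1 h1, h0⟩
      have hcY' : conj Y' ≠ 0 := by simpa using hY'
      -- X conj Y N' = X' conj Y' N ; Y conj Y N' = Y' conj Y' N
      have k : (X * Y' - X' * Y) * (conj Y * ((normSq X' + normSq Y' : ℝ) : ℂ)) = 0 := by
        linear_combination (Y' / 2) * e1 - X' * e3'
      rcases mul_eq_zero.1 k with k | k
      · linear_combination k
      · exact absurd k (mul_ne_zero hcY hc')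
  · intro he
    by_cases hY : Y = 0
    · have hX : X ≠ 0 := fun h0 => h ⟨h0, hY⟩
      have hY' : Y' = 0 := by
        rw [hY, mul_zero] at he
        rcases mul_eq_zero.1 he with h1 | h1
        · exact absurd h1 hX
        · exact h1
      have hX' : X' ≠ 0 := fun h0 => h' ⟨h0, hY'⟩
      have a1 := PP_smul hX 1 0
      have a2 := PP_smul hX' 1 0
      rw [mul_one, mul_zero] at a1 a2
      rw [hY, hY', a1, a2]
    · have hY' : Y' ≠ 0 := by
        intro h0
        rw [h0, mul_zero] at he
        rcases mul_eq_zero.1 he.symm with h1 | h1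
        · exact h' ⟨h1, h0⟩
        · exact hY h1
      have a1 := PP_smul (div_ne_zero hY' hY) X Y
      rw [← a1]
      congr 1
      · field_simp
        linear_combination he
      · field_simp

theorem PP_cont {X Y : ℂ} (h : ¬ (X = 0 ∧ Y = 0)) :
    ContinuousAt (fun p : ℂ × ℂ => PP p.1 p.2) (X, Y) := by
  have ho : IsOpen {p : ℂ × ℂ | ¬ (p.1 = 0 ∧ p.2 = 0)} := by
    have : {p : ℂ × ℂ | ¬ (p.1 = 0 ∧ p.2 = 0)} = {(0 : ℂ × ℂ)}ᶜ := by
      ext p; simp [Prod.ext_iff]
    rw [this]; exact isOpen_compl_singleton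
  refine (Topology.IsInducing.continuousAt_iff (g := (Subtype.val : S2 → ℂ × ℝ)) ⟨rfl⟩).2 ?_
  have hev : (fun p : ℂ × ℂ => ((2 * p.1 * conj p.2 / ((normSq p.1 + normSq p.2 : ℝ) : ℂ),
      (normSq p.1 - normSq p.2) / (normSq p.1 + normSq p.2)) : ℂ × ℝ)) =ᶠ[nhds (X, Y)]
      fun p => (PP p.1 p.2 : ℂ × ℝ) := by
    filter_upwards [ho.mem_nhds h] with p hp
    exact (PP_coe hp).symm
  refine ContinuousAt.congr ?_ hev
  have hN := ns_ne h
  have hc : ((normSq X + normSq Y : ℝ) : ℂ) ≠ 0 := by exact_mod_cast hN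
  have c1 : Continuous fun p : ℂ × ℂ => normSq p.1 := continuous_normSq.comp continuous_fst
  have c2 : Continuous fun p : ℂ × ℂ => normSq p.2 := continuous_normSq.comp continuous_snd
  refine ContinuousAt.prodMk ?_ ?_
  · refine ContinuousAt.div ?_ ?_ hc
    · exact ((continuous_const.mul continuous_fst).mul
        (continuous_conj.comp continuous_snd)).continuousAt
    · exact (continuous_ofReal.comp (c1.add c2)).continuousAt
  · exact ContinuousAt.div (c1.sub c2).continuousAt (c1.add c2).continuousAt hN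

theorem PP_surj (p : S2) : p = PP 1 0 ∨ ∃ z, p = PP z 1 := by
  obtain ⟨⟨a, b⟩, hab⟩ := p
  simp only at hab
  rw [← normSq_eq_norm_sq] at hab
  by_cases hb : b = 1
  · left
    apply Subtype.ext
    rw [PP_coe (by simp)]
    subst hb
    have : a = 0 := normSq_eq_zero.1 (by linarith)
    simp [this]
  · right
    have h1 : (1 - b) ≠ 0 := fun h => hb (by linarith)
    have h1c : (1 - (b : ℂ)) ≠ 0 := by exact_mod_cast h1
    refine ⟨a / ((1 - b : ℝ) : ℂ), ?_⟩
    apply Subtype.ext
    rw [PP_coe (by simp)]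
    have e : normSq (a / ((1 - b : ℝ) : ℂ)) = (1 + b) / (1 - b) := by
      rw [normSq_div, normSq_ofReal]
      have : normSq a = (1 - b) * (1 + b) := by linarith
      rw [this]; field_simp
    rw [e, map_one, map_one, mul_one]
    have e2 : (1 + b) / (1 - b) + 1 = 2 / (1 - b) := by field_simp; ring
    have e3 : (1 + b) / (1 - b) - 1 = 2 * b / (1 - b) := by field_simp; ring
    rw [e2, e3]
    apply Prod.ext
    · simp only
      push_cast
      field_simp
    · simp only
      field_simp

end

end Pool.Agent.FibC
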