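import Pool.Agent.Lib.FibC.Defs

/-!
# Poly: the polynomial inequality

PROOF. `DD` is even in `X`. Put `X ^ 2 = s * (1 - Y ^ 2)`, `0 ≤ s ≤ 1`. Then
`DD = ∑ i, b i (Y) * s ^ i * (1 - s) ^ (5 - i)` with six integral polynomials `b i` of degree `≤ 12`, and each
`b i` is positive on `[0, 1]`: its Bernstein coefficients on `[0, 1/2]` and on `[1/2, 1]` are positive.
-/

set_option autoImplicit false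

namespace Pool.Agent.FibC

noncomputable section

/-- the determinant, see `Lin1` -/
def DD (X Y : ℝ) : ℝ :=
  1 - 8 * Y ^ 2 + 8 * Y ^ 3 + 39 * Y ^ 4 - 16 * Y ^ 5
    - 164 * Y ^ 6 + 160 * Y ^ 7 + 349 * Y ^ 8 - 264 * Y ^ 9 - 258 * Y ^ 10
    + 112 * Y ^ 11 + 56 * Y ^ 12 - 10 * X ^ 2 * Y ^ 2 + 48 * X ^ 2 * Y ^ 3 + 252 * X ^ 2 * Y ^ 4
    + 192 * X ^ 2 * Y ^ 5 - 428 * X ^ 2 * Y ^ 6 - 824 * X ^ 2 * Y ^ 7 + 138 * X ^ 2 * Y ^ 8 + 544 * X ^ 2 * Y ^ 9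
    + 56 * X ^ 2 * Y ^ 10 - 1 * X ^ 4 + 36 * X ^ 4 * Y ^ 2 - 352 * X ^ 4 * Y ^ 3 - 754 * X ^ 4 * Y ^ 4
    - 88 * X ^ 4 * Y ^ 5 + 1004 * X ^ 4 * Y ^ 6 + 576 * X ^ 4 * Y ^ 7 - 144 * X ^ 4 * Y ^ 8 + 4 * X ^ 6
    + 20 * X ^ 6 * Y ^ 2 + 472 * X ^ 6 * Y ^ 3 + 564 * X ^ 6 * Y ^ 4 - 32 * X ^ 6 * Y ^ 5 - 208 * X ^ 6 * Y ^ 6
    - 3 * X ^ 8 - 42 * X ^ 8 * Y ^ 2 - 176 * X ^ 8 * Y ^ 3 - 40 * X ^ 8 * Y ^ 4 + 2 * X ^ 10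
    + 24 * X ^ 10 * Y ^ 2

private def b0 (Y : ℝ) : ℝ := 1 - 8 * Y ^ 2 + 8 * Y ^ 3 + 39 * Y ^ 4 - 16 * Y ^ 5
    - 164 * Y ^ 6 + 160 * Y ^ 7 + 349 * Y ^ 8 - 264 * Y ^ 9 - 258 * Y ^ 10
    + 112 * Y ^ 11 + 56 * Y ^ 12

private def b1 (Y : ℝ) : ℝ := 5 - 50 * Y ^ 2 + 88 * Y ^ 3 + 457 * Y ^ 4 + 64 * Y ^ 5
    - 1500 * Y ^ 6 - 216 * Y ^ 7 + 2311 * Y ^ 8 + 48 * Y ^ 9 - 1372 * Y ^ 10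
    + 16 * Y ^ 11 + 224 * Y ^ 12

private def b2 (Y : ℝ) : ℝ := 9 - 82 * Y ^ 2 - 80 * Y ^ 3 + 611 * Y ^ 4 + 1032 * Y ^ 5
    - 1812 * Y ^ 6 - 2064 * Y ^ 7 + 2848 * Y ^ 8 + 1592 * Y ^ 9 - 1616 * Y ^ 10
    - 480 * Y ^ 11 + 192 * Y ^ 12

private def b3 (Y : ℝ) : ℝ := 11 - 18 * Y ^ 2 - 216 * Y ^ 3 - 3 * Y ^ 4 + 1104 * Y ^ 5
    + 80 * Y ^ 6 - 1784 * Y ^ 7 + 464 * Y ^ 8 + 1280 * Y ^ 9 - 384 * Y ^ 10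
    - 384 * Y ^ 11

private def b4 (Y : ℝ) : ℝ := 7 + 20 * Y ^ 2 - 56 * Y ^ 3 - 96 * Y ^ 4 + 152 * Y ^ 5
    + 336 * Y ^ 6 - 96 * Y ^ 7 - 192 * Y ^ 8

private def b5 (Y : ℝ) : ℝ := 3 + 12 * Y ^ 2

private theorem b0_pos {Y : ℝ} (h0 : 0 ≤ Y) (h1 : Y ≤ 1) : 0 < b0 Y := by
  rcases le_total Y (1 / 2) with h | h
  · obtain ⟨u, hu⟩ : ∃ u, u = 2 * Y := ⟨_, rfl⟩
    obtain ⟨v, hv⟩ : ∃ v, v = 1 - 2 * Y := ⟨_, rfl⟩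
    have hu0 : 0 ≤ u := by linarith
    have hv0 : 0 ≤ v := by linarith
    have key : b0 Y = 1/2 +
      (1 / 2 * u ^ 0 * v ^ 12 + 6 * u ^ 1 * v ^ 11 + 31 * u ^ 2 * v ^ 10 + 91 * u ^ 3 * v ^ 9 + 2703 / 16 * u ^ 4 * v ^ 8 + 211 * u ^ 5 * v ^ 7 + 3011 / 16 * u ^ 6 * v ^ 6 + 1039 / 8 * u ^ 7 * v ^ 5 + 19405 / 256 * u ^ 8 * v ^ 4 + 627 / 16 * u ^ 9 * v ^ 3 + 8803 / 512 * u ^ 10 * v ^ 2 + 1365 / 256 * u ^ 11 * v ^ 1 + 101 / 128 * u ^ 12 * v ^ 0) := by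
      rw [hu, hv, b0]; ring
    rw [key]; positivity
  · obtain ⟨u, hu⟩ : ∃ u, u = 2 * Y - 1 := ⟨_, rfl⟩
    obtain ⟨v, hv⟩ : ∃ v, v = 2 - 2 * Y := ⟨_, rfl⟩
    have hu0 : 0 ≤ u := by linarith
    have hv0 : 0 ≤ v := by linarith
    have key : b0 Y = 5/4 +
      (5 / 128 * u ^ 0 * v ^ 12 + 1179 / 256 * u ^ 1 * v ^ 11 + 30055 / 512 * u ^ 2 * v ^ 10 + 45489 / 128 * u ^ 3 * v ^ 9 + 334099 / 256 * u ^ 4 * v ^ 8 + 51143 / 16 * u ^ 5 * v ^ 7 + 86969 / 16 * u ^ 6 * v ^ 6 + 25929 / 4 * u ^ 7 * v ^ 5 + 85609 / 16 * u ^ 8 * v ^ 4 + 5887 / 2 * u ^ 9 * v ^ 3 + 2007 / 2 * u ^ 10 * v ^ 2 + 185 * u ^ 11 * v ^ 1 + 55 / 4 * u ^ 12 * v ^ 0) := by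
      rw [hu, hv, b0]; ring
    rw [key]; positivity

private theorem b1_pos {Y : ℝ} (h0 : 0 ≤ Y) (h1 : Y ≤ 1) : 0 < b1 Y := by
  rcases le_total Y (1 / 2) with h | h
  · obtain ⟨u, hu⟩ : ∃ u, u = 2 * Y := ⟨_, rfl⟩
    obtain ⟨v, hv⟩ : ∃ v, v = 1 - 2 * Y := ⟨_, rfl⟩
    have hu0 : 0 ≤ u := by linarith
    have hv0 : 0 ≤ v := by linarith
    have key : b1 Y = 15/4 +
      (5 / 4 * u ^ 0 * v ^ 12 + 15 * u ^ 1 * v ^ 11 + 70 * u ^ 2 * v ^ 10 + 161 * u ^ 3 * v ^ 9 + 2941 / 16 * u ^ 4 * v ^ 8 + 233 / 2 * u ^ 5 * v ^ 7 + 3909 / 16 * u ^ 6 * v ^ 6 + 11603 / 16 * u ^ 7 * v ^ 5 + 281127 / 256 * u ^ 8 * v ^ 4 + 58821 / 64 * u ^ 9 * v ^ 3 + 113259 / 256 * u ^ 10 * v ^ 2 + 3717 / 32 * u ^ 11 * v ^ 1 + 417 / 32 * u ^ 12 * v ^ 0) := by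
      rw [hu, hv, b1]; ring
    rw [key]; positivity
  · obtain ⟨u, hu⟩ : ∃ u, u = 2 * Y - 1 := ⟨_, rfl⟩
    obtain ⟨v, hv⟩ : ∃ v, v = 2 - 2 * Y := ⟨_, rfl⟩
    have hu0 : 0 ≤ u := by linarith
    have hv0 : 0 ≤ v := by linarith
    have key : b1 Y = 67/4 +
      (1 / 32 * u ^ 0 * v ^ 12 + 1299 / 32 * u ^ 1 * v ^ 11 + 120123 / 256 * u ^ 2 * v ^ 10 + 78397 / 32 * u ^ 3 * v ^ 9 + 1954875 / 256 * u ^ 4 * v ^ 8 + 63529 / 4 * u ^ 5 * v ^ 7 + 186709 / 8 * u ^ 6 * v ^ 6 + 99683 / 4 * u ^ 7 * v ^ 5 + 310003 / 16 * u ^ 8 * v ^ 4 + 21279 / 2 * u ^ 9 * v ^ 3 + 7645 / 2 * u ^ 10 * v ^ 2 + 767 * u ^ 11 * v ^ 1 + 233 / 4 * u ^ 12 * v ^ 0) := by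
      rw [hu, hv, b1]; ring
    rw [key]; positivity

private theorem b2_pos {Y : ℝ} (h0 : 0 ≤ Y) (h1 : Y ≤ 1) : 0 < b2 Y := by
  rcases le_total Y (1 / 2) with h | h
  · obtain ⟨u, hu⟩ : ∃ u, u = 2 * Y := ⟨_, rfl⟩
    obtain ⟨v, hv⟩ : ∃ v, v = 1 - 2 * Y := ⟨_, rfl⟩
    have hu0 : 0 ≤ u := by linarith
    have hv0 : 0 ≤ v := by linarith
    have key : b2 Y = 4 +
      (5 * u ^ 0 * v ^ 12 + 60 * u ^ 1 * v ^ 11 + 619 / 2 * u ^ 2 * v ^ 10 + 885 * u ^ 3 * v ^ 9 + 24011 / 16 * u ^ 4 * v ^ 8 + 5911 / 4 * u ^ 5 * v ^ 7 + 11867 / 16 * u ^ 6 * v ^ 6 + 655 / 4 * u ^ 7 * v ^ 5 + 3483 / 16 * u ^ 8 * v ^ 4 + 24791 / 64 * u ^ 9 * v ^ 3 + 4521 / 16 * u ^ 10 * v ^ 2 + 1539 / 16 * u ^ 11 * v ^ 1 + 415 / 32 * u ^ 12 * v ^ 0) := by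
      rw [hu, hv, b2]; ring
    rw [key]; positivity
  · obtain ⟨u, hu⟩ : ∃ u, u = 2 * Y - 1 := ⟨_, rfl⟩
    obtain ⟨v, hv⟩ : ∃ v, v = 2 - 2 * Y := ⟨_, rfl⟩
    have hu0 : 0 ≤ u := by linarith
    have hv0 : 0 ≤ v := by linarith
    have key : b2 Y = 67/4 +
      (7 / 32 * u ^ 0 * v ^ 12 + 993 / 16 * u ^ 1 * v ^ 11 + 11979 / 16 * u ^ 2 * v ^ 10 + 263849 / 64 * u ^ 3 * v ^ 9 + 433287 / 32 * u ^ 4 * v ^ 8 + 59023 / 2 * u ^ 5 * v ^ 7 + 720603 / 16 * u ^ 6 * v ^ 6 + 49409 * u ^ 7 * v ^ 5 + 625923 / 16 * u ^ 8 * v ^ 4 + 43655 / 2 * u ^ 9 * v ^ 3 + 16047 / 2 * u ^ 10 * v ^ 2 + 1671 * u ^ 11 * v ^ 1 + 533 / 4 * u ^ 12 * v ^ 0) := by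
      rw [hu, hv, b2]; ring
    rw [key]; positivity

private theorem b3_pos {Y : ℝ} (h0 : 0 ≤ Y) (h1 : Y ≤ 1) : 0 < b3 Y := by
  rcases le_total Y (1 / 2) with h | h
  · obtain ⟨u, hu⟩ : ∃ u, u = 2 * Y := ⟨_, rfl⟩
    obtain ⟨v, hv⟩ : ∃ v, v = 1 - 2 * Y := ⟨_, rfl⟩
    have hu0 : 0 ≤ u := by linarith
    have hv0 : 0 ≤ v := by linarith
    have key : b3 Y = 5/2 +
      (17 / 2 * u ^ 0 * v ^ 12 + 102 * u ^ 1 * v ^ 11 + 1113 / 2 * u ^ 2 * v ^ 10 + 1798 * u ^ 3 * v ^ 9 + 60189 / 16 * u ^ 4 * v ^ 8 + 5253 * u ^ 5 * v ^ 7 + 9757 / 2 * u ^ 6 * v ^ 6 + 46457 / 16 * u ^ 7 * v ^ 5 + 4023 / 4 * u ^ 8 * v ^ 4 + 1235 / 8 * u ^ 9 * v ^ 3 + 25 / 8 * u ^ 10 * v ^ 2 + 45 / 8 * u ^ 11 * v ^ 1 + 19 / 8 * u ^ 12 * v ^ 0) := by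
      rw [hu, hv, b3]; ring
    rw [key]; positivity
  · obtain ⟨u, hu⟩ : ∃ u, u = 2 * Y - 1 := ⟨_, rfl⟩
    obtain ⟨v, hv⟩ : ∃ v, v = 2 - 2 * Y := ⟨_, rfl⟩
    have hu0 : 0 ≤ u := by linarith
    have hv0 : 0 ≤ v := by linarith
    have key : b3 Y = 19/4 +
      (1 / 8 * u ^ 0 * v ^ 12 + 195 / 8 * u ^ 1 * v ^ 11 + 2863 / 8 * u ^ 2 * v ^ 10 + 18845 / 8 * u ^ 3 * v ^ 9 + 36243 / 4 * u ^ 4 * v ^ 8 + 362695 / 16 * u ^ 5 * v ^ 7 + 310733 / 8 * u ^ 6 * v ^ 6 + 186447 / 4 * u ^ 7 * v ^ 5 + 627049 / 16 * u ^ 8 * v ^ 4 + 45101 / 2 * u ^ 9 * v ^ 3 + 16731 / 2 * u ^ 10 * v ^ 2 + 1751 * u ^ 11 * v ^ 1 + 581 / 4 * u ^ 12 * v ^ 0) := by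
      rw [hu, hv, b3]; ring
    rw [key]; positivity

private theorem b4_pos {Y : ℝ} (h0 : 0 ≤ Y) (h1 : Y ≤ 1) : 0 < b4 Y := by
  rcases le_total Y (1 / 2) with h | h
  · obtain ⟨u, hu⟩ : ∃ u, u = 2 * Y := ⟨_, rfl⟩
    obtain ⟨v, hv⟩ : ∃ v, v = 1 - 2 * Y := ⟨_, rfl⟩
    have hu0 : 0 ≤ u := by linarith
    have hv0 : 0 ≤ v := by linarith
    have key : b4 Y = 13/2 +
      (1 / 2 * u ^ 0 * v ^ 12 + 6 * u ^ 1 * v ^ 11 + 38 * u ^ 2 * v ^ 10 + 153 * u ^ 3 * v ^ 9 + 807 / 2 * u ^ 4 * v ^ 8 + 2803 / 4 * u ^ 5 * v ^ 7 + 1589 / 2 * u ^ 6 * v ^ 6 + 1137 / 2 * u ^ 7 * v ^ 5 + 236 * u ^ 8 * v ^ 4 + 187 / 4 * u ^ 9 * v ^ 3 + 9 / 2 * u ^ 10 * v ^ 2 + 3 * u ^ 11 * v ^ 1 + 1 * u ^ 12 * v ^ 0) := by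
      rw [hu, hv, b4]; ring
    rw [key]; positivity
  · obtain ⟨u, hu⟩ : ∃ u, u = 2 * Y - 1 := ⟨_, rfl⟩
    obtain ⟨v, hv⟩ : ∃ v, v = 2 - 2 * Y := ⟨_, rfl⟩
    have hu0 : 0 ≤ u := by linarith
    have hv0 : 0 ≤ v := by linarith
    have key : b4 Y = 15/2 +
      (9 * u ^ 1 * v ^ 11 + 273 / 2 * u ^ 2 * v ^ 10 + 3693 / 4 * u ^ 3 * v ^ 9 + 7339 / 2 * u ^ 4 * v ^ 8 + 19015 / 2 * u ^ 5 * v ^ 7 + 33663 / 2 * u ^ 6 * v ^ 6 + 82909 / 4 * u ^ 7 * v ^ 5 + 17695 * u ^ 8 * v ^ 4 + 10209 * u ^ 9 * v ^ 3 + 3758 * u ^ 10 * v ^ 2 + 782 * u ^ 11 * v ^ 1 + 135 / 2 * u ^ 12 * v ^ 0) := by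
      rw [hu, hv, b4]; ring
    rw [key]; positivity

private theorem b5_pos {Y : ℝ} (h0 : 0 ≤ Y) (h1 : Y ≤ 1) : 0 < b5 Y := by
  rcases le_total Y (1 / 2) with h | h
  · obtain ⟨u, hu⟩ : ∃ u, u = 2 * Y := ⟨_, rfl⟩
    obtain ⟨v, hv⟩ : ∃ v, v = 1 - 2 * Y := ⟨_, rfl⟩
    have hu0 : 0 ≤ u := by linarith
    have hv0 : 0 ≤ v := by linarith
    have key : b5 Y = 3 +
      (3 * u ^ 2 * v ^ 10 + 30 * u ^ 3 * v ^ 9 + 135 * u ^ 4 * v ^ 8 + 360 * u ^ 5 * v ^ 7 + 630 * u ^ 6 * v ^ 6 + 756 * u ^ 7 * v ^ 5 + 630 * u ^ 8 * v ^ 4 + 360 * u ^ 9 * v ^ 3 + 135 * u ^ 10 * v ^ 2 + 30 * u ^ 11 * v ^ 1 + 3 * u ^ 12 * v ^ 0) := by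
      rw [hu, hv, b5]; ring
    rw [key]; positivity
  · obtain ⟨u, hu⟩ : ∃ u, u = 2 * Y - 1 := ⟨_, rfl⟩
    obtain ⟨v, hv⟩ : ∃ v, v = 2 - 2 * Y := ⟨_, rfl⟩
    have hu0 : 0 ≤ u := by linarith
    have hv0 : 0 ≤ v := by linarith
    have key : b5 Y = 6 +
      (6 * u ^ 1 * v ^ 11 + 69 * u ^ 2 * v ^ 10 + 360 * u ^ 3 * v ^ 9 + 1125 * u ^ 4 * v ^ 8 + 2340 * u ^ 5 * v ^ 7 + 3402 * u ^ 6 * v ^ 6 + 3528 * u ^ 7 * v ^ 5 + 2610 * u ^ 8 * v ^ 4 + 1350 * u ^ 9 * v ^ 3 + 465 * u ^ 10 * v ^ 2 + 96 * u ^ 11 * v ^ 1 + 9 * u ^ 12 * v ^ 0) := by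
      rw [hu, hv, b5]; ring
    rw [key]; positivity

theorem DD_pos {X Y : ℝ} (hY : 0 ≤ Y) (h : X ^ 2 + Y ^ 2 ≤ 1) : 0 < DD X Y := by
  have hY1 : Y ≤ 1 := by nlinarith [sq_nonneg X]
  have hs : ∃ s : ℝ, 0 ≤ s ∧ s ≤ 1 ∧ X ^ 2 = s * (1 - Y ^ 2) := by
    rcases eq_or_lt_of_le hY1 with h1 | h1
    · refine ⟨0, le_refl _, zero_le_one, ?_⟩
      subst h1
      nlinarith [sq_nonneg X]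
    · have h2 : 0 < 1 - Y ^ 2 := by nlinarith
      refine ⟨X ^ 2 / (1 - Y ^ 2), by positivity, ?_, by field_simp⟩
      rw [div_le_one h2]; linarith
  obtain ⟨s, hs0, hs1, hX⟩ := hs
  have key : DD X Y = b0 Y * (1 - s) ^ 5 + b1 Y * (s * (1 - s) ^ 4) + b2 Y * (s ^ 2 * (1 - s) ^ 3) +
      b3 Y * (s ^ 3 * (1 - s) ^ 2) + b4 Y * (s ^ 4 * (1 - s)) + b5 Y * s ^ 5 := by
    have e4 : X ^ 4 = (X ^ 2) ^ 2 := by ring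
    have e6 : X ^ 6 = (X ^ 2) ^ 3 := by ring
    have e8 : X ^ 8 = (X ^ 2) ^ 4 := by ring
    have e10 : X ^ 10 = (X ^ 2) ^ 5 := by ring
    rw [DD, e4, e6, e8, e10, hX, b0, b1, b2, b3, b4, b5]
    ring
  have h1s : 0 ≤ 1 - s := by linarith
  have p0 := b0_pos hY hY1
  have p1 := b1_pos hY hY1
  have p2 := b2_pos hY hY1
  have p3 := b3_pos hY hY1
  have p4 := b4_pos hY hY1
  have p5 := b5_pos hY hY1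
  rw [key]
  rcases eq_or_lt_of_le hs0 with h0 | h0
  · subst h0; simpa using p0
  · have : 0 < b5 Y * s ^ 5 := by positivity
    positivity

end

end Pool.Agent.FibC
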