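import Pool.Agent.Lib.FibC.SeD
import Pool.Agent.Lib.FibC.Nrm

/-!
# SeE: the chart of the torus

PROOF. `sl_ech`: `Real.cos_arctan`, `Real.sin_arctan`. `vs_ss`: `sn (ss ε ω) = (ε / 4) ‖ω‖² / sn ω`
(`sn (conj ω) = sn ω`), so `vs ε (ss ε ω) = ε ss / (4 sn²) = conj ω / ‖ω‖² = 1 / ω`. `ss_vs`: with `v = vs ε s`, `ω = 1 / v = conj v / ‖v‖²`: `ss ε (1 / v) = s`. `ech_emb`: `ss ε`
is a homeomorphism of `ℂ` (inverse `s ↦ 1 / vs ε s = conj s * 4 sn s ² / (ε ‖s‖²)`, continuous at `0`); `s ↦ exp (i arctan s)` is an open embedding `ℝ → Circle` with image `{0 < re}`, inverse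
`x ↦ x.im / x.re`. `ech_surj`: `ω = 1 / vs ε (sl x)` (`0` if `sl x = 0`).
-/

set_option autoImplicit false

namespace Pool.Agent.FibC

open Complex ComplexConjugate Set

noncomputable section

private theorem exp_re (a : ℝ) : ((Circle.exp (Real.arctan a) : Circle) : ℂ).re =
    Real.cos (Real.arctan a) := by
  rw [Circle.coe_exp, Complex.exp_ofReal_mul_I_re]

private theorem exp_im (a : ℝ) : ((Circle.exp (Real.arctan a) : Circle) : ℂ).im =
    Real.sin (Real.arctan a) := by
  rw [Circle.coe_exp, Complex.exp_ofReal_mul_I_im]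

private theorem exp_div (a : ℝ) : ((Circle.exp (Real.arctan a) : Circle) : ℂ).im /
    ((Circle.exp (Real.arctan a) : Circle) : ℂ).re = a := by
  rw [exp_re, exp_im, ← Real.tan_eq_sin_div_cos, Real.tan_arctan]

private theorem circ (x : Circle) (h : 0 < (x : ℂ).re) :
    Circle.exp (Real.arctan ((x : ℂ).im / (x : ℂ).re)) = x := by
  have h1 : (x : ℂ).re ^ 2 + (x : ℂ).im ^ 2 = 1 := by
    have h2 := Circle.normSq_coe x
    rw [Complex.normSq_apply] at h2
    nlinarith
  have h3 : Real.sqrt (1 + ((x : ℂ).im / (x : ℂ).re) ^ 2) = 1 / (x : ℂ).re := by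
    rw [Real.sqrt_eq_iff_mul_self_eq_of_pos (by positivity)]
    field_simp
    linarith
  apply Subtype.ext
  apply Complex.ext
  · rw [exp_re, Real.cos_arctan, h3]
    field_simp
  · rw [exp_im, Real.sin_arctan, h3]
    field_simp

private theorem sn_conj (z : ℂ) : sn (conj z) = sn z := by
  unfold sn
  rw [Complex.conj_re, Complex.conj_im, abs_neg]

theorem sl_ech (ε : ℝ) (ω : ℂ) : sl (ech ε ω) = ss ε ω := by
  unfold sl ech
  apply Complex.ext
  · exact exp_div _
  · exact exp_div _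

private theorem cc_pos {ε : ℝ} (hε : 0 < ε) {ω : ℂ} (h : ω ≠ 0) :
    0 < ε / 4 * (‖ω‖ / sn ω) ^ 2 := by
  have h1 := sn_pos h
  have h2 := norm_pos_iff.2 h
  positivity

theorem vs_ss {ε : ℝ} (hε : 0 < ε) {ω : ℂ} (h : ω ≠ 0) : vs ε (ss ε ω) = 1 / ω := by
  have h1 := sn_pos h
  have h2 := norm_pos_iff.2 h
  have h3 := cc_pos hε h
  unfold vs ss
  rw [sn_mul h3.le, sn_conj, ← mul_assoc, ← Complex.ofReal_mul]
  have h4 : ε / (4 * (ε / 4 * (‖ω‖ / sn ω) ^ 2 * sn ω) ^ 2) * (ε / 4 * (‖ω‖ / sn ω) ^ 2) =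
      1 / ‖ω‖ ^ 2 := by
    field_simp
  rw [h4]
  have h5 : ω * conj ω = ((‖ω‖ ^ 2 : ℝ) : ℂ) := by
    rw [Complex.mul_conj, Complex.normSq_eq_norm_sq]
  have h6 : ((‖ω‖ ^ 2 : ℝ) : ℂ) ≠ 0 := by
    rw [Complex.ofReal_ne_zero]; positivity
  rw [Complex.ofReal_div, Complex.ofReal_one]
  field_simp
  rw [mul_comm, h5]

theorem sn_vs {ε : ℝ} (hε : 0 < ε) {s : ℂ} (h : s ≠ 0) : sn (vs ε s) = ε / (4 * sn s) := by
  have h1 := sn_pos h
  unfold vs
  rw [sn_mul (by positivity)]
  field_simp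

theorem ss_vs {ε : ℝ} (hε : 0 < ε) {s : ℂ} (h : s ≠ 0) : ss ε (1 / vs ε s) = s := by
  have h1 := sn_pos h
  have h2 := norm_pos_iff.2 h
  set a : ℝ := ε / (4 * sn s ^ 2) with ha
  have ha0 : 0 < a := by positivity
  -- the inverse
  have h3 : 1 / vs ε s = ((1 / (a * ‖s‖ ^ 2) : ℝ) : ℂ) * conj s := by
    have h0 : vs ε s = (a : ℂ) * s := by
      rw [ha]
      rfl
    rw [h0]
    have h5 : s * conj s = ((‖s‖ ^ 2 : ℝ) : ℂ) := by
      rw [Complex.mul_conj, Complex.normSq_eq_norm_sq]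
    have h6 : ((‖s‖ ^ 2 : ℝ) : ℂ) ≠ 0 := by
      rw [Complex.ofReal_ne_zero]; positivity
    have h7 : (a : ℂ) ≠ 0 := by
      rw [Complex.ofReal_ne_zero]; exact ha0.ne'
    have h9 : ((1 / (a * ‖s‖ ^ 2) : ℝ) : ℂ) = 1 / ((a : ℂ) * (s * conj s)) := by
      rw [h5, Complex.ofReal_div, Complex.ofReal_one, Complex.ofReal_mul]
    rw [h9]
    have h8 : conj s ≠ 0 := by
      intro h10
      apply h
      rw [← Complex.conj_conj s, h10, map_zero]
    field_simp
  rw [h3]
  have hc : 0 < 1 / (a * ‖s‖ ^ 2) := by positivity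
  unfold ss
  rw [sn_mul hc.le, sn_conj, norm_mul, Complex.norm_real, Real.norm_of_nonneg hc.le,
    Complex.norm_conj, map_mul, Complex.conj_ofReal, Complex.conj_conj, ← mul_assoc,
    ← Complex.ofReal_mul]
  have h4 : ε / 4 * (1 / (a * ‖s‖ ^ 2) * ‖s‖ / (1 / (a * ‖s‖ ^ 2) * sn s)) ^ 2 *
      (1 / (a * ‖s‖ ^ 2)) = 1 := by
    rw [ha]
    field_simp
  rw [h4, Complex.ofReal_one, one_mul]

/-- continuity at the origin from a linear bound -/
private theorem cont_of {f : ℂ → ℂ} (h0 : f 0 = 0) (hf : ∀ z ≠ 0, ContinuousAt f z) (C : ℝ)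
    (hC : ∀ z, ‖f z‖ ≤ C * ‖z‖) : Continuous f := by
  rw [continuous_iff_continuousAt]
  intro z
  by_cases hz : z = 0
  · subst hz
    unfold ContinuousAt
    rw [h0]
    apply squeeze_zero_norm hC
    have : Filter.Tendsto (fun z : ℂ => C * ‖z‖) (nhds 0) (nhds (C * ‖(0 : ℂ)‖)) :=
      (continuous_const.mul continuous_norm).tendsto 0
    simpa using this
  · exact hf z hz

private theorem ss_cont {ε : ℝ} (hε : 0 < ε) : Continuous (ss ε) := by
  refine cont_of (by simp [ss]) (fun z hz => ?_) ε (fun z => ?_)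
  · unfold ss
    have h1 : ContinuousAt (fun ω : ℂ => ε / 4 * (‖ω‖ / sn ω) ^ 2) z :=
      continuousAt_const.mul ((continuous_norm.continuousAt.div sn_cont.continuousAt
        (sn_pos hz).ne').pow 2)
    exact (Complex.continuous_ofReal.continuousAt.comp h1).mul
      Complex.continuous_conj.continuousAt
  · by_cases hz : z = 0
    · subst hz
      simp [ss]
    · have h1 := sn_pos hz
      have h2 := le_sn z
      have h3 := norm_nonneg z
      unfold ss
      rw [norm_mul, Complex.norm_real, Real.norm_of_nonneg (cc_pos hε hz).le, Complex.norm_conj]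
      apply mul_le_mul_of_nonneg_right _ h3
      have h4 : ‖z‖ / sn z ≤ 2 := by
        rw [div_le_iff₀ h1]
        exact h2
      have h5 : 0 ≤ ‖z‖ / sn z := by positivity
      have h6 : (‖z‖ / sn z) ^ 2 ≤ 4 := by nlinarith
      nlinarith

private theorem ivs_cont {ε : ℝ} (hε : 0 < ε) : Continuous fun s : ℂ => 1 / vs ε s := by
  refine cont_of (by simp [vs]) (fun z hz => ?_) (4 / ε) (fun z => ?_)
  · have h1 := sn_pos hz
    have h2 : ContinuousAt (fun s : ℂ => ε / (4 * sn s ^ 2)) z :=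
      continuousAt_const.div (continuousAt_const.mul (sn_cont.continuousAt.pow 2))
        (by positivity)
    have h3 : ContinuousAt (vs ε) z := by
      unfold vs
      exact (Complex.continuous_ofReal.continuousAt.comp h2).mul continuousAt_id
    refine continuousAt_const.div h3 ?_
    unfold vs
    refine mul_ne_zero ?_ hz
    rw [Complex.ofReal_ne_zero]
    positivity
  · by_cases hz : z = 0
    · subst hz
      simp [vs]
    · have h1 := sn_pos hz
      have h2 := sn_le z
      have h3 : 0 < ‖z‖ := norm_pos_iff.2 hz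
      unfold vs
      have h4 : 0 < ε / (4 * sn z ^ 2) := by positivity
      rw [norm_div, norm_mul, Complex.norm_real, Real.norm_of_nonneg h4.le, norm_one]
      have h5 : 1 / (ε / (4 * sn z ^ 2) * ‖z‖) = 4 / ε * (sn z ^ 2 / ‖z‖) := by
        field_simp
      rw [h5]
      apply mul_le_mul_of_nonneg_left _ (by positivity)
      rw [div_le_iff₀ h3]
      nlinarith

theorem ech_pos (ε : ℝ) (ω : ℂ) : 0 < ((ech ε ω).1 : ℂ).re ∧ 0 < ((ech ε ω).2 : ℂ).re := by
  unfold ech
  constructor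
  · show 0 < ((Circle.exp (Real.arctan (ss ε ω).re) : Circle) : ℂ).re
    rw [exp_re]
    exact Real.cos_arctan_pos _
  · show 0 < ((Circle.exp (Real.arctan (ss ε ω).im) : Circle) : ℂ).re
    rw [exp_re]
    exact Real.cos_arctan_pos _

private theorem ech_inv {ε : ℝ} (hε : 0 < ε) {x : Torus} (h : 0 < (x.1 : ℂ).re)
    (h' : 0 < (x.2 : ℂ).re) : ech ε (1 / vs ε (sl x)) = x := by
  have h1 : ss ε (1 / vs ε (sl x)) = sl x := by
    by_cases hs : sl x = 0
    · rw [hs]
      simp [vs, ss]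
    · exact ss_vs hε hs
  unfold ech
  rw [h1]
  apply Prod.ext
  · exact circ x.1 h
  · exact circ x.2 h'

private theorem inv_ech {ε : ℝ} (hε : 0 < ε) (ω : ℂ) : 1 / vs ε (sl (ech ε ω)) = ω := by
  rw [sl_ech]
  by_cases h : ω = 0
  · subst h
    simp [vs, ss]
  · rw [vs_ss hε h]
    simp

private theorem ech_cont {ε : ℝ} (hε : 0 < ε) : Continuous (ech ε) := by
  have h1 := ss_cont hε
  unfold ech
  exact (Circle.exp.continuous.comp (Real.continuous_arctan.comp
    (Complex.continuous_re.comp h1))).prodMk (Circle.exp.continuous.comp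
      (Real.continuous_arctan.comp (Complex.continuous_im.comp h1)))

private abbrev Tp : Type := {x : Torus // 0 < (x.1 : ℂ).re ∧ 0 < (x.2 : ℂ).re}

private theorem mk_cont {X : Type*} [TopologicalSpace X] {f g : X → ℝ} (hf : Continuous f)
    (hg : Continuous g) : Continuous fun x => (⟨f x, g x⟩ : ℂ) :=
  Complex.equivRealProdCLM.symm.continuous.comp (hf.prodMk hg)

private theorem c1 : Continuous fun x : Torus => (x.1 : ℂ) :=
  continuous_subtype_val.comp continuous_fst

private theorem c2 : Continuous fun x : Torus => (x.2 : ℂ) :=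
  continuous_subtype_val.comp continuous_snd

private theorem sl_cont : Continuous fun x : Tp => sl x.1 := by
  unfold sl
  refine mk_cont ?_ ?_
  · exact ((Complex.continuous_im.comp (c1.comp continuous_subtype_val))).div
      (Complex.continuous_re.comp (c1.comp continuous_subtype_val)) fun x => x.2.1.ne'
  · exact ((Complex.continuous_im.comp (c2.comp continuous_subtype_val))).div
      (Complex.continuous_re.comp (c2.comp continuous_subtype_val)) fun x => x.2.2.ne'

private def eh {ε : ℝ} (hε : 0 < ε) : ℂ ≃ₜ Tp where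
  toFun ω := ⟨ech ε ω, ech_pos ε ω⟩
  invFun x := 1 / vs ε (sl x.1)
  left_inv ω := inv_ech hε ω
  right_inv x := Subtype.ext (ech_inv hε x.2.1 x.2.2)
  continuous_toFun := (ech_cont hε).subtype_mk _
  continuous_invFun := (ivs_cont hε).comp sl_cont

theorem ech_emb {ε : ℝ} (hε : 0 < ε) : Topology.IsOpenEmbedding (ech ε) := by
  have h1 : IsOpen {x : Torus | 0 < (x.1 : ℂ).re ∧ 0 < (x.2 : ℂ).re} :=
    (isOpen_lt continuous_const (Complex.continuous_re.comp c1)).inter
      (isOpen_lt continuous_const (Complex.continuous_re.comp c2))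
  have h2 := h1.isOpenEmbedding_subtypeVal.comp (eh hε).isOpenEmbedding
  exact h2

theorem ech_surj {ε : ℝ} (hε : 0 < ε) {x : Torus} (h : 0 < (x.1 : ℂ).re) (h' : 0 < (x.2 : ℂ).re) :
    ∃ ω : ℂ, ech ε ω = x :=
  ⟨1 / vs ε (sl x), ech_inv hε h h'⟩

end

end Pool.Agent.FibC
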