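import Pool.Agent.Lib.FibC.SeD
import Pool.Agent.Lib.FibC.XC

/-!
# SeI: the part of the boundary over the torus minus the square

PROOF. `(a, b) = kap x s`: `sn a = 1 + s.re / (4 sn s)`, so `|sn a - 1| = |s.re| / (4 sn s)`, `tor (kap x s) = 1/4`; `a` is a positive multiple of `x.1`. `gg_kap`: if `x ∉ Sq` or `sn (sl x) = 1/2`: some component, say `x.1`, has `re ≤ 0` or
`|im| ≥ re / 2`; the same for `a`; then `gg1 (a - 1) ≥ 1`. If `x ∈ Sq` and `sn (sl x) < 1/2`: `gg < 1`. `Fi_edge`: if `x ∈ Sq`, `sn (sl x) = 1/2`: `gg (kap x s) = 1`, `inv_one`, `LL ε (kap x s) = ((s.re + i s.im) / (4 sn s), ε sl x)`.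
`Fi_inj`: `Phi` injective on `UU ε ⊇ Kin`, `LL ε` on `{gg ≤ 1}`, `inv`; `x.1 = un a`, `x.2 = un b`, `(sn a - 1) + i (sn b - 1) = s / (4 sn s)`, `s = un` of it. `Fi_surj`: `p ∈ Min`, `e = inv (LLi ε p)`, `tor e = 1/4`, `1 ≤ gg e`,
`x = (un e.1, un e.2)`, `s = un ((sn e.1 - 1) + i (sn e.2 - 1))`; `1 ≤ gg e` gives `x ∉ Sq` or `sn (sl x) = 1/2`.
-/

set_option autoImplicit false

namespace Pool.Agent.FibC

open Complex ComplexConjugate Set

noncomputable section

/-- the closure of the complement of the square -/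
def SqC : Set Torus := {x | x ∈ Sq → sn (sl x) = 1 / 2}

private theorem cn (z : Circle) : (z : ℂ) ≠ 0 := Circle.coe_ne_zero z

private theorem csn (z : Circle) : 0 < sn (z : ℂ) := sn_pos (cn z)

private theorem csq (z : Circle) : (z : ℂ).re ^ 2 + (z : ℂ).im ^ 2 = 1 := by
  have h := Circle.normSq_coe z
  rw [normSq_apply] at h
  linarith

private theorem abs_re_div (s : Circle) : |(s : ℂ).re / (4 * sn s)| ≤ 1 / 4 := by
  have h := csn s
  rw [abs_div, abs_of_pos (show (0 : ℝ) < 4 * sn s by linarith), div_le_iff₀ (by linarith)]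
  have : |(s : ℂ).re| ≤ sn s := le_max_left _ _
  linarith

private theorem abs_im_div (s : Circle) : |(s : ℂ).im / (4 * sn s)| ≤ 1 / 4 := by
  have h := csn s
  rw [abs_div, abs_of_pos (show (0 : ℝ) < 4 * sn s by linarith), div_le_iff₀ (by linarith)]
  have : |(s : ℂ).im| ≤ sn s := le_max_right _ _
  linarith

private theorem k1pos (x : Torus) (s : Circle) : 0 < (1 + (s : ℂ).re / (4 * sn s)) / sn x.1 := by
  refine div_pos ?_ (csn x.1)
  have := (abs_le.1 (abs_re_div s)).1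
  linarith

private theorem k2pos (x : Torus) (s : Circle) : 0 < (1 + (s : ℂ).im / (4 * sn s)) / sn x.2 := by
  refine div_pos ?_ (csn x.2)
  have := (abs_le.1 (abs_im_div s)).1
  linarith

private theorem kap_sn1 (x : Torus) (s : Circle) :
    sn (kap x s).1 = 1 + (s : ℂ).re / (4 * sn s) := by
  have h : sn (kap x s).1 = (1 + (s : ℂ).re / (4 * sn s)) / sn x.1 * sn x.1 :=
    sn_mul (k1pos x s).le _
  rw [h, div_mul_cancel₀ _ (csn x.1).ne']

private theorem kap_sn2 (x : Torus) (s : Circle) :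
    sn (kap x s).2 = 1 + (s : ℂ).im / (4 * sn s) := by
  have h : sn (kap x s).2 = (1 + (s : ℂ).im / (4 * sn s)) / sn x.2 * sn x.2 :=
    sn_mul (k2pos x s).le _
  rw [h, div_mul_cancel₀ _ (csn x.2).ne']

private theorem mem_Sq1 (z : Circle) : (0 < (z : ℂ).re ∧ |(z : ℂ).im / (z : ℂ).re| ≤ 1 / 2) ↔
    2 * |(z : ℂ).im| ≤ (z : ℂ).re := by
  constructor
  · rintro ⟨h1, h2⟩
    rw [abs_div, abs_of_pos h1, div_le_iff₀ h1] at h2
    linarith
  · intro h
    have h1 : 0 < (z : ℂ).re := by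
      by_contra hn
      push Not at hn
      have h3 := abs_nonneg (z : ℂ).im
      have h4 : |(z : ℂ).im| = 0 := by linarith
      have h5 : (z : ℂ).re = 0 := by linarith
      have h6 := csq z
      rw [h5, abs_eq_zero.1 h4] at h6
      norm_num at h6
    refine ⟨h1, ?_⟩
    rw [abs_div, abs_of_pos h1, div_le_iff₀ h1]
    linarith

private theorem mem_Sq (x : Torus) : x ∈ Sq ↔
    2 * |(x.1 : ℂ).im| ≤ (x.1 : ℂ).re ∧ 2 * |(x.2 : ℂ).im| ≤ (x.2 : ℂ).re := by
  rw [← mem_Sq1, ← mem_Sq1]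
  show (0 < (x.1 : ℂ).re ∧ 0 < (x.2 : ℂ).re ∧ max _ _ ≤ (1 / 2 : ℝ)) ↔ _
  rw [max_le_iff]
  simp only [sl]
  tauto

private theorem sl_lt {x : Torus} (hx : x ∈ Sq) : sn (sl x) < 1 / 2 ↔
    2 * |(x.1 : ℂ).im| < (x.1 : ℂ).re ∧ 2 * |(x.2 : ℂ).im| < (x.2 : ℂ).re := by
  obtain ⟨h1, h2, -⟩ := hx
  unfold sn
  rw [max_lt_iff]
  simp only [sl]
  rw [abs_div, abs_div, abs_of_pos h1, abs_of_pos h2, div_lt_iff₀ h1, div_lt_iff₀ h2]
  constructor
  · rintro ⟨h3, h4⟩
    constructor <;> linarith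
  · rintro ⟨h3, h4⟩
    constructor <;> linarith

private theorem mem_SqC (x : Torus) : x ∈ SqC ↔
    (x.1 : ℂ).re ≤ 2 * |(x.1 : ℂ).im| ∨ (x.2 : ℂ).re ≤ 2 * |(x.2 : ℂ).im| := by
  have hdef : x ∈ SqC ↔ (x ∈ Sq → sn (sl x) = 1 / 2) := Iff.rfl
  rw [hdef]
  constructor
  · intro h
    by_contra hn
    push Not at hn
    have h1 : x ∈ Sq := (mem_Sq x).2 ⟨hn.1.le, hn.2.le⟩
    have h2 := (sl_lt h1).2 hn
    rw [h h1] at h2
    exact lt_irrefl _ h2
  · intro h hx
    refine le_antisymm hx.2.2 ?_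
    by_contra hn
    push Not at hn
    have h1 := (sl_lt hx).1 hn
    rcases h with h | h
    · linarith [h1.1]
    · linarith [h1.2]

private theorem coe_cont : Continuous fun z : Circle => (z : ℂ) := continuous_subtype_val

theorem SqC_closed : IsClosed SqC ∧ IsClosed Sq := by
  have hc1 : Continuous fun x : Torus => (x.1 : ℂ) := coe_cont.comp continuous_fst
  have hc2 : Continuous fun x : Torus => (x.2 : ℂ) := coe_cont.comp continuous_snd
  have r1 := continuous_re.comp hc1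
  have r2 := continuous_re.comp hc2
  have i1 := continuous_const (y := (2 : ℝ)).mul (continuous_im.comp hc1).abs
  have i2 := continuous_const (y := (2 : ℝ)).mul (continuous_im.comp hc2).abs
  constructor
  · have h : SqC = {x : Torus | (x.1 : ℂ).re ≤ 2 * |(x.1 : ℂ).im|} ∪
        {x : Torus | (x.2 : ℂ).re ≤ 2 * |(x.2 : ℂ).im|} := by
      ext x
      exact mem_SqC x
    rw [h]
    exact (isClosed_le r1 i1).union (isClosed_le r2 i2)
  · have h : Sq = {x : Torus | 2 * |(x.1 : ℂ).im| ≤ (x.1 : ℂ).re} ∩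
        {x : Torus | 2 * |(x.2 : ℂ).im| ≤ (x.2 : ℂ).re} := by
      ext x
      exact mem_Sq x
    rw [h]
    exact (isClosed_le i1 r1).inter (isClosed_le i2 r2)

theorem tor_kap (x : Torus) (s : Circle) : tor (kap x s) = 1 / 4 := by
  have h := csn s
  have h4 : (0 : ℝ) < 4 * sn (s : ℂ) := by linarith
  unfold tor
  rw [kap_sn1, kap_sn2, add_sub_cancel_left, add_sub_cancel_left, abs_div, abs_div,
    abs_of_pos h4]
  have key : ∀ a b c : ℝ, 0 ≤ c → max (a / c) (b / c) = max a b / c :=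
    fun a b c hc => max_div_div_right hc a b
  refine (key _ _ _ h4.le).trans ?_
  have h5 : max |(s : ℂ).re| |(s : ℂ).im| = sn (s : ℂ) := rfl
  refine (congrArg (· / (4 * sn (s : ℂ))) h5).trans ?_
  show sn (s : ℂ) / (4 * sn (s : ℂ)) = 1 / 4
  field_simp

private theorem gg_ge {e : ℂ × ℂ} (h : e.1.re ≤ 2 * |e.1.im| ∨ e.2.re ≤ 2 * |e.2.im|) :
    1 ≤ gg e := by
  unfold gg gg1
  rcases h with h | h
  · refine le_max_of_le_left (le_max_of_le_right ?_)
    simp only [sub_re, sub_im, one_re, one_im, sub_zero]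
    linarith
  · refine le_max_of_le_right (le_max_of_le_right ?_)
    simp only [sub_re, sub_im, one_re, one_im, sub_zero]
    linarith

private theorem gg_gt {e : ℂ × ℂ} (h : e.1.re < 2 * |e.1.im| ∨ e.2.re < 2 * |e.2.im|) :
    1 < gg e := by
  unfold gg gg1
  rcases h with h | h
  · refine lt_max_of_lt_left (lt_max_of_lt_right ?_)
    simp only [sub_re, sub_im, one_re, one_im, sub_zero]
    linarith
  · refine lt_max_of_lt_right (lt_max_of_lt_right ?_)
    simp only [sub_re, sub_im, one_re, one_im, sub_zero]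
    linarith

private theorem kap_re1 (x : Torus) (s : Circle) : (kap x s).1.re =
    (1 + (s : ℂ).re / (4 * sn s)) / sn x.1 * (x.1 : ℂ).re := re_ofReal_mul _ _
private theorem kap_im1 (x : Torus) (s : Circle) : (kap x s).1.im =
    (1 + (s : ℂ).re / (4 * sn s)) / sn x.1 * (x.1 : ℂ).im := im_ofReal_mul _ _
private theorem kap_re2 (x : Torus) (s : Circle) : (kap x s).2.re =
    (1 + (s : ℂ).im / (4 * sn s)) / sn x.2 * (x.2 : ℂ).re := re_ofReal_mul _ _
private theorem kap_im2 (x : Torus) (s : Circle) : (kap x s).2.im =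
    (1 + (s : ℂ).im / (4 * sn s)) / sn x.2 * (x.2 : ℂ).im := im_ofReal_mul _ _

theorem gg_kap {x : Torus} (hx : x ∈ SqC) (s : Circle) : 1 ≤ gg (kap x s) := by
  rw [mem_SqC] at hx
  refine gg_ge ?_
  have h1 := k1pos x s
  have h2 := k2pos x s
  rw [kap_re1, kap_im1, kap_re2, kap_im2, abs_mul, abs_mul, abs_of_pos h1, abs_of_pos h2]
  rcases hx with h | h
  · left; nlinarith
  · right; nlinarith

private theorem gg_kap_lt {x : Torus} (hx : x ∉ Sq) (s : Circle) : 1 < gg (kap x s) := by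
  rw [mem_Sq, not_and_or, not_le, not_le] at hx
  refine gg_gt ?_
  have h1 := k1pos x s
  have h2 := k2pos x s
  rw [kap_re1, kap_im1, kap_re2, kap_im2, abs_mul, abs_mul, abs_of_pos h1, abs_of_pos h2]
  rcases hx with h | h
  · left; nlinarith
  · right; nlinarith

theorem Fi_mem {ε : ℝ} (h : IsTube ε) {x : Torus} (hx : x ∈ SqC) (s : Circle) :
    LL ε (inv (kap x s)) ∈ Min ε := ⟨kap x s, ⟨gg_kap hx s, tor_kap x s⟩, rfl⟩

private theorem re_inv {e : ℂ × ℂ} (h : 1 ≤ gg e) : (inv e).1.re ≠ 0 ∧ (inv e).2.re ≠ 0 := by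
  have h1 : gg (inv e) ≤ 1 := by
    rw [gg_inv]
    exact inv_le_one_of_one_le₀ h
  obtain ⟨h2, h3⟩ := re_of_gg h1
  constructor <;> intro h0 <;> linarith

private theorem gg_one' : gg (1 : ℂ × ℂ) = 0 := by simp [gg, gg1]

private theorem kap_cont : Continuous fun z : Torus × Circle => kap z.1 z.2 := by
  have hc1 : Continuous fun z : Torus × Circle => (z.1.1 : ℂ) :=
    coe_cont.comp (continuous_fst.comp continuous_fst)
  have hc2 : Continuous fun z : Torus × Circle => (z.1.2 : ℂ) :=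
    coe_cont.comp (continuous_snd.comp continuous_fst)
  have hs : Continuous fun z : Torus × Circle => (z.2 : ℂ) :=
    coe_cont.comp continuous_snd
  have d : Continuous fun z : Torus × Circle => 4 * sn z.2 :=
    continuous_const.mul (sn_cont.comp hs)
  have d0 : ∀ z : Torus × Circle, 4 * sn z.2 ≠ 0 := fun z => by have := csn z.2; positivity
  unfold kap
  refine Continuous.prodMk ?_ ?_
  · refine (continuous_ofReal.comp ?_).mul hc1
    exact (continuous_const.add ((continuous_re.comp hs).div d d0)).div (sn_cont.comp hc1)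
      fun z => (csn z.1.1).ne'
  · refine (continuous_ofReal.comp ?_).mul hc2
    exact (continuous_const.add ((continuous_im.comp hs).div d d0)).div (sn_cont.comp hc2)
      fun z => (csn z.1.2).ne'

theorem Fi_cont {ε : ℝ} (h : IsTube ε) :
    ContinuousOn (fun z : Torus × Circle => Fi ε z.1 z.2) (SqC ×ˢ univ) := by
  have h1 : ContinuousOn (fun z : Torus × Circle => LL ε (inv (kap z.1 z.2)))
      (SqC ×ˢ univ) := by
    intro z hz
    have hg := gg_kap hz.1 z.2
    have hne : kap z.1 z.2 ≠ 1 := by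
      intro he
      rw [he, gg_one'] at hg
      linarith
    obtain ⟨r1, r2⟩ := re_inv hg
    have c1 : ContinuousAt (fun z : Torus × Circle => kap z.1 z.2) z := kap_cont.continuousAt
    have c2 : ContinuousAt (fun z : Torus × Circle => inv (kap z.1 z.2)) z :=
      ContinuousAt.comp (f := fun z : Torus × Circle => kap z.1 z.2) (inv_cont hne) c1
    exact (ContinuousAt.comp (f := fun z : Torus × Circle => inv (kap z.1 z.2))
      (LL_cont ε r1 r2) c2).continuousWithinAt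
  refine (Phi_cont h).comp h1 fun z hz => ?_
  exact (sub_UU h).2.2 ((sub_UU h).2.1 (Or.inr (Fi_mem h hz.1 z.2)))

private theorem pos_mul_circle {a b : ℝ} (ha : 0 < a) (hb : 0 < b) {x y : Circle}
    (h : (a : ℂ) * (x : ℂ) = (b : ℂ) * (y : ℂ)) : a = b ∧ x = y := by
  have h1 := congrArg norm h
  rw [norm_mul, norm_mul, Circle.norm_coe, Circle.norm_coe, Complex.norm_real,
    Complex.norm_real, mul_one, mul_one, Real.norm_of_nonneg ha.le, Real.norm_of_nonneg hb.le]
    at h1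
  refine ⟨h1, ?_⟩
  rw [← h1] at h
  have h2 : (a : ℂ) ≠ 0 := by exact_mod_cast ha.ne'
  exact Circle.ext (mul_left_cancel₀ h2 h)

private theorem kap_inj {x x' : Torus} {s s' : Circle} (h : kap x s = kap x' s') :
    x = x' ∧ s = s' := by
  have e1 := congrArg Prod.fst h
  have e2 := congrArg Prod.snd h
  obtain ⟨-, f1⟩ := pos_mul_circle (k1pos x s) (k1pos x' s') e1
  obtain ⟨-, f2⟩ := pos_mul_circle (k2pos x s) (k2pos x' s') e2
  refine ⟨Prod.ext f1 f2, ?_⟩
  have g1 := congrArg sn e1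
  have g2 := congrArg sn e2
  rw [kap_sn1, kap_sn1] at g1
  rw [kap_sn2, kap_sn2] at g2
  have hs := csn s
  have hs' := csn s'
  have h3 : ((1 / (4 * sn s) : ℝ) : ℂ) * (s : ℂ) = ((1 / (4 * sn s') : ℝ) : ℂ) * (s' : ℂ) := by
    apply Complex.ext
    · rw [re_ofReal_mul, re_ofReal_mul]
      have : (s : ℂ).re / (4 * sn s) = (s' : ℂ).re / (4 * sn s') := by linarith
      rw [one_div_mul_eq_div, one_div_mul_eq_div]
      exact this
    · rw [im_ofReal_mul, im_ofReal_mul]
      have : (s : ℂ).im / (4 * sn s) = (s' : ℂ).im / (4 * sn s') := by linarith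
      rw [one_div_mul_eq_div, one_div_mul_eq_div]
      exact this
  exact (pos_mul_circle (by positivity) (by positivity) h3).2

theorem Fi_inj {ε : ℝ} (h : IsTube ε) :
    InjOn (fun z : Torus × Circle => Fi ε z.1 z.2) (SqC ×ˢ univ) := by
  intro z hz z' hz' he
  have hU : ∀ z : Torus × Circle, z ∈ SqC ×ˢ (univ : Set Circle) →
      LL ε (inv (kap z.1 z.2)) ∈ UU ε := fun z hz =>
    (sub_UU h).2.2 ((sub_UU h).2.1 (Or.inr (Fi_mem h hz.1 z.2)))
  have h1 : LL ε (inv (kap z.1 z.2)) = LL ε (inv (kap z'.1 z'.2)) :=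
    Phi_inj h (hU z hz) (hU z' hz') he
  obtain ⟨r1, r2⟩ := re_inv (gg_kap hz.1 z.2)
  obtain ⟨r1', r2'⟩ := re_inv (gg_kap hz'.1 z'.2)
  have h2 := congrArg (LLi ε) h1
  rw [LLi_LL h.pos r1 r2, LLi_LL h.pos r1' r2'] at h2
  have h3 := congrArg inv h2
  rw [inv_inv, inv_inv] at h3
  obtain ⟨h4, h5⟩ := kap_inj h3
  exact Prod.ext h4 h5

/-- the unit vector as a point of the circle -/
private theorem un_circle {z : ℂ} (hz : z ≠ 0) : ∃ x : Circle, z = ((‖z‖ : ℝ) : ℂ) * (x : ℂ) := by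
  have hn : ‖z‖ ≠ 0 := norm_ne_zero_iff.2 hz
  have h1 : z / ((‖z‖ : ℝ) : ℂ) ∈ Submonoid.unitSphere ℂ := by
    refine mem_sphere_zero_iff_norm.2 ?_
    rw [norm_div, Complex.norm_real, Real.norm_of_nonneg (norm_nonneg _), div_self hn]
  refine ⟨⟨z / ((‖z‖ : ℝ) : ℂ), h1⟩, ?_⟩
  have hn' : ((‖z‖ : ℝ) : ℂ) ≠ 0 := by exact_mod_cast hn
  show z = ((‖z‖ : ℝ) : ℂ) * (z / ((‖z‖ : ℝ) : ℂ))
  field_simp

theorem Fi_surj {ε : ℝ} (h : IsTube ε) {p : ℂ × ℂ} (hp : p ∈ Min ε) :
    ∃ x ∈ SqC, ∃ s : Circle, Phi p = Fi ε x s := by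
  obtain ⟨e, ⟨hg, ht⟩, rfl⟩ := hp
  unfold tor at ht
  have t1 : |sn e.1 - 1| ≤ 1 / 4 := ht ▸ le_max_left _ _
  have t2 : |sn e.2 - 1| ≤ 1 / 4 := ht ▸ le_max_right _ _
  have s1 : 0 < sn e.1 := by linarith [(abs_le.1 t1).1]
  have s2 : 0 < sn e.2 := by linarith [(abs_le.1 t2).1]
  have n1 : e.1 ≠ 0 := fun h0 => by rw [sn_eq_zero.2 h0] at s1; exact lt_irrefl _ s1
  have n2 : e.2 ≠ 0 := fun h0 => by rw [sn_eq_zero.2 h0] at s2; exact lt_irrefl _ s2
  set w : ℂ := ⟨sn e.1 - 1, sn e.2 - 1⟩ with hw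
  have hsw : sn w = 1 / 4 := ht
  have nw : w ≠ 0 := fun h0 => by rw [sn_eq_zero.2 h0] at hsw; norm_num at hsw
  obtain ⟨x1, hx1⟩ := un_circle n1
  obtain ⟨x2, hx2⟩ := un_circle n2
  obtain ⟨s, hs⟩ := un_circle nw
  have p1 : 0 < ‖e.1‖ := norm_pos_iff.2 n1
  have p2 : 0 < ‖e.2‖ := norm_pos_iff.2 n2
  have pw : 0 < ‖w‖ := norm_pos_iff.2 nw
  have f1 : sn e.1 = ‖e.1‖ * sn x1 := by
    conv_lhs => rw [hx1]
    exact sn_mul (norm_nonneg _) _
  have f2 : sn e.2 = ‖e.2‖ * sn x2 := by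
    conv_lhs => rw [hx2]
    exact sn_mul (norm_nonneg _) _
  have fw : 1 / 4 = ‖w‖ * sn s := by
    rw [← hsw]
    conv_lhs => rw [hs]
    exact sn_mul (norm_nonneg _) _
  have hsn := csn s
  have w1 : sn e.1 - 1 = ‖w‖ * (s : ℂ).re := by
    have := congrArg re hs
    rwa [re_ofReal_mul] at this
  have w2 : sn e.2 - 1 = ‖w‖ * (s : ℂ).im := by
    have := congrArg im hs
    rwa [im_ofReal_mul] at this
  have hq : 4 * sn s = 1 / ‖w‖ := by
    rw [eq_div_iff pw.ne']
    linarith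
  have g1 : 1 + (s : ℂ).re / (4 * sn s) = sn e.1 := by
    rw [hq, div_div_eq_mul_div, div_one, mul_comm, ← w1]; ring
  have g2 : 1 + (s : ℂ).im / (4 * sn s) = sn e.2 := by
    rw [hq, div_div_eq_mul_div, div_one, mul_comm, ← w2]; ring
  have hk : kap (x1, x2) s = e := by
    unfold kap
    refine Prod.ext ?_ ?_
    · simp only
      rw [g1, f1, mul_div_assoc, div_self (csn x1).ne', mul_one]
      exact hx1.symm
    · simp only
      rw [g2, f2, mul_div_assoc, div_self (csn x2).ne', mul_one]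
      exact hx2.symm
  refine ⟨(x1, x2), ?_, s, ?_⟩
  · rw [mem_SqC]
    -- the same inequality for `e`
    have key : ∀ (a : ℂ), |sn a - 1| ≤ 1 / 4 → 1 ≤ gg1 (a - 1) → a.re ≤ 2 * |a.im| := by
      intro a ha h1
      unfold gg1 at h1
      simp only [sub_re, sub_im, one_re, one_im, sub_zero] at h1
      rcases le_max_iff.1 h1 with h2 | h2
      · have h3 := abs_le.1 ha
        have h4 : |a.re| ≤ sn a := le_max_left _ _
        have h5 := abs_nonneg a.im
        have h6 := (abs_le.1 (le_refl |a.re|)).2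
        have h7 : a.re ≤ 1 / 2 := by
          by_contra hn
          push Not at hn
          have : |a.re - 1| < 1 / 2 := by rw [abs_lt]; constructor <;> linarith
          linarith
        rcases le_total |a.re| |a.im| with h8 | h8
        · linarith
        · have h9 : sn a = |a.re| := max_eq_left h8
          rw [h9] at h3
          rcases abs_cases a.re with h10 | h10
          · linarith
          · linarith
      · linarith
    have hr1 : e.1.re = ‖e.1‖ * (x1 : ℂ).re := by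
      conv_lhs => rw [hx1]
      exact re_ofReal_mul _ _
    have hi1 : e.1.im = ‖e.1‖ * (x1 : ℂ).im := by
      conv_lhs => rw [hx1]
      exact im_ofReal_mul _ _
    have hr2 : e.2.re = ‖e.2‖ * (x2 : ℂ).re := by
      conv_lhs => rw [hx2]
      exact re_ofReal_mul _ _
    have hi2 : e.2.im = ‖e.2‖ * (x2 : ℂ).im := by
      conv_lhs => rw [hx2]
      exact im_ofReal_mul _ _
    rcases le_max_iff.1 hg with h1 | h1
    · left
      have h2 := key e.1 t1 h1
      rw [hr1, hi1, abs_mul, abs_of_pos p1] at h2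
      show (x1 : ℂ).re ≤ 2 * |(x1 : ℂ).im|
      refine le_of_mul_le_mul_left ?_ p1
      linarith
    · right
      have h2 := key e.2 t2 h1
      rw [hr2, hi2, abs_mul, abs_of_pos p2] at h2
      show (x2 : ℂ).re ≤ 2 * |(x2 : ℂ).im|
      refine le_of_mul_le_mul_left ?_ p2
      linarith
  · show Phi (LL ε (inv e)) = Phi (LL ε (inv (kap (x1, x2) s)))
    rw [hk]

theorem Fi_edge {ε : ℝ} (hε : 0 < ε) {x : Torus} (hx : x ∈ Sq) (h : sn (sl x) = 1 / 2) (s : Circle) :
    LL ε (inv (kap x s)) = (((1 / (4 * sn s) : ℝ) : ℂ) * (s : ℂ), (ε : ℂ) * sl x) := by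
  obtain ⟨q1, q2, -⟩ := id hx
  obtain ⟨m1, m2⟩ := (mem_Sq x).1 hx
  have sx1 : sn (x.1 : ℂ) = (x.1 : ℂ).re := by
    unfold sn
    rw [abs_of_pos q1]
    exact max_eq_left (by linarith [abs_nonneg (x.1 : ℂ).im])
  have sx2 : sn (x.2 : ℂ) = (x.2 : ℂ).re := by
    unfold sn
    rw [abs_of_pos q2]
    exact max_eq_left (by linarith [abs_nonneg (x.2 : ℂ).im])
  have a1 := abs_re_div s
  have a2 := abs_im_div s
  set α : ℝ := (s : ℂ).re / (4 * sn s) with hα
  set β : ℝ := (s : ℂ).im / (4 * sn s) with hβ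
  have re1 : (kap x s).1.re = 1 + α := by
    rw [kap_re1, sx1, ← hα, div_mul_cancel₀ _ q1.ne']
  have re2 : (kap x s).2.re = 1 + β := by
    rw [kap_re2, sx2, ← hβ, div_mul_cancel₀ _ q2.ne']
  have im1 : (kap x s).1.im = (1 + α) * ((x.1 : ℂ).im / (x.1 : ℂ).re) := by
    rw [kap_im1, sx1, ← hα]; ring
  have im2 : (kap x s).2.im = (1 + β) * ((x.2 : ℂ).im / (x.2 : ℂ).re) := by
    rw [kap_im2, sx2, ← hβ]; ring
  have pa : 0 < 1 + α := by linarith [(abs_le.1 a1).1]
  have pb : 0 < 1 + β := by linarith [(abs_le.1 a2).1]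
  have hs1 : |(x.1 : ℂ).im / (x.1 : ℂ).re| ≤ 1 / 2 := h ▸ le_max_left _ _
  have hs2 : |(x.2 : ℂ).im / (x.2 : ℂ).re| ≤ 1 / 2 := h ▸ le_max_right _ _
  have hg : gg (kap x s) = 1 := by
    refine le_antisymm ?_ (gg_kap (fun _ => h) s)
    unfold gg gg1
    simp only [sub_re, sub_im, one_re, one_im, sub_zero]
    rw [re1, re2, im1, im2, add_sub_cancel_left, add_sub_cancel_left, abs_mul, abs_mul,
      abs_of_pos pa, abs_of_pos pb]
    refine max_le (max_le (by linarith) ?_) (max_le (by linarith) ?_)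
    · nlinarith
    · nlinarith
  rw [inv_one hg]
  unfold LL
  rw [re1, re2, im1, im2]
  have hs := csn s
  refine Prod.ext ?_ ?_
  · apply Complex.ext
    · rw [re_ofReal_mul]
      show 1 + α - 1 = _
      rw [hα, one_div_mul_eq_div]; ring
    · rw [im_ofReal_mul]
      show 1 + β - 1 = _
      rw [hβ, one_div_mul_eq_div]; ring
  · apply Complex.ext
    · rw [re_ofReal_mul]
      show ε * ((1 + α) * ((x.1 : ℂ).im / (x.1 : ℂ).re) / (1 + α)) = _
      rw [mul_div_cancel_left₀ _ pa.ne']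
      rfl
    · rw [im_ofReal_mul]
      show ε * ((1 + β) * ((x.2 : ℂ).im / (x.2 : ℂ).re) / (1 + β)) = _
      rw [mul_div_cancel_left₀ _ pb.ne']
      rfl

/-- inside the bidisc the second coordinate is smaller than `ε / 2` -/
theorem Fi_lt {ε : ℝ} (hε : 0 < ε) {x : Torus} (hx : x ∉ Sq) (s : Circle) :
    sn (LL ε (inv (kap x s))).2 < ε / 2 := by
  have h1 := gg_kap_lt hx s
  have h2 : gg (inv (kap x s)) < 1 := by
    rw [gg_inv]
    exact inv_lt_one_of_one_lt₀ h1
  obtain ⟨r1, r2⟩ := re_inv h1.le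
  rw [← LLi_LL hε r1 r2, gg_LLi_lt hε] at h2
  exact h2.2

end

end Pool.Agent.FibC
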