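import Pool.Agent.Lib.FibC.SeV

/-!
# SeO: the part of the boundary over the base coordinates `ε / 2 ≤ sn v`

PROOF. `B = {v | v ≠ -1, ε/2 ≤ sn v}`. For `sn v = ε` both formulas agree (`nu_out`: `nu ε v s = 1`, `Vb_Phi`). `Fo_cont`: the two pieces `{ε ≤ sn v}`, `{ε/2 ≤ sn v ≤ ε}` are closed in `B × Circle`.
`Fo_inj`: for `ε ≤ sn v` the value is in `{‖q.2‖ = 1}` and not in `Phi '' {‖t‖ = 1, sn v < ε}` (`Vb_tube`); for `ε/2 ≤ sn v < ε` it is `Phi (t, v)` with `nu ε v t = 1`, `‖t‖ ≤ 1`; if such a value has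
`‖q.2‖ = 1` then `‖t‖ = 1` and it is in that set. Within the second piece `Phi` is injective on `UU ε`, `t = s / nu`, so `s = un t`. `Fo_mem`, `Fo_surj`: definition of `MM`, `mem_mid`; a point of `MM` is in the image of `Fo` iff it is
`Vb b s` outside the tube, or `Phi p` with `p ∈ Mmid`; the others are in `Phi '' Min`, or have `q.1 = PP 1 0` or `PP 0 1`.
-/

set_option autoImplicit false

namespace Pool.Agent.FibC

open Complex ComplexConjugate Set

noncomputable section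

private theorem one_add_ne {v : ℂ} (h : v ≠ -1) : (1 + v : ℂ) ≠ 0 := by
  intro h0
  exact h (by linear_combination h0)

private theorem UU_open (ε : ℝ) : IsOpen (UU ε) :=
  (isOpen_lt (continuous_norm.comp continuous_fst) continuous_const).inter
    (isOpen_lt (sn_cont.comp continuous_snd) continuous_const)

private theorem circ_cont : Continuous fun s : Circle => (s : ℂ) := continuous_subtype_val

private theorem circ_ne (s : Circle) : (s : ℂ) ≠ 0 := by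
  intro h0
  have := Circle.norm_coe s
  rw [h0, norm_zero] at this
  exact zero_ne_one this

private theorem nu_circ_pos (ε : ℝ) (v : ℂ) (s : Circle) : 0 < nu ε v s := nu_pos ε v (circ_ne s)

private theorem one_le_nu (ε : ℝ) (v : ℂ) (s : Circle) : 1 ≤ nu ε v s := by
  have := nu_ge ε v s
  rwa [Circle.norm_coe] at this

private theorem norm_t (ε : ℝ) (v : ℂ) (s : Circle) :
    ‖(((nu ε v s)⁻¹ : ℝ) : ℂ) * (s : ℂ)‖ = (nu ε v s)⁻¹ := by
  rw [norm_mul, Circle.norm_coe, mul_one, Complex.norm_real,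
    Real.norm_of_nonneg (inv_nonneg.2 (nu_circ_pos ε v s).le)]

private theorem norm_t_le (ε : ℝ) (v : ℂ) (s : Circle) :
    ‖(((nu ε v s)⁻¹ : ℝ) : ℂ) * (s : ℂ)‖ ≤ 1 := by
  rw [norm_t]
  exact inv_le_one_of_one_le₀ (one_le_nu ε v s)

private theorem mem_UU {ε : ℝ} (h : IsTube ε) {v : ℂ} (s : Circle) (hv : sn v < 2 * ε) :
    ((((nu ε v s)⁻¹ : ℝ) : ℂ) * (s : ℂ), v) ∈ UU ε := by
  refine ⟨?_, hv⟩
  have h1 := norm_t_le ε v s
  have h2 := h.pos
  show ‖(((nu ε v s)⁻¹ : ℝ) : ℂ) * (s : ℂ)‖ < 1 + ε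
  linarith

private theorem Fo_high {ε : ℝ} {v : ℂ} (h2 : ε ≤ sn v) (s : Circle) :
    Fo ε v s = Vb (1 + v) s := by
  unfold Fo
  rw [if_pos h2]

private theorem Fo_low {ε : ℝ} (h : IsTube ε) {v : ℂ} (hv : sn v < 2 * ε) (s : Circle) :
    Fo ε v s = Phi ((((nu ε v s)⁻¹ : ℝ) : ℂ) * (s : ℂ), v) := by
  unfold Fo
  split_ifs with h2
  · rw [nu_out h.pos h2, Circle.norm_coe, _root_.inv_one, Complex.ofReal_one, one_mul, Vb_Phi h hv]
  · rfl

/-- values of norm one which come from the tube -/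
private theorem Vb_ne {ε : ℝ} (h : IsTube ε) {v : ℂ} (h1 : v ≠ -1) (h2 : ε ≤ sn v) (s : Circle)
    {p : ℂ × ℂ} (hp : ‖p.1‖ ≤ 1) (hv : sn p.2 < ε) (he : Vb (1 + v) s = Phi p) : False := by
  have hpU : p ∈ UU ε := ⟨by linarith [h.pos], by linarith [h.pos]⟩
  have h3 := Vb_norm (one_add_ne h1) s
  rw [he] at h3
  have h4 : ‖p.1‖ = 1 := (h.eq p hpU).1 h3
  have h5 : Vb (1 + v) s ∈ Phi '' {p | ‖p.1‖ = 1 ∧ sn p.2 < ε} := ⟨p, ⟨h4, hv⟩, he.symm⟩
  have h6 := (Vb_tube h (one_add_ne h1) s).1 h5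
  linarith

theorem Fo_cont {ε : ℝ} (h : IsTube ε) : ContinuousOn (fun z : ℂ × Circle => Fo ε z.1 z.2)
    {z | z.1 ≠ -1 ∧ ε / 2 ≤ sn z.1} := by
  rintro ⟨v, s⟩ ⟨h1, -⟩
  refine ContinuousAt.continuousWithinAt ?_
  have h1' : (1 + v : ℂ) ≠ 0 := one_add_ne h1
  rcases lt_or_ge (sn v) (2 * ε) with h2 | h2
  · have hev : ∀ᶠ z : ℂ × Circle in nhds (v, s), sn z.1 < 2 * ε :=
      (sn_cont.comp continuous_fst).continuousAt.eventually (gt_mem_nhds h2)
    have hc : ContinuousAt (fun z : ℂ × Circle =>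
        Phi ((((nu ε z.1 z.2)⁻¹ : ℝ) : ℂ) * (z.2 : ℂ), z.1)) (v, s) := by
      have hU : IsOpen (UU ε) := UU_open ε
      have h3 : ContinuousAt Phi ((((nu ε v s)⁻¹ : ℝ) : ℂ) * (s : ℂ), v) :=
        (Phi_cont h).continuousAt (hU.mem_nhds (mem_UU h s h2))
      have hn : Continuous fun z : ℂ × Circle => nu ε z.1 z.2 :=
        (nu_cont h.pos).comp (continuous_fst.prodMk (circ_cont.comp continuous_snd))
      have hn0 : nu ε v s ≠ 0 := (nu_circ_pos ε v s).ne'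
      have h4 : ContinuousAt (fun z : ℂ × Circle =>
          ((((nu ε z.1 z.2)⁻¹ : ℝ) : ℂ) * (z.2 : ℂ), z.1)) (v, s) := by
        refine ContinuousAt.prodMk (ContinuousAt.mul ?_ ?_) continuousAt_fst
        · exact Complex.continuous_ofReal.continuousAt.comp (hn.continuousAt.inv₀ hn0)
        · exact (circ_cont.comp continuous_snd).continuousAt
      exact ContinuousAt.comp (f := fun z : ℂ × Circle =>
          ((((nu ε z.1 z.2)⁻¹ : ℝ) : ℂ) * (z.2 : ℂ), z.1)) (g := Phi) h3 h4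
    refine hc.congr ?_
    filter_upwards [hev] with z hz
    exact (Fo_low h hz z.2).symm
  · have h3 : ε < sn v := by linarith [h.pos]
    have hev : ∀ᶠ z : ℂ × Circle in nhds (v, s), ε < sn z.1 :=
      (sn_cont.comp continuous_fst).continuousAt.eventually (lt_mem_nhds h3)
    have hc : ContinuousAt (fun z : ℂ × Circle => Vb (1 + z.1) z.2) (v, s) := by
      have h4 : ContinuousAt (fun z : ℂ × Circle => ((1 + z.1, z.2) : ℂ × Circle)) (v, s) :=
        ((continuous_const.add continuous_fst).prodMk continuous_snd).continuousAt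
      exact ContinuousAt.comp (f := fun z : ℂ × Circle => ((1 + z.1, z.2) : ℂ × Circle))
        (g := fun z : ℂ × Circle => Vb z.1 z.2) (Vb_cont h1' s) h4
    refine hc.congr ?_
    filter_upwards [hev] with z hz
    exact (Fo_high hz.le z.2).symm

theorem Fo_inj {ε : ℝ} (h : IsTube ε) : InjOn (fun z : ℂ × Circle => Fo ε z.1 z.2)
    {z | z.1 ≠ -1 ∧ ε / 2 ≤ sn z.1} := by
  rintro ⟨v, s⟩ ⟨h1, h2⟩ ⟨v', s'⟩ ⟨h1', h2'⟩ he
  have he' : Fo ε v s = Fo ε v' s' := he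
  simp only at h1 h2 h1' h2'
  have hε := h.pos
  rcases lt_or_ge (sn v) (2 * ε) with h3 | h3
  · rcases lt_or_ge (sn v') (2 * ε) with h3' | h3'
    · rw [Fo_low h h3, Fo_low h h3'] at he'
      have h4 := Phi_inj h (mem_UU h s h3) (mem_UU h s' h3') he'
      have h5 : v = v' := congrArg Prod.snd h4
      have h6 : (((nu ε v s)⁻¹ : ℝ) : ℂ) * (s : ℂ) = (((nu ε v' s')⁻¹ : ℝ) : ℂ) * (s' : ℂ) :=
        congrArg Prod.fst h4
      have h7 := congrArg norm h6
      rw [norm_t, norm_t] at h7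
      rw [h7] at h6
      have h8 : (((nu ε v' s')⁻¹ : ℝ) : ℂ) ≠ 0 := by
        rw [Complex.ofReal_ne_zero]
        exact inv_ne_zero (nu_circ_pos ε v' s').ne'
      have h9 := mul_left_cancel₀ h8 h6
      exact Prod.ext h5 (Circle.ext h9)
    · rcases lt_or_ge (sn v) ε with h4 | h4
      · rw [Fo_low h h3, Fo_high (by linarith)] at he'
        exact (Vb_ne h h1' (by linarith) s' (norm_t_le ε v s) h4 he'.symm).elim
      · rw [Fo_high h4, Fo_high (by linarith)] at he'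
        obtain ⟨h5, h6⟩ := Vb_inj (one_add_ne h1) (one_add_ne h1') he'
        exact Prod.ext (add_left_cancel h5) h6
  · rcases lt_or_ge (sn v') ε with h4 | h4
    · rw [Fo_high (by linarith), Fo_low h (by linarith)] at he'
      exact (Vb_ne h h1 (by linarith) s (norm_t_le ε v' s') h4 he').elim
    · rw [Fo_high (by linarith), Fo_high h4] at he'
      obtain ⟨h5, h6⟩ := Vb_inj (one_add_ne h1) (one_add_ne h1') he'
      exact Prod.ext (add_left_cancel h5) h6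

theorem Fo_mem {ε : ℝ} (h : IsTube ε) {v : ℂ} (h1 : v ≠ -1) (h2 : ε / 2 ≤ sn v) (s : Circle) :
    Fo ε v s ∈ MM ε := by
  rcases lt_or_ge (sn v) (2 * ε) with h3 | h3
  · rw [Fo_low h h3, (mem_mid h (mem_UU h s h3) h2).2]
    show nu ε v ((((nu ε v s)⁻¹ : ℝ) : ℂ) * (s : ℂ)) = 1
    rw [nu_mul ε v (inv_nonneg.2 (nu_circ_pos ε v s).le), inv_mul_cancel₀ (nu_circ_pos ε v s).ne']
  · have h4 : ε ≤ sn v := by linarith [h.pos]
    rw [Fo_high h4]
    left
    refine ⟨Vb_norm (one_add_ne h1) s, ?_⟩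
    intro h5
    have h6 := (Vb_tube h (one_add_ne h1) s).1 h5
    linarith

/-- a value `Phi p` with `sn p.2 ≤ ε / 2` is attained only for `sn v = ε / 2` -/
theorem Fo_wall {ε : ℝ} (h : IsTube ε) {v : ℂ} (h1 : v ≠ -1) (h2 : ε / 2 ≤ sn v) (s : Circle)
    {p : ℂ × ℂ} (hp : ‖p.1‖ ≤ 1) (hv : sn p.2 ≤ ε / 2) (he : Fo ε v s = Phi p) :
    sn v = ε / 2 ∧ p.2 = v ∧ p.1 = ((1 / (4 * sn s) : ℝ) : ℂ) * (s : ℂ) := by
  have hε := h.pos
  rcases lt_or_ge (sn v) (2 * ε) with h3 | h3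
  · rw [Fo_low h h3] at he
    have hpU : p ∈ UU ε := ⟨by linarith, by linarith⟩
    have h4 := Phi_inj h (mem_UU h s h3) hpU he
    have h5 : v = p.2 := congrArg Prod.snd h4
    have h6 : (((nu ε v s)⁻¹ : ℝ) : ℂ) * (s : ℂ) = p.1 := congrArg Prod.fst h4
    have h7 : sn v = ε / 2 := le_antisymm (by rw [h5]; exact hv) h2
    refine ⟨h7, h5.symm, ?_⟩
    rw [← h6, nu_in hε (by linarith), one_div]
  · rw [Fo_high (by linarith)] at he
    exact (Vb_ne h h1 (by linarith) s hp (by linarith) he).elim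

theorem Fo_surj {ε : ℝ} (h : IsTube ε) {q : S2 × ℂ} (hq : q ∈ MM ε) :
    (‖q.2‖ = 1 ∧ (q.1 = PP 1 0 ∨ q.1 = PP 0 1)) ∨ q ∈ Phi '' Min ε ∨
      ∃ (v : ℂ) (s : Circle), v ≠ -1 ∧ ε / 2 ≤ sn v ∧ q = Fo ε v s := by
  have hε := h.pos
  rcases hq with ⟨h1, h2⟩ | ⟨p, hp | hp, rfl⟩
  · have h1' : ‖q.2‖ = 1 := h1
    by_cases h3 : q.1 = PP 1 0
    · exact Or.inl ⟨h1', Or.inl h3⟩
    by_cases h4 : q.1 = PP 0 1
    · exact Or.inl ⟨h1', Or.inr h4⟩
    obtain ⟨b, s, hb, hqb⟩ := Vb_surj h1' h3 h4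
    right
    right
    have hb' : (1 + (b - 1) : ℂ) = b := by ring
    have hv1 : (b - 1 : ℂ) ≠ -1 := by
      intro h0
      exact hb (by linear_combination h0)
    have h5 : ε ≤ sn (b - 1) := by
      by_contra hlt
      apply h2
      rw [hqb, ← hb']
      exact (Vb_tube h (one_add_ne hv1) s).2 (not_le.1 hlt)
    refine ⟨b - 1, s, hv1, by linarith, ?_⟩
    rw [Fo_high h5, hb', hqb]
  · right
    right
    obtain ⟨p1, p2, p3⟩ := hp
    have ht : p.1 ≠ 0 := by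
      intro h0
      have h3 := nu_mul ε p.2 (le_refl (0 : ℝ)) 0
      rw [zero_mul, Complex.ofReal_zero, zero_mul] at h3
      rw [h0, h3] at p3
      exact zero_ne_one p3
    have htn : 0 < ‖p.1‖ := norm_pos_iff.2 ht
    have hs : ‖(((‖p.1‖⁻¹ : ℝ) : ℂ) * p.1)‖ = 1 := by
      rw [norm_mul, Complex.norm_real, Real.norm_of_nonneg (inv_nonneg.2 htn.le),
        inv_mul_cancel₀ htn.ne']
    let s : Circle := ⟨((‖p.1‖⁻¹ : ℝ) : ℂ) * p.1, mem_sphere_zero_iff_norm.2 hs⟩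
    have hsc : (s : ℂ) = ((‖p.1‖⁻¹ : ℝ) : ℂ) * p.1 := rfl
    refine ⟨p.2, s, ?_, p1, ?_⟩
    · intro h0
      rw [h0] at p2
      have h4 : sn (-1 : ℂ) = 1 := by
        unfold sn
        simp
      rw [h4] at p2
      linarith [h.small]
    · rw [Fo_low h (by linarith)]
      congr 1
      refine Prod.ext ?_ rfl
      show p.1 = (((nu ε p.2 s)⁻¹ : ℝ) : ℂ) * (s : ℂ)
      rw [hsc, nu_mul ε p.2 (inv_nonneg.2 htn.le), p3, mul_one, _root_.inv_inv, ← mul_assoc,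
        ← Complex.ofReal_mul, mul_inv_cancel₀ htn.ne', Complex.ofReal_one, one_mul]
  · right
    left
    exact ⟨p, hp, rfl⟩

/-- where the two exceptional fibres are -/
theorem Fo_fst {ε : ℝ} (h : IsTube ε) {v : ℂ} (h1 : v ≠ -1) (h2 : ε ≤ sn v) (s : Circle) :
    Fo ε v s = Vb (1 + v) s := by
  exact Fo_high h2 s

end

end Pool.Agent.FibC
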