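import Pool.Agent.Lib.FibC.SeE
import Pool.Agent.Lib.FibC.SeO
import Pool.Agent.Lib.FibC.SeI

/-!
# SeF: the map `FF` on the torus minus two discs

PROOF. `Hol ε = Holed (ech ε) ![0, -1] ![1/4, 1/4]`. For `x ∈ Sq` put `v = vs ε (sl x)`; if `sl x ≠ 0` then `sn v = ε / (4 sn (sl x)) ≥ ε/2`, `x = ech ε (1 / v)`. `x ∈ Hol ε ∩ Sq`: `sl x ≠ 0` (`0 = ω` is in the first ball), `‖1/v‖ ≥ 1/4`,
`‖1/v + 1‖ ≥ 1/4`, so `v ≠ -1`. `FF_cont`: `Hol ε × univ` is covered by the closed sets `Sq × univ`, `SqC × univ`; on the first `FF = Fo ∘ vs ∘ sl` (`vs` is continuous off `0`), on the second `FF = Fi`: for `x ∈ Sq`, `sn (sl x) = 1/2`: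
`v = ε sl x`, `sn v = ε/2`, `nu ε v s = 4 sn s`, so `Fo ε v s = Phi (s / (4 sn s), ε sl x) = Fi ε x s` (`Fi_edge`). `FF_inj`: on the first part `Fo_inj`, `vs`, `sl` injective; on the second `Fi_inj`; if `x ∈ Sq`, `x' ∉ Sq` have the same
value then `Fo_wall` and `Fi_lt` contradict (`sn p.2 = ε/2`). `FF_mem`: `Fo_mem`, `Fi_mem`. `FF_surj`: a point of `MM ε` which is not in `{q.1 = PP 1 0 or PP 0 1}` is `Fi` of something, or `Fo ε v s`; in the second case `x = ech ε (1/v)`.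
-/

set_option autoImplicit false

namespace Pool.Agent.FibC

open Complex ComplexConjugate Set

noncomputable section

/-- the torus minus two discs -/
def Hol (ε : ℝ) : Set Torus := Holed (ech ε) (![0, -1] : Fin 2 → ℂ) (![1 / 4, 1 / 4] : Fin 2 → ℝ)

private theorem vs_zero (ε : ℝ) : vs ε 0 = 0 := by
  unfold vs
  rw [mul_zero]

private theorem hol_iff {ε : ℝ} (hε : 0 < ε) (ω : ℂ) :
    ech ε ω ∈ Hol ε ↔ 1 / 4 ≤ ‖ω‖ ∧ 1 / 4 ≤ ‖ω + 1‖ := by
  have hinj := (ech_emb hε).injective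
  unfold Hol Holed
  rw [mem_compl_iff, mem_iUnion, not_exists]
  constructor
  · intro h
    have h0 := h 0
    have h1 := h 1
    constructor
    · by_contra hc
      push Not at hc
      refine h0 ⟨ω, ?_, rfl⟩
      simpa using hc
    · by_contra hc
      push Not at hc
      refine h1 ⟨ω, ?_, rfl⟩
      simpa [dist_eq_norm] using hc
  · rintro ⟨h0, h1⟩ i ⟨ω', hω', he⟩
    obtain rfl := hinj he
    fin_cases i
    · simp at hω'
      linarith
    · simp [dist_eq_norm] at hω'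
      linarith

private theorem sn_big {ε : ℝ} (h : IsTube ε) {v : ℂ} (h0 : v ≠ 0)
    (h1 : ‖1 / v‖ < 1 / 4 ∨ ‖1 / v + 1‖ < 1 / 4) : ε < sn v := by
  have hn : ‖1 / v‖ < 5 / 4 := by
    rcases h1 with h1 | h1
    · linarith
    · have h2 : ‖1 / v‖ ≤ ‖1 / v + 1‖ + ‖(1 : ℂ)‖ := by
        have := norm_sub_le (1 / v + 1) 1
        rwa [add_sub_cancel_right] at this
      rw [norm_one] at h2
      linarith
  rw [norm_div, norm_one, div_lt_iff₀ (norm_pos_iff.2 h0)] at hn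
  have h3 := le_sn v
  have h4 := h.small
  linarith

private theorem mem_Sq {ε : ℝ} (hε : 0 < ε) {v : ℂ} (h0 : v ≠ 0) :
    sl (ech ε (1 / v)) ≠ 0 ∧ vs ε (sl (ech ε (1 / v))) = v ∧
      (ech ε (1 / v) ∈ Sq ↔ ε / 2 ≤ sn v) ∧ (sn (sl (ech ε (1 / v))) = 1 / 2 ↔ sn v = ε / 2) := by
  have h1 : vs ε (sl (ech ε (1 / v))) = v := by
    rw [sl_ech, vs_ss hε (one_div_ne_zero h0), one_div_one_div]
  have h2 : sl (ech ε (1 / v)) ≠ 0 := by
    intro h2
    rw [h2, vs_zero] at h1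
    exact h0 h1.symm
  have h3 := sn_vs hε h2
  rw [h1] at h3
  have h4 := sn_pos h2
  refine ⟨h2, h1, ?_, ?_⟩
  · have h5 : ε / 2 ≤ sn v ↔ sn (sl (ech ε (1 / v))) ≤ 1 / 2 := by
      rw [h3, le_div_iff₀ (by linarith)]
      constructor
      · intro h
        nlinarith
      · intro h
        nlinarith
    rw [h5]
    have h6 := ech_pos ε (1 / v)
    unfold Sq
    simp only [mem_ofPred_eq]
    tauto
  · rw [h3, div_eq_iff (by linarith)]
    constructor
    · intro h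
      rw [h]
      ring
    · intro h
      have h7 : ε * (2 * sn (sl (ech ε (1 / v))) - 1) = 0 := by linarith
      rcases mul_eq_zero.1 h7 with h8 | h8
      · linarith
      · linarith

private theorem hol_sq {ε : ℝ} (h : IsTube ε) {x : Torus} (hx : x ∈ Hol ε) (hs : x ∈ Sq) :
    ∃ v : ℂ, v ≠ 0 ∧ v ≠ -1 ∧ ε / 2 ≤ sn v ∧ x = ech ε (1 / v) ∧ vs ε (sl x) = v ∧ sl x ≠ 0 := by
  obtain ⟨ω, rfl⟩ := ech_surj h.pos hs.1 hs.2.1
  have h1 := (hol_iff h.pos ω).1 hx
  have hω : ω ≠ 0 := by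
    rintro rfl
    rw [norm_zero] at h1
    linarith [h1.1]
  have hω1 : ω ≠ -1 := by
    rintro rfl
    have := h1.2
    rw [neg_add_cancel, norm_zero] at this
    linarith
  have h2 := mem_Sq h.pos (v := 1 / ω) (one_div_ne_zero hω)
  rw [one_div_one_div] at h2
  refine ⟨1 / ω, one_div_ne_zero hω, ?_, h2.2.2.1.1 hs, by rw [one_div_one_div], h2.2.1, h2.1⟩
  intro hv
  apply hω1
  have := congrArg (fun z => 1 / z) hv
  simpa using this

private theorem edge_eq {ε : ℝ} (h : IsTube ε) {x : Torus} (hx : x ∈ Sq) (hs : sn (sl x) = 1 / 2)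
    (s : Circle) : Fo ε (vs ε (sl x)) s = Fi ε x s := by
  have hε := h.pos
  have h0 : sl x ≠ 0 := by
    intro h0
    rw [h0, sn_eq_zero.2 rfl] at hs
    norm_num at hs
  have h1 : sn (vs ε (sl x)) = ε / 2 := by
    rw [sn_vs hε h0, hs]
    ring
  have h2 : vs ε (sl x) = (ε : ℂ) * sl x := by
    unfold vs
    rw [hs]
    congr 2
    norm_num
  unfold Fo Fi
  rw [if_neg (by rw [h1]; linarith), Fi_edge hε hx hs s, nu_in hε (by rw [h1]; linarith), h2,
    one_div]

private theorem Hol_closed {ε : ℝ} (hε : 0 < ε) : IsClosed (Hol ε) := by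
  unfold Hol Holed
  refine isClosed_compl_iff.2 (isOpen_iUnion fun i => ?_)
  exact (ech_emb hε).isOpenMap _ Metric.isOpen_ball

private theorem FF_in {ε : ℝ} (h : IsTube ε) {x : Torus} (hx : x ∈ SqC) (s : Circle) :
    FF ε (x, s) = Fi ε x s := by
  by_cases hs : x ∈ Sq
  · have : FF ε (x, s) = Fo ε (vs ε (sl x)) s := by
      unfold FF
      rw [if_pos hs]
    rw [this, edge_eq h hs (hx hs)]
  · unfold FF
    rw [if_neg hs]

theorem FF_ech {ε : ℝ} (h : IsTube ε) {v : ℂ} (hv : ε / 2 ≤ sn v) (s : Circle) :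
    FF ε (ech ε (1 / v), s) = Fo ε v s := by
  have hε := h.pos
  have h0 : v ≠ 0 := by
    rintro rfl
    rw [sn_eq_zero.2 rfl] at hv
    linarith
  obtain ⟨_, h2, h3, _⟩ := mem_Sq hε h0
  unfold FF
  rw [if_pos (h3.2 hv)]
  simp only [h2]

theorem FF_cont {ε : ℝ} (h : IsTube ε) : ContinuousOn (FF ε) (Hol ε ×ˢ univ) := by
  classical
  have hε := h.pos
  have hH := Hol_closed hε
  obtain ⟨hC, hS⟩ := SqC_closed
  have hsub : Hol ε ×ˢ (univ : Set Circle) =
      (Hol ε ∩ Sq) ×ˢ (univ : Set Circle) ∪ (Hol ε ∩ SqC) ×ˢ (univ : Set Circle) := by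
    ext ⟨x, s⟩
    simp only [mem_prod, mem_univ, and_true, mem_union, mem_inter_iff]
    constructor
    · intro hx
      by_cases hs : x ∈ Sq
      · exact Or.inl ⟨hx, hs⟩
      · exact Or.inr ⟨hx, fun hs' => absurd hs' hs⟩
    · rintro (⟨hx, _⟩ | ⟨hx, _⟩) <;> exact hx
  rw [hsub]
  refine ContinuousOn.union_of_isClosed ?_ ?_ ((hH.inter hS).prod isClosed_univ)
    ((hH.inter hC).prod isClosed_univ)
  · have h1 : ContinuousOn (fun z : Torus × Circle => (vs ε (sl z.1), z.2))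
        ((Hol ε ∩ Sq) ×ˢ (univ : Set Circle)) := by
      intro z hz
      obtain ⟨v, hv0, hv1, hv2, hv3, hv4, hv5⟩ := hol_sq h hz.1.1 hz.1.2
      apply ContinuousAt.continuousWithinAt
      have c1 : ContinuousAt (fun z : Torus × Circle => ((z.1.1 : ℂ).im / (z.1.1 : ℂ).re)) z := by
        refine ContinuousAt.div ?_ ?_ hz.1.2.1.ne'
        · exact (Complex.continuous_im.comp (continuous_subtype_val.comp
            (continuous_fst.comp continuous_fst))).continuousAt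
        · exact (Complex.continuous_re.comp (continuous_subtype_val.comp
            (continuous_fst.comp continuous_fst))).continuousAt
      have c2 : ContinuousAt (fun z : Torus × Circle => ((z.1.2 : ℂ).im / (z.1.2 : ℂ).re)) z := by
        refine ContinuousAt.div ?_ ?_ hz.1.2.2.1.ne'
        · exact (Complex.continuous_im.comp (continuous_subtype_val.comp
            (continuous_snd.comp continuous_fst))).continuousAt
        · exact (Complex.continuous_re.comp (continuous_subtype_val.comp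
            (continuous_snd.comp continuous_fst))).continuousAt
      have c3 : ContinuousAt (fun z : Torus × Circle => sl z.1) z := by
        have : (fun z : Torus × Circle => sl z.1) = fun z : Torus × Circle =>
            (((z.1.1 : ℂ).im / (z.1.1 : ℂ).re : ℝ) : ℂ) +
              (((z.1.2 : ℂ).im / (z.1.2 : ℂ).re : ℝ) : ℂ) * I := by
          funext z
          rw [← Complex.mk_eq_add_mul_I]
          rfl
        rw [this]
        exact (Complex.continuous_ofReal.continuousAt.comp c1).add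
          ((Complex.continuous_ofReal.continuousAt.comp c2).mul continuousAt_const)
      have c4 : ContinuousAt (vs ε) (sl z.1) := by
        unfold vs
        refine ContinuousAt.mul ?_ continuousAt_id
        refine Complex.continuous_ofReal.continuousAt.comp ?_
        refine ContinuousAt.div continuousAt_const ?_ ?_
        · exact (continuous_const.mul (sn_cont.pow 2)).continuousAt
        · have := sn_pos hv5
          positivity
      exact (ContinuousAt.comp (f := fun z : Torus × Circle => sl z.1) (g := vs ε) c4 c3).prodMk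
        continuousAt_snd
    have h2 : MapsTo (fun z : Torus × Circle => (vs ε (sl z.1), z.2))
        ((Hol ε ∩ Sq) ×ˢ (univ : Set Circle)) {z : ℂ × Circle | z.1 ≠ -1 ∧ ε / 2 ≤ sn z.1} := by
      intro z hz
      obtain ⟨v, hv0, hv1, hv2, hv3, hv4, hv5⟩ := hol_sq h hz.1.1 hz.1.2
      simp only [mem_ofPred_eq]
      rw [hv4]
      exact ⟨hv1, hv2⟩
    refine ((Fo_cont h).comp h1 h2).congr ?_
    intro z hz
    have : FF ε z = Fo ε (vs ε (sl z.1)) z.2 := by
      unfold FF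
      rw [if_pos hz.1.2]
    rw [this]
    rfl
  · refine ((Fi_cont h).mono ?_).congr ?_
    · intro z hz
      exact ⟨hz.1.2, hz.2⟩
    · intro z hz
      exact FF_in h hz.1.2 z.2

private theorem no_mix {ε : ℝ} (h : IsTube ε) {x : Torus} (hx : x ∉ Sq) (s : Circle) {v : ℂ}
    (h1 : v ≠ -1) (h2 : ε / 2 ≤ sn v) (s' : Circle) (he : Fo ε v s' = Fi ε x s) : False := by
  have h3 := Fi_mem h (x := x) (fun hs => absurd hs hx) s
  have h4 := Fi_lt h.pos hx s
  have h5 := (sub_UU h).2.1 (Or.inr h3)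
  have h6 := Fo_wall h h1 h2 s' h5.1 h4.le he
  rw [h6.2.1] at h4
  linarith

private theorem fo_inj' {ε : ℝ} (h : IsTube ε) {v v' : ℂ} {s s' : Circle} (h1 : v ≠ -1)
    (h2 : ε / 2 ≤ sn v) (h1' : v' ≠ -1) (h2' : ε / 2 ≤ sn v') (he : Fo ε v s = Fo ε v' s') :
    (v, s) = (v', s') := by
  have h3 : ((v, s) : ℂ × Circle) ∈ {z : ℂ × Circle | z.1 ≠ -1 ∧ ε / 2 ≤ sn z.1} := ⟨h1, h2⟩
  have h4 : ((v', s') : ℂ × Circle) ∈ {z : ℂ × Circle | z.1 ≠ -1 ∧ ε / 2 ≤ sn z.1} := ⟨h1', h2'⟩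
  exact Fo_inj h h3 h4 he

private theorem fi_inj' {ε : ℝ} (h : IsTube ε) {x x' : Torus} {s s' : Circle} (h1 : x ∈ SqC)
    (h2 : x' ∈ SqC) (he : Fi ε x s = Fi ε x' s') : (x, s) = (x', s') := by
  have h3 : ((x, s) : Torus × Circle) ∈ SqC ×ˢ (univ : Set Circle) := ⟨h1, mem_univ _⟩
  have h4 : ((x', s') : Torus × Circle) ∈ SqC ×ˢ (univ : Set Circle) := ⟨h2, mem_univ _⟩
  exact Fi_inj h h3 h4 he

theorem FF_inj {ε : ℝ} (h : IsTube ε) : InjOn (FF ε) (Hol ε ×ˢ univ) := by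
  rintro ⟨x, s⟩ ⟨hx, _⟩ ⟨x', s'⟩ ⟨hx', _⟩ he
  simp only at hx hx'
  by_cases hs : x ∈ Sq <;> by_cases hs' : x' ∈ Sq
  · obtain ⟨v, hv0, hv1, hv2, hv3, hv4, hv5⟩ := hol_sq h hx hs
    obtain ⟨v', hv0', hv1', hv2', hv3', hv4', hv5'⟩ := hol_sq h hx' hs'
    rw [hv3, hv3', FF_ech h hv2, FF_ech h hv2'] at he
    have := fo_inj' h hv1 hv2 hv1' hv2' he
    rw [Prod.mk.injEq] at this
    rw [hv3, hv3', this.1, this.2]
  · obtain ⟨v, hv0, hv1, hv2, hv3, hv4, hv5⟩ := hol_sq h hx hs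
    rw [hv3, FF_ech h hv2, FF_in h (x := x') (fun hs => absurd hs hs') s'] at he
    exact (no_mix h hs' s' hv1 hv2 s he).elim
  · obtain ⟨v, hv0, hv1, hv2, hv3, hv4, hv5⟩ := hol_sq h hx' hs'
    rw [hv3, FF_ech h hv2, FF_in h (x := x) (fun hs' => absurd hs' hs) s] at he
    exact (no_mix h hs s hv1 hv2 s' he.symm).elim
  · have hc : x ∈ SqC := fun hs' => absurd hs' hs
    have hc' : x' ∈ SqC := fun hs => absurd hs hs'
    rw [FF_in h hc, FF_in h hc'] at he
    exact fi_inj' h hc hc' he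

theorem FF_mem {ε : ℝ} (h : IsTube ε) {z : Torus × Circle} (hz : z ∈ Hol ε ×ˢ univ) :
    FF ε z ∈ MM ε := by
  obtain ⟨x, s⟩ := z
  by_cases hs : x ∈ Sq
  · obtain ⟨v, hv0, hv1, hv2, hv3, hv4, hv5⟩ := hol_sq h (x := x) hz.1 hs
    subst hv3
    rw [FF_ech h hv2]
    exact Fo_mem h hv1 hv2 s
  · have hc : x ∈ SqC := fun hs' => absurd hs' hs
    rw [FF_in h hc]
    exact Or.inr ⟨_, Or.inr (Fi_mem h hc s), rfl⟩

/-- a value on `{‖q.2‖ = 1}` of the form `Vb (1 + v) s` is attained only over `v` -/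
theorem FF_Vb {ε : ℝ} (h : IsTube ε) {z : Torus × Circle} (hz : z ∈ Hol ε ×ˢ univ) {v : ℂ} {s : Circle}
    (h1 : v ≠ -1) (h2 : ε ≤ sn v) (he : FF ε z = Vb (1 + v) s) : z = (ech ε (1 / v), s) := by
  obtain ⟨x, s'⟩ := z
  have hε := h.pos
  rw [← Fo_fst h h1 h2 s] at he
  by_cases hs : x ∈ Sq
  · obtain ⟨v', hv0, hv1, hv2, hv3, hv4, hv5⟩ := hol_sq h (x := x) hz.1 hs
    subst hv3
    rw [FF_ech h hv2] at he
    have := fo_inj' h hv1 hv2 h1 (by linarith) he
    rw [Prod.mk.injEq] at this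
    rw [this.1, this.2]
  · have hc : x ∈ SqC := fun hs' => absurd hs' hs
    rw [FF_in h hc] at he
    exact (no_mix h hs s' h1 (by linarith) s he.symm).elim

theorem FF_surj {ε : ℝ} (h : IsTube ε) {q : S2 × ℂ} (hq : q ∈ MM ε) :
    (‖q.2‖ = 1 ∧ (q.1 = PP 1 0 ∨ q.1 = PP 0 1)) ∨
      (∃ (v : ℂ) (s : Circle), ε ≤ sn v ∧ v ≠ -1 ∧ q = Vb (1 + v) s ∧
        (‖1 / v‖ < 1 / 4 ∨ ‖1 / v + 1‖ < 1 / 4)) ∨ q ∈ FF ε '' (Hol ε ×ˢ univ) := by
  have hε := h.pos
  rcases Fo_surj h hq with h1 | ⟨p, hp, rfl⟩ | ⟨v, s, hv1, hv2, rfl⟩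
  · exact Or.inl h1
  · obtain ⟨x, hx, s, hxs⟩ := Fi_surj h hp
    refine Or.inr (Or.inr ⟨(x, s), ⟨?_, mem_univ _⟩, ?_⟩)
    · by_contra hc
      simp only at hc
      unfold Hol Holed at hc
      rw [notMem_compl_iff, mem_iUnion] at hc
      obtain ⟨i, ω, hω, hωx⟩ := hc
      have hb : ‖ω‖ < 1 / 4 ∨ ‖ω + 1‖ < 1 / 4 := by
        fin_cases i
        · left
          simpa using hω
        · right
          simpa [dist_eq_norm] using hω
      have hp := ech_pos ε ω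
      rw [hωx] at hp
      by_cases h0 : ω = 0
      · subst h0
        have h2 : sl x = 0 := by
          rw [← hωx, sl_ech]
          unfold ss
          rw [map_zero, mul_zero]
        have h3 : x ∈ Sq := ⟨hp.1, hp.2, by rw [h2, sn_eq_zero.2 rfl]; norm_num⟩
        have h4 := hx h3
        rw [h2, sn_eq_zero.2 rfl] at h4
        norm_num at h4
      · have h5 := sn_big h (v := 1 / ω) (one_div_ne_zero h0) (by rwa [one_div_one_div])
        have h6 := mem_Sq hε (v := 1 / ω) (one_div_ne_zero h0)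
        rw [one_div_one_div, hωx] at h6
        have h7 : x ∈ Sq := h6.2.2.1.2 (by linarith)
        have h8 := h6.2.2.2.1 (hx h7)
        linarith
    · rw [FF_in h hx, hxs]
  · have h0 : v ≠ 0 := by
      rintro rfl
      rw [sn_eq_zero.2 rfl] at hv2
      linarith
    by_cases hb : ‖1 / v‖ < 1 / 4 ∨ ‖1 / v + 1‖ < 1 / 4
    · have h5 := sn_big h h0 hb
      exact Or.inr (Or.inl ⟨v, s, h5.le, hv1, Fo_fst h hv1 h5.le s, hb⟩)
    · push Not at hb
      exact Or.inr (Or.inr ⟨(ech ε (1 / v), s), ⟨(hol_iff hε _).2 hb, mem_univ _⟩, FF_ech h hv2 s⟩)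

end

end Pool.Agent.FibC
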