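import Pool.Agent.Lib.FibC.TubO
import Pool.Agent.Lib.FibC.Chg

/-!
# Tube: the tube

PROOF. `tube_exists`: `δ` from `tub0`, `ε₀` from `chg_small` for `min δ (1/96)`; `ε = min (1/16) (min δ (ε₀ / 4))`; for `p ∈ UU ε`
`‖p.2‖ ≤ 2 sn p.2 < 4 ε`, so `‖p.2‖ < 1/2`, `‖(chg p).2‖ < min δ (1/96)`, `‖(chg p).1‖ = ‖p.1‖ < 1 + δ`. `T = (C.trans e).restr (UU ε)`.
`Phi_bd`: see the header of `Chg`.
-/

set_option autoImplicit false

namespace Pool.Agent.FibC

open Complex ComplexConjugate Set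

noncomputable section

private theorem nle (z : ℂ) : ‖z‖ ≤ 2 * sn z := by
  have h1 := Complex.norm_le_abs_re_add_abs_im z
  have h2 : |z.re| ≤ sn z := le_max_left _ _
  have h3 : |z.im| ≤ sn z := le_max_right _ _
  linarith

theorem tube_exists : ∃ ε : ℝ, IsTube ε := by
  obtain ⟨δ, hδ, e, hes, he⟩ := tub0
  obtain ⟨C, hCs, hC⟩ := chg_emb
  have hδ' : 0 < min δ (1 / 96) := lt_min hδ (by norm_num)
  obtain ⟨ε₀, hε₀, hsm⟩ := chg_small hδ'
  obtain ⟨ε, hε⟩ : ∃ ε, ε = min (1 / 16) (min δ (ε₀ / 4)) := ⟨_, rfl⟩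
  have hpos : 0 < ε := by
    rw [hε]; exact lt_min (by norm_num) (lt_min hδ (by linarith))
  have h1 : ε ≤ 1 / 16 := by rw [hε]; exact min_le_left _ _
  have h2 : ε ≤ δ := by rw [hε]; exact (min_le_right _ _).trans (min_le_left _ _)
  have h3 : ε ≤ ε₀ / 4 := by rw [hε]; exact (min_le_right _ _).trans (min_le_right _ _)
  have hv : ∀ p ∈ UU ε, ‖p.2‖ < 4 * ε := by
    rintro p ⟨-, hp⟩
    have := nle p.2
    linarith
  have hm : ∀ p ∈ UU ε, ‖(chg p).2‖ < min δ (1 / 96) := by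
    intro p hp
    exact hsm p (by have := hv p hp; linarith)
  have hUo : IsOpen (UU ε) := by
    have c : Continuous sn := by
      unfold sn
      exact (continuous_abs.comp continuous_re).max (continuous_abs.comp continuous_im)
    exact (isOpen_lt (f := fun p : ℂ × ℂ => ‖p.1‖) (by fun_prop) continuous_const).inter
      (isOpen_lt (f := fun p : ℂ × ℂ => sn p.2) (c.comp continuous_snd) continuous_const)
  have hsub : UU ε ⊆ (C.trans e).source := by
    intro p hp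
    rw [OpenPartialHomeomorph.trans_source]
    refine ⟨?_, ?_⟩
    · rw [hCs]
      have := hv p hp
      simp only [mem_ofPred_eq]; linarith
    · rw [mem_preimage, hC, hes]
      refine ⟨?_, ?_⟩
      · rw [chg_norm]; have := hp.1; linarith
      · exact (hm p hp).trans_le (min_le_left _ _)
  have hval : ∀ p ∈ UU ε, (C.trans e) p = Phi p := by
    intro p hp
    have h5 := hsub hp
    rw [OpenPartialHomeomorph.trans_source] at h5
    have h6 : C p ∈ e.source := h5.2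
    have : (C.trans e) p = e (C p) := rfl
    rw [this, he _ h6, hC]; rfl
  have hw : ∀ p ∈ UU ε, (‖(Phi p).2‖ < 1 ↔ ‖p.1‖ < 1) ∧ (‖(Phi p).2‖ = 1 ↔ ‖p.1‖ = 1) := by
    intro p hp
    have h5 : ‖(chg p).1‖ < 2 := by
      rw [chg_norm]; have := hp.1; linarith
    have h6 : ‖(chg p).2‖ < 1 / 96 := (hm p hp).trans_le (min_le_right _ _)
    have := w_norm h5 h6
    rw [chg_norm] at this
    exact this
  refine ⟨ε, hpos, h1, ⟨(C.trans e).restrOpen (UU ε) hUo, ?_, ?_⟩, fun p hp => (hw p hp).1,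
    fun p hp => (hw p hp).2⟩
  · rw [OpenPartialHomeomorph.restrOpen_source]
    exact inter_eq_right.2 hsub
  · intro p hp
    exact hval p hp

theorem Phi_bd {t v : ℂ} (ht : ‖t‖ = 1) (hv : ‖v‖ < 1 / 2) : Phi (t, v) = Vb (1 + v) t := by
  have hz : 1 + v ≠ 0 := by
    intro h
    have : v = -1 := by linear_combination h
    rw [this] at hv; norm_num at hv
  have hzn : 0 < ‖1 + v‖ := norm_pos_iff.2 hz
  obtain ⟨c, hc⟩ : ∃ c : ℂ, c = exp (I * (arg (1 + v) / 3 : ℝ)) := ⟨_, rfl⟩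
  have hcn : ‖c‖ = 1 := by rw [hc, mul_comm, norm_exp_ofReal_mul_I]
  have hc3 : c ^ 3 = un (1 + v) := by
    rw [hc, ← exp_nat_mul, un]
    have : (((3 : ℕ) : ℂ)) * (I * ((arg (1 + v) / 3 : ℝ) : ℂ)) = (arg (1 + v) : ℂ) * I := by
      push_cast; ring
    rw [this, eq_div_iff (by exact_mod_cast hzn.ne'), mul_comm, norm_mul_exp_arg_mul_I]
  have hE : E3 v = (‖1 + v‖ : ℂ) * c := by rw [E3, hc]
  obtain ⟨t', ht'⟩ : ∃ t' : ℂ, t' = t * c := ⟨_, rfl⟩
  have htn : ‖t'‖ = 1 := by rw [ht', norm_mul, ht, hcn, one_mul]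
  obtain ⟨m, hm⟩ : ∃ m : ℂ, m = (E3 v - 1) / (E3 v + 1) := ⟨_, rfl⟩
  have hchg : chg (t, v) = (t', m) := by rw [chg, ht', hm, hc]
  have hr : rho t' = 0 := by
    have h1 : ‖t'‖ ^ 2 = 1 := by rw [htn]; norm_num
    rw [← normSq_eq_norm_sq, normSq_apply] at h1
    rw [rho]; linarith
  have hx : xx t' = t' := by rw [xx, hr]; simp
  have hy : yy t' = conj t' := by rw [yy, hr]; simp
  have hns : normSq t' = 1 := by rw [normSq_eq_norm_sq, htn]; norm_num
  have hS : SS t' = 2 := by rw [SS, hx, hy, normSq_conj, hns]; norm_num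
  have htt : t' * conj t' = 1 := by rw [mul_conj, hns]; norm_num
  have hX : X0 t' m = (2 * conj t') * (t' ^ 2 * (1 + m)) := by
    rw [X0, hx, hy, hS, conj_conj]
    push_cast
    linear_combination (-(2 * t')) * htt
  have hY : Y0 t' m = (2 * conj t') * (1 - m) := by
    rw [Y0, hx, hy, hS, conj_conj]
    push_cast
    linear_combination (-(2 * m * conj t')) * htt
  have ht0 : t' ≠ 0 := by intro h; rw [h, norm_zero] at htn; exact zero_ne_one htn
  have hct0 : conj t' ≠ 0 := by simpa using ht0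
  -- E3 v + 1 ≠ 0
  have hre : 0 < (1 + v).re := by
    have h1 := abs_re_le_norm v
    have h2 := abs_le.1 (h1.trans hv.le)
    have h3 : (1 + v).re = 1 + v.re := by simp
    rw [h3]; linarith [h2.1]
  have harg : |arg (1 + v)| < Real.pi / 2 := abs_arg_lt_pi_div_two_iff.2 (Or.inl hre)
  have hEre : 0 < (E3 v).re := by
    rw [hE, hc]
    have : I * ((arg (1 + v) / 3 : ℝ) : ℂ) = ((arg (1 + v) / 3 : ℝ) : ℂ) * I := mul_comm _ _
    rw [this, re_ofReal_mul, exp_ofReal_mul_I_re]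
    refine mul_pos hzn (Real.cos_pos_of_mem_Ioo ⟨?_, ?_⟩)
    · have := (abs_lt.1 harg).1; have hpi := Real.pi_pos; linarith
    · have := (abs_lt.1 harg).2; have hpi := Real.pi_pos; linarith
  have hE1 : E3 v + 1 ≠ 0 := by
    intro h
    have := congrArg re h
    simp at this
    linarith
  have hE0 : E3 v ≠ 0 := by intro h; rw [h] at hEre; simp at hEre
  have h1m : (1 - m) * (E3 v + 1) = 2 := by rw [hm]; field_simp; ring
  have h1p : (1 + m) * (E3 v + 1) = 2 * E3 v := by rw [hm]; field_simp; ring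
  have h1m0 : 1 - m ≠ 0 := by
    intro h; rw [h, zero_mul] at h1m; norm_num at h1m
  have hratio : 1 + m = (1 - m) * E3 v := by
    apply mul_right_cancel₀ hE1
    rw [h1p]; linear_combination (-(E3 v)) * h1m
  have hfin : t' ^ 2 * (1 + m) = (1 - m) * ((1 + v) * t ^ 2) := by
    have h5 : (‖1 + v‖ : ℂ) * un (1 + v) = 1 + v := by
      have h6 : (‖1 + v‖ : ℂ) ≠ 0 := by exact_mod_cast hzn.ne'
      rw [un, mul_div_cancel₀ _ h6]
    rw [hratio, hE, ht']
    linear_combination (t ^ 2 * (1 - m) * (‖1 + v‖ : ℂ)) * hc3 + (t ^ 2 * (1 - m)) * h5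
  have hw : w0 t' m = un (1 + v) * t ^ 3 := by
    rw [w0, hr, ← hc3, ht']; simp; ring
  rw [Phi, hchg, Phi0, Vb]
  simp only
  rw [hX, hY, hw, hfin, PP_smul (mul_ne_zero two_ne_zero hct0)]
  have := PP_smul h1m0 ((1 + v) * t ^ 2) 1
  rw [mul_one] at this
  rw [this]

end

end Pool.Agent.FibC
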