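import Pool.Agent.Lib.FibC.LLm

/-!
# XLoc: the region and its boundary, locally

PROOF. `Phi` is injective on `UU ε` (`IsTube.emb`: it agrees there with an `OpenPartialHomeomorph` with source `UU ε`).
`sub_UU`: `nu ≥ ‖t‖` gives `‖t‖ ≤ 1` on `Kmid`; on `Kin` use `mem_Kin` and `‖t‖ ≤ 2 sn t`: better `‖t‖² ≤ 2 (sn t)²`, so `‖t‖ < 1`.
`mem_out`: `q ∉ Phi '' {‖t‖ ≤ 1, sn v ≤ ε}` excludes `Phi '' {‖t‖ ≤ 1, sn v < ε}` and `Phi '' (Kmid ∪ Kin)`.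
`mem_mid`: let `p ∈ UU ε`, `ε/2 ≤ sn p.2`. If `ε < sn p.2`: by injectivity `Phi p` is in no image; `Phi p ∈ XX` iff `‖(Phi p).2‖ ≤ 1` iff
`‖p.1‖ ≤ 1` (`IsTube.lt`, `IsTube.eq`) iff `nu ≤ 1` (`nu_out`). If `sn p.2 = ε`: not in `Phi '' {sn v < ε}`, in `Phi '' Kmid` iff `nu ≤ 1`, not in `Phi '' Kin`. If
`sn p.2 < ε`: if `‖(Phi p).2‖ ≤ 1` then `‖p.1‖ ≤ 1` and `Phi p ∈ Phi '' {‖t‖ ≤ 1, sn v < ε}`; so `Phi p ∈ XX` iff `p ∈ Kmid ∪ Kin`; if `ε/2 < sn p.2` it is not in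
`Kin` (`mem_Kin`); if `ε/2 = sn p.2`: `p ∈ Kin` implies `sn p.1 ≤ 1/2`, `inv_edge`, so `sn p.1 ≤ 1/4` and `nu = 4 sn p.1 ≤ 1` (`nu_in`). The same for `MM` with `=`.
`mem_in`: `sn p.2 ≤ ε/2`: as before `Phi p ∈ XX` iff `p ∈ Kmid ∪ Kin`; if `p ∈ Kmid` then `sn p.2 = ε/2`, `4 sn p.1 ≤ 1`, so `p ≠ 0`, and `p ∈ Kin` by `mem_Kin`,
`inv_edge`.
-/

set_option autoImplicit false

namespace Pool.Agent.FibC

open Complex ComplexConjugate Set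

noncomputable section

theorem Phi_inj {ε : ℝ} (h : IsTube ε) : InjOn Phi (UU ε) := by
  obtain ⟨T, hT, hTe⟩ := h.emb
  intro p hp q hq hpq
  refine T.injOn (by rw [hT]; exact hp) (by rw [hT]; exact hq) ?_
  rw [hTe p hp, hTe q hq]
  exact hpq

theorem Phi_cont {ε : ℝ} (h : IsTube ε) : ContinuousOn Phi (UU ε) := by
  obtain ⟨T, hT, hTe⟩ := h.emb
  have h1 := T.continuousOn
  rw [hT] at h1
  exact h1.congr fun p hp => (hTe p hp).symm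

theorem Phi_open {ε : ℝ} (h : IsTube ε) {O : Set (ℂ × ℂ)} (hO : IsOpen O) (hs : O ⊆ UU ε) :
    IsOpen (Phi '' O) := by
  obtain ⟨T, hT, hTe⟩ := h.emb
  have h1 : T '' O = Phi '' O := image_congr fun p hp => hTe p (hs hp)
  rw [← h1]
  exact T.isOpen_image_of_subset_source hO (by rw [hT]; exact hs)

theorem sub_UU {ε : ℝ} (h : IsTube ε) : Kmid ε ∪ Kin ε ⊆ {p | ‖p.1‖ ≤ 1 ∧ sn p.2 ≤ ε} ∧
    Mmid ε ∪ Min ε ⊆ {p | ‖p.1‖ ≤ 1 ∧ sn p.2 ≤ ε} ∧ {p : ℂ × ℂ | ‖p.1‖ ≤ 1 ∧ sn p.2 ≤ ε} ⊆ UU ε := by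
  have hε := h.pos
  refine ⟨?_, ?_, ?_⟩
  · rintro p (⟨_, h2, h3⟩ | hp)
    · exact ⟨(nu_ge ε p.2 p.1).trans h3, h2⟩
    · obtain ⟨_, h1, h2, _⟩ := (mem_Kin hε p).1 hp
      refine ⟨?_, ?_⟩
      · have := le_sn p.1
        linarith
      · linarith
  · rintro p (⟨_, h2, h3⟩ | hp)
    · exact ⟨(nu_ge ε p.2 p.1).trans h3.le, h2⟩
    · obtain ⟨_, h1, h2, _⟩ := (mem_Min hε p).1 hp
      refine ⟨?_, ?_⟩
      · have := le_sn p.1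
        linarith
      · linarith
  · rintro p ⟨h1, h2⟩
    exact ⟨by linarith, by linarith⟩

theorem mem_out {ε : ℝ} (h : IsTube ε) {q : S2 × ℂ} (hq : q ∉ Phi '' {p | ‖p.1‖ ≤ 1 ∧ sn p.2 ≤ ε}) :
    (q ∈ XX ε ↔ ‖q.2‖ ≤ 1) ∧ (q ∈ MM ε ↔ ‖q.2‖ = 1) := by
  obtain ⟨h1, h2, -⟩ := sub_UU h
  have n1 : q ∉ Phi '' {p | ‖p.1‖ ≤ 1 ∧ sn p.2 < ε} := by
    rintro ⟨p, hp, rfl⟩
    exact hq ⟨p, ⟨hp.1, hp.2.le⟩, rfl⟩
  have n2 : q ∉ Phi '' {p | ‖p.1‖ = 1 ∧ sn p.2 < ε} := by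
    rintro ⟨p, hp, rfl⟩
    exact hq ⟨p, ⟨hp.1.le, hp.2.le⟩, rfl⟩
  have n3 : q ∉ Phi '' (Kmid ε ∪ Kin ε) := fun hc => hq (image_mono h1 hc)
  have n4 : q ∉ Phi '' (Mmid ε ∪ Min ε) := fun hc => hq (image_mono h2 hc)
  constructor
  · constructor
    · rintro (hc | hc)
      · exact hc.1
      · exact absurd hc n3
    · intro hc
      exact Or.inl ⟨hc, n1⟩
  · constructor
    · rintro (hc | hc)
      · exact hc.1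
      · exact absurd hc n4
    · intro hc
      exact Or.inl ⟨hc, n2⟩

private theorem xl_img {ε : ℝ} (h : IsTube ε) {p : ℂ × ℂ} (hp : p ∈ UU ε) {A : Set (ℂ × ℂ)}
    (hA : A ⊆ {p | ‖p.1‖ ≤ 1 ∧ sn p.2 ≤ ε}) : Phi p ∈ Phi '' A ↔ p ∈ A :=
  (Phi_inj h).mem_image_iff (hA.trans (sub_UU h).2.2) hp

private theorem xl_XX {ε : ℝ} (h : IsTube ε) {p : ℂ × ℂ} (hp : p ∈ UU ε) :
    Phi p ∈ XX ε ↔ (‖p.1‖ ≤ 1 ∧ ε ≤ sn p.2) ∨ p ∈ Kmid ε ∨ p ∈ Kin ε := by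
  have hle : ‖(Phi p).2‖ ≤ 1 ↔ ‖p.1‖ ≤ 1 := by
    rw [le_iff_lt_or_eq, le_iff_lt_or_eq, h.lt p hp, h.eq p hp]
  have h1 : Phi p ∈ Phi '' {p | ‖p.1‖ ≤ 1 ∧ sn p.2 < ε} ↔ ‖p.1‖ ≤ 1 ∧ sn p.2 < ε :=
    xl_img h hp fun p hp => ⟨hp.1, hp.2.le⟩
  have h2 : Phi p ∈ Phi '' (Kmid ε ∪ Kin ε) ↔ p ∈ Kmid ε ∪ Kin ε := xl_img h hp (sub_UU h).1
  have h3 : Phi p ∈ XX ε ↔ (‖(Phi p).2‖ ≤ 1 ∧ ¬ Phi p ∈ Phi '' {p | ‖p.1‖ ≤ 1 ∧ sn p.2 < ε}) ∨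
      Phi p ∈ Phi '' (Kmid ε ∪ Kin ε) := Iff.rfl
  rw [h3, hle, h1, h2, mem_union]
  constructor
  · rintro (⟨ha, hb⟩ | hc)
    · exact Or.inl ⟨ha, not_lt.1 fun hd => hb ⟨ha, hd⟩⟩
    · exact Or.inr hc
  · rintro (⟨ha, hb⟩ | hc)
    · exact Or.inl ⟨ha, fun hd => absurd hd.2 (not_lt.2 hb)⟩
    · exact Or.inr hc

private theorem xl_MM {ε : ℝ} (h : IsTube ε) {p : ℂ × ℂ} (hp : p ∈ UU ε) :
    Phi p ∈ MM ε ↔ (‖p.1‖ = 1 ∧ ε ≤ sn p.2) ∨ p ∈ Mmid ε ∨ p ∈ Min ε := by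
  have h1 : Phi p ∈ Phi '' {p | ‖p.1‖ = 1 ∧ sn p.2 < ε} ↔ ‖p.1‖ = 1 ∧ sn p.2 < ε :=
    xl_img h hp fun p hp => ⟨hp.1.le, hp.2.le⟩
  have h2 : Phi p ∈ Phi '' (Mmid ε ∪ Min ε) ↔ p ∈ Mmid ε ∪ Min ε := xl_img h hp (sub_UU h).2.1
  have h3 : Phi p ∈ MM ε ↔ (‖(Phi p).2‖ = 1 ∧ ¬ Phi p ∈ Phi '' {p | ‖p.1‖ = 1 ∧ sn p.2 < ε}) ∨
      Phi p ∈ Phi '' (Mmid ε ∪ Min ε) := Iff.rfl
  rw [h3, h.eq p hp, h1, h2, mem_union]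
  constructor
  · rintro (⟨ha, hb⟩ | hc)
    · exact Or.inl ⟨ha, not_lt.1 fun hd => hb ⟨ha, hd⟩⟩
    · exact Or.inr hc
  · rintro (⟨ha, hb⟩ | hc)
    · exact Or.inl ⟨ha, fun hd => absurd hd.2 (not_lt.2 hb)⟩
    · exact Or.inr hc

theorem mem_mid {ε : ℝ} (h : IsTube ε) {p : ℂ × ℂ} (hp : p ∈ UU ε) (hv : ε / 2 ≤ sn p.2) :
    (Phi p ∈ XX ε ↔ nu ε p.2 p.1 ≤ 1) ∧ (Phi p ∈ MM ε ↔ nu ε p.2 p.1 = 1) := by
  have hε := h.pos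
  rw [xl_XX h hp, xl_MM h hp]
  constructor
  · constructor
    · rintro (⟨h1, h2⟩ | ⟨_, _, h3⟩ | hK)
      · rw [nu_out hε h2]; exact h1
      · exact h3
      · obtain ⟨_, h1, h2, h3⟩ := (mem_Kin hε p).1 hK
        have h4 : sn p.2 = ε / 2 := le_antisymm h2 hv
        obtain ⟨h5, h6⟩ := inv_edge hε h1 h2 (Or.inr h4)
        rw [h5, h6] at h3
        rw [nu_in hε (by linarith)]
        linarith
    · intro hn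
      rcases le_total ε (sn p.2) with h1 | h1
      · rw [nu_out hε h1] at hn
        exact Or.inl ⟨hn, h1⟩
      · exact Or.inr (Or.inl ⟨hv, h1, hn⟩)
  · constructor
    · rintro (⟨h1, h2⟩ | ⟨_, _, h3⟩ | hK)
      · rw [nu_out hε h2]; exact h1
      · exact h3
      · obtain ⟨_, h1, h2, h3⟩ := (mem_Min hε p).1 hK
        have h4 : sn p.2 = ε / 2 := le_antisymm h2 hv
        obtain ⟨h5, h6⟩ := inv_edge hε h1 h2 (Or.inr h4)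
        rw [h5, h6] at h3
        rw [nu_in hε (by linarith)]
        linarith
    · intro hn
      rcases le_total ε (sn p.2) with h1 | h1
      · rw [nu_out hε h1] at hn
        exact Or.inl ⟨hn, h1⟩
      · exact Or.inr (Or.inl ⟨hv, h1, hn⟩)

theorem mem_in {ε : ℝ} (h : IsTube ε) {p : ℂ × ℂ} (hp : p ∈ UU ε) (hv : sn p.2 ≤ ε / 2) :
    (Phi p ∈ XX ε ↔ p ∈ Kin ε) ∧ (Phi p ∈ MM ε ↔ p ∈ Min ε) := by
  have hε := h.pos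
  have hp0 : sn p.2 = ε / 2 → p ≠ 0 := by
    rintro h1 rfl
    have h2 : sn (0 : ℂ × ℂ).2 = 0 := sn_eq_zero.2 rfl
    rw [h2] at h1
    linarith
  rw [xl_XX h hp, xl_MM h hp]
  constructor
  · constructor
    · rintro (⟨_, h2⟩ | ⟨h2, _, h3⟩ | hK)
      · linarith
      · have h4 : sn p.2 = ε / 2 := le_antisymm hv h2
        rw [nu_in hε (by linarith)] at h3
        have h1 : sn p.1 ≤ 1 / 2 := by linarith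
        obtain ⟨h5, h6⟩ := inv_edge hε h1 hv (Or.inr h4)
        refine (mem_Kin hε p).2 ⟨hp0 h4, h1, hv, ?_⟩
        rw [h5, h6]
        linarith
      · exact hK
    · intro hK
      exact Or.inr (Or.inr hK)
  · constructor
    · rintro (⟨_, h2⟩ | ⟨h2, _, h3⟩ | hK)
      · linarith
      · have h4 : sn p.2 = ε / 2 := le_antisymm hv h2
        rw [nu_in hε (by linarith)] at h3
        have h1 : sn p.1 ≤ 1 / 2 := by linarith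
        obtain ⟨h5, h6⟩ := inv_edge hε h1 hv (Or.inr h4)
        refine (mem_Min hε p).2 ⟨hp0 h4, h1, hv, ?_⟩
        rw [h5, h6]
        linarith
      · exact hK
    · intro hK
      exact Or.inr (Or.inr hK)

end

end Pool.Agent.FibC
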