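import Pool.Agent.Lib.FibC.SeD
import Pool.Agent.Lib.FibC.Tube
import Pool.Agent.Lib.FibC.XLoc

/-!
# SeV: the coordinates of the boundary of `S2 × closed disc`

PROOF. `Vb b s = (PP z 1, w)`, `z = b s²`, `w = un b * s³`. `un z = un b * s²`, so `s = w / un z` and `b = z / s²`: injective. `Vb_surj`: `q.1 = PP z 1`, `z ≠ 0`, `w = q.2`, `s = w / un z`,
`b = z / s²`, `un b = un z ³ / w²`, `un b s³ = w`. `Vb_tube`: if `sn v < ε` then `Phi (s, v) = Vb (1 + v) s` (`Phi_bd`, `‖v‖ ≤ 2 sn v < 1/8`); conversely if `Vb (1 + v) s = Phi (t, v')`, `‖t‖ = 1`, `sn v' < 2 ε`, then it is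
`Vb (1 + v') t`, `1 + v' ≠ 0`, so `v = v'`.
-/

set_option autoImplicit false

namespace Pool.Agent.FibC

open Complex ComplexConjugate Set

noncomputable section

theorem un_norm {z : ℂ} (h : z ≠ 0) : ‖un z‖ = 1 := by
  unfold un
  rw [norm_div, norm_real, Real.norm_of_nonneg (norm_nonneg _),
    div_self (norm_ne_zero_iff.2 h)]

private theorem sev_un (b : ℂ) (s : Circle) : un (b * (s : ℂ) ^ 2) = un b * (s : ℂ) ^ 2 := by
  unfold un
  rw [norm_mul, norm_pow, Circle.norm_coe, one_pow, mul_one, div_mul_eq_mul_div]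

theorem Vb_norm {b : ℂ} (h : b ≠ 0) (s : Circle) : ‖(Vb b s).2‖ = 1 := by
  unfold Vb
  simp only
  rw [norm_mul, un_norm h, norm_pow, Circle.norm_coe, one_pow, mul_one]

private theorem sev_un_ne {b : ℂ} (h : b ≠ 0) : un b ≠ 0 :=
  norm_ne_zero_iff.1 (by rw [un_norm h]; exact one_ne_zero)

theorem Vb_inj {b b' : ℂ} (h : b ≠ 0) (h' : b' ≠ 0) {s s' : Circle} (he : Vb b s = Vb b' s') :
    b = b' ∧ s = s' := by
  have h1 : PP (b * (s : ℂ) ^ 2) 1 = PP (b' * (s' : ℂ) ^ 2) 1 := congrArg Prod.fst he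
  have h2 : un b * (s : ℂ) ^ 3 = un b' * (s' : ℂ) ^ 3 := congrArg Prod.snd he
  rw [PP_eq_iff (by simp) (by simp), mul_one, mul_one] at h1
  have h3 := congrArg un h1
  rw [sev_un, sev_un] at h3
  have hs : (s : ℂ) ≠ 0 := Circle.coe_ne_zero s
  have hs' : (s' : ℂ) ≠ 0 := Circle.coe_ne_zero s'
  have h4 : un b * (s : ℂ) ^ 2 * ((s : ℂ) - s') = 0 := by
    linear_combination h2 - (s' : ℂ) * h3
  have h5 : (s : ℂ) = s' := by
    rcases mul_eq_zero.1 h4 with h5 | h5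
    · exact absurd h5 (mul_ne_zero (sev_un_ne h) (pow_ne_zero 2 hs))
    · exact sub_eq_zero.1 h5
  refine ⟨?_, Circle.coe_injective h5⟩
  rw [h5] at h1
  exact mul_right_cancel₀ (pow_ne_zero 2 hs') h1

theorem Vb_fst {b : ℂ} (h : b ≠ 0) (s : Circle) : (Vb b s).1 ≠ PP 1 0 ∧ (Vb b s).1 ≠ PP 0 1 := by
  have hs : (s : ℂ) ≠ 0 := Circle.coe_ne_zero s
  constructor
  · intro he
    have h1 : PP (b * (s : ℂ) ^ 2) 1 = PP 1 0 := he
    rw [PP_eq_iff (by simp) (by simp)] at h1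
    simp at h1
  · intro he
    have h1 : PP (b * (s : ℂ) ^ 2) 1 = PP 0 1 := he
    rw [PP_eq_iff (by simp) (by simp), mul_one, zero_mul] at h1
    exact absurd h1 (mul_ne_zero h (pow_ne_zero 2 hs))

theorem Vb_surj {q : S2 × ℂ} (h : ‖q.2‖ = 1) (h0 : q.1 ≠ PP 1 0) (h1 : q.1 ≠ PP 0 1) :
    ∃ (b : ℂ) (s : Circle), b ≠ 0 ∧ q = Vb b s := by
  rcases PP_surj q.1 with h2 | ⟨z, hz⟩
  · exact absurd h2 h0
  · have hz0 : z ≠ 0 := by
      rintro rfl
      exact h1 hz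
    have hu : un z ≠ 0 := sev_un_ne hz0
    have hw : q.2 ≠ 0 := norm_ne_zero_iff.1 (by rw [h]; exact one_ne_zero)
    have hs1 : ‖q.2 / un z‖ = 1 := by rw [norm_div, h, un_norm hz0, div_one]
    obtain ⟨s, hs⟩ : ∃ s : Circle, (s : ℂ) = q.2 / un z :=
      ⟨⟨q.2 / un z, mem_sphere_zero_iff_norm.2 hs1⟩, rfl⟩
    have hsn : (s : ℂ) ≠ 0 := Circle.coe_ne_zero s
    have hb : z / (s : ℂ) ^ 2 ≠ 0 := div_ne_zero hz0 (pow_ne_zero 2 hsn)
    refine ⟨z / (s : ℂ) ^ 2, s, hb, ?_⟩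
    have e1 : z / (s : ℂ) ^ 2 * (s : ℂ) ^ 2 = z := div_mul_cancel₀ _ (pow_ne_zero 2 hsn)
    have e2 : un (z / (s : ℂ) ^ 2) * (s : ℂ) ^ 2 = un z := by rw [← sev_un, e1]
    unfold Vb
    refine Prod.ext ?_ ?_
    · simp only
      rw [e1]
      exact hz
    · simp only
      have e3 : un (z / (s : ℂ) ^ 2) * (s : ℂ) ^ 3 = un z * s := by rw [← e2]; ring
      rw [e3, hs]
      field_simp

theorem Vb_cont {b : ℂ} (h : b ≠ 0) (s : Circle) :
    ContinuousAt (fun z : ℂ × Circle => Vb z.1 z.2) (b, s) := by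
  have hc : Continuous fun z : ℂ × Circle => (z.2 : ℂ) :=
    continuous_subtype_val.comp continuous_snd
  have h1 : ContinuousAt (fun p : ℂ × ℂ => PP p.1 p.2) (b * (s : ℂ) ^ 2, 1) := PP_cont (by simp)
  have h2 : ContinuousAt (fun z : ℂ × Circle => ((z.1 * (z.2 : ℂ) ^ 2, 1) : ℂ × ℂ)) (b, s) :=
    ((continuous_fst.mul (hc.pow 2)).prodMk continuous_const).continuousAt
  have h3 : ContinuousAt (fun z : ℂ × Circle => PP (z.1 * (z.2 : ℂ) ^ 2) 1) (b, s) :=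
    ContinuousAt.comp (f := fun z : ℂ × Circle => ((z.1 * (z.2 : ℂ) ^ 2, 1) : ℂ × ℂ))
      (g := fun p : ℂ × ℂ => PP p.1 p.2) h1 h2
  have h4 : ContinuousAt (fun z : ℂ × Circle => un z.1) (b, s) := by
    unfold un
    refine ContinuousAt.div continuousAt_fst ?_ ?_
    · exact (continuous_ofReal.comp (continuous_norm.comp continuous_fst)).continuousAt
    · exact_mod_cast norm_ne_zero_iff.2 h
  exact h3.prodMk (h4.mul (hc.pow 3).continuousAt)

private theorem sev_small {ε : ℝ} (h : IsTube ε) {v : ℂ} (hv : sn v < 2 * ε) : ‖v‖ < 1 / 2 := by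
  have h1 := le_sn v
  have h2 := h.small
  linarith

theorem Vb_Phi {ε : ℝ} (h : IsTube ε) {v : ℂ} (hv : sn v < 2 * ε) (s : Circle) :
    Vb (1 + v) s = Phi ((s : ℂ), v) :=
  (Phi_bd (Circle.norm_coe s) (sev_small h hv)).symm

theorem Vb_tube {ε : ℝ} (h : IsTube ε) {v : ℂ} (hv : 1 + v ≠ 0) (s : Circle) :
    Vb (1 + v) s ∈ Phi '' {p | ‖p.1‖ = 1 ∧ sn p.2 < ε} ↔ sn v < ε := by
  have hε := h.pos
  constructor
  · rintro ⟨p, ⟨h1, h2⟩, h3⟩
    obtain ⟨t, ht⟩ : ∃ t : Circle, (t : ℂ) = p.1 := ⟨⟨p.1, mem_sphere_zero_iff_norm.2 h1⟩, rfl⟩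
    have hp : p = ((t : ℂ), p.2) := Prod.ext ht.symm rfl
    have h4 : sn p.2 < 2 * ε := by linarith
    rw [hp, ← Vb_Phi h h4] at h3
    have h5 := sev_small h h4
    have h6 : 1 + p.2 ≠ 0 := by
      intro h0
      have h7 : p.2 = -1 := by linear_combination h0
      rw [h7, norm_neg, norm_one] at h5
      linarith
    have h8 := (Vb_inj h6 hv h3).1
    have h9 : p.2 = v := by linear_combination h8
    rw [← h9]
    exact h2
  · intro h1
    exact ⟨((s : ℂ), v), ⟨Circle.norm_coe s, h1⟩, (Vb_Phi h (by linarith) s).symm⟩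

end

end Pool.Agent.FibC
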