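import Pool.Agent.Lib.FibC.SeD
import Pool.Agent.Lib.FibC.SeV

/-!
# SeG: the two solid tori

PROOF. `G0_Vb`: for `0 < ‖y‖ ≤ 1`, `u = un y`, `w = om0 y t = ‖y‖ u³ conj t / 4` (`y³ = ‖y‖³ u³`), `‖w‖ = ‖y‖ / 4`. `Vb (1 + 1/w) u = (PP ((1 + 1/w) u²) 1, un (1 + 1/w) u³)`; `(1 + w) / w * u²`, `w / u² = ‖y‖ u conj t / 4 = y conj t / 4`, so
`PP ((1 + w) u² / w) 1 = PP 1 (w / ((1 + w) u²)) = PP 1 (y conj t / (4 (1 + w)))`; `un ((1 + w) / w) = un (1 + w) conj (un w) = un (1 + w) conj u ³ t`. `G1_Vb`: `w = om1 y t`, `w + 1 = ‖y‖ u³ t / 4`;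
`1 + 1/w = (w + 1)/w`; `Vb (1 + 1/w) (conj u) = (PP ((w + 1) / (w u²)) 1, un (w + 1) conj (un w) conj u ³)`, `(w + 1) / u² = ‖y‖ u t / 4 = y t / 4`, `un (w + 1) = u³ t`. `G0_zero`: `y = 0`: `om0 = 0`, the value is `(PP 1 0, t)`; `G1`: `om1 = -1`, `un (-1) = -1`, the value is `(PP 0 1, -t)`.
Continuity: `y³ / ‖y‖²` is continuous (`‖.‖ = ‖y‖`), `1 + w ≠ 0`, `w ≠ 0` because `‖w‖ ≤ 1/4`, `‖w + 1‖ ≤ 1/4`. Injectivity: for `y ≠ 0` `Vb_inj` gives `w` and `u`, `‖y‖ = 4 ‖w‖`, so `y`, and then `t`; `y = 0` is the only case with `q.1 = PP 1 0` (`PP 0 1`).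
`G0_surj`: `q = Vb (1 + v) s`, `‖1 / v‖ ≤ 1/4`, `w = 1/v`, `y = 4 ‖w‖ s`, `conj t = un w conj s ³`.
-/

set_option autoImplicit false

namespace Pool.Agent.FibC

open Complex ComplexConjugate Set

noncomputable section

private theorem circ_of {z : ℂ} (h : ‖z‖ = 1) : ∃ u : Circle, (u : ℂ) = z :=
  ⟨⟨z, mem_sphere_zero_iff_norm.2 h⟩, rfl⟩

private theorem un_mul' (a b : ℂ) : un (a * b) = un a * un b := by
  unfold un
  rw [norm_mul, ofReal_mul]
  exact mul_div_mul_comm a b _ _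

private theorem un_inv' (b : ℂ) : un b⁻¹ = (un b)⁻¹ := by
  unfold un
  rw [norm_inv, ofReal_inv, inv_div, inv_div_inv]

private theorem un_circle (u : Circle) : un (u : ℂ) = u := by
  unfold un
  rw [Circle.norm_coe, ofReal_one, div_one]

private theorem un_real {r : ℝ} (h : 0 < r) : un (r : ℂ) = 1 := by
  unfold un
  rw [Complex.norm_real, Real.norm_of_nonneg h.le]
  exact div_self (by exact_mod_cast h.ne')

private theorem eq_norm_un (z : ℂ) : (‖z‖ : ℂ) * un z = z := by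
  unfold un
  by_cases h : z = 0
  · rw [h]
    simp
  · have : (‖z‖ : ℂ) ≠ 0 := by exact_mod_cast (norm_ne_zero_iff.2 h)
    exact mul_div_cancel₀ z this

/-- the common part of `om0` and `om1` -/
private def ka (y s : ℂ) : ℂ := y ^ 3 * s / ((4 * ‖y‖ ^ 2 : ℝ) : ℂ)

private theorem om0_ka (y : ℂ) (t : Circle) : om0 y t = ka y (conj (t : ℂ)) := rfl

private theorem om1_ka (y : ℂ) (t : Circle) : om1 y t = -1 + ka y (t : ℂ) := rfl

private theorem ka_zero (s : ℂ) : ka 0 s = 0 := by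
  unfold ka
  simp

private theorem ka_norm (y s : ℂ) : ‖ka y s‖ = ‖y‖ * ‖s‖ / 4 := by
  by_cases h : y = 0
  · rw [h, ka_zero]
    simp
  · have h1 : ‖y‖ ≠ 0 := norm_ne_zero_iff.2 h
    unfold ka
    rw [norm_div, norm_mul, norm_pow, Complex.norm_real, Real.norm_of_nonneg (by positivity)]
    field_simp

private theorem ka_cont : Continuous fun p : ℂ × ℂ => ka p.1 p.2 := by
  rw [continuous_iff_continuousAt]
  rintro ⟨y, s⟩
  by_cases h : y = 0
  · subst h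
    have h0 : ka (0 : ℂ) s = 0 := ka_zero s
    unfold ContinuousAt
    simp only [h0]
    refine squeeze_zero_norm (a := fun p : ℂ × ℂ => ‖p.1‖ * ‖p.2‖ / 4)
      (fun p => le_of_eq (ka_norm p.1 p.2)) ?_
    have h1 : Continuous fun p : ℂ × ℂ => ‖p.1‖ * ‖p.2‖ / 4 := by fun_prop
    have h2 := h1.tendsto ((0 : ℂ), s)
    simpa using h2
  · unfold ka
    have h1 : ((4 * ‖y‖ ^ 2 : ℝ) : ℂ) ≠ 0 := by
      have : 4 * ‖y‖ ^ 2 ≠ 0 := by
        have := norm_ne_zero_iff.2 h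
        positivity
      exact_mod_cast this
    refine ContinuousAt.div ?_ ?_ h1
    · fun_prop
    · fun_prop

/-- the value of `ka` for `y ≠ 0` -/
private theorem ka_val {y : ℂ} (h0 : y ≠ 0) (s : Circle) {u : Circle} (hu : (u : ℂ) = un y) :
    ka y (s : ℂ) = ((‖y‖ / 4 : ℝ) : ℂ) * ((u ^ 3 * s : Circle) : ℂ) := by
  have hn : (‖y‖ : ℂ) ≠ 0 := by exact_mod_cast (norm_ne_zero_iff.2 h0)
  have h3 : y ^ 3 = (‖y‖ : ℂ) ^ 3 * (u : ℂ) ^ 3 := by
    rw [hu, ← mul_pow, eq_norm_un]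
  unfold ka
  rw [h3, Circle.coe_mul, Circle.coe_pow]
  push_cast
  field_simp

private theorem ka_le {y : ℂ} (h1 : ‖y‖ ≤ 1) (s : Circle) : ‖ka y (s : ℂ)‖ ≤ 1 / 4 := by
  rw [ka_norm, Circle.norm_coe]
  linarith

private theorem one_add_ne {w : ℂ} (h : ‖w‖ ≤ 1 / 4) : 1 + w ≠ 0 := by
  intro h0
  have h1 : w = -1 := by linear_combination h0
  rw [h1, norm_neg, norm_one] at h
  norm_num at h

private theorem neg_one_add_ne {w : ℂ} (h : ‖w‖ ≤ 1 / 4) : -1 + w ≠ 0 := by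
  intro h0
  have h1 : w = 1 := by linear_combination h0
  rw [h1, norm_one] at h
  norm_num at h

private theorem om0_le {y : ℂ} (h1 : ‖y‖ ≤ 1) (t : Circle) : ‖om0 y t‖ ≤ 1 / 4 := by
  rw [om0_ka, ← Circle.coe_inv_eq_conj]
  exact ka_le h1 _

private theorem un_cont {z : ℂ} (h : z ≠ 0) : ContinuousAt un z := by
  unfold un
  refine continuousAt_id.div ?_ ?_
  · exact (Complex.continuous_ofReal.comp continuous_norm).continuousAt
  · exact_mod_cast (norm_ne_zero_iff.2 h)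

theorem G_cont : ContinuousOn G0 (Metric.closedBall 0 1 ×ˢ univ) ∧
    ContinuousOn G1 (Metric.closedBall 0 1 ×ˢ univ) := by
  have c0 : Continuous fun z : ℂ × Circle => om0 z.1 z.2 := by
    have h : Continuous fun z : ℂ × Circle => ((z.1, conj (z.2 : ℂ)) : ℂ × ℂ) :=
      continuous_fst.prodMk (Complex.continuous_conj.comp
        (continuous_subtype_val.comp continuous_snd))
    have e : (fun z : ℂ × Circle => om0 z.1 z.2) = fun z => ka z.1 (conj (z.2 : ℂ)) :=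
      funext fun z => om0_ka _ _
    rw [e]
    exact Continuous.comp (g := fun p : ℂ × ℂ => ka p.1 p.2)
      (f := fun z : ℂ × Circle => ((z.1, conj (z.2 : ℂ)) : ℂ × ℂ)) ka_cont h
  have c1 : Continuous fun z : ℂ × Circle => om1 z.1 z.2 := by
    have h : Continuous fun z : ℂ × Circle => ((z.1, (z.2 : ℂ)) : ℂ × ℂ) :=
      continuous_fst.prodMk (continuous_subtype_val.comp continuous_snd)
    have e : (fun z : ℂ × Circle => om1 z.1 z.2) = fun z => -1 + ka z.1 (z.2 : ℂ) :=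
      funext fun z => om1_ka _ _
    rw [e]
    exact continuous_const.add (Continuous.comp (g := fun p : ℂ × ℂ => ka p.1 p.2)
      (f := fun z : ℂ × Circle => ((z.1, (z.2 : ℂ)) : ℂ × ℂ)) ka_cont h)
  have cc : Continuous fun z : ℂ × Circle => (z.2 : ℂ) :=
    continuous_subtype_val.comp continuous_snd
  constructor
  · rintro ⟨y, t⟩ ⟨hy, -⟩
    have hy1 : ‖y‖ ≤ 1 := by simpa using hy
    have hne : 1 + om0 y t ≠ 0 := one_add_ne (om0_le hy1 t)
    refine ContinuousAt.continuousWithinAt ?_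
    unfold G0
    refine ContinuousAt.prodMk ?_ ?_
    · have e : ContinuousAt (fun z : ℂ × Circle =>
          (((1 : ℂ), z.1 * conj (z.2 : ℂ) / (4 * (1 + om0 z.1 z.2))) : ℂ × ℂ)) (y, t) := by
        refine continuousAt_const.prodMk (ContinuousAt.div ?_ ?_ ?_)
        · exact (continuous_fst.mul (Complex.continuous_conj.comp cc)).continuousAt
        · exact (continuous_const.mul (continuous_const.add c0)).continuousAt
        · exact mul_ne_zero (by norm_num) hne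
      have hne1 : ¬ ((1 : ℂ) = 0 ∧ y * conj (t : ℂ) / (4 * (1 + om0 y t)) = 0) :=
        fun h => one_ne_zero h.1
      have hP := PP_cont hne1
      exact ContinuousAt.comp_of_eq (f := fun z : ℂ × Circle =>
          (((1 : ℂ), z.1 * conj (z.2 : ℂ) / (4 * (1 + om0 z.1 z.2))) : ℂ × ℂ)) hP e rfl
    · refine ContinuousAt.mul ?_ cc.continuousAt
      exact ContinuousAt.comp_of_eq (g := un) (f := fun z : ℂ × Circle => 1 + om0 z.1 z.2)
        (un_cont hne) (continuous_const.add c0).continuousAt rfl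
  · rintro ⟨y, t⟩ ⟨hy, -⟩
    have hy1 : ‖y‖ ≤ 1 := by simpa using hy
    have hne : om1 y t ≠ 0 := neg_one_add_ne (ka_le hy1 t)
    refine ContinuousAt.continuousWithinAt ?_
    unfold G1
    refine ContinuousAt.prodMk ?_ ?_
    · have e : ContinuousAt (fun z : ℂ × Circle =>
          ((z.1 * (z.2 : ℂ) / (4 * om1 z.1 z.2), (1 : ℂ)) : ℂ × ℂ)) (y, t) := by
        refine (ContinuousAt.div ?_ ?_ ?_).prodMk continuousAt_const
        · exact (continuous_fst.mul cc).continuousAt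
        · exact (continuous_const.mul c1).continuousAt
        · exact mul_ne_zero (by norm_num) hne
      have hne1 : ¬ (y * (t : ℂ) / (4 * om1 y t) = 0 ∧ (1 : ℂ) = 0) :=
        fun h => one_ne_zero h.2
      have hP := PP_cont hne1
      exact ContinuousAt.comp_of_eq (f := fun z : ℂ × Circle =>
          ((z.1 * (z.2 : ℂ) / (4 * om1 z.1 z.2), (1 : ℂ)) : ℂ × ℂ)) hP e rfl
    · refine ContinuousAt.mul cc.continuousAt ?_
      have e : ContinuousAt (fun z : ℂ × Circle => un (om1 z.1 z.2)) (y, t) :=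
        ContinuousAt.comp_of_eq (g := un) (f := fun z : ℂ × Circle => om1 z.1 z.2)
          (un_cont hne) c1.continuousAt rfl
      exact Complex.continuous_conj.continuousAt.comp e

/-- `u` is the unit vector of `y` -/
theorem G0_Vb {y : ℂ} (h0 : y ≠ 0) (h1 : ‖y‖ ≤ 1) (t : Circle) : ∃ u : Circle, (u : ℂ) = un y ∧
    om0 y t = ((‖y‖ / 4 : ℝ) : ℂ) * ((u ^ 3 * t⁻¹ : Circle) : ℂ) ∧
      G0 (y, t) = Vb (1 + 1 / om0 y t) u := by
  obtain ⟨u, hu⟩ := circ_of (un_norm h0)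
  have hn : 0 < ‖y‖ := norm_pos_iff.2 h0
  have ho : om0 y t = ((‖y‖ / 4 : ℝ) : ℂ) * ((u ^ 3 * t⁻¹ : Circle) : ℂ) := by
    rw [om0_ka, ← Circle.coe_inv_eq_conj]
    exact ka_val h0 _ hu
  have hle := om0_le h1 t
  have hG : G0 (y, t) = (PP 1 (y * conj (t : ℂ) / (4 * (1 + om0 y t))),
    un (1 + om0 y t) * (t : ℂ)) := rfl
  refine ⟨u, hu, ho, ?_⟩
  rw [hG]
  obtain ⟨w, hw⟩ : ∃ w, w = om0 y t := ⟨_, rfl⟩
  rw [← hw] at ho hle ⊢
  have hw1 : 1 + w ≠ 0 := one_add_ne hle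
  have hw0 : w ≠ 0 := by
    rw [ho]
    refine mul_ne_zero ?_ (Circle.coe_ne_zero _)
    have : ‖y‖ / 4 ≠ 0 := by positivity
    exact_mod_cast this
  have hy : y = (‖y‖ : ℂ) * u := by rw [hu, eq_norm_un]
  have ht : (t : ℂ) ≠ 0 := Circle.coe_ne_zero t
  have hu0 : (u : ℂ) ≠ 0 := Circle.coe_ne_zero u
  have hunw : un w = (u : ℂ) ^ 3 * (t : ℂ)⁻¹ := by
    rw [ho, un_mul', un_real (by positivity), un_circle, one_mul]
    rfl
  have hyw : y * (u : ℂ) ^ 2 * (t : ℂ)⁻¹ = 4 * w := by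
    rw [ho]
    conv_lhs => rw [hy]
    rw [Circle.coe_mul, Circle.coe_pow, Circle.coe_inv]
    push_cast
    ring
  unfold Vb
  refine Prod.ext ?_ ?_
  · change PP 1 (y * conj (t : ℂ) / (4 * (1 + w))) = PP ((1 + 1 / w) * (u : ℂ) ^ 2) 1
    rw [PP_eq_iff (fun h => one_ne_zero h.1) (fun h => one_ne_zero h.2),
      ← Circle.coe_inv_eq_conj, Circle.coe_inv]
    have hyw' : y * (u : ℂ) ^ 2 = 4 * w * (t : ℂ) := by
      rw [← hyw, mul_assoc (y * (u : ℂ) ^ 2), inv_mul_cancel₀ ht, mul_one]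
    field_simp
    linear_combination (-(1 + w)) * hyw'
  · change un (1 + w) * (t : ℂ) = un (1 + 1 / w) * (u : ℂ) ^ 3
    have e : 1 + 1 / w = (1 + w) * w⁻¹ := by
      field_simp
      ring
    rw [e, un_mul', un_inv', hunw]
    field_simp

theorem G1_Vb {y : ℂ} (h0 : y ≠ 0) (h1 : ‖y‖ ≤ 1) (t : Circle) : ∃ u : Circle, (u : ℂ) = un y ∧
    om1 y t = -1 + ((‖y‖ / 4 : ℝ) : ℂ) * ((u ^ 3 * t : Circle) : ℂ) ∧
      G1 (y, t) = Vb (1 + 1 / om1 y t) ((u⁻¹ : Circle) : ℂ) := by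
  obtain ⟨u, hu⟩ := circ_of (un_norm h0)
  have hn : 0 < ‖y‖ := norm_pos_iff.2 h0
  have ho : ka y (t : ℂ) = ((‖y‖ / 4 : ℝ) : ℂ) * ((u ^ 3 * t : Circle) : ℂ) := ka_val h0 _ hu
  have hle := ka_le h1 t
  have hG : G1 (y, t) = (PP (y * (t : ℂ) / (4 * om1 y t)) 1,
    (t : ℂ) * conj (un (om1 y t))) := rfl
  refine ⟨u, hu, by rw [om1_ka, ho], ?_⟩
  rw [hG, om1_ka]
  obtain ⟨k, hk⟩ : ∃ k, k = ka y (t : ℂ) := ⟨_, rfl⟩
  rw [← hk] at ho hle ⊢
  have hw0 : -1 + k ≠ 0 := neg_one_add_ne hle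
  have hy : y = (‖y‖ : ℂ) * u := by rw [hu, eq_norm_un]
  have ht : (t : ℂ) ≠ 0 := Circle.coe_ne_zero t
  have hu0 : (u : ℂ) ≠ 0 := Circle.coe_ne_zero u
  have hunk : un k = (u : ℂ) ^ 3 * (t : ℂ) := by
    rw [ho, un_mul', un_real (by positivity), un_circle, one_mul]
    rfl
  have hyk : y * (u : ℂ) ^ 2 * (t : ℂ) = 4 * k := by
    rw [ho]
    conv_lhs => rw [hy]
    rw [Circle.coe_mul, Circle.coe_pow]
    push_cast
    ring
  obtain ⟨c, hc⟩ := circ_of (un_norm hw0)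
  unfold Vb
  refine Prod.ext ?_ ?_
  · change PP (y * (t : ℂ) / (4 * (-1 + k))) 1 =
      PP ((1 + 1 / (-1 + k)) * ((u⁻¹ : Circle) : ℂ) ^ 2) 1
    rw [PP_eq_iff (fun h => one_ne_zero h.2) (fun h => one_ne_zero h.2), Circle.coe_inv]
    field_simp
    linear_combination hyk
  · change (t : ℂ) * conj (un (-1 + k)) =
      un (1 + 1 / (-1 + k)) * ((u⁻¹ : Circle) : ℂ) ^ 3
    have e : 1 + 1 / (-1 + k) = k * (-1 + k)⁻¹ := by
      field_simp
      ring
    rw [e, un_mul', un_inv', hunk, ← hc, ← Circle.coe_inv_eq_conj, Circle.coe_inv,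
      Circle.coe_inv]
    field_simp

theorem G0_zero (t : Circle) : G0 (0, t) = (PP 1 0, (t : ℂ)) := by
  have h : om0 0 t = 0 := by rw [om0_ka, ka_zero]
  have h1 : un 1 = 1 := by
    have := un_real one_pos
    rwa [ofReal_one] at this
  have hG : G0 (0, t) = (PP 1 (0 * conj (t : ℂ) / (4 * (1 + om0 0 t))),
    un (1 + om0 0 t) * (t : ℂ)) := rfl
  rw [hG, h, add_zero, h1, one_mul, zero_mul, zero_div]

theorem G1_zero (t : Circle) : G1 (0, t) = (PP 0 1, -(t : ℂ)) := by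
  have h : om1 0 t = -1 := by rw [om1_ka, ka_zero, add_zero]
  have h1 : un (-1) = -1 := by
    unfold un
    rw [norm_neg, norm_one, ofReal_one, div_one]
  have hG : G1 (0, t) = (PP (0 * (t : ℂ) / (4 * om1 0 t)) 1,
    (t : ℂ) * conj (un (om1 0 t))) := rfl
  rw [hG, h, h1, zero_mul, zero_div, map_neg, map_one, mul_neg, mul_one]

theorem G_inj : InjOn G0 (Metric.closedBall 0 1 ×ˢ univ) ∧
    InjOn G1 (Metric.closedBall 0 1 ×ˢ univ) := by
  have key : ∀ {y y' : ℂ} {u u' : Circle}, (u : ℂ) = un y → (u' : ℂ) = un y' → ‖y‖ = ‖y'‖ →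
      u = u' → y = y' := by
    intro y y' u u' hu hu' hn he
    rw [← eq_norm_un y, ← eq_norm_un y', ← hu, ← hu', hn, he]
  have cancel : ∀ {y y' : ℂ} {a b : Circle}, y ≠ 0 →
      ((‖y‖ / 4 : ℝ) : ℂ) * (a : ℂ) = ((‖y'‖ / 4 : ℝ) : ℂ) * (b : ℂ) → ‖y‖ = ‖y'‖ ∧ a = b := by
    intro y y' a b hy h
    have h1 := congrArg (fun z : ℂ => ‖z‖) h
    simp only [norm_mul, Circle.norm_coe, mul_one, Complex.norm_real] at h1
    rw [Real.norm_of_nonneg (by positivity), Real.norm_of_nonneg (by positivity)] at h1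
    have h2 : ‖y‖ = ‖y'‖ := by linarith
    refine ⟨h2, ?_⟩
    rw [← h2] at h
    have h3 : ((‖y‖ / 4 : ℝ) : ℂ) ≠ 0 := by
      have h4 := norm_pos_iff.2 hy
      have : ‖y‖ / 4 ≠ 0 := by positivity
      exact_mod_cast this
    exact Circle.ext (mul_left_cancel₀ h3 h)
  constructor
  · rintro ⟨y, t⟩ ⟨hy, -⟩ ⟨y', t'⟩ ⟨hy', -⟩ he
    have hy1 : ‖y‖ ≤ 1 := by simpa using hy
    have hy1' : ‖y'‖ ≤ 1 := by simpa using hy'
    have bne : ∀ {y : ℂ} (t : Circle), y ≠ 0 → ‖y‖ ≤ 1 → 1 + 1 / om0 y t ≠ 0 := by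
      intro y t h0 h1 h
      have hle := om0_le h1 t
      have h2 : om0 y t ≠ 0 := by
        intro h2
        rw [h2] at h
        norm_num at h
      have h3 : 1 + om0 y t = 0 := by
        field_simp at h
        linear_combination h
      exact one_add_ne hle h3
    by_cases h0 : y = 0
    · by_cases h0' : y' = 0
      · subst h0
        subst h0'
        rw [G0_zero, G0_zero] at he
        rw [Circle.ext (congrArg Prod.snd he)]
      · exfalso
        subst h0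
        obtain ⟨u', -, -, hG'⟩ := G0_Vb h0' hy1' t'
        rw [G0_zero, hG'] at he
        exact (Vb_fst (bne t' h0' hy1') u').1 (congrArg Prod.fst he).symm
    · by_cases h0' : y' = 0
      · exfalso
        subst h0'
        obtain ⟨u, -, -, hG⟩ := G0_Vb h0 hy1 t
        rw [G0_zero, hG] at he
        exact (Vb_fst (bne t h0 hy1) u).1 (congrArg Prod.fst he)
      · obtain ⟨u, hu, ho, hG⟩ := G0_Vb h0 hy1 t
        obtain ⟨u', hu', ho', hG'⟩ := G0_Vb h0' hy1' t'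
        rw [hG, hG'] at he
        obtain ⟨hb, hs⟩ := Vb_inj (bne t h0 hy1) (bne t' h0' hy1') he
        have hw : om0 y t = om0 y' t' := by
          have h2 : 1 / om0 y t = 1 / om0 y' t' := add_left_cancel hb
          rw [one_div, one_div] at h2
          exact inv_injective h2
        rw [ho, ho'] at hw
        obtain ⟨hn, hc⟩ := cancel h0 hw
        rw [hs] at hc
        have ht : t = t' := inv_injective (mul_left_cancel hc)
        rw [key hu hu' hn hs, ht]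
  · rintro ⟨y, t⟩ ⟨hy, -⟩ ⟨y', t'⟩ ⟨hy', -⟩ he
    have hy1 : ‖y‖ ≤ 1 := by simpa using hy
    have hy1' : ‖y'‖ ≤ 1 := by simpa using hy'
    have bne : ∀ {y : ℂ} (t : Circle), y ≠ 0 → ‖y‖ ≤ 1 → 1 + 1 / om1 y t ≠ 0 := by
      intro y t h0 h1 h
      have hle := ka_le h1 t
      rw [om1_ka] at h
      have h2 : -1 + ka y (t : ℂ) ≠ 0 := neg_one_add_ne hle
      have h3 : ka y (t : ℂ) = 0 := by
        field_simp at h
        linear_combination h
      have h4 := ka_norm y (t : ℂ)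
      rw [h3, norm_zero, Circle.norm_coe] at h4
      have h5 := norm_pos_iff.2 h0
      linarith
    by_cases h0 : y = 0
    · by_cases h0' : y' = 0
      · subst h0
        subst h0'
        rw [G1_zero, G1_zero] at he
        have h2 := neg_injective (congrArg Prod.snd he)
        rw [Circle.ext h2]
      · exfalso
        subst h0
        obtain ⟨u', -, -, hG'⟩ := G1_Vb h0' hy1' t'
        rw [G1_zero, hG'] at he
        exact (Vb_fst (bne t' h0' hy1') u'⁻¹).2 (congrArg Prod.fst he).symm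
    · by_cases h0' : y' = 0
      · exfalso
        subst h0'
        obtain ⟨u, -, -, hG⟩ := G1_Vb h0 hy1 t
        rw [G1_zero, hG] at he
        exact (Vb_fst (bne t h0 hy1) u⁻¹).2 (congrArg Prod.fst he)
      · obtain ⟨u, hu, ho, hG⟩ := G1_Vb h0 hy1 t
        obtain ⟨u', hu', ho', hG'⟩ := G1_Vb h0' hy1' t'
        rw [hG, hG'] at he
        obtain ⟨hb, hs⟩ := Vb_inj (bne t h0 hy1) (bne t' h0' hy1') he
        have hs' : u = u' := inv_injective hs
        have hw : om1 y t = om1 y' t' := by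
          have h2 : 1 / om1 y t = 1 / om1 y' t' := add_left_cancel hb
          rw [one_div, one_div] at h2
          exact inv_injective h2
        rw [ho, ho'] at hw
        obtain ⟨hn, hc⟩ := cancel h0 (add_left_cancel hw)
        rw [hs'] at hc
        have ht : t = t' := mul_left_cancel hc
        rw [key hu hu' hn hs', ht]

theorem G0_surj {v : ℂ} (h : v ≠ 0) (h1 : ‖1 / v‖ ≤ 1 / 4) (s : Circle) :
    Vb (1 + v) s ∈ G0 '' (Metric.closedBall 0 1 ×ˢ univ) := by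
  have hw : (1 / v) ≠ 0 := one_div_ne_zero h
  obtain ⟨c, hc⟩ := circ_of (un_norm hw)
  have hwn : 0 < ‖1 / v‖ := norm_pos_iff.2 hw
  obtain ⟨y, hy⟩ : ∃ y : ℂ, y = ((4 * ‖1 / v‖ : ℝ) : ℂ) * (s : ℂ) := ⟨_, rfl⟩
  have hyn : ‖y‖ = 4 * ‖1 / v‖ := by
    rw [hy, norm_mul, Circle.norm_coe, mul_one, Complex.norm_real,
      Real.norm_of_nonneg (by positivity)]
  have hy0 : y ≠ 0 := by
    rw [← norm_pos_iff, hyn]
    positivity
  have hy1 : ‖y‖ ≤ 1 := by
    rw [hyn]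
    linarith
  obtain ⟨u, hu, ho, hG⟩ := G0_Vb hy0 hy1 (s ^ 3 * c⁻¹)
  have hus : u = s := by
    refine Circle.ext ?_
    rw [hu, hy, un_mul', un_real (by positivity), un_circle, one_mul]
  refine ⟨(y, s ^ 3 * c⁻¹), ⟨by simpa using hy1, trivial⟩, ?_⟩
  rw [hG, hus]
  have e : om0 y (s ^ 3 * c⁻¹) = 1 / v := by
    rw [ho, hus, hyn]
    have e1 : s ^ 3 * (s ^ 3 * c⁻¹)⁻¹ = c := by
      have e0 : (s ^ 3 * c⁻¹)⁻¹ = (s ^ 3)⁻¹ * c := by
        rw [mul_inv]
        exact congrArg _ (_root_.inv_inv c)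
      rw [e0, ← mul_assoc, mul_inv_cancel, one_mul]
    rw [e1, hc]
    have e2 : (4 * ‖1 / v‖ / 4 : ℝ) = ‖1 / v‖ := by ring
    rw [e2, eq_norm_un]
  rw [e, one_div_one_div]

private theorem circ_inv_inv (s : Circle) : ((s⁻¹⁻¹ : Circle) : ℂ) = s :=
  congrArg (fun z : Circle => (z : ℂ)) (_root_.inv_inv s)

theorem G1_surj {v : ℂ} (h : v ≠ 0) (h0 : v ≠ -1) (h1 : ‖1 / v + 1‖ ≤ 1 / 4) (s : Circle) :
    Vb (1 + v) s ∈ G1 '' (Metric.closedBall 0 1 ×ˢ univ) := by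
  have hw : (1 / v + 1) ≠ 0 := by
    intro h2
    apply h0
    field_simp at h2
    linear_combination h2
  obtain ⟨c, hc⟩ := circ_of (un_norm hw)
  have hwn : 0 < ‖1 / v + 1‖ := norm_pos_iff.2 hw
  obtain ⟨y, hy⟩ : ∃ y : ℂ, y = ((4 * ‖1 / v + 1‖ : ℝ) : ℂ) * ((s⁻¹ : Circle) : ℂ) := ⟨_, rfl⟩
  have hyn : ‖y‖ = 4 * ‖1 / v + 1‖ := by
    rw [hy, norm_mul, Circle.norm_coe, mul_one, Complex.norm_real,
      Real.norm_of_nonneg (by positivity)]
  have hy0 : y ≠ 0 := by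
    rw [← norm_pos_iff, hyn]
    positivity
  have hy1 : ‖y‖ ≤ 1 := by
    rw [hyn]
    linarith
  obtain ⟨u, hu, ho, hG⟩ := G1_Vb hy0 hy1 (s ^ 3 * c)
  have hus : u = s⁻¹ := by
    refine Circle.ext ?_
    rw [hu, hy, un_mul', un_real (by positivity), un_circle, one_mul]
  refine ⟨(y, s ^ 3 * c), ⟨by simpa using hy1, trivial⟩, ?_⟩
  rw [hG, hus, circ_inv_inv]
  have e : om1 y (s ^ 3 * c) = 1 / v := by
    rw [ho, hus, hyn]
    have e1 : s⁻¹ ^ 3 * (s ^ 3 * c) = c := by group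
    rw [e1, hc]
    have e2 : (4 * ‖1 / v + 1‖ / 4 : ℝ) = ‖1 / v + 1‖ := by ring
    rw [e2, eq_norm_un]
    ring
  rw [e, one_div_one_div]

end

end Pool.Agent.FibC
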