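import Pool.Agent.Lib.FibC.SeF
import Pool.Agent.Lib.FibC.SeG

/-!
# SeM: the boundary is the Seifert manifold `M(1; (3, 1), (3, -1))`

PROOF. `e = ech ε`, `c = ![0, -1]`, `ρ = ![1/4, 1/4]`, `p = ![-1, 1]`, `q = ![0, 0]`, `F = FF ε`, `G = ![G0, G1]`, `x₀ = ech ε (1 / ε)`. The balls are disjoint (`dist 0 (-1) = 1`). Gluing: for `y : Circle`, `G0 (y, t) = Vb (1 + 1/w) y` with
`w = y³ t⁻¹ / 4` (`G0_Vb`), `1 / w` has norm `4`, so `sn (1/w) ≥ 2 ≥ ε`, `FF_ech` (`v = 1/w`), `Fo_fst`. For `G1`: `w = -1 + y³ t / 4`, `‖1/w‖ ≥ 4/5`, `sn (1/w) ≥ 2/5 ≥ ε`, `1/w ≠ -1`. Disjointness of `G i '' (ball × univ)` and `F '' ...`: a point with `y = 0` has `q.1 = PP 1 0` or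
`PP 0 1`, `‖q.2‖ = 1`; a common value with `F` would be in the image of `Fo`, on `{‖q.2‖ = 1}` outside the tube (values in `Phi '' (Mmid ∪ Min)` with `‖q.2‖ = 1` have `‖t‖ = 1`, and equal `Vb (1 + v) s`, `q.1 ≠ PP 1 0`: use `Vb_Phi`, `Vb_fst`), so `q = Vb ..`, contradiction with `Vb_fst`; a point
with `0 < ‖y‖ < 1` is `Vb (1 + 1/w) u`, by `FF_Vb` it is attained only at `ech ε w`, and `w ∈ ball (c i) (1/4)`, not in `Hol ε`. `G0`, `G1` images: `‖w‖ ≤ 1/4` and `‖w + 1‖ ≤ 1/4` are incompatible (`Vb_inj`). `MM ε = ...`: `FF_surj`, `G0_surj`, `G1_surj`, `G0_zero`, `G1_zero`;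
`G i` has values in `MM ε`: `Vb (1 + v) s = Fo ε v s`, `Fo_mem`; for `y = 0`: `‖q.2‖ = 1` and `q` is not in the tube (`Vb_Phi`, `Vb_fst`). Regular fibre: `FF ε (x₀, s) = Fo ε ε s = Vb (1 + ε) s = Phi (s, ε)`; `x₀ ∈ Hol ε`: `1/ε ≥ 16`.
`map_seifert`: compose `F`, `G` with `J`.
-/

set_option autoImplicit false

namespace Pool.Agent.FibC

open Complex ComplexConjugate Set

noncomputable section

private theorem circ {z : ℂ} (h : ‖z‖ = 1) : ∃ s : Circle, (s : ℂ) = z :=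
  ⟨⟨z, mem_sphere_zero_iff_norm.2 h⟩, rfl⟩

private theorem PP_ne : PP 1 0 ≠ PP 0 1 := by
  intro h
  have h1 := congrArg (fun p : S2 => p.1.2) h
  simp only [PP] at h1
  norm_num at h1

private theorem ne_neg_one {v : ℂ} {r : ℝ} (h : sn v ≤ r) (hr : r < 1) : 1 + v ≠ 0 := by
  intro h1
  have h2 : v = -1 := by linear_combination h1
  rw [h2] at h
  unfold sn at h
  simp at h
  linarith

/-- a value of `Phi` on `{‖q.2‖ = 1}` is not on the exceptional fibres -/
private theorem Phi_fst {ε : ℝ} (h : IsTube ε) {p : ℂ × ℂ} (hp : ‖p.1‖ ≤ 1 ∧ sn p.2 ≤ ε)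
    (hq : ‖(Phi p).2‖ = 1) : (Phi p).1 ≠ PP 1 0 ∧ (Phi p).1 ≠ PP 0 1 := by
  have hU : p ∈ UU ε := (sub_UU h).2.2 hp
  have h1 : ‖p.1‖ = 1 := (h.eq p hU).1 hq
  have h2 : 1 + p.2 ≠ 0 := ne_neg_one hp.2 (by have := h.small; linarith)
  let s : Circle := ⟨p.1, mem_sphere_zero_iff_norm.2 h1⟩
  have h3 := Vb_Phi h (v := p.2) (by have := hp.2; have := h.pos; linarith) s
  have h4 : ((s : ℂ), p.2) = p := rfl
  rw [h4] at h3
  rw [← h3]
  exact Vb_fst h2 s

private theorem Hol_not {ε : ℝ} {x : Torus} (hx : x ∈ Hol ε) {ω : ℂ} (h : x = ech ε ω) :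
    1 / 4 ≤ ‖ω‖ ∧ 1 / 4 ≤ ‖ω + 1‖ := by
  have h1 : ∀ i : Fin 2, x ∉ ech ε '' Metric.ball ((![0, -1] : Fin 2 → ℂ) i)
      ((![1 / 4, 1 / 4] : Fin 2 → ℝ) i) := by
    intro i hi
    exact hx (mem_iUnion.2 ⟨i, hi⟩)
  constructor
  · by_contra hc
    apply h1 0
    refine ⟨ω, ?_, h.symm⟩
    show ω ∈ Metric.ball (0 : ℂ) (1 / 4)
    rw [mem_ball_zero_iff]
    linarith
  · by_contra hc
    apply h1 1
    refine ⟨ω, ?_, h.symm⟩
    show ω ∈ Metric.ball (-1 : ℂ) (1 / 4)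
    rw [mem_ball_iff_norm, sub_neg_eq_add]
    linarith

private theorem FF_fst {ε : ℝ} (h : IsTube ε) {z : Torus × Circle} (hz : z ∈ Hol ε ×ˢ univ)
    (hq : ‖(FF ε z).2‖ = 1) : (FF ε z).1 ≠ PP 1 0 ∧ (FF ε z).1 ≠ PP 0 1 := by
  by_cases hS : z.1 ∈ Sq
  · have hF : FF ε z = Fo ε (vs ε (sl z.1)) z.2 := by
      unfold FF
      rw [if_pos hS]
    obtain ⟨ω, hω⟩ := ech_surj h.pos hS.1 hS.2.1
    have h1 := Hol_not hz.1 hω.symm
    have hω0 : ω ≠ 0 := by
      rintro rfl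
      rw [norm_zero] at h1
      linarith [h1.1]
    have hv : vs ε (sl z.1) = 1 / ω := by
      rw [← hω, sl_ech, vs_ss h.pos hω0]
    have hv1 : 1 + vs ε (sl z.1) ≠ 0 := by
      rw [hv]
      intro h2
      have h3 : ω + 1 = 0 := by
        field_simp at h2
        linear_combination h2
      rw [h3, norm_zero] at h1
      linarith [h1.2]
    by_cases hε : ε ≤ sn (vs ε (sl z.1))
    · have h2 : FF ε z = Vb (1 + vs ε (sl z.1)) z.2 := by
        rw [hF]
        unfold Fo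
        rw [if_pos hε]
      rw [h2]
      exact Vb_fst hv1 z.2
    · have h2 : FF ε z = Phi ((((nu ε (vs ε (sl z.1)) z.2)⁻¹ : ℝ) : ℂ) * (z.2 : ℂ),
          vs ε (sl z.1)) := by
        rw [hF]
        unfold Fo
        rw [if_neg hε]
      rw [h2] at hq ⊢
      refine Phi_fst h ⟨?_, ?_⟩ hq
      · show ‖(((nu ε (vs ε (sl z.1)) z.2)⁻¹ : ℝ) : ℂ) * (z.2 : ℂ)‖ ≤ 1
        have h3 := nu_ge ε (vs ε (sl z.1)) z.2
        rw [Circle.norm_coe] at h3
        rw [norm_mul, Circle.norm_coe, mul_one, Complex.norm_real, Real.norm_eq_abs,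
          abs_of_nonneg (inv_nonneg.2 (by linarith))]
        exact inv_le_one_of_one_le₀ h3
      · exact (not_le.1 hε).le
  · have hF : FF ε z = Phi (LL ε (inv (kap z.1 z.2))) := by
      unfold FF Fi
      rw [if_neg hS]
    have hm : LL ε (inv (kap z.1 z.2)) ∈ Min ε := Fi_mem h (fun hx => absurd hx hS) z.2
    rw [hF] at hq ⊢
    exact Phi_fst h ((sub_UU h).2.1 (Or.inr hm)) hq

private theorem sn_ge_half {v : ℂ} {r : ℝ} (h : 2 * r ≤ ‖v‖) : r ≤ sn v := by
  have := le_sn v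
  linarith

/-- the data of a point of the first solid torus -/
private theorem G0_data {ε : ℝ} (h : IsTube ε) {y : ℂ} (h0 : y ≠ 0) (h1 : ‖y‖ ≤ 1) (t : Circle) :
    ∃ (w : ℂ) (u : Circle), (u : ℂ) = un y ∧ w = ((‖y‖ / 4 : ℝ) : ℂ) * ((u ^ 3 * t⁻¹ : Circle) : ℂ) ∧
      ‖w‖ = ‖y‖ / 4 ∧ w ≠ 0 ∧ 1 / w ≠ -1 ∧ ε ≤ sn (1 / w) ∧ G0 (y, t) = Vb (1 + 1 / w) u := by
  obtain ⟨u, hu, hw, hG⟩ := G0_Vb h0 h1 t
  have hy : 0 < ‖y‖ := norm_pos_iff.2 h0
  have hn : ‖om0 y t‖ = ‖y‖ / 4 := by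
    rw [hw, norm_mul, Circle.norm_coe, mul_one, Complex.norm_real, Real.norm_eq_abs,
      abs_of_nonneg (by positivity)]
  have hw0 : om0 y t ≠ 0 := by
    rw [← norm_pos_iff, hn]
    positivity
  have hn2 : 4 ≤ ‖1 / om0 y t‖ := by
    rw [norm_div, norm_one, hn, le_div_iff₀ (by positivity)]
    linarith
  refine ⟨om0 y t, u, hu, hw, hn, hw0, ?_, ?_, hG⟩
  · intro h2
    rw [h2, norm_neg, norm_one] at hn2
    linarith
  · have := h.small
    refine le_trans this (sn_ge_half ?_)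
    linarith

private theorem G1_data {ε : ℝ} (h : IsTube ε) {y : ℂ} (h0 : y ≠ 0) (h1 : ‖y‖ ≤ 1) (t : Circle) :
    ∃ (w : ℂ) (u : Circle), (u : ℂ) = un y ∧
      w = -1 + ((‖y‖ / 4 : ℝ) : ℂ) * ((u ^ 3 * t : Circle) : ℂ) ∧
      ‖w + 1‖ = ‖y‖ / 4 ∧ w ≠ 0 ∧ 1 / w ≠ -1 ∧ ε ≤ sn (1 / w) ∧
      G1 (y, t) = Vb (1 + 1 / w) ((u⁻¹ : Circle) : ℂ) := by
  obtain ⟨u, hu, hw, hG⟩ := G1_Vb h0 h1 t
  have hy : 0 < ‖y‖ := norm_pos_iff.2 h0
  have hn : ‖om1 y t + 1‖ = ‖y‖ / 4 := by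
    rw [hw, neg_add_cancel_comm, norm_mul, Circle.norm_coe, mul_one, Complex.norm_real,
      Real.norm_eq_abs, abs_of_nonneg (by positivity)]
  have hw0 : om1 y t ≠ 0 := by
    intro h2
    rw [h2, zero_add, norm_one] at hn
    linarith
  have hw1 : ‖om1 y t‖ ≤ 5 / 4 := by
    have h2 : om1 y t = (om1 y t + 1) - 1 := by ring
    rw [h2]
    refine (norm_sub_le _ _).trans ?_
    rw [hn, norm_one]
    linarith
  have hn2 : 4 / 5 ≤ ‖1 / om1 y t‖ := by
    rw [norm_div, norm_one, le_div_iff₀ (norm_pos_iff.2 hw0)]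
    linarith
  refine ⟨om1 y t, u, hu, hw, hn, hw0, ?_, ?_, hG⟩
  · intro h2
    have h3 : om1 y t + 1 = 0 := by
      field_simp at h2
      linear_combination h2
    rw [h3, norm_zero] at hn
    linarith
  · have := h.small
    refine le_trans this (sn_ge_half ?_)
    linarith

private theorem un_circle (y u : Circle) (h : (u : ℂ) = un y) : u = y := by
  apply Circle.ext
  rw [h]
  unfold un
  rw [Circle.norm_coe]
  simp

private theorem FF_Vb' {ε : ℝ} (h : IsTube ε) {w : ℂ} (h1 : 1 / w ≠ -1)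
    (h2 : ε ≤ sn (1 / w)) (s : Circle) : FF ε (ech ε w, s) = Vb (1 + 1 / w) s := by
  have h3 := FF_ech h (v := 1 / w) (by have := h.pos; linarith) s
  rw [one_div_one_div] at h3
  rw [h3, Fo_fst h h1 h2]

private theorem Vb_mem {ε : ℝ} (h : IsTube ε) {w : ℂ} (h1 : 1 / w ≠ -1)
    (h2 : ε ≤ sn (1 / w)) (s : Circle) : Vb (1 + 1 / w) s ∈ MM ε := by
  rw [← Fo_fst h h1 h2]
  exact Fo_mem h h1 (by have := h.pos; linarith) s

private theorem exc_mem {ε : ℝ} (h : IsTube ε) {q : S2 × ℂ} (hq : ‖q.2‖ = 1)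
    (hq1 : q.1 = PP 1 0 ∨ q.1 = PP 0 1) : q ∈ MM ε := by
  refine Or.inl ⟨hq, ?_⟩
  rintro ⟨p, ⟨hp1, hp2⟩, rfl⟩
  have h1 := Phi_fst h ⟨hp1.le, hp2.le⟩ hq
  rcases hq1 with h2 | h2
  · exact h1.1 h2
  · exact h1.2 h2

private theorem one_add_ne {w : ℂ} (h : 1 / w ≠ -1) : 1 + 1 / w ≠ 0 := by
  intro h1
  exact h (by linear_combination h1)

theorem seifert {ε : ℝ} (h : IsTube ε) :
    IsSeifert (![3, 3] : Fin 2 → ℤ) (![1, -1] : Fin 2 → ℤ) (MM ε) (fun s => Phi ((s : ℂ), (ε : ℂ))) := by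
  have hε := h.pos
  have hε1 := h.small
  have hsn : sn (ε : ℂ) = ε := by
    unfold sn
    rw [Complex.ofReal_re, Complex.ofReal_im, abs_zero, abs_of_pos hε]
    exact max_eq_left hε.le
  refine ⟨?_, ech ε, ![0, -1], ![1 / 4, 1 / 4], ![-1, 1], ![0, 0], FF ε, ![G0, G1],
    ech ε (1 / ε), ech_emb hε, ?_, ?_, ?_, FF_cont h, FF_inj h, ?_, ?_, ?_, ?_, ?_, ?_, ?_, ?_⟩
  · intro i
    fin_cases i <;> norm_num
  · intro i
    fin_cases i <;> norm_num
  · -- the balls
    have hd : Disjoint (Metric.closedBall (0 : ℂ) (1 / 4)) (Metric.closedBall (-1 : ℂ) (1 / 4)) := by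
      apply Metric.closedBall_disjoint_closedBall
      rw [dist_eq_norm, sub_neg_eq_add, zero_add, norm_one]
      norm_num
    intro i j hij
    fin_cases i <;> fin_cases j
    · exact absurd rfl hij
    · exact hd
    · exact hd.symm
    · exact absurd rfl hij
  · intro i
    fin_cases i <;> norm_num
  · intro i
    fin_cases i
    · exact G_cont.1
    · exact G_cont.2
  · intro i
    fin_cases i
    · exact G_inj.1
    · exact G_inj.2
  · -- gluing
    intro i y t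
    have hy0 : (y : ℂ) ≠ 0 := Circle.coe_ne_zero y
    have hy1 : ‖(y : ℂ)‖ = 1 := Circle.norm_coe y
    fin_cases i
    · show G0 ((y : ℂ), t) = FF ε (ech ε ((0 : ℂ) + ((1 / 4 : ℝ) : ℂ) *
        ((y ^ (3 : ℤ) * t ^ (-1 : ℤ) : Circle) : ℂ)), y ^ (1 : ℤ) * t ^ (0 : ℤ))
      obtain ⟨w, u, hu, hw, -, -, h1, h2, hG⟩ := G0_data h hy0 hy1.le t
      have hu' : u = y := un_circle y u hu
      subst hu'
      have hw' : (0 : ℂ) + ((1 / 4 : ℝ) : ℂ) * ((u ^ (3 : ℤ) * t ^ (-1 : ℤ) : Circle) : ℂ) = w := by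
        rw [hw, hy1, zero_add, zpow_neg_one]
        rfl
      rw [hw', zpow_one, zpow_zero, mul_one, FF_Vb' h h1 h2, hG]
    · show G1 ((y : ℂ), t) = FF ε (ech ε ((-1 : ℂ) + ((1 / 4 : ℝ) : ℂ) *
        ((y ^ (3 : ℤ) * t ^ (1 : ℤ) : Circle) : ℂ)), y ^ (-1 : ℤ) * t ^ (0 : ℤ))
      obtain ⟨w, u, hu, hw, -, -, h1, h2, hG⟩ := G1_data h hy0 hy1.le t
      have hu' : u = y := un_circle y u hu
      subst hu'
      have hw' : (-1 : ℂ) + ((1 / 4 : ℝ) : ℂ) * ((u ^ (3 : ℤ) * t ^ (1 : ℤ) : Circle) : ℂ) = w := by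
        rw [hw, hy1, zpow_one]
        rfl
      rw [hw', zpow_neg_one, zpow_zero, mul_one, FF_Vb' h h1 h2, hG]
  · -- the open solid tori are disjoint from the image of `F`
    intro i
    rw [Set.disjoint_left]
    fin_cases i
    · rintro q ⟨⟨y, t⟩, hy, rfl⟩ ⟨z, hz, hzq⟩
      have hy' : ‖y‖ < 1 := mem_ball_zero_iff.1 hy.1
      change FF ε z = G0 (y, t) at hzq
      by_cases h0 : y = 0
      · subst h0
        rw [G0_zero] at hzq
        have := FF_fst h hz (by rw [hzq]; exact Circle.norm_coe t)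
        rw [hzq] at this
        exact this.1 rfl
      · obtain ⟨w, u, -, -, hn, hw0, h1, h2, hG⟩ := G0_data h h0 hy'.le t
        have h3 := FF_Vb h hz h1 h2 (by rw [hzq, hG])
        rw [one_div_one_div] at h3
        have h4 := Hol_not hz.1 (ω := w) (by rw [h3])
        linarith [h4.1]
    · rintro q ⟨⟨y, t⟩, hy, rfl⟩ ⟨z, hz, hzq⟩
      have hy' : ‖y‖ < 1 := mem_ball_zero_iff.1 hy.1
      change FF ε z = G1 (y, t) at hzq
      by_cases h0 : y = 0
      · subst h0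
        rw [G1_zero] at hzq
        have := FF_fst h hz (by rw [hzq]; show ‖-(t : ℂ)‖ = 1; rw [norm_neg]; exact Circle.norm_coe t)
        rw [hzq] at this
        exact this.2 rfl
      · obtain ⟨w, u, -, -, hn, hw0, h1, h2, hG⟩ := G1_data h h0 hy'.le t
        have h3 := FF_Vb h hz h1 h2 (by rw [hzq, hG])
        rw [one_div_one_div] at h3
        have h4 := Hol_not hz.1 (ω := w) (by rw [h3])
        linarith [h4.2]
  · -- the solid tori are disjoint
    have hd : Disjoint (G0 '' (Metric.closedBall 0 1 ×ˢ univ)) (G1 '' (Metric.closedBall 0 1 ×ˢ univ)) := by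
      rw [Set.disjoint_left]
      rintro q ⟨⟨y, t⟩, hy, rfl⟩ ⟨⟨y', t'⟩, hy', he⟩
      have hyn : ‖y‖ ≤ 1 := mem_closedBall_zero_iff.1 hy.1
      have hyn' : ‖y'‖ ≤ 1 := mem_closedBall_zero_iff.1 hy'.1
      by_cases h0 : y = 0
      · subst h0
        rw [G0_zero] at he
        by_cases h0' : y' = 0
        · subst h0'
          rw [G1_zero] at he
          exact PP_ne (congrArg Prod.fst he).symm
        · obtain ⟨w, u, -, -, -, -, h1, h2, hG⟩ := G1_data h h0' hyn' t'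
          rw [hG] at he
          exact (Vb_fst (one_add_ne h1) _).1 (congrArg Prod.fst he)
      · obtain ⟨w, u, -, -, hn, hw0, h1, h2, hG⟩ := G0_data h h0 hyn t
        rw [hG] at he
        by_cases h0' : y' = 0
        · subst h0'
          rw [G1_zero] at he
          exact (Vb_fst (one_add_ne h1) _).2 (congrArg Prod.fst he).symm
        · obtain ⟨w', u', -, -, hn', hw0', h1', h2', hG'⟩ := G1_data h h0' hyn' t'
          rw [hG'] at he
          have h3 := (Vb_inj (one_add_ne h1') (one_add_ne h1) he).1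
          have h4 : w' = w := by
            have h5 : 1 / w' = 1 / w := by linear_combination h3
            rw [one_div, one_div] at h5
            exact inv_injective h5
          subst h4
          have h5 : (1 : ℝ) = ‖(w' + 1) - w'‖ := by
            rw [add_sub_cancel_left, norm_one]
          have h6 := norm_sub_le (w' + 1) w'
          rw [← h5, hn, hn'] at h6
          linarith
    intro i j hij
    fin_cases i <;> fin_cases j
    · exact absurd rfl hij
    · exact hd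
    · exact hd.symm
    · exact absurd rfl hij
  · -- the union
    apply Set.Subset.antisymm
    · intro q hq
      rcases FF_surj h hq with ⟨hn, h1 | h1⟩ | ⟨v, s, hv, hv1, rfl, h1 | h1⟩ | h1
      · obtain ⟨s, hs⟩ := circ hn
        refine Or.inr (mem_iUnion.2 ⟨0, (0, s), ⟨?_, mem_univ _⟩, ?_⟩)
        · exact Metric.mem_closedBall_self zero_le_one
        · show G0 (0, s) = q
          rw [G0_zero]
          exact Prod.ext h1.symm hs
      · obtain ⟨s, hs⟩ := circ (z := -q.2) (by rw [norm_neg]; exact hn)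
        refine Or.inr (mem_iUnion.2 ⟨1, (0, s), ⟨?_, mem_univ _⟩, ?_⟩)
        · exact Metric.mem_closedBall_self zero_le_one
        · show G1 (0, s) = q
          rw [G1_zero, hs]
          exact Prod.ext h1.symm (neg_neg q.2)
      · have hv0 : v ≠ 0 := by
          rintro rfl
          rw [sn_eq_zero.2 rfl] at hv
          linarith
        exact Or.inr (mem_iUnion.2 ⟨0, G0_surj hv0 h1.le s⟩)
      · have hv0 : v ≠ 0 := by
          rintro rfl
          rw [sn_eq_zero.2 rfl] at hv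
          linarith
        exact Or.inr (mem_iUnion.2 ⟨1, G1_surj hv0 hv1 h1.le s⟩)
      · exact Or.inl h1
    · rintro q (⟨z, hz, rfl⟩ | hq)
      · exact FF_mem h hz
      · obtain ⟨i, hi⟩ := mem_iUnion.1 hq
        fin_cases i
        · obtain ⟨⟨y, t⟩, hy, rfl⟩ := hi
          have hyn : ‖y‖ ≤ 1 := mem_closedBall_zero_iff.1 hy.1
          show G0 (y, t) ∈ MM ε
          by_cases h0 : y = 0
          · subst h0
            rw [G0_zero]
            exact exc_mem h (Circle.norm_coe t) (Or.inl rfl)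
          · obtain ⟨w, u, -, -, -, -, h1, h2, hG⟩ := G0_data h h0 hyn t
            rw [hG]
            exact Vb_mem h h1 h2 u
        · obtain ⟨⟨y, t⟩, hy, rfl⟩ := hi
          have hyn : ‖y‖ ≤ 1 := mem_closedBall_zero_iff.1 hy.1
          show G1 (y, t) ∈ MM ε
          by_cases h0 : y = 0
          · subst h0
            rw [G1_zero]
            exact exc_mem h (by show ‖-(t : ℂ)‖ = 1; rw [norm_neg]; exact Circle.norm_coe t) (Or.inr rfl)
          · obtain ⟨w, u, -, -, -, -, h1, h2, hG⟩ := G1_data h h0 hyn t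
            rw [hG]
            exact Vb_mem h h1 h2 _
  · -- the regular fibre is in the holed torus
    intro hx
    obtain ⟨i, ω, hω, he⟩ := mem_iUnion.1 hx
    have h1 : ω = 1 / (ε : ℂ) := (ech_emb hε).injective he
    have h16 : (16 : ℝ) ≤ 1 / ε := by
      rw [le_div_iff₀ hε]
      linarith
    fin_cases i
    · have h2 : ‖ω‖ < 1 / 4 := mem_ball_zero_iff.1 hω
      rw [h1, norm_div, norm_one, Complex.norm_real, Real.norm_eq_abs, abs_of_pos hε] at h2
      linarith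
    · have h2 : ω ∈ Metric.ball (-1 : ℂ) (1 / 4) := hω
      rw [mem_ball_iff_norm, sub_neg_eq_add] at h2
      have h3 : ‖ω + 1‖ = 1 / ε + 1 := by
        have h4 : ω + 1 = ((1 / ε + 1 : ℝ) : ℂ) := by
          rw [h1]; push_cast; ring
        rw [h4, Complex.norm_real, Real.norm_eq_abs, abs_of_pos (by positivity)]
      rw [h3] at h2
      linarith
  · intro s
    have h1 : sn (ε : ℂ) = ε := hsn
    have h2 : (ε : ℂ) ≠ -1 := by
      intro h3
      have h4 := congrArg Complex.re h3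
      simp at h4
      linarith
    have h3 := FF_ech h (v := (ε : ℂ)) (by rw [h1]; linarith) s
    show Phi ((s : ℂ), (ε : ℂ)) = FF ε (ech ε (1 / ε), s)
    rw [h3, Fo_fst h h2 (by rw [h1]) s, Vb_Phi h (by rw [h1]; linarith) s]

theorem map_seifert {S S' : Type} [TopologicalSpace S] [TopologicalSpace S'] {r : ℕ}
    {a b : Fin r → ℤ} {M : Set S} {f : Circle → S} (h : IsSeifert a b M f) {J : S → S'}
    (hc : Continuous J) (hi : Function.Injective J) : IsSeifert a b (J '' M) (J ∘ f) := by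
  obtain ⟨hpos, e, c, ρ, p, q, F, G, x₀, h1, h2, h3, h4, h5, h6, h7, h8, h9, h10, h11, h12, h13,
    h14⟩ := h
  refine ⟨hpos, e, c, ρ, p, q, J ∘ F, fun i => J ∘ G i, x₀, h1, h2, h3, h4,
    hc.comp_continuousOn h5, hi.comp_injOn h6, fun i => hc.comp_continuousOn (h7 i),
    fun i => hi.comp_injOn (h8 i), fun i y t => congrArg J (h9 i y t), fun i => ?_,
    fun i j hij => ?_, ?_, h13, fun s => congrArg J (h14 s)⟩
  · rw [Set.image_comp, Set.image_comp J F]
    exact (Set.disjoint_image_iff hi).2 (h10 i)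
  · rw [Set.image_comp, Set.image_comp J (G j)]
    exact (Set.disjoint_image_iff hi).2 (h11 i j hij)
  · rw [h12, Set.image_union, Set.image_iUnion, Set.image_comp]
    simp only [Set.image_comp]

end

end Pool.Agent.FibC
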