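import Pool.Agent.Lib.FibC.Loc

/-!
# TubO: `Phi0` is an open embedding on a tube

PROOF. `S = closedBall 0 1 ×ˢ {0}` is compact, `Phi0` is injective on it (`disc_inj`) and, by `loc_homeo`, locally
injective and continuous at its points. `Set.InjOn.exists_mem_nhdsSet`: injective on a neighbourhood of `S`. The union of the sources of
the local homeomorphisms is another open neighbourhood. `generalized_tube_lemma` and compactness
(`IsCompact.exists_thickening_subset_open`) give `δ`. The local homeomorphisms with injectivity give one `OpenPartialHomeomorph`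
(continuous, open, injective on the open source): `IsOpenMap`-type argument, e.g.
`OpenPartialHomeomorph.ofContinuousOpenRestrict` or by hand with `Function.invFunOn`.
-/

set_option autoImplicit false

namespace Pool.Agent.FibC

open Complex ComplexConjugate Set

noncomputable section

theorem tub0 : ∃ δ : ℝ, 0 < δ ∧ ∃ e : OpenPartialHomeomorph (ℂ × ℂ) (S2 × ℂ),
    e.source = {p | ‖p.1‖ < 1 + δ ∧ ‖p.2‖ < δ} ∧ ∀ p ∈ e.source, e p = Phi0 p := by
  classical
  have hS : IsCompact (Metric.closedBall (0 : ℂ) 1 ×ˢ ({0} : Set ℂ)) :=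
    (isCompact_closedBall _ _).prod isCompact_singleton
  have hloc : ∀ x ∈ Metric.closedBall (0 : ℂ) 1 ×ˢ ({0} : Set ℂ),
      ∃ e : OpenPartialHomeomorph (ℂ × ℂ) (S2 × ℂ), x ∈ e.source ∧ ∀ p ∈ e.source, e p = Phi0 p := by
    rintro ⟨t, m⟩ ⟨h1, h2⟩
    simp only [mem_singleton_iff] at h2
    subst h2
    exact loc_homeo (by simpa using h1)
  have hev : ∀ (e : OpenPartialHomeomorph (ℂ × ℂ) (S2 × ℂ)) (x : ℂ × ℂ), x ∈ e.source →
      (∀ p ∈ e.source, e p = Phi0 p) → (e : ℂ × ℂ → S2 × ℂ) =ᶠ[nhds x] Phi0 := by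
    intro e x hx h
    filter_upwards [e.open_source.mem_nhds hx] with p hp using h p hp
  obtain ⟨T, hT, hTinj⟩ := Set.InjOn.exists_mem_nhdsSet (f := Phi0) (by
      rintro ⟨t, m⟩ ⟨h1, h2⟩ ⟨t', m'⟩ ⟨h1', h2'⟩ he
      simp only [mem_singleton_iff] at h2 h2'
      subst h2; subst h2'
      rw [disc_inj (by simpa using h1) (by simpa using h1') he]) hS (by
      intro x hx
      obtain ⟨e, he, hp⟩ := hloc x hx
      exact (e.continuousAt he).congr (hev e x he hp)) (by
      intro x hx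
      obtain ⟨e, he, hp⟩ := hloc x hx
      refine ⟨e.source, e.open_source.mem_nhds he, ?_⟩
      intro a ha b hb hab
      exact e.injOn ha hb (by rw [hp a ha, hp b hb, hab]))
  rw [mem_nhdsSet_iff_exists] at hT
  obtain ⟨O1, hO1, hSO1, hO1T⟩ := hT
  obtain ⟨O2, hO2⟩ : ∃ O2 : Set (ℂ × ℂ), O2 = ⋃ e : {e : OpenPartialHomeomorph (ℂ × ℂ) (S2 × ℂ) //
      ∀ p ∈ e.source, e p = Phi0 p}, e.1.source := ⟨_, rfl⟩
  have hO2o : IsOpen O2 := by
    rw [hO2]; exact isOpen_iUnion fun e => e.1.open_source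
  have hSO2 : Metric.closedBall (0 : ℂ) 1 ×ˢ ({0} : Set ℂ) ⊆ O2 := by
    intro x hx
    obtain ⟨e, he, hp⟩ := hloc x hx
    rw [hO2]
    exact mem_iUnion.2 ⟨⟨e, hp⟩, he⟩
  obtain ⟨u, v, hu, hv, hsu, htv, huv⟩ := generalized_tube_lemma (isCompact_closedBall (0 : ℂ) 1)
    (isCompact_singleton (x := (0 : ℂ))) (hO1.inter hO2o) (subset_inter hSO1 hSO2)
  obtain ⟨δ1, hδ1, hth⟩ := (isCompact_closedBall (0 : ℂ) 1).exists_thickening_subset_open hu hsu
  rw [thickening_closedBall hδ1 zero_le_one] at hth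
  obtain ⟨δ2, hδ2, hball⟩ := Metric.isOpen_iff.1 hv 0 (htv rfl)
  obtain ⟨δ, hδ⟩ : ∃ δ, δ = min δ1 δ2 := ⟨_, rfl⟩
  have hδ0 : 0 < δ := by rw [hδ]; exact lt_min hδ1 hδ2
  obtain ⟨s, hs⟩ : ∃ s : Set (ℂ × ℂ), s = {p | ‖p.1‖ < 1 + δ ∧ ‖p.2‖ < δ} := ⟨_, rfl⟩
  have hso : IsOpen s := by
    rw [hs]
    exact (isOpen_lt (f := fun p : ℂ × ℂ => ‖p.1‖) (by fun_prop) continuous_const).inter
      (isOpen_lt (f := fun p : ℂ × ℂ => ‖p.2‖) (by fun_prop) continuous_const)
  have hsub : s ⊆ O1 ∩ O2 := by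
    intro p hp
    rw [hs] at hp
    obtain ⟨h1, h2⟩ := hp
    apply huv
    refine ⟨hth ?_, hball ?_⟩
    · simp only [Metric.mem_ball, dist_zero_right]
      have := min_le_left δ1 δ2
      linarith
    · simp only [Metric.mem_ball, dist_zero_right]
      have := min_le_right δ1 δ2
      linarith
  have hinj : InjOn Phi0 s := hTinj.mono fun p hp => hO1T (hsub hp).1
  have hmap : ∀ x ∈ s, Filter.map Phi0 (nhds x) = nhds (Phi0 x) ∧ ContinuousAt Phi0 x := by
    intro x hx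
    have h2 := (hsub hx).2
    rw [hO2] at h2
    obtain ⟨e, he⟩ := mem_iUnion.1 h2
    have h3 := hev e.1 x he e.2
    constructor
    · rw [← Filter.map_congr h3, e.1.map_nhds_eq he, e.2 x he]
    · exact (e.1.continuousAt he).congr h3
  refine ⟨δ, hδ0, OpenPartialHomeomorph.ofContinuousOpenRestrict
    (Set.BijOn.toPartialEquiv Phi0 s (Phi0 '' s) hinj.bijOn_image) ?_ ?_ hso, hs, fun p _ => rfl⟩
  · intro x hx
    exact (hmap x hx).2.continuousWithinAt
  · rw [isOpenMap_iff_nhds_le]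
    rintro ⟨x, hx⟩
    have h1 := (hmap x hx).1
    have h2 : Filter.map (Subtype.val : s → ℂ × ℂ) (nhds ⟨x, hx⟩) = nhds x :=
      hso.isOpenEmbedding_subtypeVal.map_nhds_eq ⟨x, hx⟩
    have h3 : Filter.map (s.domRestrict Phi0) (nhds ⟨x, hx⟩) =
        Filter.map Phi0 (Filter.map (Subtype.val : s → ℂ × ℂ) (nhds ⟨x, hx⟩)) := by
      rw [Filter.map_map]; rfl
    have h4 : Filter.map (s.domRestrict Phi0) (nhds ⟨x, hx⟩) = nhds (Phi0 x) := by
      rw [h3, h2, h1]
    exact h4.ge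

end

end Pool.Agent.FibC
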